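import Mathlib

/-!
A perturbation lemma for infinite diagonal-dominant systems.
-/

set_option autoImplicit false

namespace Pool.Agent.Lib.MP_6dec34_an

theorem summable_lin_exp {s : ℝ} (hs : 0 < s) :
    Summable (fun l : ℕ => (1 + (l : ℝ)) * Real.exp (-(s * l))) := by
  have h0 : ‖Real.exp (-s)‖ < 1 := by
    rw [Real.norm_of_nonneg (Real.exp_pos _).le]
    rw [Real.exp_lt_one_iff]; linarith
  have h1 := summable_pow_mul_geometric_of_norm_lt_one (R := ℝ) 0 h0
  have h2 := summable_pow_mul_geometric_of_norm_lt_one (R := ℝ) 1 h0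
  refine (h1.add h2).congr (fun l => ?_)
  rw [← Real.exp_nat_mul, show ((l : ℝ) * -s) = -(s * l) by ring]
  ring

/-- The distance of a non-resonant frequency. -/
theorem inv_dist_le {τ ω : ℝ} (hω : 0 < ω) (hτ : 0 < τ) {k l : ℕ} (hk : |τ - ω * k| ≤ ω / 2)
    (hl : l ≠ k) : 1 ≤ 4 * (1 + (l : ℝ)) / τ * |τ - ω * l| := by
  have h1 : ω / 2 ≤ |τ - ω * l| := by
    have h2 : ω ≤ |ω * l - ω * k| := by
      rw [← mul_sub, abs_mul, abs_of_pos hω]
      have h3 : (1 : ℝ) ≤ |(l : ℝ) - k| := by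
        have h4 : (1 : ℤ) ≤ |(l : ℤ) - k| := Int.one_le_abs (by omega)
        exact_mod_cast h4
      nlinarith
    have h5 : |ω * l - ω * k| ≤ |τ - ω * k| + |τ - ω * l| := by
      have := abs_sub (τ - ω * k) (τ - ω * l)
      rw [show τ - ω * k - (τ - ω * l) = ω * l - ω * k by ring] at this
      exact this
    linarith
  have hl0 : (0 : ℝ) ≤ l := Nat.cast_nonneg l
  rw [div_mul_eq_mul_div, le_div_iff₀ hτ, one_mul]
  rcases le_or_gt (ω * l) (τ / 2) with h | h
  · have h2 : τ / 2 ≤ |τ - ω * l| := le_trans (by linarith) (le_abs_self _)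
    nlinarith [abs_nonneg (τ - ω * l)]
  · have h3 : 0 ≤ (|τ - ω * l| - ω / 2) * (4 * (1 + l)) := by
      apply mul_nonneg (by linarith) (by linarith)
    nlinarith

/-- The perturbation lemma. -/
theorem abstract_lemma {s ω C c : ℝ} (hs : 0 < s) (hω : 0 < ω) (hC : 0 < C) (hc : 0 < c)
    (R : ℕ → ℕ → ℝ)
    (hR : ∀ j k : ℕ, 1 ≤ j → 1 ≤ k →
      |R j k| ≤ C * (k : ℝ) ^ (-(4 / 3) : ℝ) * Real.exp (-(s * k)) * Real.exp (-(s / 2 * j)))
    (hRk : ∀ k : ℕ, 1 ≤ k → c * Real.exp (-(2 * s * k)) ≤ R k k) :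
    ∃ T C' : ℝ, 0 < T ∧ 0 < C' ∧ ∀ τ : ℝ, T ≤ τ → ∀ k : ℕ, 1 ≤ k → |τ - ω * k| ≤ ω / 2 →
      ∀ θ : ℝ, |θ| = 1 → ∀ y : ℕ → ℝ, (∃ Y, ∀ l, |y l| ≤ Y) → y 0 = 0 →
      (∀ j : ℕ, 1 ≤ j → |(τ - ω * j) * y j - θ * ω * y k * R j k| ≤
        C * Real.exp (-(s * j)) *
          ∑' l : ℕ, Real.exp (-(s / 2 * l)) * (if l = k then 0 else |y l|)) →
      Summable (fun l : ℕ => if l = k then 0 else |y l|) ∧
      (∑' l : ℕ, if l = k then 0 else |y l|) ≤
        C' / τ * ((k : ℝ) ^ (-(4 / 3) : ℝ) * Real.exp (-(s * k)) * |y k|) ∧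
      (y k ≠ 0 → 0 < θ * (τ - ω * k)) := by
  have hs2 : 0 < s / 2 := by linarith
  have hS := summable_lin_exp hs2
  set B₁ : ℝ := ∑' l : ℕ, (1 + (l : ℝ)) * Real.exp (-(s / 2 * l)) with hB
  have hB1 : 0 < B₁ := by
    refine hS.tsum_pos (fun l => by positivity) 0 (by simp)
  refine ⟨max (max 1 (8 * C * B₁)) (8 * C * B₁ * ω * C / (ω * c) + 1), 8 * C * B₁ * ω,
    lt_of_lt_of_le one_pos (le_trans (le_max_left _ _) (le_max_left _ _)), by positivity, ?_⟩
  intro τ hτ k hk hkτ θ hθ y hyb hy0 hy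
  have hτ1 : 1 ≤ τ := le_trans (le_trans (le_max_left _ _) (le_max_left _ _)) hτ
  have hτ2 : 8 * C * B₁ ≤ τ := le_trans (le_trans (le_max_right _ _) (le_max_left _ _)) hτ
  have hτ3 : 8 * C * B₁ * ω * C / (ω * c) + 1 ≤ τ := le_trans (le_max_right _ _) hτ
  have hτ0 : 0 < τ := by linarith
  obtain ⟨Y, hY⟩ := hyb
  set a : ℕ → ℝ := fun l => if l = k then 0 else |y l| with ha
  have ha0 : ∀ l, 0 ≤ a l := fun l => by
    simp only [ha]; split_ifs
    · exact le_rfl
    · exact abs_nonneg _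
  have haY : ∀ l, a l ≤ |Y| := fun l => by
    simp only [ha]; split_ifs
    · exact abs_nonneg _
    · exact (hY l).trans (le_abs_self _)
  have hsum1 : Summable (fun l : ℕ => Real.exp (-(s / 2 * l)) * a l) := by
    refine Summable.of_nonneg_of_le (fun l => mul_nonneg (Real.exp_pos _).le (ha0 l)) (fun l => ?_)
      (hS.mul_left |Y|)
    have h1 : Real.exp (-(s / 2 * l)) * a l ≤ Real.exp (-(s / 2 * l)) * |Y| :=
      mul_le_mul_of_nonneg_left (haY l) (Real.exp_pos _).le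
    have h2 : 0 ≤ |Y| * Real.exp (-(s / 2 * l)) * l := by positivity
    nlinarith
  set Z : ℝ := ∑' l : ℕ, Real.exp (-(s / 2 * l)) * a l with hZ
  have hZ0 : 0 ≤ Z := tsum_nonneg (fun l => mul_nonneg (Real.exp_pos _).le (ha0 l))
  set D : ℝ := (k : ℝ) ^ (-(4 / 3) : ℝ) * Real.exp (-(s * k)) * |y k| with hD
  have hD0 : 0 ≤ D := by positivity
  have hle : ∀ l, a l ≤ 4 * C / τ * (ω * D + Z) * ((1 + (l : ℝ)) * Real.exp (-(s / 2 * l))) := by
    intro l
    have hpos : 0 ≤ 4 * C / τ * (ω * D + Z) * ((1 + (l : ℝ)) * Real.exp (-(s / 2 * l))) := by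
      positivity
    by_cases hlk : l = k
    · simp only [ha, hlk, if_true]
      rw [hlk] at hpos
      exact hpos
    rcases Nat.eq_zero_or_pos l with hl0 | hl0
    · have : a l = 0 := by simp [ha, hl0, hy0]
      rw [this]
      exact hpos
    have hal : a l = |y l| := by simp [ha, hlk]
    have h1 := inv_dist_le hω hτ0 hkτ hlk
    have h2 := hy l hl0
    have h3 : |τ - ω * l| * |y l| ≤ C * Real.exp (-(s * l)) * Z +
        ω * |y k| * (C * (k : ℝ) ^ (-(4 / 3) : ℝ) * Real.exp (-(s * k)) *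
          Real.exp (-(s / 2 * l))) := by
      rw [← abs_mul]
      have h4 := abs_sub_abs_le_abs_sub ((τ - ω * l) * y l) (θ * ω * y k * R l k)
      have h5 : |θ * ω * y k * R l k| ≤ ω * |y k| * (C * (k : ℝ) ^ (-(4 / 3) : ℝ) *
          Real.exp (-(s * k)) * Real.exp (-(s / 2 * l))) := by
        rw [abs_mul, abs_mul, abs_mul, hθ, one_mul, abs_of_pos hω]
        exact mul_le_mul_of_nonneg_left (hR l k hl0 hk) (by positivity)
      linarith
    have h6 : Real.exp (-(s * l)) ≤ Real.exp (-(s / 2 * l)) := by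
      apply Real.exp_le_exp.2
      have : (0 : ℝ) ≤ l := Nat.cast_nonneg l
      nlinarith
    have h7 : |τ - ω * l| * |y l| ≤ C * (ω * D + Z) * Real.exp (-(s / 2 * l)) := by
      have h8 : C * Real.exp (-(s * l)) * Z ≤ C * Real.exp (-(s / 2 * l)) * Z := by
        apply mul_le_mul_of_nonneg_right _ hZ0
        exact mul_le_mul_of_nonneg_left h6 hC.le
      calc |τ - ω * l| * |y l| ≤ _ := h3
        _ ≤ C * Real.exp (-(s / 2 * l)) * Z + ω * |y k| * (C * (k : ℝ) ^ (-(4 / 3) : ℝ) *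
          Real.exp (-(s * k)) * Real.exp (-(s / 2 * l))) := by linarith
        _ = C * (ω * D + Z) * Real.exp (-(s / 2 * l)) := by rw [hD]; ring
    rw [hal]
    calc |y l| = 1 * |y l| := (one_mul _).symm
      _ ≤ (4 * (1 + (l : ℝ)) / τ * |τ - ω * l|) * |y l| :=
        mul_le_mul_of_nonneg_right h1 (abs_nonneg _)
      _ = 4 * (1 + (l : ℝ)) / τ * (|τ - ω * l| * |y l|) := by ring
      _ ≤ 4 * (1 + (l : ℝ)) / τ * (C * (ω * D + Z) * Real.exp (-(s / 2 * l))) :=
        mul_le_mul_of_nonneg_left h7 (by positivity)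
      _ = 4 * C / τ * (ω * D + Z) * ((1 + (l : ℝ)) * Real.exp (-(s / 2 * l))) := by ring
  have hsum2 : Summable a := Summable.of_nonneg_of_le ha0 hle (hS.mul_left _)
  have hA : ∑' l, a l ≤ 4 * C / τ * (ω * D + Z) * B₁ := by
    rw [hB, ← tsum_mul_left]
    exact hsum2.tsum_le_tsum hle (hS.mul_left _)
  have hZA : Z ≤ ∑' l, a l := by
    refine hsum1.tsum_le_tsum (fun l => ?_) hsum2
    have : Real.exp (-(s / 2 * l)) ≤ 1 := by
      rw [Real.exp_le_one_iff]
      have : (0 : ℝ) ≤ l := Nat.cast_nonneg l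
      nlinarith
    nlinarith [ha0 l]
  have hq : 4 * C / τ * B₁ ≤ 1 / 2 := by
    rw [div_mul_eq_mul_div, div_le_iff₀ hτ0]
    linarith
  have hq0 : 0 ≤ 4 * C / τ * B₁ := by positivity
  have hZ1 : Z ≤ ω * D := by
    have h1 : Z ≤ 4 * C / τ * B₁ * (ω * D + Z) := by
      calc Z ≤ _ := hZA.trans hA
        _ = _ := by ring
    have h2 : 4 * C / τ * B₁ * (ω * D + Z) ≤ 1 / 2 * (ω * D + Z) :=
      mul_le_mul_of_nonneg_right hq (by positivity)
    linarith
  have hfin : ∑' l, a l ≤ 8 * C * B₁ * ω / τ * D := by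
    calc ∑' l, a l ≤ _ := hA
      _ = 4 * C / τ * B₁ * (ω * D + Z) := by ring
      _ ≤ 4 * C / τ * B₁ * (ω * D + ω * D) := by
        apply mul_le_mul_of_nonneg_left _ hq0
        linarith
      _ = _ := by ring
  refine ⟨hsum2, hfin, ?_⟩
  intro hyk
  have hyk' : 0 < |y k| := abs_pos.2 hyk
  have h1 := hy k hk
  have h2 : Z ≤ 8 * C * B₁ * ω / τ * D := hZA.trans hfin
  have hk1 : (k : ℝ) ^ (-(4 / 3) : ℝ) ≤ 1 := by
    apply Real.rpow_le_one_of_one_le_of_nonpos
    · exact_mod_cast hk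
    · norm_num
  have hDle : D ≤ Real.exp (-(s * k)) * |y k| := by
    rw [hD, mul_assoc]
    have : 0 ≤ Real.exp (-(s * k)) * |y k| := by positivity
    nlinarith
  have hE : Real.exp (-(s * k)) * Real.exp (-(s * k)) = Real.exp (-(2 * s * k)) := by
    rw [← Real.exp_add]
    congr 1
    ring
  have h3 : |(τ - ω * k) * y k - θ * ω * y k * R k k| ≤
      8 * C * B₁ * ω * C / τ * Real.exp (-(2 * s * k)) * |y k| := by
    calc _ ≤ C * Real.exp (-(s * k)) * Z := h1
      _ ≤ C * Real.exp (-(s * k)) * (8 * C * B₁ * ω / τ * (Real.exp (-(s * k)) * |y k|)) := by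
        apply mul_le_mul_of_nonneg_left _ (by positivity)
        refine h2.trans ?_
        exact mul_le_mul_of_nonneg_left hDle (by positivity)
      _ = _ := by rw [← hE]; ring
  have h4 : |(τ - ω * k) - θ * ω * R k k| ≤
      8 * C * B₁ * ω * C / τ * Real.exp (-(2 * s * k)) := by
    have h5 : (τ - ω * k) * y k - θ * ω * y k * R k k = ((τ - ω * k) - θ * ω * R k k) * y k := by
      ring
    rw [h5, abs_mul] at h3
    exact le_of_mul_le_mul_right h3 hyk'
  have h5 : 8 * C * B₁ * ω * C / τ < ω * c := by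
    rw [div_lt_iff₀ hτ0]
    have h6 : 8 * C * B₁ * ω * C / (ω * c) < τ := by linarith
    rw [div_lt_iff₀ (by positivity)] at h6
    linarith
  have h6 : |(τ - ω * k) - θ * ω * R k k| < ω * R k k := by
    have h7 := hRk k hk
    have h8 : 0 < Real.exp (-(2 * s * k)) := Real.exp_pos _
    calc _ ≤ _ := h4
      _ < ω * c * Real.exp (-(2 * s * k)) := by
        exact mul_lt_mul_of_pos_right h5 h8
      _ ≤ ω * R k k := by nlinarith
  have hθ2 : θ * θ = 1 := by
    rw [← abs_mul_abs_self, hθ]; norm_num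
  have h7 : |θ * ((τ - ω * k) - θ * ω * R k k)| < ω * R k k := by
    rw [abs_mul, hθ, one_mul]
    exact h6
  rw [abs_lt] at h7
  have h8 : θ * ((τ - ω * k) - θ * ω * R k k) = θ * (τ - ω * k) - ω * R k k := by
    linear_combination (-ω * R k k) * hθ2
  rw [h8] at h7
  linarith [h7.1]

end Pool.Agent.Lib.MP_6dec34_an
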