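import Pool.Agent.Lib.MP_6dec34_an.Diff

/-!
The interaction matrix.
-/

set_option autoImplicit false

namespace Pool.Agent.Lib.MP_6dec34_an

open MeasureTheory Real Complex intervalIntegral Set
open scoped ComplexConjugate Interval

theorem summable_abs_pow_exp (m : ℕ) {a : ℝ} (ha : 0 < a) :
    Summable (fun n : ℤ => |(n : ℝ)| ^ m * Real.exp (-(a * |(n : ℝ)|))) := by
  have h := Real.summable_pow_mul_exp_neg_nat_mul m ha
  apply Summable.of_nat_of_neg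
  · refine h.congr (fun n => ?_)
    rw [Int.cast_natCast, abs_of_nonneg (Nat.cast_nonneg n), neg_mul]
  · refine h.congr (fun n => ?_)
    rw [Int.cast_neg, Int.cast_natCast, abs_neg, abs_of_nonneg (Nat.cast_nonneg n), neg_mul]

noncomputable def den (ρ θ : ℝ) (n : ℤ) : ℝ := Real.exp (n * ρ) + θ * Real.exp (-(n * ρ))

noncomputable def TT (ρ θ : ℝ) (n : ℤ) : ℝ :=
  (Real.exp (n * ρ) - θ * Real.exp (-(n * ρ))) / den ρ θ n

noncomputable def bt (ρ θ : ℝ) (k : ℕ) (n : ℤ) : ℝ :=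
  2 * (W ρ k n + θ * W ρ k (-n)) / den ρ θ n

noncomputable def RR (ρ θ : ℝ) (j k : ℕ) : ℝ := ∑' n : ℤ, (n : ℝ) * w ρ j n * bt ρ θ k n

/-- the gap constant -/
noncomputable def gam (ρ : ℝ) : ℝ := 1 - Real.exp (-(2 * ρ))

theorem gam_pos {ρ : ℝ} (hρ : 0 < ρ) : 0 < gam ρ := by
  have : Real.exp (-(2 * ρ)) < 1 := by rw [Real.exp_lt_one_iff]; linarith
  unfold gam
  linarith

theorem gam_lt_one (ρ : ℝ) : gam ρ < 1 := by
  have := Real.exp_pos (-(2 * ρ))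
  unfold gam
  linarith

theorem abs_den_ge {ρ θ : ℝ} (hρ : 0 < ρ) (hθ : θ = 1 ∨ θ = -1) {n : ℤ} (hn : n ≠ 0 ∨ θ = 1) :
    gam ρ * Real.exp (ρ * |(n : ℝ)|) ≤ |den ρ θ n| := by
  have hg := gam_pos hρ
  have hg1 := gam_lt_one ρ
  have key : Real.exp (ρ * |(n : ℝ)|) ≤ Real.exp (n * ρ) + Real.exp (-(n * ρ)) := by
    rcases abs_cases (n : ℝ) with ⟨h, _⟩ | ⟨h, _⟩
    · rw [h, mul_comm]
      linarith [Real.exp_pos (-((n : ℝ) * ρ))]
    · rw [h, show ρ * -(n : ℝ) = -(n * ρ) by ring]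
      linarith [Real.exp_pos ((n : ℝ) * ρ)]
  rcases hθ with rfl | rfl
  · have hpos : 0 < Real.exp (n * ρ) + Real.exp (-(n * ρ)) := by positivity
    rw [den, one_mul, abs_of_pos hpos]
    have h2 : 0 < Real.exp (ρ * |(n : ℝ)|) := Real.exp_pos _
    nlinarith
  · have hn0 : n ≠ 0 := by
      rcases hn with h | h
      · exact h
      · norm_num at h
    have h1 : ∀ m : ℤ, 1 ≤ m → gam ρ * Real.exp (m * ρ) ≤
        Real.exp (m * ρ) - Real.exp (-(m * ρ)) := by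
      intro m hm
      have h2 : Real.exp (-(m * ρ)) ≤ Real.exp (-(2 * ρ)) * Real.exp (m * ρ) := by
        rw [← Real.exp_add]
        apply Real.exp_le_exp.2
        have : (1 : ℝ) ≤ m := by exact_mod_cast hm
        nlinarith
      rw [gam]
      linarith
    rcases lt_or_gt_of_ne hn0 with h | h
    · have h2 := h1 (-n) (by omega)
      push_cast at h2
      have h3 : |(n : ℝ)| = -n := abs_of_neg (by exact_mod_cast h)
      rw [h3, den, show ρ * -(n : ℝ) = -(n : ℝ) * ρ by ring]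
      refine h2.trans ?_
      rw [show -(-(n : ℝ) * ρ) = n * ρ by ring, show -(n : ℝ) * ρ = -(n * ρ) by ring]
      refine le_trans (le_of_eq ?_) (neg_le_abs _)
      ring
    · have h2 := h1 n (by omega)
      have h3 : |(n : ℝ)| = n := abs_of_pos (by exact_mod_cast h)
      rw [h3, den, mul_comm ρ]
      refine h2.trans (le_trans (le_of_eq ?_) (le_abs_self _))
      ring

theorem den_ne {ρ θ : ℝ} (hρ : 0 < ρ) (hθ : θ = 1 ∨ θ = -1) {n : ℤ} (hn : n ≠ 0 ∨ θ = 1) :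
    den ρ θ n ≠ 0 := by
  have h := abs_den_ge hρ hθ hn
  have h1 : 0 < gam ρ * Real.exp (ρ * |(n : ℝ)|) := mul_pos (gam_pos hρ) (Real.exp_pos _)
  exact abs_pos.1 (h1.trans_le h)

theorem theta_sq {θ : ℝ} (hθ : θ = 1 ∨ θ = -1) : θ * θ = 1 := by
  rcases hθ with rfl | rfl <;> norm_num

theorem abs_theta {θ : ℝ} (hθ : θ = 1 ∨ θ = -1) : |θ| = 1 := by
  rcases hθ with rfl | rfl <;> norm_num

theorem den_neg (ρ : ℝ) {θ : ℝ} (hθ : θ = 1 ∨ θ = -1) (n : ℤ) :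
    den ρ θ (-n) = θ * den ρ θ n := by
  have h := theta_sq hθ
  rw [den, den]
  push_cast
  rw [show -(-(n : ℝ) * ρ) = n * ρ by ring, show -(n : ℝ) * ρ = -(n * ρ) by ring]
  linear_combination (-Real.exp (-(n * ρ))) * h

theorem bt_neg (ρ : ℝ) {θ : ℝ} (hθ : θ = 1 ∨ θ = -1) (k : ℕ) (n : ℤ) :
    bt ρ θ k (-n) = bt ρ θ k n := by
  rw [bt, bt, den_neg ρ hθ, neg_neg]
  rcases hθ with rfl | rfl
  · ring
  · rw [neg_one_mul, neg_one_mul, neg_one_mul, div_neg, ← neg_div]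
    ring

theorem TT_neg (ρ : ℝ) {θ : ℝ} (hθ : θ = 1 ∨ θ = -1) (n : ℤ) :
    TT ρ θ (-n) = -TT ρ θ n := by
  rw [TT, TT, den_neg ρ hθ]
  push_cast
  rw [show -(-(n : ℝ) * ρ) = n * ρ by ring, show -(n : ℝ) * ρ = -(n * ρ) by ring]
  rcases hθ with rfl | rfl
  · ring
  · rw [neg_one_mul, neg_one_mul, neg_one_mul, div_neg, neg_inj]
    congr 1
    ring

theorem n_mul_TT_nonneg (ρ : ℝ) (hρ : 0 < ρ) {θ : ℝ} (hθ : θ = 1 ∨ θ = -1) (n : ℤ) :
    0 ≤ (n : ℝ) * TT ρ θ n := by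
  rcases eq_or_ne n 0 with rfl | hn
  · simp
  have hden := den_ne hρ hθ (Or.inl hn)
  have h1 : TT ρ θ n = (Real.exp (2 * (n * ρ)) - Real.exp (-(2 * (n * ρ)))) /
      den ρ θ n ^ 2 := by
    rw [TT, div_eq_div_iff hden (pow_ne_zero 2 hden)]
    have e1 : Real.exp (2 * (n * ρ)) = Real.exp (n * ρ) * Real.exp (n * ρ) := by
      rw [← Real.exp_add]; ring_nf
    have e2 : Real.exp (-(2 * (n * ρ))) = Real.exp (-(n * ρ)) * Real.exp (-(n * ρ)) := by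
      rw [← Real.exp_add]; ring_nf
    rw [e1, e2, pow_two, ← mul_assoc]
    congr 1
    rw [den]
    linear_combination (-(Real.exp (-(n * ρ)) * Real.exp (-(n * ρ)))) * theta_sq hθ
  rw [h1, ← mul_div_assoc]
  apply div_nonneg _ (by positivity)
  rcases lt_or_gt_of_ne hn with h | h
  · have h2 : (n : ℝ) < 0 := by exact_mod_cast h
    have h3 : Real.exp (2 * (n * ρ)) ≤ Real.exp (-(2 * (n * ρ))) := by
      apply Real.exp_le_exp.2
      nlinarith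
    nlinarith
  · have h2 : (0 : ℝ) < n := by exact_mod_cast h
    have h3 : Real.exp (-(2 * (n * ρ))) ≤ Real.exp (2 * (n * ρ)) := by
      apply Real.exp_le_exp.2
      nlinarith
    nlinarith

theorem W_eq (ρ : ℝ) (k : ℕ) (n : ℤ) : W ρ k n = w ρ k n * Real.exp (n * ρ) := by
  rw [w, mul_assoc, ← Real.exp_add]
  simp

theorem W_neg_eq (ρ : ℝ) (k : ℕ) (n : ℤ) : W ρ k (-n) = w ρ k (-n) * Real.exp (-(n * ρ)) := by
  rw [W_eq]
  push_cast
  ring_nf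

theorem bt_eq {ρ θ : ℝ} (hρ : 0 < ρ) (hθ : θ = 1 ∨ θ = -1) (k : ℕ) {n : ℤ}
    (hn : n ≠ 0 ∨ θ = 1) :
    bt ρ θ k n = (w ρ k n + w ρ k (-n)) + dd ρ k n * TT ρ θ n := by
  have hden := den_ne hρ hθ hn
  rw [bt, TT, W_neg_eq, W_eq, div_eq_iff hden, add_mul, mul_assoc, div_mul_cancel₀ _ hden, den,
    dd]
  ring

theorem bt_le_one {ρ θ : ℝ} (hρ : 0 < ρ) (hθ : θ = 1 ∨ θ = -1) (k : ℕ) (n : ℤ) :
    |bt ρ θ k n| ≤ 6 / gam ρ * Real.exp (-(ρ * |(n : ℝ)|)) := by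
  have hg := gam_pos hρ
  by_cases hn : n ≠ 0 ∨ θ = 1
  · have h1 := abs_den_ge hρ hθ hn
    have h2 : |2 * (W ρ k n + θ * W ρ k (-n))| ≤ 4 := by
      rw [abs_mul, abs_two]
      have h3 := abs_add_le (W ρ k n) (θ * W ρ k (-n))
      rw [abs_mul, abs_theta hθ, one_mul] at h3
      have h4 := abs_W_le_one hρ k n
      have h5 := abs_W_le_one hρ k (-n)
      linarith
    have h3 : 0 < gam ρ * Real.exp (ρ * |(n : ℝ)|) := by positivity
    rw [bt, abs_div]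
    calc |2 * (W ρ k n + θ * W ρ k (-n))| / |den ρ θ n| ≤ 4 / (gam ρ *
          Real.exp (ρ * |(n : ℝ)|)) := div_le_div₀ (by norm_num) h2 h3 h1
      _ = 4 / gam ρ * Real.exp (-(ρ * |(n : ℝ)|)) := by
          rw [Real.exp_neg]; field_simp
      _ ≤ _ := by
          apply mul_le_mul_of_nonneg_right _ (Real.exp_pos _).le
          exact div_le_div_of_nonneg_right (by norm_num) hg.le
  · push Not at hn
    have h1 : θ = -1 := by
      rcases hθ with h | h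
      · exact absurd h hn.2
      · exact h
    have : bt ρ θ k n = 0 := by rw [bt, den, hn.1, h1]; simp
    rw [this, abs_zero]
    positivity

theorem bt_le_exp {ρ θ : ℝ} (hρ : 0 < ρ) (hθ : θ = 1 ∨ θ = -1) (k : ℕ) (n : ℤ) :
    |bt ρ θ k n| ≤ 6 / gam ρ * Real.exp (-(s0 ρ * k)) := by
  have hg := gam_pos hρ
  have hg1 := gam_lt_one ρ
  by_cases hn : n ≠ 0 ∨ θ = 1
  · rw [bt_eq hρ hθ k hn]
    have h1 := abs_w_le hρ k n
    have h2 := abs_w_le hρ k (-n)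
    have h3 : |dd ρ k n| ≤ 2 * Real.exp (-(s0 ρ * k)) := by
      rw [dd]
      have := abs_sub (w ρ k n) (w ρ k (-n))
      linarith
    have h4 : |TT ρ θ n| ≤ 2 / gam ρ := by
      rw [TT, abs_div]
      have h5 := abs_den_ge hρ hθ hn
      have h6 : |Real.exp (n * ρ) - θ * Real.exp (-(n * ρ))| ≤
          2 * Real.exp (ρ * |(n : ℝ)|) := by
        have h7 := abs_sub (Real.exp (n * ρ)) (θ * Real.exp (-(n * ρ)))
        rw [abs_mul, abs_theta hθ, one_mul, abs_of_pos (Real.exp_pos _),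
          abs_of_pos (Real.exp_pos _)] at h7
        have h8 : Real.exp (n * ρ) ≤ Real.exp (ρ * |(n : ℝ)|) := by
          apply Real.exp_le_exp.2
          nlinarith [le_abs_self (n : ℝ)]
        have h9 : Real.exp (-(n * ρ)) ≤ Real.exp (ρ * |(n : ℝ)|) := by
          apply Real.exp_le_exp.2
          nlinarith [neg_le_abs (n : ℝ)]
        linarith
      have h7 : 0 < gam ρ * Real.exp (ρ * |(n : ℝ)|) := by positivity
      calc _ ≤ 2 * Real.exp (ρ * |(n : ℝ)|) / (gam ρ * Real.exp (ρ * |(n : ℝ)|)) :=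
            div_le_div₀ (by positivity) h6 h7 h5
        _ = 2 / gam ρ := by field_simp
    have h5 : |dd ρ k n * TT ρ θ n| ≤ 2 * Real.exp (-(s0 ρ * k)) * (2 / gam ρ) := by
      rw [abs_mul]
      exact mul_le_mul h3 h4 (abs_nonneg _) (by positivity)
    have h6 := abs_add_le (w ρ k n + w ρ k (-n)) (dd ρ k n * TT ρ θ n)
    have h7 := abs_add_le (w ρ k n) (w ρ k (-n))
    have h8 : 2 * Real.exp (-(s0 ρ * k)) ≤ 2 / gam ρ * Real.exp (-(s0 ρ * k)) := by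
      apply mul_le_mul_of_nonneg_right _ (Real.exp_pos _).le
      rw [le_div_iff₀ hg]
      linarith
    calc _ ≤ 2 * Real.exp (-(s0 ρ * k)) + 2 * Real.exp (-(s0 ρ * k)) * (2 / gam ρ) := by
          linarith
      _ ≤ 2 / gam ρ * Real.exp (-(s0 ρ * k)) + 2 * Real.exp (-(s0 ρ * k)) * (2 / gam ρ) := by
          linarith
      _ = _ := by ring
  · push Not at hn
    have h1 : θ = -1 := by
      rcases hθ with h | h
      · exact absurd h hn.2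
      · exact h
    have : bt ρ θ k n = 0 := by rw [bt, den, hn.1, h1]; simp
    rw [this, abs_zero]
    positivity

theorem bt_le {ρ θ : ℝ} (hρ : 0 < ρ) (hθ : θ = 1 ∨ θ = -1) (k : ℕ) (n : ℤ) :
    |bt ρ θ k n| ≤ 6 / gam ρ * (Real.exp (-(s0 ρ / 2 * k)) *
      Real.exp (-(ρ / 2 * |(n : ℝ)|))) := by
  have hg := gam_pos hρ
  have h1 := bt_le_one hρ hθ k n
  have h2 := bt_le_exp hρ hθ k n
  have h3 : |bt ρ θ k n| ^ 2 ≤ (6 / gam ρ * (Real.exp (-(s0 ρ / 2 * k)) *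
      Real.exp (-(ρ / 2 * |(n : ℝ)|)))) ^ 2 := by
    have e1 : (6 / gam ρ * (Real.exp (-(s0 ρ / 2 * k)) *
      Real.exp (-(ρ / 2 * |(n : ℝ)|)))) ^ 2 = (6 / gam ρ * Real.exp (-(ρ * |(n : ℝ)|))) *
        (6 / gam ρ * Real.exp (-(s0 ρ * k))) := by
      have e2 : Real.exp (-(s0 ρ * k)) = Real.exp (-(s0 ρ / 2 * k)) *
          Real.exp (-(s0 ρ / 2 * k)) := by rw [← Real.exp_add]; ring_nf
      have e3 : Real.exp (-(ρ * |(n : ℝ)|)) = Real.exp (-(ρ / 2 * |(n : ℝ)|)) *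
          Real.exp (-(ρ / 2 * |(n : ℝ)|)) := by rw [← Real.exp_add]; ring_nf
      rw [e2, e3]
      ring
    rw [e1, pow_two]
    exact mul_le_mul h1 h2 (abs_nonneg _) (by positivity)
  exact le_of_sq_le_sq h3 (by positivity)

theorem summable_n_w_bt {ρ θ : ℝ} (hρ : 0 < ρ) (hθ : θ = 1 ∨ θ = -1) (j k : ℕ) :
    Summable (fun n : ℤ => (n : ℝ) * w ρ j n * bt ρ θ k n) := by
  have hg := gam_pos hρ
  have hs := (summable_abs_pow_exp 1 (a := ρ / 2) (by positivity)).mul_left (6 / gam ρ)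
  refine Summable.of_norm_bounded hs (fun n => ?_)
  rw [Real.norm_eq_abs, abs_mul, abs_mul, pow_one]
  have h1 := abs_w_le hρ j n
  have h2 := bt_le hρ hθ k n
  have h3 : Real.exp (-(s0 ρ * j)) ≤ 1 := by
    rw [Real.exp_le_one_iff]
    have := s0_pos hρ
    have : 0 ≤ s0 ρ * (j : ℝ) := by positivity
    linarith
  have h4 : Real.exp (-(s0 ρ / 2 * k)) ≤ 1 := by
    rw [Real.exp_le_one_iff]
    have := s0_pos hρ
    have : 0 ≤ s0 ρ / 2 * (k : ℝ) := by positivity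
    linarith
  calc |(n : ℝ)| * |w ρ j n| * |bt ρ θ k n| ≤ |(n : ℝ)| * 1 * (6 / gam ρ * (1 *
        Real.exp (-(ρ / 2 * |(n : ℝ)|)))) := by
        apply mul_le_mul
        · exact mul_le_mul_of_nonneg_left (h1.trans h3) (abs_nonneg _)
        · refine h2.trans ?_
          apply mul_le_mul_of_nonneg_left _ (by positivity)
          exact mul_le_mul_of_nonneg_right h4 (Real.exp_pos _).le
        · exact abs_nonneg _
        · positivity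
    _ = _ := by ring

theorem sum_w_w_neg {ρ : ℝ} (hρ : 0 < ρ) {j k : ℕ} (hjk : 1 ≤ j + k) :
    HasSum (fun n : ℤ => (n : ℝ) * w ρ j n * w ρ k (-n)) 0 := by
  have h := sum_W_W hρ hjk
  have h1 : (fun n : ℤ => (n : ℝ) * w ρ j n * w ρ k (-n)) =
      fun n : ℤ => (n : ℝ) * W ρ j n * W ρ k (-n) := by
    funext n
    have h2 : Real.exp (-((n : ℝ) * ρ)) * Real.exp (n * ρ) = 1 := by
      rw [← Real.exp_add]; simp
    rw [w, w]
    push_cast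
    rw [show -(-(n : ℝ) * ρ) = n * ρ by ring]
    linear_combination ((n : ℝ) * W ρ j n * W ρ k (-n)) * h2
  rw [h1]
  exact h

theorem RR_eq {ρ θ : ℝ} (hρ : 0 < ρ) (hθ : θ = 1 ∨ θ = -1) {j k : ℕ} (hjk : 1 ≤ j + k) :
    Summable (fun n : ℤ => (n : ℝ) * TT ρ θ n * (dd ρ j n * dd ρ k n)) ∧
    RR ρ θ j k = JJ ρ j k + 1 / 2 * ∑' n : ℤ, (n : ℝ) * TT ρ θ n * (dd ρ j n * dd ρ k n) := by
  have hA := summable_nww hρ j k
  have hB := sum_w_w_neg hρ hjk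
  have hF := summable_n_w_bt hρ hθ j k
  have hdecomp : ∀ n : ℤ, (n : ℝ) * w ρ j n * dd ρ k n * TT ρ θ n =
      (n : ℝ) * w ρ j n * bt ρ θ k n - (n : ℝ) * w ρ j n * w ρ k n -
        (n : ℝ) * w ρ j n * w ρ k (-n) := by
    intro n
    rcases eq_or_ne n 0 with rfl | hn
    · simp
    rw [bt_eq hρ hθ k (Or.inl hn)]
    ring
  have hD : Summable (fun n : ℤ => (n : ℝ) * w ρ j n * dd ρ k n * TT ρ θ n) := by
    refine ((hF.sub hA).sub hB.summable).congr (fun n => ?_)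
    rw [hdecomp]
  have hDs : ∑' n : ℤ, (n : ℝ) * w ρ j n * dd ρ k n * TT ρ θ n = RR ρ θ j k - JJ ρ j k := by
    rw [tsum_congr hdecomp, (hF.sub hA).tsum_sub hB.summable, hF.tsum_sub hA, hB.tsum_eq, RR, JJ,
      sub_zero]
  have hDn : Summable (fun n : ℤ => ((-n : ℤ) : ℝ) * w ρ j (-n) * dd ρ k (-n) *
      TT ρ θ (-n)) := (Equiv.neg ℤ).summable_iff.2 hD
  have hDns : ∑' n : ℤ, ((-n : ℤ) : ℝ) * w ρ j (-n) * dd ρ k (-n) * TT ρ θ (-n) =
      ∑' n : ℤ, (n : ℝ) * w ρ j n * dd ρ k n * TT ρ θ n :=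
    (Equiv.neg ℤ).tsum_eq (fun n : ℤ => (n : ℝ) * w ρ j n * dd ρ k n * TT ρ θ n)
  have hadd : ∀ n : ℤ, (n : ℝ) * TT ρ θ n * (dd ρ j n * dd ρ k n) =
      (n : ℝ) * w ρ j n * dd ρ k n * TT ρ θ n +
        ((-n : ℤ) : ℝ) * w ρ j (-n) * dd ρ k (-n) * TT ρ θ (-n) := by
    intro n
    rw [dd_neg, TT_neg ρ hθ]
    push_cast
    rw [dd, dd]
    ring
  constructor
  · refine (hD.add hDn).congr (fun n => ?_)
    rw [hadd]
  · rw [tsum_congr hadd, hD.tsum_add hDn, hDns, hDs]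
    ring

theorem RR_symm {ρ θ : ℝ} (hρ : 0 < ρ) (hθ : θ = 1 ∨ θ = -1) {j k : ℕ} (hjk : 1 ≤ j + k) :
    RR ρ θ j k = RR ρ θ k j := by
  rw [(RR_eq hρ hθ hjk).2, (RR_eq hρ hθ (by omega : 1 ≤ k + j)).2, JJ_symm]
  congr 2
  refine tsum_congr (fun n => ?_)
  ring

theorem RR_ge {ρ θ : ℝ} (hρ : 0 < ρ) (hθ : θ = 1 ∨ θ = -1) {k : ℕ} (hk : 1 ≤ k) :
    cJ ρ * Real.exp (-(2 * s0 ρ * k)) ≤ RR ρ θ k k := by
  rw [(RR_eq hρ hθ (by omega : 1 ≤ k + k)).2]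
  have h1 := JJ_ge hρ hk
  have h2 : 0 ≤ ∑' n : ℤ, (n : ℝ) * TT ρ θ n * (dd ρ k n * dd ρ k n) := by
    refine tsum_nonneg (fun n => ?_)
    exact mul_nonneg (n_mul_TT_nonneg ρ hρ hθ n) (mul_self_nonneg _)
  linarith

theorem RR_eq_half {ρ θ : ℝ} (hρ : 0 < ρ) (hθ : θ = 1 ∨ θ = -1) (j k : ℕ) :
    RR ρ θ j k = 1 / 2 * ∑' n : ℤ, (n : ℝ) * dd ρ j n * bt ρ θ k n := by
  have hF := summable_n_w_bt hρ hθ j k
  have hFn : Summable (fun n : ℤ => ((-n : ℤ) : ℝ) * w ρ j (-n) * bt ρ θ k (-n)) :=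
    (Equiv.neg ℤ).summable_iff.2 hF
  have hFns : ∑' n : ℤ, ((-n : ℤ) : ℝ) * w ρ j (-n) * bt ρ θ k (-n) =
      ∑' n : ℤ, (n : ℝ) * w ρ j n * bt ρ θ k n :=
    (Equiv.neg ℤ).tsum_eq (fun n : ℤ => (n : ℝ) * w ρ j n * bt ρ θ k n)
  have hadd : ∀ n : ℤ, (n : ℝ) * dd ρ j n * bt ρ θ k n =
      (n : ℝ) * w ρ j n * bt ρ θ k n + ((-n : ℤ) : ℝ) * w ρ j (-n) * bt ρ θ k (-n) := by
    intro n
    rw [bt_neg ρ hθ, dd]
    push_cast
    ring
  rw [tsum_congr hadd, hF.tsum_add hFn, hFns, RR]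
  ring

theorem RR_bound {ρ : ℝ} (hρ : 0 < ρ) :
    ∃ C : ℝ, 0 < C ∧ ∀ θ : ℝ, (θ = 1 ∨ θ = -1) → ∀ j k : ℕ, 1 ≤ j → 1 ≤ k →
      |RR ρ θ j k| ≤ C * (k : ℝ) ^ (-(4 / 3) : ℝ) * Real.exp (-(s0 ρ * k)) *
        Real.exp (-(s0 ρ / 2 * j)) := by
  obtain ⟨C, hC, hd⟩ := dd_bound hρ
  have hg := gam_pos hρ
  have hs := summable_abs_pow_exp 2 (a := ρ / 2) (by positivity)
  set A : ℝ := ∑' n : ℤ, |(n : ℝ)| ^ 2 * Real.exp (-(ρ / 2 * |(n : ℝ)|)) with hA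
  have hA0 : 0 ≤ A := tsum_nonneg (fun n => by positivity)
  refine ⟨C * (6 / gam ρ) * (A + 1), by positivity, fun θ hθ j k hj hk => ?_⟩
  rw [RR_symm hρ hθ (by omega : 1 ≤ j + k), RR_eq_half hρ hθ]
  have hterm : ∀ n : ℤ, ‖(n : ℝ) * dd ρ k n * bt ρ θ j n‖ ≤
      (C * (k : ℝ) ^ (-(4 / 3) : ℝ) * Real.exp (-(s0 ρ * k)) * (6 / gam ρ) *
        Real.exp (-(s0 ρ / 2 * j))) * (|(n : ℝ)| ^ 2 * Real.exp (-(ρ / 2 * |(n : ℝ)|))) := by
    intro n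
    rw [Real.norm_eq_abs, abs_mul, abs_mul]
    calc |(n : ℝ)| * |dd ρ k n| * |bt ρ θ j n| ≤ |(n : ℝ)| * (C * |(n : ℝ)| *
          (k : ℝ) ^ (-(4 / 3) : ℝ) * Real.exp (-(s0 ρ * k))) * (6 / gam ρ *
          (Real.exp (-(s0 ρ / 2 * j)) * Real.exp (-(ρ / 2 * |(n : ℝ)|)))) := by
          apply mul_le_mul
          · exact mul_le_mul_of_nonneg_left (hd k hk n) (abs_nonneg _)
          · exact bt_le hρ hθ j n
          · exact abs_nonneg _
          · positivity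
      _ = _ := by ring
  have h1 := tsum_of_norm_bounded (hs.mul_left (C * (k : ℝ) ^ (-(4 / 3) : ℝ) *
    Real.exp (-(s0 ρ * k)) * (6 / gam ρ) * Real.exp (-(s0 ρ / 2 * j)))).hasSum hterm
  rw [tsum_mul_left, ← hA, Real.norm_eq_abs] at h1
  rw [abs_mul, abs_of_pos (by norm_num : (0 : ℝ) < 1 / 2)]
  have h2 : 0 ≤ C * (k : ℝ) ^ (-(4 / 3) : ℝ) *
    Real.exp (-(s0 ρ * k)) * (6 / gam ρ) * Real.exp (-(s0 ρ / 2 * j)) := by positivity
  calc _ ≤ 1 / 2 * (C * (k : ℝ) ^ (-(4 / 3) : ℝ) *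
    Real.exp (-(s0 ρ * k)) * (6 / gam ρ) * Real.exp (-(s0 ρ / 2 * j)) * A) :=
        mul_le_mul_of_nonneg_left h1 (by norm_num)
    _ ≤ C * (k : ℝ) ^ (-(4 / 3) : ℝ) *
    Real.exp (-(s0 ρ * k)) * (6 / gam ρ) * Real.exp (-(s0 ρ / 2 * j)) * (A + 1) := by
        nlinarith
    _ = _ := by ring

end Pool.Agent.Lib.MP_6dec34_an
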