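import Pool.Agent.Lib.MP_6dec34_an.Fourier

/-!
The analytic continuation of the speed `√(sinh² ρ + sin² η)` to the strip `|Im z| ≤ ρ`, its
primitive, and the exponentials of the primitive.
-/

set_option autoImplicit false

namespace Pool.Agent.Lib.MP_6dec34_an

open MeasureTheory Real Complex intervalIntegral Set
open scoped ComplexConjugate

/-- the square of the speed -/
noncomputable def HH (ρ : ℝ) (z : ℂ) : ℂ := ((Real.sinh ρ : ℝ) : ℂ) ^ 2 + Complex.sin z ^ 2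

/-- the speed, continued to a strip -/
noncomputable def hh (ρ : ℝ) (z : ℂ) : ℂ := Complex.sqrt (HH ρ z)

theorem HH_re (ρ x y : ℝ) : (HH ρ (x + y * I)).re =
    (Real.sinh ρ ^ 2 - Real.sinh y ^ 2) + Real.sin x ^ 2 * Real.cosh (2 * y) := by
  rw [HH, Complex.sin_add_mul_I]
  simp only [← Complex.ofReal_sin, ← Complex.ofReal_cos, ← Complex.ofReal_sinh,
    ← Complex.ofReal_cosh, pow_two, add_re, mul_re, ofReal_re, ofReal_im, I_re, I_im, add_im,
    mul_im]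
  rw [Real.cosh_two_mul]
  have h1 := Real.sin_sq_add_cos_sq x
  have h2 := Real.cosh_sq y
  have h3 : Real.cos x ^ 2 = 1 - Real.sin x ^ 2 := by linarith
  ring_nf
  rw [h3]
  ring

theorem HH_im (ρ x y : ℝ) : (HH ρ (x + y * I)).im =
    Real.sin x * Real.cos x * Real.sinh (2 * y) := by
  rw [HH, Complex.sin_add_mul_I]
  simp only [← Complex.ofReal_sin, ← Complex.ofReal_cos, ← Complex.ofReal_sinh,
    ← Complex.ofReal_cosh, pow_two, add_re, mul_re, ofReal_re, ofReal_im, I_re, I_im, add_im,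
    mul_im]
  rw [Real.sinh_two_mul]
  ring

theorem sinh_sq_le {ρ y : ℝ} (hy : |y| ≤ ρ) : Real.sinh y ^ 2 ≤ Real.sinh ρ ^ 2 := by
  rw [← sq_abs (Real.sinh y), Real.abs_sinh]
  exact pow_le_pow_left₀ (Real.sinh_nonneg_iff.2 (abs_nonneg _)) (Real.sinh_le_sinh.2 hy) 2

theorem HH_re_nonneg {ρ x y : ℝ} (hy : |y| ≤ ρ) : 0 ≤ (HH ρ (x + y * I)).re := by
  rw [HH_re]
  have h1 := sinh_sq_le hy
  have h2 : 0 ≤ Real.sin x ^ 2 * Real.cosh (2 * y) := by
    have := Real.cosh_pos (2 * y)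
    positivity
  linarith

theorem HH_re_pos {ρ x y : ℝ} (hy : |y| < ρ) : 0 < (HH ρ (x + y * I)).re := by
  rw [HH_re]
  have h1 : Real.sinh y ^ 2 < Real.sinh ρ ^ 2 := by
    rw [← sq_abs (Real.sinh y), Real.abs_sinh]
    exact pow_lt_pow_left₀ (Real.sinh_lt_sinh.2 hy) (Real.sinh_nonneg_iff.2 (abs_nonneg _))
      two_ne_zero
  have h2 : 0 ≤ Real.sin x ^ 2 * Real.cosh (2 * y) := by
    have := Real.cosh_pos (2 * y)
    positivity
  linarith

theorem csqrt_sq (z : ℂ) : Complex.sqrt z ^ 2 = z := by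
  rw [Complex.sqrt, ← Complex.cpow_nat_mul]
  simp

theorem csqrt_re_nonneg (z : ℂ) : 0 ≤ (Complex.sqrt z).re := by
  rw [Complex.sqrt, Complex.cpow_inv_two_re]
  exact Real.sqrt_nonneg _

theorem csqrt_conj {z : ℂ} (hz : 0 ≤ z.re) :
    Complex.sqrt (conj z) = conj (Complex.sqrt z) := by
  rw [Complex.sqrt, Complex.sqrt, Complex.conj_cpow z _ (by
    intro h
    rw [Complex.arg_eq_pi_iff] at h
    linarith)]
  rw [map_inv₀, map_ofNat]

theorem hh_sq (ρ : ℝ) (z : ℂ) : hh ρ z ^ 2 = HH ρ z := csqrt_sq _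

theorem hh_re_nonneg (ρ : ℝ) (z : ℂ) : 0 ≤ (hh ρ z).re := csqrt_re_nonneg _

theorem hh_sq_re (ρ : ℝ) (z : ℂ) : (hh ρ z).re ^ 2 - (hh ρ z).im ^ 2 = (HH ρ z).re := by
  rw [← hh_sq, pow_two (hh ρ z), Complex.mul_re]
  ring

theorem hh_sq_im (ρ : ℝ) (z : ℂ) : 2 * (hh ρ z).re * (hh ρ z).im = (HH ρ z).im := by
  rw [← hh_sq, pow_two (hh ρ z), Complex.mul_im]
  ring

theorem hh_abs_im_le {ρ x y : ℝ} (hy : |y| ≤ ρ) :
    |(hh ρ (x + y * I)).im| ≤ (hh ρ (x + y * I)).re := by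
  have h1 := hh_sq_re ρ (x + y * I)
  have h2 := HH_re_nonneg (x := x) hy
  refine abs_le_of_sq_le_sq (by linarith) (hh_re_nonneg _ _)

theorem HH_pi (ρ : ℝ) (z : ℂ) : HH ρ (z + π) = HH ρ z := by
  rw [HH, HH, Complex.sin_add_pi]
  ring

theorem hh_pi (ρ : ℝ) (z : ℂ) : hh ρ (z + π) = hh ρ z := by
  rw [hh, hh, HH_pi]

theorem hh_neg (ρ : ℝ) (z : ℂ) : hh ρ (-z) = hh ρ z := by
  rw [hh, hh, HH, HH, Complex.sin_neg]
  congr 1
  ring

theorem HH_conj (ρ : ℝ) (z : ℂ) : HH ρ (conj z) = conj (HH ρ z) := by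
  rw [HH, HH, map_add, map_pow, map_pow, Complex.conj_ofReal, Complex.sin_conj]

theorem hh_conj {ρ x y : ℝ} (hy : |y| ≤ ρ) :
    hh ρ (conj ((x : ℂ) + y * I)) = conj (hh ρ (x + y * I)) := by
  rw [hh, hh, HH_conj, csqrt_conj (HH_re_nonneg hy)]

theorem continuous_HH (ρ : ℝ) : Continuous (HH ρ) := by
  unfold HH
  fun_prop

theorem differentiable_HH (ρ : ℝ) : Differentiable ℂ (HH ρ) := by
  unfold HH
  fun_prop

theorem continuousAt_hh {ρ : ℝ} {z : ℂ} (hz : |z.im| ≤ ρ) : ContinuousAt (hh ρ) z := by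
  have h1 : ContinuousAt (fun w : ℂ => w ^ (2⁻¹ : ℂ)) (HH ρ z) := by
    apply Complex.continuousAt_cpow_const_of_re_pos
    · left
      have := HH_re_nonneg (x := z.re) hz
      rwa [Complex.re_add_im] at this
    · norm_num
  exact ContinuousAt.comp (f := HH ρ) (g := fun w : ℂ => w ^ (2⁻¹ : ℂ)) h1
    (continuous_HH ρ).continuousAt

theorem differentiableAt_hh {ρ : ℝ} {z : ℂ} (hz : |z.im| < ρ) :
    DifferentiableAt ℂ (hh ρ) z := by
  have h1 : HH ρ z ∈ Complex.slitPlane := by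
    left
    have := HH_re_pos (x := z.re) hz
    rwa [Complex.re_add_im] at this
  exact DifferentiableAt.comp z (Complex.differentiableAt_sqrt h1) (differentiable_HH ρ z)

/-- the speed on the real line -/
noncomputable def hR (ρ x : ℝ) : ℝ := Real.sqrt (Real.sinh ρ ^ 2 + Real.sin x ^ 2)

theorem hh_ofReal (ρ x : ℝ) : hh ρ (x : ℂ) = (hR ρ x : ℂ) := by
  have h1 : HH ρ (x : ℂ) = ((Real.sinh ρ ^ 2 + Real.sin x ^ 2 : ℝ) : ℂ) := by
    rw [HH]
    push_cast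
    ring
  rw [hh, h1, Complex.sqrt_of_nonneg (by
    rw [Complex.zero_le_real]
    positivity), Complex.ofReal_re, hR]

theorem hR_pos {ρ : ℝ} (hρ : 0 < ρ) (x : ℝ) : 0 < hR ρ x := by
  have h1 : 0 < Real.sinh ρ := Real.sinh_pos_iff.2 hρ
  exact Real.sqrt_pos.2 (by positivity)

theorem continuous_hR (ρ : ℝ) : Continuous (hR ρ) := by
  unfold hR
  fun_prop

theorem hR_pi (ρ x : ℝ) : hR ρ (x + π) = hR ρ x := by
  rw [hR, hR, Real.sin_add_pi]
  ring_nf

theorem hR_neg (ρ x : ℝ) : hR ρ (-x) = hR ρ x := by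
  rw [hR, hR, Real.sin_neg]
  ring_nf

theorem hR_two_pi (ρ x : ℝ) : hR ρ (x + 2 * π) = hR ρ x := by
  rw [show x + 2 * π = x + π + π by ring, hR_pi, hR_pi]

/-- The norm bound on the strip. -/
theorem norm_hh_le {ρ x y : ℝ} (hy : |y| ≤ ρ) :
    ‖hh ρ (x + y * I)‖ ≤ Real.cosh ρ + Real.sinh ρ := by
  have hρ : 0 ≤ ρ := (abs_nonneg y).trans hy
  have hs : 0 ≤ Real.sinh ρ := Real.sinh_nonneg_iff.2 hρ
  have hc := Real.cosh_pos ρ
  have h1 : ‖hh ρ (x + y * I)‖ ^ 2 ≤ (Real.cosh ρ + Real.sinh ρ) ^ 2 := by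
    rw [← norm_pow, hh_sq, HH]
    have h2 : ‖Complex.sin (x + y * I)‖ ≤ Real.cosh ρ := by
      have h3 : ‖Complex.sin (x + y * I)‖ ^ 2 ≤ Real.cosh ρ ^ 2 := by
        rw [Complex.sin_add_mul_I, ← Complex.ofReal_sin, ← Complex.ofReal_cos,
          ← Complex.ofReal_sinh, ← Complex.ofReal_cosh, Complex.sq_norm, Complex.normSq_apply]
        simp only [add_re, mul_re, ofReal_re, ofReal_im, I_re, I_im, add_im, mul_im]
        have h4 := Real.sin_sq_add_cos_sq x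
        have h5 := Real.cosh_sq y
        have h6 := Real.cosh_sq ρ
        have h7 := sinh_sq_le hy
        nlinarith [sq_nonneg (Real.sin x), sq_nonneg (Real.cos x)]
      exact le_of_sq_le_sq h3 hc.le
    have h3 : ‖(((Real.sinh ρ : ℝ) : ℂ)) ^ 2 + Complex.sin (x + y * I) ^ 2‖ ≤
        Real.sinh ρ ^ 2 + Real.cosh ρ ^ 2 := by
      refine (norm_add_le _ _).trans (add_le_add ?_ ?_)
      · rw [norm_pow, Complex.norm_real, Real.norm_of_nonneg hs]
      · rw [norm_pow]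
        exact pow_le_pow_left₀ (norm_nonneg _) h2 2
    nlinarith
  exact le_of_sq_le_sq h1 (by positivity)

end Pool.Agent.Lib.MP_6dec34_an
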