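import Pool.Agent.Lib.MP_6dec34_an.Middle

/-!
The Fourier coefficients of the exponentials.
-/

set_option autoImplicit false

namespace Pool.Agent.Lib.MP_6dec34_an

open MeasureTheory Real Complex intervalIntegral Set
open scoped ComplexConjugate Interval

theorem two_pi_ne : (2 * (π : ℂ)) ≠ 0 := by
  have : (π : ℂ) ≠ 0 := by exact_mod_cast Real.pi_ne_zero
  simp

theorem exp_periodic (n : ℤ) (x : ℝ) :
    cexp (-(I * n * ((x + 2 * π : ℝ) : ℂ))) = cexp (-(I * n * x)) := by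
  rw [Complex.exp_eq_exp_iff_exists_int]
  refine ⟨-n, ?_⟩
  push_cast
  ring

theorem fc_conj (f : ℝ → ℂ) (n : ℤ) :
    fc (2 * π) (fun x => conj (f x)) (-n) = conj (fc (2 * π) f n) := by
  rw [fc_two_pi, fc_two_pi, map_mul, ← intervalIntegral_conj]
  congr 1
  · rw [map_div₀, map_one, map_mul, Complex.conj_ofReal, map_ofNat]
  · refine intervalIntegral.integral_congr (fun x _ => ?_)
    simp only [map_mul, ← Complex.exp_conj]
    congr 2
    simp

theorem fc_neg_arg {f : ℝ → ℂ} (hp : Function.Periodic f (2 * π)) (n : ℤ) :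
    fc (2 * π) (fun x => f (-x)) (-n) = fc (2 * π) f n := by
  rw [fc_two_pi, fc_two_pi]
  congr 1
  have h1 : Function.Periodic (fun x : ℝ => f x * cexp (-(I * n * x))) (2 * π) := by
    intro x
    simp only
    rw [hp x, exp_periodic]
  have h2 := h1.intervalIntegral_add_eq (-(2 * π)) 0
  rw [neg_add_cancel, zero_add] at h2
  rw [← h2]
  have h3 := intervalIntegral.integral_comp_neg (a := 0) (b := 2 * π)
    (fun x : ℝ => f x * cexp (-(I * n * x)))
  rw [neg_zero] at h3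
  rw [← h3]
  refine intervalIntegral.integral_congr (fun x _ => ?_)
  congr 2
  push_cast
  ring

theorem fc_real {f : ℝ → ℂ} (hp : Function.Periodic f (2 * π))
    (hc : ∀ x, f (-x) = conj (f x)) (n : ℤ) : ((fc (2 * π) f n).re : ℂ) = fc (2 * π) f n := by
  have h1 : conj (fc (2 * π) f n) = fc (2 * π) f n := by
    rw [← fc_conj, ← fc_neg_arg hp]
    congr 1
    funext x
    exact (hc x).symm
  exact Complex.conj_eq_iff_re.1 h1

theorem norm_fc_le {f : ℝ → ℂ} {B : ℝ} (hB : ∀ x, ‖f x‖ ≤ B) (n : ℤ) :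
    ‖fc (2 * π) f n‖ ≤ B := by
  rw [fc_two_pi, norm_mul]
  have h1 : ‖∫ x in (0 : ℝ)..(2 * π), f x * cexp (-(I * n * x))‖ ≤ B * |2 * π - 0| := by
    refine intervalIntegral.norm_integral_le_of_norm_le_const (fun x _ => ?_)
    rw [norm_mul, Complex.norm_exp]
    have : (-(I * n * x)).re = 0 := by simp
    rw [this, Real.exp_zero, mul_one]
    exact hB x
  have h2 : ‖1 / (2 * (π : ℂ))‖ = 1 / (2 * π) := by
    rw [norm_div, norm_one, norm_mul, Complex.norm_real, Real.norm_of_nonneg Real.pi_pos.le]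
    simp
  rw [h2, sub_zero, abs_of_pos (by positivity)] at *
  calc 1 / (2 * π) * _ ≤ 1 / (2 * π) * (B * (2 * π)) :=
        mul_le_mul_of_nonneg_left h1 (by positivity)
    _ = B := by field_simp

/-- Fourier coefficients of a derivative. -/
theorem fc_deriv {f f' : ℝ → ℂ} (hp : Function.Periodic f (2 * π))
    (hd : ∀ x, HasDerivAt f (f' x) x) (hc : Continuous f') (n : ℤ) :
    fc (2 * π) f' n = I * n * fc (2 * π) f n := by
  rw [fc_two_pi, fc_two_pi]
  have hfc : Continuous f := continuous_iff_continuousAt.2 (fun x => (hd x).continuousAt)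
  have he : ∀ x : ℝ, HasDerivAt (fun x : ℝ => cexp (-(I * n * x)))
      (cexp (-(I * n * x)) * (-(I * n))) x := by
    intro x
    have h1 : HasDerivAt (fun x : ℂ => -(I * n * x)) (-(I * n)) (x : ℂ) := by
      simpa [neg_mul] using (hasDerivAt_id (x : ℂ)).const_mul (-(I * n))
    exact h1.cexp.comp_ofReal
  have hprod : ∀ x ∈ Set.uIcc (0 : ℝ) (2 * π), HasDerivAt (fun x : ℝ => f x * cexp (-(I * n * x)))
      (f' x * cexp (-(I * n * x)) + f x * (cexp (-(I * n * x)) * (-(I * n)))) x :=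
    fun x _ => (hd x).mul (he x)
  have hint := intervalIntegral.integral_eq_sub_of_hasDerivAt hprod
    ((by fun_prop : Continuous (fun x : ℝ => f' x * cexp (-(I * n * x)) +
      f x * (cexp (-(I * n * x)) * (-(I * n))))).intervalIntegrable _ _)
  have hb : f (2 * π) * cexp (-(I * n * ((2 * π : ℝ) : ℂ))) -
      f 0 * cexp (-(I * n * ((0 : ℝ) : ℂ))) = 0 := by
    have h1 := hp 0
    have h2 := exp_periodic n 0
    rw [zero_add] at h1 h2
    rw [h1, h2]
    ring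
  rw [hb, intervalIntegral.integral_add] at hint
  · have h3 : ∫ x in (0 : ℝ)..(2 * π), f x * (cexp (-(I * n * x)) * (-(I * n))) =
        (-(I * n)) * ∫ x in (0 : ℝ)..(2 * π), f x * cexp (-(I * n * x)) := by
      rw [← intervalIntegral.integral_const_mul]
      refine intervalIntegral.integral_congr (fun x _ => ?_)
      ring
    rw [h3] at hint
    linear_combination (1 / (2 * (π : ℂ))) * hint
  · exact (by fun_prop : Continuous (fun x : ℝ => f' x * cexp (-(I * n * x)))).intervalIntegrable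
      _ _
  · exact (by fun_prop : Continuous (fun x : ℝ => f x * (cexp (-(I * n * x)) *
      (-(I * n))))).intervalIntegrable _ _

theorem hasSum_congr_fun {ι : Type*} {f g : ι → ℂ} {a : ℂ} (h : ∀ n, g n = f n)
    (hf : HasSum f a) : HasSum g a := by
  rw [show g = f from funext h]
  exact hf

/-! ### The coefficients -/

/-- the coefficients on the real line -/
noncomputable def W (ρ : ℝ) (k : ℕ) (n : ℤ) : ℝ := (fc (2 * π) (EL ρ k 0) n).re

theorem fc_EL0 {ρ : ℝ} (hρ : 0 < ρ) (k : ℕ) (n : ℤ) :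
    fc (2 * π) (EL ρ k 0) n = (W ρ k n : ℂ) :=
  (fc_real (EL_periodic hρ k 0) (EL_neg (by simpa using hρ.le) k) n).symm

/-- the coefficients on the critical line -/
noncomputable def w (ρ : ℝ) (k : ℕ) (n : ℤ) : ℝ := W ρ k n * Real.exp (-(n * ρ))

theorem fc_ELy {ρ y : ℝ} (hρ : 0 < ρ) (hy0 : 0 ≤ y) (hy1 : y ≤ ρ) (k : ℕ) (n : ℤ) :
    fc (2 * π) (EL ρ k y) n = ((W ρ k n * Real.exp (-(n * y)) : ℝ) : ℂ) := by
  rw [fc_EL hρ hy0 hy1, fc_EL0 hρ]
  push_cast
  ring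

theorem fc_ELρ {ρ : ℝ} (hρ : 0 < ρ) (k : ℕ) (n : ℤ) :
    fc (2 * π) (EL ρ k ρ) n = (w ρ k n : ℂ) :=
  fc_ELy hρ hρ.le le_rfl k n

theorem norm_EL_zero {ρ : ℝ} (k : ℕ) (x : ℝ) : ‖EL ρ k 0 x‖ = 1 := by
  rw [EL, norm_EE]
  simp [sc_ofReal]

theorem abs_W_le_one {ρ : ℝ} (hρ : 0 < ρ) (k : ℕ) (n : ℤ) : |W ρ k n| ≤ 1 := by
  have h := norm_fc_le (f := EL ρ k 0) (B := 1) (fun x => (norm_EL_zero k x).le) n
  rwa [fc_EL0 hρ, Complex.norm_real] at h

theorem abs_w_le {ρ : ℝ} (hρ : 0 < ρ) (k : ℕ) (n : ℤ) :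
    |w ρ k n| ≤ Real.exp (-(s0 ρ * k)) := by
  have h := norm_fc_le (f := EL ρ k ρ) (fun x => norm_EL_rho_le hρ k x) n
  rwa [fc_ELρ hρ, Complex.norm_real] at h

theorem EL_zero_eq {ρ : ℝ} (k : ℕ) (x : ℝ) :
    EL ρ k 0 x = cexp (I * (k * om ρ : ℝ) * (sR ρ x : ℂ)) := by
  rw [EL, EE]
  simp [sc_ofReal]

theorem hasDerivAt_sR (ρ x : ℝ) : HasDerivAt (sR ρ) (hR ρ x) x :=
  ((continuous_hR ρ).integral_hasStrictDerivAt 0 x).hasDerivAt

theorem hasDerivAt_EL_zero {ρ : ℝ} (k : ℕ) (x : ℝ) :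
    HasDerivAt (EL ρ k 0) (EL ρ k 0 x * (I * (k * om ρ : ℝ) * (hR ρ x : ℂ))) x := by
  have h1 : HasDerivAt (fun x : ℝ => cexp (I * (k * om ρ : ℝ) * (sR ρ x : ℂ)))
      (cexp (I * (k * om ρ : ℝ) * (sR ρ x : ℂ)) * (I * (k * om ρ : ℝ) * (hR ρ x : ℂ))) x :=
    (((hasDerivAt_sR ρ x).ofReal_comp).const_mul _).cexp
  have h2 : EL ρ k 0 = fun x : ℝ => cexp (I * (k * om ρ : ℝ) * (sR ρ x : ℂ)) := by
    funext x; exact EL_zero_eq k x
  rw [h2]
  exact h1

theorem EL_zero_mul {ρ : ℝ} (j k : ℕ) (x : ℝ) :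
    EL ρ j 0 x * EL ρ k 0 x = EL ρ (j + k) 0 x := by
  rw [EL_zero_eq, EL_zero_eq, EL_zero_eq, ← Complex.exp_add]
  congr 1
  push_cast
  ring

theorem continuous_EL_zero {ρ : ℝ} (hρ : 0 < ρ) (k : ℕ) : Continuous (EL ρ k 0) :=
  continuous_EL (by simpa using hρ.le) k

theorem hasSum_ofReal_I {f : ℤ → ℝ} {a : ℝ}
    (h : HasSum (fun n => I * (f n : ℂ)) (I * (a : ℂ))) : HasSum f a := by
  have h1 := h.mul_left (-I)
  have h2 : ∀ z : ℂ, -I * (I * z) = z := fun z => by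
    linear_combination (-z) * Complex.I_mul_I
  simp only [h2] at h1
  exact_mod_cast h1

/-- `∑ n W_n^{(j)} W_{-n}^{(k)} = 0`. -/
theorem sum_W_W {ρ : ℝ} (hρ : 0 < ρ) {j k : ℕ} (hjk : 1 ≤ j + k) :
    HasSum (fun n : ℤ => (n : ℝ) * W ρ j n * W ρ k (-n)) 0 := by
  have hc' : Continuous (fun x : ℝ => EL ρ j 0 x * (I * (j * om ρ : ℝ) * (hR ρ x : ℂ))) :=
    (continuous_EL_zero hρ j).mul (continuous_const.mul
      (Complex.continuous_ofReal.comp (continuous_hR ρ)))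
  have hp' : Function.Periodic (fun x : ℝ => EL ρ j 0 x * (I * (j * om ρ : ℝ) * (hR ρ x : ℂ)))
      (2 * π) := by
    intro x
    simp only
    rw [EL_periodic hρ j 0 x, hR_two_pi]
  have h := parseval (T := 2 * π) (by positivity) hc' (continuous_EL_zero hρ k) hp'
    (EL_periodic hρ k 0)
  have hfc : ∀ n : ℤ, fc (2 * π) (fun x : ℝ => EL ρ j 0 x * (I * (j * om ρ : ℝ) *
      (hR ρ x : ℂ))) n = I * n * (W ρ j n : ℂ) := by
    intro n
    rw [fc_deriv (EL_periodic hρ j 0) (fun x => hasDerivAt_EL_zero j x) hc', fc_EL0 hρ]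
  have hint : ∫ x in (0 : ℝ)..(2 * π), EL ρ j 0 x * (I * (j * om ρ : ℝ) * (hR ρ x : ℂ)) *
      EL ρ k 0 x = 0 := by
    have hjk' : ((j : ℂ) + k) ≠ 0 := by
      have : ((j + k : ℕ) : ℂ) ≠ 0 := by
        rw [Nat.cast_ne_zero]; omega
      push_cast at this
      exact this
    have hd : ∀ x ∈ Set.uIcc (0 : ℝ) (2 * π), HasDerivAt (fun x => ((j : ℂ) / (j + k)) *
        EL ρ (j + k) 0 x)
        (EL ρ j 0 x * (I * (j * om ρ : ℝ) * (hR ρ x : ℂ)) * EL ρ k 0 x) x := by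
      intro x _
      have h1 := (hasDerivAt_EL_zero (ρ := ρ) (j + k) x).const_mul ((j : ℂ) / (j + k))
      have h2 : (j : ℂ) / (j + k) * (EL ρ (j + k) 0 x * (I * (((j + k : ℕ) : ℝ) * om ρ : ℝ) *
          (hR ρ x : ℂ))) = EL ρ j 0 x * (I * (j * om ρ : ℝ) * (hR ρ x : ℂ)) * EL ρ k 0 x := by
        rw [← EL_zero_mul]
        push_cast
        field_simp
      rw [h2] at h1
      exact h1
    rw [intervalIntegral.integral_eq_sub_of_hasDerivAt hd
      ((hc'.mul (continuous_EL_zero hρ k)).intervalIntegrable _ _)]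
    have := EL_periodic hρ (j + k) 0 0
    rw [zero_add] at this
    rw [this, sub_self]
  rw [hint, mul_zero] at h
  apply hasSum_ofReal_I
  rw [Complex.ofReal_zero, mul_zero]
  refine (hasSum_congr_fun ?_ h)
  intro n
  rw [hfc, fc_EL0 hρ]
  push_cast
  ring

theorem continuous_EL_rho {ρ : ℝ} (hρ : 0 < ρ) (k : ℕ) : Continuous (EL ρ k ρ) :=
  continuous_EL (by rw [abs_of_pos hρ]) k

theorem hasDerivAt_EL_rho {ρ : ℝ} (hρ : 0 < ρ) (k : ℕ) (x : ℝ) :
    HasDerivAt (EL ρ k ρ) (EL ρ k ρ x * (I * (k * om ρ : ℝ) * hh ρ (x + ρ * I))) x := by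
  have hq : HasDerivAt (qq ρ) (hh ρ (x + ρ * I)) x :=
    ((continuous_hh_rho hρ).integral_hasStrictDerivAt 0 x).hasDerivAt
  have h1 : HasDerivAt (fun x : ℝ => (Real.exp (-(s0 ρ * k)) : ℝ) *
      cexp (I * (k * om ρ : ℝ) * qq ρ x))
      ((Real.exp (-(s0 ρ * k)) : ℝ) * (cexp (I * (k * om ρ : ℝ) * qq ρ x) *
        (I * (k * om ρ : ℝ) * hh ρ (x + ρ * I)))) x :=
    ((hq.const_mul _).cexp).const_mul _
  have h2 : EL ρ k ρ = fun x : ℝ => (Real.exp (-(s0 ρ * k)) : ℝ) *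
      cexp (I * (k * om ρ : ℝ) * qq ρ x) := by
    funext x; exact EL_rho hρ k x
  rw [h2]
  simp only [← mul_assoc] at h1 ⊢
  exact h1

theorem summable_w_w {ρ : ℝ} (hρ : 0 < ρ) (j k : ℕ) :
    HasSum (fun n : ℤ => I * (((n : ℝ) * w ρ j n * w ρ k n : ℝ) : ℂ))
      ((1 / ((2 * π : ℝ) : ℂ)) * ∫ x in (0 : ℝ)..(2 * π),
        EL ρ j ρ x * (I * (j * om ρ : ℝ) * hh ρ (x + ρ * I)) * conj (EL ρ k ρ x)) := by
  have hc' : Continuous (fun x : ℝ => EL ρ j ρ x * (I * (j * om ρ : ℝ) *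
      hh ρ (x + ρ * I))) :=
    (continuous_EL_rho hρ j).mul (continuous_const.mul (continuous_hh_rho hρ))
  have hp' : Function.Periodic (fun x : ℝ => EL ρ j ρ x * (I * (j * om ρ : ℝ) *
      hh ρ (x + ρ * I))) (2 * π) := by
    intro x
    simp only
    rw [EL_periodic hρ j ρ x]
    congr 2
    rw [← hh_pi ρ (x + ρ * I), ← hh_pi ρ (x + ρ * I + π)]
    congr 1
    push_cast
    ring
  have hc2 : Continuous (fun x : ℝ => conj (EL ρ k ρ x)) :=
    Complex.continuous_conj.comp (continuous_EL_rho hρ k)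
  have hp2 : Function.Periodic (fun x : ℝ => conj (EL ρ k ρ x)) (2 * π) := by
    intro x
    simp only
    rw [EL_periodic hρ k ρ x]
  have h := parseval (T := 2 * π) (by positivity) hc' hc2 hp' hp2
  refine hasSum_congr_fun (fun n => ?_) h
  rw [fc_deriv (EL_periodic hρ j ρ) (fun x => hasDerivAt_EL_rho hρ j x) hc', fc_ELρ hρ,
    fc_conj, fc_ELρ hρ, Complex.conj_ofReal]
  push_cast
  ring

theorem summable_nww {ρ : ℝ} (hρ : 0 < ρ) (j k : ℕ) :
    Summable (fun n : ℤ => (n : ℝ) * w ρ j n * w ρ k n) := by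
  have h1 := (summable_w_w hρ j k).summable.mul_left (-I)
  have h2 : ∀ z : ℂ, -I * (I * z) = z := fun z => by
    linear_combination (-z) * Complex.I_mul_I
  simp only [h2] at h1
  exact_mod_cast h1

/-- the main bilinear sum -/
noncomputable def JJ (ρ : ℝ) (j k : ℕ) : ℝ := ∑' n : ℤ, (n : ℝ) * w ρ j n * w ρ k n

theorem JJ_symm (ρ : ℝ) (j k : ℕ) : JJ ρ j k = JJ ρ k j := by
  rw [JJ, JJ]
  congr 1
  funext n
  ring

/-- lower-bound constant -/
noncomputable def cJ (ρ : ℝ) : ℝ := 1 / (4 * π) * (1 - Real.exp (-(2 * om ρ * (qq ρ (π / 2)).im)))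

theorem cJ_pos {ρ : ℝ} (hρ : 0 < ρ) : 0 < cJ ρ := by
  have h1 := qq_im_ge hρ (x := π / 2) (by positivity) le_rfl
  have h2 : 0 < (π / 2) ^ (3 / 2 : ℝ) := Real.rpow_pos_of_pos (by positivity) _
  have h3 := c1_pos hρ
  have h4 : 0 < (qq ρ (π / 2)).im := by nlinarith
  have h5 := om_pos hρ
  have h6 : Real.exp (-(2 * om ρ * (qq ρ (π / 2)).im)) < 1 := by
    rw [Real.exp_lt_one_iff]
    have : 0 < 2 * om ρ * (qq ρ (π / 2)).im := by positivity
    linarith
  have : 0 < 1 - Real.exp (-(2 * om ρ * (qq ρ (π / 2)).im)) := by linarith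
  unfold cJ
  positivity

theorem JJ_diag {ρ : ℝ} (hρ : 0 < ρ) (k : ℕ) :
    JJ ρ k k = (k * om ρ) / (2 * π) * ∫ x in (0 : ℝ)..(2 * π),
      (hh ρ (x + ρ * I)).re * ‖EL ρ k ρ x‖ ^ 2 := by
  have h := (summable_w_w hρ k k)
  have hs := (summable_nww hρ k k).hasSum
  have h1 : HasSum (fun n : ℤ => I * (((n : ℝ) * w ρ k n * w ρ k n : ℝ) : ℂ))
      (I * (JJ ρ k k : ℂ)) := by
    rw [JJ]
    exact (Complex.hasSum_ofReal.2 hs).mul_left I
  have h2 := h1.unique h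
  have hcI : Continuous (fun x : ℝ => hh ρ (x + ρ * I) * ((‖EL ρ k ρ x‖ ^ 2 : ℝ) : ℂ)) :=
    (continuous_hh_rho hρ).mul (Complex.continuous_ofReal.comp
      ((continuous_EL_rho hρ k).norm.pow 2))
  have h3 : ∫ x in (0 : ℝ)..(2 * π),
        EL ρ k ρ x * (I * (k * om ρ : ℝ) * hh ρ (x + ρ * I)) * conj (EL ρ k ρ x) =
      (I * (k * om ρ : ℝ)) * ∫ x in (0 : ℝ)..(2 * π),
        hh ρ (x + ρ * I) * ((‖EL ρ k ρ x‖ ^ 2 : ℝ) : ℂ) := by
    rw [← intervalIntegral.integral_const_mul]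
    refine intervalIntegral.integral_congr (fun x _ => ?_)
    have h4 : EL ρ k ρ x * conj (EL ρ k ρ x) = ((‖EL ρ k ρ x‖ ^ 2 : ℝ) : ℂ) := by
      rw [Complex.mul_conj, Complex.normSq_eq_norm_sq]
    rw [← h4]
    ring
  rw [h3] at h2
  have h5 : (JJ ρ k k : ℂ) = ((k * om ρ / (2 * π) : ℝ) : ℂ) * ∫ x in (0 : ℝ)..(2 * π),
        hh ρ (x + ρ * I) * ((‖EL ρ k ρ x‖ ^ 2 : ℝ) : ℂ) := by
    have h6 : I * (JJ ρ k k : ℂ) = I * (((k * om ρ / (2 * π) : ℝ) : ℂ) *
        ∫ x in (0 : ℝ)..(2 * π), hh ρ (x + ρ * I) * ((‖EL ρ k ρ x‖ ^ 2 : ℝ) : ℂ)) := by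
      rw [h2]
      push_cast
      ring
    exact mul_left_cancel₀ Complex.I_ne_zero h6
  have h7 := congrArg Complex.re h5
  rw [Complex.ofReal_re, Complex.re_ofReal_mul, integral_re_eq (hcI.intervalIntegrable _ _)] at h7
  rw [h7]
  congr 1
  refine intervalIntegral.integral_congr (fun x _ => ?_)
  simp only [Complex.re_mul_ofReal]

theorem JJ_ge {ρ : ℝ} (hρ : 0 < ρ) {k : ℕ} (hk : 1 ≤ k) :
    cJ ρ * Real.exp (-(2 * s0 ρ * k)) ≤ JJ ρ k k := by
  have hω := om_pos hρ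
  have hk0 : (1 : ℝ) ≤ k := by exact_mod_cast hk
  rw [JJ_diag hρ]
  have hcont : Continuous (fun x : ℝ => (hh ρ (x + ρ * I)).re * ‖EL ρ k ρ x‖ ^ 2) :=
    (Complex.continuous_re.comp (continuous_hh_rho hρ)).mul ((continuous_EL_rho hρ k).norm.pow 2)
  have hcont2 : Continuous (fun x : ℝ => (hh ρ (x + ρ * I)).im *
      Real.exp (-(2 * k * om ρ * (qq ρ x).im))) := by
    refine (Complex.continuous_im.comp (continuous_hh_rho hρ)).mul ?_
    have hq : Continuous (qq ρ) := continuous_iff_continuousAt.2 (fun x =>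
      ((continuous_hh_rho hρ).integral_hasStrictDerivAt 0 x).hasDerivAt.continuousAt)
    have := Complex.continuous_im.comp hq
    fun_prop
  have h1 : ∫ x in (0 : ℝ)..(π / 2), (hh ρ (x + ρ * I)).re * ‖EL ρ k ρ x‖ ^ 2 ≤
      ∫ x in (0 : ℝ)..(2 * π), (hh ρ (x + ρ * I)).re * ‖EL ρ k ρ x‖ ^ 2 := by
    refine intervalIntegral.integral_mono_interval le_rfl (by positivity)
      (by linarith [Real.pi_pos]) ?_ (hcont.intervalIntegrable _ _)
    refine Filter.Eventually.of_forall (fun x => ?_)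
    have := hh_re_nonneg ρ (x + ρ * I)
    simp only [Pi.zero_apply]
    positivity
  have h2 : Real.exp (-(2 * s0 ρ * k)) * ∫ x in (0 : ℝ)..(π / 2), (hh ρ (x + ρ * I)).im *
      Real.exp (-(2 * k * om ρ * (qq ρ x).im)) ≤
      ∫ x in (0 : ℝ)..(π / 2), (hh ρ (x + ρ * I)).re * ‖EL ρ k ρ x‖ ^ 2 := by
    rw [← intervalIntegral.integral_const_mul]
    refine intervalIntegral.integral_mono_on (by positivity)
      ((hcont2.const_mul _).intervalIntegrable _ _) (hcont.intervalIntegrable _ _) (fun x hx => ?_)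
    have h3 : ‖EL ρ k ρ x‖ ^ 2 = Real.exp (-(2 * s0 ρ * k)) *
        Real.exp (-(2 * k * om ρ * (qq ρ x).im)) := by
      rw [norm_EL_rho hρ, mul_pow, ← Real.exp_nat_mul, ← Real.exp_nat_mul]
      congr 2
      · push_cast; ring
      · push_cast; ring
    rw [h3]
    have h4 := (le_abs_self _).trans (hh_abs_im_le (ρ := ρ) (x := x) (y := ρ)
      (by rw [abs_of_pos hρ]))
    have h5 : 0 ≤ Real.exp (-(2 * s0 ρ * k)) * Real.exp (-(2 * k * om ρ * (qq ρ x).im)) := by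
      positivity
    nlinarith
  have hkω : (2 * (k : ℝ) * om ρ) ≠ 0 := by positivity
  have h3 : ∫ x in (0 : ℝ)..(π / 2), (hh ρ (x + ρ * I)).im *
      Real.exp (-(2 * k * om ρ * (qq ρ x).im)) =
      (1 - Real.exp (-(2 * k * om ρ * (qq ρ (π / 2)).im))) / (2 * k * om ρ) := by
    have hd : ∀ x ∈ Set.uIcc (0 : ℝ) (π / 2), HasDerivAt (fun x =>
        (-(1 / (2 * k * om ρ))) * Real.exp (-(2 * k * om ρ * (qq ρ x).im)))
        ((hh ρ (x + ρ * I)).im * Real.exp (-(2 * k * om ρ * (qq ρ x).im))) x := by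
      intro x _
      have hq : HasDerivAt (qq ρ) (hh ρ (x + ρ * I)) x :=
        ((continuous_hh_rho hρ).integral_hasStrictDerivAt 0 x).hasDerivAt
      have hqi : HasDerivAt (fun x => (qq ρ x).im) (hh ρ (x + ρ * I)).im x :=
        (Complex.imCLM.hasFDerivAt.comp_hasDerivAt x hq)
      have h4 := ((hqi.const_mul (-(2 * k * om ρ))).exp).const_mul (-(1 / (2 * k * om ρ)))
      have h5 : (-(1 / (2 * k * om ρ))) * (Real.exp (-(2 * k * om ρ) * (qq ρ x).im) *
          (-(2 * k * om ρ) * (hh ρ (x + ρ * I)).im)) =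
          (hh ρ (x + ρ * I)).im * Real.exp (-(2 * k * om ρ * (qq ρ x).im)) := by
        rw [neg_mul (2 * k * om ρ) (qq ρ x).im]
        field_simp
      rw [h5] at h4
      simpa only [neg_mul] using h4
    rw [intervalIntegral.integral_eq_sub_of_hasDerivAt hd (hcont2.intervalIntegrable _ _)]
    have hq0 : qq ρ 0 = 0 := by rw [qq, intervalIntegral.integral_same]
    rw [hq0]
    simp only [Complex.zero_im, mul_zero, neg_zero, Real.exp_zero]
    field_simp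
    ring
  have h4 : Real.exp (-(2 * k * om ρ * (qq ρ (π / 2)).im)) ≤
      Real.exp (-(2 * om ρ * (qq ρ (π / 2)).im)) := by
    apply Real.exp_le_exp.2
    have h5 := qq_im_nonneg' hρ (π / 2)
    have h6 : 0 ≤ om ρ * (qq ρ (π / 2)).im := by positivity
    nlinarith
  have h5 : cJ ρ * Real.exp (-(2 * s0 ρ * k)) ≤ (k * om ρ) / (2 * π) *
      (Real.exp (-(2 * s0 ρ * k)) * ∫ x in (0 : ℝ)..(π / 2), (hh ρ (x + ρ * I)).im *
      Real.exp (-(2 * k * om ρ * (qq ρ x).im))) := by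
    rw [h3, cJ]
    have h6 : (k * om ρ) / (2 * π) * (Real.exp (-(2 * s0 ρ * k)) *
        ((1 - Real.exp (-(2 * k * om ρ * (qq ρ (π / 2)).im))) / (2 * k * om ρ))) =
        1 / (4 * π) * (1 - Real.exp (-(2 * k * om ρ * (qq ρ (π / 2)).im))) *
          Real.exp (-(2 * s0 ρ * k)) := by
      field_simp
      ring
    rw [h6]
    refine mul_le_mul_of_nonneg_right ?_ (Real.exp_pos _).le
    refine mul_le_mul_of_nonneg_left (by linarith) (by positivity)
  refine h5.trans ?_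
  exact mul_le_mul_of_nonneg_left (h2.trans h1) (by positivity)

end Pool.Agent.Lib.MP_6dec34_an
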