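import Pool.Agent.Lib.MP_6dec34_an.System

/-!
Completeness of the WKB exponentials.
-/

set_option autoImplicit false

namespace Pool.Agent.Lib.MP_6dec34_an

open MeasureTheory Real Complex intervalIntegral Set Filter
open scoped ComplexConjugate Interval Topology

theorem sR_strictMono {ρ : ℝ} (hρ : 0 < ρ) : StrictMono (sR ρ) :=
  strictMono_of_deriv_pos (fun x => by rw [(hasDerivAt_sR ρ x).deriv]; exact hR_pos hρ x)

theorem sR_continuous (ρ : ℝ) : Continuous (sR ρ) :=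
  continuous_iff_continuousAt.2 (fun x => (hasDerivAt_sR ρ x).continuousAt)

theorem sR_zero (ρ : ℝ) : sR ρ 0 = 0 := by rw [sR, intervalIntegral.integral_same]

theorem sinh_le_hR {ρ : ℝ} (hρ : 0 < ρ) (x : ℝ) : Real.sinh ρ ≤ hR ρ x := by
  have h : 0 < Real.sinh ρ := Real.sinh_pos_iff.2 hρ
  apply Real.le_sqrt_of_sq_le
  nlinarith [sq_nonneg (Real.sin x)]

theorem sR_sub_ge {ρ : ℝ} (hρ : 0 < ρ) {x y : ℝ} (hxy : x ≤ y) :
    Real.sinh ρ * (y - x) ≤ sR ρ y - sR ρ x := by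
  have h1 : sR ρ y - sR ρ x = ∫ t in x..y, hR ρ t := by
    rw [sR, sR, intervalIntegral.integral_interval_sub_left
      ((continuous_hR ρ).intervalIntegrable _ _) ((continuous_hR ρ).intervalIntegrable _ _)]
  rw [h1]
  have h2 : ∫ t in x..y, Real.sinh ρ ≤ ∫ t in x..y, hR ρ t :=
    intervalIntegral.integral_mono_on hxy (by simp)
      ((continuous_hR ρ).intervalIntegrable _ _) (fun t _ => sinh_le_hR hρ t)
  rw [intervalIntegral.integral_const, smul_eq_mul] at h2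
  linarith

theorem sR_surjective {ρ : ℝ} (hρ : 0 < ρ) : Function.Surjective (sR ρ) := by
  have h : 0 < Real.sinh ρ := Real.sinh_pos_iff.2 hρ
  apply (sR_continuous ρ).surjective
  · refine tendsto_atTop_mono' atTop ?_ (tendsto_id.const_mul_atTop h)
    filter_upwards [eventually_ge_atTop 0] with x hx
    have := sR_sub_ge hρ hx
    rw [sR_zero] at this
    simp only [id]
    linarith
  · refine tendsto_atBot_mono' atBot ?_ (tendsto_id.const_mul_atBot h)
    filter_upwards [eventually_le_atBot 0] with x hx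
    have := sR_sub_ge hρ hx
    rw [sR_zero] at this
    simp only [id]
    linarith

noncomputable def sIso {ρ : ℝ} (hρ : 0 < ρ) : ℝ ≃o ℝ :=
  StrictMono.orderIsoOfSurjective (sR ρ) (sR_strictMono hρ) (sR_surjective hρ)

/-- the inverse function -/
noncomputable def et {ρ : ℝ} (hρ : 0 < ρ) (t : ℝ) : ℝ := (sIso hρ).symm t

theorem et_sR {ρ : ℝ} (hρ : 0 < ρ) (x : ℝ) : et hρ (sR ρ x) = x :=
  (sIso hρ).symm_apply_apply x

theorem sR_et {ρ : ℝ} (hρ : 0 < ρ) (t : ℝ) : sR ρ (et hρ t) = t :=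
  (sIso hρ).apply_symm_apply t

theorem continuous_et {ρ : ℝ} (hρ : 0 < ρ) : Continuous (et hρ) :=
  (sIso hρ).symm.continuous

/-- the length -/
noncomputable def LL (ρ : ℝ) : ℝ := 2 * Lh ρ

theorem LL_pos {ρ : ℝ} (hρ : 0 < ρ) : 0 < LL ρ := by
  have := Lh_pos hρ
  unfold LL
  positivity

theorem sR_two_pi (ρ x : ℝ) : sR ρ (x + 2 * π) = sR ρ x + LL ρ := by
  have h : ∀ x, sR ρ (x + π) = sR ρ x + Lh ρ := by
    intro x
    rw [sR, sR, ← integral_hR_pi ρ x, intervalIntegral.integral_add_adjacent_intervals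
      ((continuous_hR ρ).intervalIntegrable _ _) ((continuous_hR ρ).intervalIntegrable _ _)]
  rw [show x + 2 * π = x + π + π by ring, h, h, LL]
  ring

theorem et_add {ρ : ℝ} (hρ : 0 < ρ) (t : ℝ) : et hρ (t + LL ρ) = et hρ t + 2 * π := by
  apply (sR_strictMono hρ).injective
  rw [sR_et, sR_two_pi, sR_et]

theorem change_var {ρ : ℝ} {f : ℝ → ℂ} (hf : Continuous f) :
    ∫ t in (0 : ℝ)..(LL ρ), f t = ∫ x in (0 : ℝ)..(2 * π), (hR ρ x : ℂ) * f (sR ρ x) := by
  have h := intervalIntegral.integral_deriv_smul_comp (a := 0) (b := 2 * π) (f := sR ρ)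
    (f' := hR ρ) (g := f) (fun x _ => hasDerivAt_sR ρ x) (continuous_hR ρ).continuousOn hf
  have h2 := sR_two_pi ρ 0
  rw [zero_add, sR_zero, zero_add] at h2
  rw [sR_zero, h2] at h
  rw [← h]
  refine intervalIntegral.integral_congr (fun x _ => ?_)
  simp only [Function.comp_apply, Complex.real_smul]

theorem two_pi_div_LL {ρ : ℝ} (hρ : 0 < ρ) : 2 * π / LL ρ = om ρ := by
  have := (Lh_pos hρ).ne'
  rw [LL, om]
  field_simp

theorem exp_LL {ρ : ℝ} (hρ : 0 < ρ) (m : ℤ) (s : ℝ) :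
    cexp (-(2 * π * I * m * s / (LL ρ : ℂ))) = cexp (-(I * (m * om ρ : ℝ) * s)) := by
  congr 1
  rw [← two_pi_div_LL hρ]
  push_cast
  ring

/-- Fourier coefficients with respect to the arc length. -/
theorem fc_LL {ρ : ℝ} (hρ : 0 < ρ) {φ : ℝ → ℂ} (hφ : Continuous φ) (m : ℤ) :
    fc (LL ρ) (fun t => φ (et hρ t)) m = (1 / (LL ρ : ℂ)) *
      ∫ x in (0 : ℝ)..(2 * π), (hR ρ x : ℂ) * (φ x * cexp (-(I * (m * om ρ : ℝ) * sR ρ x))) := by
  have hc : Continuous (fun t : ℝ => φ (et hρ t) * cexp (-(2 * π * I * m * t / (LL ρ : ℂ)))) := by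
    refine (hφ.comp (continuous_et hρ)).mul ?_
    fun_prop
  rw [fc, change_var hc]
  congr 1
  refine intervalIntegral.integral_congr (fun x _ => ?_)
  rw [et_sR, exp_LL hρ]

/-- Completeness. -/
theorem complete_sum {ρ τ : ℝ} (hρ : 0 < ρ) (hτ : 0 < τ) {g : ℝ → ℝ} {al : ℝ → ℤ → ℝ}
    (hm : Modes ρ τ g al) {θ : ℝ} (hθ : θ = 1 ∨ θ = -1) (n : ℤ) :
    HasSum (fun k : ℕ => om ρ * (yy ρ g θ k * (W ρ k n + θ * W ρ k (-n))))
      (al θ n * den ρ θ n / 2) := by
  have hL := LL_pos hρ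
  have hLc : (LL ρ : ℂ) ≠ 0 := by exact_mod_cast hL.ne'
  have hg := hm.cont
  have hgc : Continuous (fun x => (g x : ℂ)) := Complex.continuous_ofReal.comp hg
  have hhc : Continuous (fun x => (hR ρ x : ℂ)) :=
    Complex.continuous_ofReal.comp (continuous_hR ρ)
  have hhne : ∀ x, (hR ρ x : ℂ) ≠ 0 := fun x => by exact_mod_cast (hR_pos hρ x).ne'
  have hFc : Continuous (fun x : ℝ => cexp (I * n * x) / (hR ρ x : ℂ)) :=
    (by fun_prop : Continuous (fun x : ℝ => cexp (I * n * x))).div hhc hhne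
  have hexp : ∀ x : ℝ, cexp (I * n * ((x + 2 * π : ℝ) : ℂ)) = cexp (I * n * x) := by
    intro x
    rw [Complex.exp_eq_exp_iff_exists_int]
    refine ⟨n, ?_⟩
    push_cast
    ring
  have h := parseval (T := LL ρ) hL (f := fun t => (g (et hρ t) : ℂ))
    (g := fun t => cexp (I * n * (et hρ t : ℂ)) / (hR ρ (et hρ t) : ℂ))
    (hgc.comp (continuous_et hρ)) (hFc.comp (continuous_et hρ))
    (fun t => by simp only [et_add, hm.per (et hρ t)])
    (fun t => by simp only [et_add, hexp, hR_two_pi])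
  have h1 := h.nat_add_neg
  -- the complex coefficient
  obtain ⟨Y, hY⟩ : ∃ Y : ℕ → ℂ, ∀ k, Y k = ∫ x in (0 : ℝ)..(2 * π),
      ((hR ρ x * g x : ℝ) : ℂ) * EL ρ k 0 x := ⟨fun k => _, fun k => rfl⟩
  have hYpr : ∀ k, prL θ (Y k) = yy ρ g θ k := by
    intro k
    rw [hY, prL_integral, yy]
    · refine intervalIntegral.integral_congr (fun x _ => ?_)
      rw [prL_ofReal_mul, prL_EL_zero]
    · exact (Complex.continuous_ofReal.comp ((continuous_hR ρ).mul hg)).mul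
        (continuous_EL_zero hρ k)
  have hGp : ∀ k : ℕ, fc (LL ρ) (fun t => (g (et hρ t) : ℂ)) k = 1 / (LL ρ : ℂ) * conj (Y k) := by
    intro k
    rw [fc_LL hρ hgc, hY, ← intervalIntegral_conj]
    congr 1
    refine intervalIntegral.integral_congr (fun x _ => ?_)
    rw [map_mul, Complex.conj_ofReal, EL_zero_eq, ← Complex.exp_conj]
    have : conj (I * ((k * om ρ : ℝ) : ℂ) * (sR ρ x : ℂ)) =
        -(I * (((k : ℤ) * om ρ : ℝ) : ℂ) * sR ρ x) := by
      rw [map_mul, map_mul, Complex.conj_I, Complex.conj_ofReal, Complex.conj_ofReal]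
      push_cast
      ring
    rw [this]
    push_cast
    ring
  have hGn : ∀ k : ℕ, fc (LL ρ) (fun t => (g (et hρ t) : ℂ)) (-(k : ℤ)) =
      1 / (LL ρ : ℂ) * Y k := by
    intro k
    rw [fc_LL hρ hgc, hY]
    congr 1
    refine intervalIntegral.integral_congr (fun x _ => ?_)
    rw [EL_zero_eq]
    have : -(I * (((-(k : ℤ) : ℤ) : ℝ) * om ρ : ℝ) * (sR ρ x : ℂ)) =
        I * ((k * om ρ : ℝ) : ℂ) * (sR ρ x : ℂ) := by
      push_cast
      ring
    rw [this]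
    push_cast
    ring
  have hFn : ∀ k : ℕ, fc (LL ρ) (fun t => cexp (I * n * (et hρ t : ℂ)) / (hR ρ (et hρ t) : ℂ))
      (-(k : ℤ)) = 1 / (LL ρ : ℂ) * (2 * π * (W ρ k (-n) : ℂ)) := by
    intro k
    rw [fc_LL hρ (φ := fun x : ℝ => cexp (I * n * x) / (hR ρ x : ℂ)) hFc, ← fc_EL0 hρ, fc_two_pi]
    have e5 : ∀ b : ℂ, 2 * (π : ℂ) * (1 / (2 * (π : ℂ)) * b) = b := by
      intro b
      have := two_pi_ne
      field_simp
    rw [e5]
    congr 1
    refine intervalIntegral.integral_congr (fun x _ => ?_)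
    have e6 := hhne x
    rw [EL_zero_eq]
    have e7 : -(I * (((-(k : ℤ) : ℤ) : ℝ) * om ρ : ℝ) * (sR ρ x : ℂ)) =
        I * ((k * om ρ : ℝ) : ℂ) * (sR ρ x : ℂ) := by
      push_cast
      ring
    have e8 : -(I * ((-n : ℤ) : ℂ) * (x : ℂ)) = I * n * x := by push_cast; ring
    rw [e7, e8]
    field_simp
  have hFp : ∀ k : ℕ, fc (LL ρ) (fun t => cexp (I * n * (et hρ t : ℂ)) / (hR ρ (et hρ t) : ℂ))
      k = 1 / (LL ρ : ℂ) * (2 * π * (W ρ k n : ℂ)) := by
    intro k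
    have e9 : (W ρ k n : ℂ) = conj (fc (2 * π) (EL ρ k 0) n) := by
      rw [fc_EL0 hρ, Complex.conj_ofReal]
    rw [fc_LL hρ (φ := fun x : ℝ => cexp (I * n * x) / (hR ρ x : ℂ)) hFc, e9, fc_two_pi, map_mul,
      ← intervalIntegral_conj]
    have e4 : conj (1 / (2 * (π : ℂ))) = 1 / (2 * (π : ℂ)) := by
      rw [map_div₀, map_one, map_mul, Complex.conj_ofReal, map_ofNat]
    have e5 : ∀ b : ℂ, 2 * (π : ℂ) * (1 / (2 * (π : ℂ)) * b) = b := by
      intro b
      have := two_pi_ne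
      field_simp
    rw [e4, e5]
    congr 1
    refine intervalIntegral.integral_congr (fun x _ => ?_)
    have e6 := hhne x
    rw [EL_zero_eq, map_mul, ← Complex.exp_conj, ← Complex.exp_conj]
    have e7 : conj (I * ((k * om ρ : ℝ) : ℂ) * (sR ρ x : ℂ)) =
        -(I * (((k : ℤ) * om ρ : ℝ) : ℂ) * sR ρ x) := by
      rw [map_mul, map_mul, Complex.conj_I, Complex.conj_ofReal, Complex.conj_ofReal]
      push_cast
      ring
    have e8 : conj (-(I * (n : ℂ) * (x : ℂ))) = I * n * x := by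
      rw [map_neg, map_mul, map_mul, Complex.conj_I, Complex.conj_ofReal, map_intCast]
      ring
    rw [e7, e8]
    field_simp
  -- the zeroth coefficient vanishes
  have hY0 : Y 0 = 0 := by
    have e1 := hm.neu 1 (Or.inl rfl) 0
    have e2 : ∫ x in (0 : ℝ)..(2 * π), (hR ρ x * g x) * trc 1 ((0 : ℤ) * x) = 0 := by
      have : τ * ∫ x in (0 : ℝ)..(2 * π), (hR ρ x * g x) * trc 1 ((0 : ℤ) * x) = 0 := by
        rw [e1]; simp
      exact (mul_eq_zero.1 this).resolve_left hτ.ne'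
    rw [hY]
    have e3 : ∫ x in (0 : ℝ)..(2 * π), ((hR ρ x * g x : ℝ) : ℂ) * EL ρ 0 0 x =
        ((∫ x in (0 : ℝ)..(2 * π), (hR ρ x * g x) * trc 1 ((0 : ℤ) * x) : ℝ) : ℂ) := by
      rw [← intervalIntegral.integral_ofReal]
      refine intervalIntegral.integral_congr (fun x _ => ?_)
      rw [EL_zero_eq, trc]
      simp
    rw [e3, e2]
    simp
  have hterm0 : fc (LL ρ) (fun t => (g (et hρ t) : ℂ)) 0 = 0 := by
    have := hGp 0
    rw [hY0] at this
    simpa using this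
  rw [hterm0, zero_mul, add_zero] at h1
  have h2 := (h1.mul_left (LL ρ : ℂ)).mapL (prL θ)
  have hval : prL θ ((LL ρ : ℂ) * (1 / (LL ρ : ℂ) * ∫ x in (0 : ℝ)..(LL ρ),
      (g (et hρ x) : ℂ) * (cexp (I * n * (et hρ x : ℂ)) / (hR ρ (et hρ x) : ℂ)))) =
      al θ n * den ρ θ n / 2 := by
    rw [← mul_assoc, mul_one_div_cancel hLc, one_mul, ← hm.dir θ hθ n,
      change_var (f := fun t => (g (et hρ t) : ℂ) * (cexp (I * n * (et hρ t : ℂ)) /
        (hR ρ (et hρ t) : ℂ)))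
      ((hgc.comp (continuous_et hρ)).mul (hFc.comp (continuous_et hρ)))]
    have e1 : ∫ x in (0 : ℝ)..(2 * π), (hR ρ x : ℂ) * ((g (et hρ (sR ρ x)) : ℂ) *
        (cexp (I * n * (et hρ (sR ρ x) : ℂ)) / (hR ρ (et hρ (sR ρ x)) : ℂ))) =
        ∫ x in (0 : ℝ)..(2 * π), (g x : ℂ) * cexp (((n * x : ℝ) : ℂ) * I) := by
      refine intervalIntegral.integral_congr (fun x _ => ?_)
      have e6 := hhne x
      rw [et_sR]
      have e8 : I * (n : ℂ) * (x : ℂ) = ((n * x : ℝ) : ℂ) * I := by push_cast; ring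
      rw [e8]
      field_simp
    rw [e1, prL_integral]
    · refine intervalIntegral.integral_congr (fun x _ => ?_)
      rw [prL_ofReal_mul, prL_exp]
    · exact hgc.mul (by fun_prop)
  rw [hval] at h2
  have hterm : ∀ k : ℕ, prL θ ((LL ρ : ℂ) * (fc (LL ρ) (fun t => (g (et hρ t) : ℂ)) k *
      fc (LL ρ) (fun t => cexp (I * n * (et hρ t : ℂ)) / (hR ρ (et hρ t) : ℂ)) (-(k : ℤ)) +
      fc (LL ρ) (fun t => (g (et hρ t) : ℂ)) (-(k : ℤ)) *
      fc (LL ρ) (fun t => cexp (I * n * (et hρ t : ℂ)) / (hR ρ (et hρ t) : ℂ)) (-(-(k : ℤ))))) =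
      om ρ * (yy ρ g θ k * (W ρ k n + θ * W ρ k (-n))) := by
    intro k
    rw [neg_neg, hGp, hGn, hFn, hFp]
    have e1 : (LL ρ : ℂ) * (1 / (LL ρ : ℂ) * conj (Y k) * (1 / (LL ρ : ℂ) *
        (2 * π * (W ρ k (-n) : ℂ))) + 1 / (LL ρ : ℂ) * Y k * (1 / (LL ρ : ℂ) *
        (2 * π * (W ρ k n : ℂ)))) = ((om ρ * W ρ k (-n) : ℝ) : ℂ) * conj (Y k) +
        ((om ρ * W ρ k n : ℝ) : ℂ) * Y k := by
      rw [← two_pi_div_LL hρ]
      push_cast
      field_simp
    rw [e1, map_add, prL_ofReal_mul, prL_ofReal_mul, prL_conj hθ, hYpr]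
    ring
  rw [← funext hterm]
  exact h2

/-- The expansion of the modes in the WKB coefficients. -/
theorem al_sum {ρ τ : ℝ} (hρ : 0 < ρ) (hτ : 0 < τ) {g : ℝ → ℝ} {al : ℝ → ℤ → ℝ}
    (hm : Modes ρ τ g al) {θ : ℝ} (hθ : θ = 1 ∨ θ = -1) (n : ℤ) :
    HasSum (fun k : ℕ => om ρ * (yy ρ g θ k * bt ρ θ k n)) (al θ n) := by
  by_cases hn : n ≠ 0 ∨ θ = 1
  · have hden := den_ne hρ hθ hn
    have h := (complete_sum hρ hτ hm hθ n).mul_left (2 / den ρ θ n)
    have e1 : 2 / den ρ θ n * (al θ n * den ρ θ n / 2) = al θ n := by field_simp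
    have e2 : ∀ k : ℕ, 2 / den ρ θ n * (om ρ * (yy ρ g θ k * (W ρ k n + θ * W ρ k (-n)))) =
        om ρ * (yy ρ g θ k * bt ρ θ k n) := fun k => by
      rw [bt]; ring
    rw [e1, funext e2] at h
    exact h
  · push Not at hn
    have h1 : θ = -1 := by
      rcases hθ with h | h
      · exact absurd h hn.2
      · exact h
    have hb : ∀ k : ℕ, om ρ * (yy ρ g θ k * bt ρ θ k n) = 0 := fun k => by
      have : bt ρ θ k n = 0 := by rw [bt, den, hn.1, h1]; simp
      rw [this, mul_zero, mul_zero]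
    rw [funext hb, hn.1, h1, hm.zero]
    exact hasSum_zero

end Pool.Agent.Lib.MP_6dec34_an
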