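import Pool.Agent.Lib.MP_6dec34_an.Coeffs

/-!
The differences `w_n - w_{-n}`.
-/

set_option autoImplicit false

namespace Pool.Agent.Lib.MP_6dec34_an

open MeasureTheory Real Complex intervalIntegral Set
open scoped ComplexConjugate Interval

/-- the differences -/
noncomputable def dd (ρ : ℝ) (k : ℕ) (n : ℤ) : ℝ := w ρ k n - w ρ k (-n)

theorem dd_neg (ρ : ℝ) (k : ℕ) (n : ℤ) : dd ρ k (-n) = -dd ρ k n := by
  rw [dd, dd, neg_neg]
  ring

/-- parity factor -/
noncomputable def par (k : ℕ) (n : ℤ) : ℝ := 1 + (-1 : ℝ) ^ (n + (k : ℤ))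

theorem par_nonneg (k : ℕ) (n : ℤ) : 0 ≤ par k n := by
  unfold par
  rcases Int.even_or_odd (n + (k : ℤ)) with h | h
  · rw [h.neg_one_zpow]; norm_num
  · rw [h.neg_one_zpow]; norm_num

theorem par_le (k : ℕ) (n : ℤ) : par k n ≤ 2 := by
  unfold par
  rcases Int.even_or_odd (n + (k : ℤ)) with h | h
  · rw [h.neg_one_zpow]; norm_num
  · rw [h.neg_one_zpow]; norm_num

theorem EL_rho_neg {ρ : ℝ} (hρ : 0 < ρ) (k : ℕ) (x : ℝ) :
    EL ρ k ρ (-x) = conj (EL ρ k ρ x) := EL_neg (by rw [abs_of_pos hρ]) k x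

theorem dd_eq {ρ : ℝ} (hρ : 0 < ρ) (k : ℕ) (n : ℤ) :
    dd ρ k n = 2 / π * par k n * ∫ x in (0 : ℝ)..(π / 2), (EL ρ k ρ x).im * Real.sin (n * x) := by
  set f := EL ρ k ρ with hf
  have hfc : Continuous f := continuous_EL_rho hρ k
  have hsc : Continuous (fun x : ℝ => f x * (Real.sin (n * x) : ℂ)) :=
    hfc.mul (Complex.continuous_ofReal.comp (by fun_prop))
  have hgc : Continuous (fun x : ℝ => (f x).im * Real.sin (n * x)) :=
    (Complex.continuous_im.comp hfc).mul (by fun_prop)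
  have hI : ∀ m : ℤ, IntervalIntegrable (fun x : ℝ => f x * cexp (-(I * m * x))) volume
      0 (2 * π) := fun m => (by fun_prop : Continuous (fun x : ℝ =>
        f x * cexp (-(I * m * x)))).intervalIntegrable _ _
  have h1 : ((dd ρ k n : ℝ) : ℂ) = (1 / (2 * (π : ℂ))) * ((-2 * I) *
      ∫ x in (0 : ℝ)..(2 * π), f x * (Real.sin (n * x) : ℂ)) := by
    rw [dd, Complex.ofReal_sub, ← fc_ELρ hρ, ← fc_ELρ hρ, fc_two_pi, fc_two_pi, ← mul_sub,
      ← intervalIntegral.integral_sub (hI n) (hI (-n))]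
    congr 1
    rw [← intervalIntegral.integral_const_mul]
    refine intervalIntegral.integral_congr (f := fun x : ℝ => f x * cexp (-(I * n * x)) -
      f x * cexp (-(I * ((-n : ℤ) : ℂ) * x)))
      (g := fun x : ℝ => (-2 * I) * (f x * (Real.sin (n * x) : ℂ))) (fun x _ => ?_)
    have h2 : (Real.sin (n * x) : ℂ) = (cexp (-(I * n * x)) - cexp (-(I * ((-n : ℤ) : ℂ) * x))) *
        I / 2 := by
      rw [Complex.ofReal_sin, Complex.sin]
      push_cast
      congr 3
      · congr 1; ring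
      · congr 1; ring
    simp only
    rw [h2]
    linear_combination (f x * (cexp (-(I * n * x)) - cexp (-(I * ((-n : ℤ) : ℂ) * x)))) *
      Complex.I_mul_I
  have hper : Function.Periodic (fun x : ℝ => f x * (Real.sin (n * x) : ℂ)) (2 * π) := by
    intro x
    simp only
    rw [hf, EL_periodic hρ k ρ x]
    congr 2
    rw [mul_add, ← Real.sin_add_int_mul_two_pi (n * x) n]
  have h2 : ∫ x in (0 : ℝ)..(2 * π), f x * (Real.sin (n * x) : ℂ) =
      2 * I * ((∫ x in (0 : ℝ)..π, (f x).im * Real.sin (n * x) : ℝ) : ℂ) := by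
    have e1 := hper.intervalIntegral_add_eq 0 (-π)
    rw [zero_add, show -π + 2 * π = π by ring] at e1
    rw [e1, ← intervalIntegral.integral_add_adjacent_intervals (b := 0)
      (hsc.intervalIntegrable _ _) (hsc.intervalIntegrable _ _)]
    have e2 := intervalIntegral.integral_comp_neg (a := 0) (b := π)
      (fun x : ℝ => f x * (Real.sin (n * x) : ℂ))
    rw [neg_zero] at e2
    have hsn : Continuous (fun x : ℝ => f (-x) * (Real.sin (n * (-x)) : ℂ)) :=
      hsc.comp continuous_neg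
    rw [← e2, ← intervalIntegral.integral_add (hsn.intervalIntegrable _ _)
      (hsc.intervalIntegrable _ _), ← intervalIntegral.integral_ofReal,
      ← intervalIntegral.integral_const_mul]
    refine intervalIntegral.integral_congr (fun x _ => ?_)
    rw [hf, EL_rho_neg hρ, mul_neg, Real.sin_neg, Complex.ofReal_neg, Complex.ofReal_mul]
    have e3 : EL ρ k ρ x - conj (EL ρ k ρ x) = 2 * I * ((EL ρ k ρ x).im : ℂ) := by
      apply Complex.ext <;> simp
      ring
    linear_combination ((Real.sin (n * x) : ℝ) : ℂ) * e3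
  have h3 : ∫ x in (0 : ℝ)..π, (f x).im * Real.sin (n * x) =
      par k n * ∫ x in (0 : ℝ)..(π / 2), (f x).im * Real.sin (n * x) := by
    rw [← intervalIntegral.integral_add_adjacent_intervals (b := π / 2)
      (hgc.intervalIntegrable _ _) (hgc.intervalIntegrable _ _)]
    have e1 := intervalIntegral.integral_comp_sub_left (a := 0) (b := π / 2)
      (fun x : ℝ => (f x).im * Real.sin (n * x)) π
    rw [show π - π / 2 = π / 2 by ring, sub_zero] at e1
    rw [← e1, par, add_mul, one_mul, ← intervalIntegral.integral_const_mul]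
    congr 1
    refine intervalIntegral.integral_congr (fun x _ => ?_)
    have e2 : f (π - x) = (-1) ^ k * conj (f x) := by
      rw [hf, show π - x = -x + π by ring, EL_pi hρ, EL_rho_neg hρ]
    have e3 : (f (π - x)).im = -((-1 : ℝ) ^ (k : ℤ) * (f x).im) := by
      rw [e2]
      rcases Nat.even_or_odd k with h | h
      · rw [h.neg_one_pow, (by exact_mod_cast h : Even (k : ℤ)).neg_one_zpow]
        simp
      · rw [h.neg_one_pow, (by exact_mod_cast h : Odd (k : ℤ)).neg_one_zpow]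
        simp
    have e4 : Real.sin (n * (π - x)) = -((-1 : ℝ) ^ n * Real.sin (n * x)) := by
      rw [mul_sub, Real.sin_sub, Real.cos_int_mul_pi, Real.sin_int_mul_pi]
      ring
    rw [e3, e4, zpow_add₀ (by norm_num : (-1 : ℝ) ≠ 0)]
    ring
  rw [h2, h3] at h1
  have h4 : ((dd ρ k n : ℝ) : ℂ) = ((2 / π * par k n *
      ∫ x in (0 : ℝ)..(π / 2), (f x).im * Real.sin (n * x) : ℝ) : ℂ) := by
    rw [h1]
    push_cast
    have : (π : ℂ) ≠ 0 := by exact_mod_cast Real.pi_ne_zero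
    field_simp
    linear_combination (-1 * ((par k n : ℝ) : ℂ) * ((∫ x in (0 : ℝ)..(π / 2),
      (f x).im * Real.sin (n * x) : ℝ) : ℂ)) * Complex.I_sq
  exact_mod_cast h4

/-- the first moment -/
noncomputable def mm (ρ : ℝ) (k : ℕ) : ℝ := ∫ x in (0 : ℝ)..(π / 2), x * (EL ρ k ρ x).im

theorem abs_sin_sub_le (x : ℝ) : |Real.sin x - x| ≤ 2 * |x| ^ 3 := by
  rcases le_or_gt |x| 1 with h | h
  · have h1 := Real.sin_bound h
    have h2 : |Real.sin x - x| ≤ |Real.sin x - (x - x ^ 3 / 6)| + |x ^ 3 / 6| := by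
      have := abs_sub (Real.sin x - (x - x ^ 3 / 6)) (x ^ 3 / 6)
      rw [show Real.sin x - (x - x ^ 3 / 6) - x ^ 3 / 6 = Real.sin x - x by ring] at this
      exact this
    have h3 : |x ^ 3 / 6| = |x| ^ 3 / 6 := by rw [abs_div, abs_pow]; norm_num
    have h4 : |x| ^ 5 ≤ |x| ^ 3 := pow_le_pow_of_le_one (abs_nonneg _) h (by norm_num)
    have h5 : 0 ≤ |x| ^ 3 := by positivity
    rw [h3] at h2
    linarith
  · have h1 : |Real.sin x| ≤ |x| := Real.abs_sin_le_abs
    have h2 : |Real.sin x - x| ≤ |Real.sin x| + |x| := abs_sub _ _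
    have h3 : |x| ≤ |x| ^ 3 := by
      nlinarith [mul_pos (by linarith : 0 < |x|) (by linarith : 0 < |x| - 1)]
    linarith

theorem dd_bound {ρ : ℝ} (hρ : 0 < ρ) :
    ∃ C : ℝ, 0 < C ∧ ∀ k : ℕ, 1 ≤ k → ∀ n : ℤ,
      |dd ρ k n| ≤ C * |(n : ℝ)| * (k : ℝ) ^ (-(4 / 3) : ℝ) * Real.exp (-(s0 ρ * k)) := by
  obtain ⟨C, hC, hb⟩ := moment_bound hρ (q := 1) (by norm_num)
  refine ⟨4 / π * C, by positivity, fun k hk n => ?_⟩
  have h1 := hb k hk
  have hfc : Continuous (EL ρ k ρ) := continuous_EL_rho hρ k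
  rw [show (-(1 + 1) / (3 / 2) : ℝ) = -(4 / 3) by norm_num] at h1
  simp only [Real.rpow_one] at h1
  rw [dd_eq hρ, abs_mul, abs_mul, abs_of_nonneg (par_nonneg k n),
    abs_of_pos (by positivity : 0 < 2 / π)]
  have h2 : |∫ x in (0 : ℝ)..(π / 2), (EL ρ k ρ x).im * Real.sin (n * x)| ≤
      |(n : ℝ)| * ∫ x in (0 : ℝ)..(π / 2), x * ‖EL ρ k ρ x‖ := by
    rw [← Real.norm_eq_abs, ← intervalIntegral.integral_const_mul]
    refine intervalIntegral.norm_integral_le_of_norm_le (by positivity) ?_ ?_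
    · refine Filter.Eventually.of_forall (fun x hx => ?_)
      have hx0 : 0 ≤ x := hx.1.le
      rw [Real.norm_eq_abs, abs_mul]
      have h3 : |(EL ρ k ρ x).im| ≤ ‖EL ρ k ρ x‖ := Complex.abs_im_le_norm _
      have h4 : |Real.sin (n * x)| ≤ |(n : ℝ)| * x := by
        refine Real.abs_sin_le_abs.trans ?_
        rw [abs_mul, abs_of_nonneg hx0]
      calc |(EL ρ k ρ x).im| * |Real.sin (n * x)| ≤ ‖EL ρ k ρ x‖ * (|(n : ℝ)| * x) :=
            mul_le_mul h3 h4 (abs_nonneg _) (norm_nonneg _)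
        _ = _ := by ring
    · have hc2 : Continuous (fun x : ℝ => |(n : ℝ)| * (x * ‖EL ρ k ρ x‖)) := by fun_prop
      exact hc2.intervalIntegrable _ _
  calc 2 / π * par k n * _ ≤ 2 / π * 2 * (|(n : ℝ)| * (C * (k : ℝ) ^ (-(4 / 3) : ℝ) *
        Real.exp (-(s0 ρ * k)))) := by
        refine mul_le_mul ?_ (h2.trans ?_) (abs_nonneg _) (by positivity)
        · exact mul_le_mul_of_nonneg_left (par_le k n) (by positivity)
        · exact mul_le_mul_of_nonneg_left h1 (abs_nonneg _)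
    _ = _ := by ring

theorem dd_approx {ρ : ℝ} (hρ : 0 < ρ) :
    ∃ C : ℝ, 0 < C ∧ ∀ k : ℕ, 1 ≤ k → ∀ n : ℤ,
      |dd ρ k n - 2 / π * par k n * (n * mm ρ k)| ≤
        C * |(n : ℝ)| ^ 3 * (k : ℝ) ^ (-(8 / 3) : ℝ) * Real.exp (-(s0 ρ * k)) := by
  obtain ⟨C, hC, hb⟩ := moment_bound hρ (q := 3) (by norm_num)
  refine ⟨4 / π * 2 * C, by positivity, fun k hk n => ?_⟩
  have h1 := hb k hk
  have hfc : Continuous (EL ρ k ρ) := continuous_EL_rho hρ k
  have hfi : Continuous (fun x => (EL ρ k ρ x).im) := Complex.continuous_im.comp hfc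
  rw [show (-(3 + 1) / (3 / 2) : ℝ) = -(8 / 3) by norm_num] at h1
  simp only [Real.rpow_ofNat] at h1
  have e1 : dd ρ k n - 2 / π * par k n * (n * mm ρ k) = 2 / π * par k n *
      ∫ x in (0 : ℝ)..(π / 2), (EL ρ k ρ x).im * (Real.sin (n * x) - n * x) := by
    have e2 : ∫ x in (0 : ℝ)..(π / 2), (EL ρ k ρ x).im * (Real.sin (n * x) - n * x) =
        (∫ x in (0 : ℝ)..(π / 2), (EL ρ k ρ x).im * Real.sin (n * x)) - n * mm ρ k := by
      rw [mm, ← intervalIntegral.integral_const_mul, ← intervalIntegral.integral_sub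
        ((by fun_prop : Continuous (fun x : ℝ => (EL ρ k ρ x).im *
          Real.sin (n * x))).intervalIntegrable _ _)
        ((by fun_prop : Continuous (fun x : ℝ => (n : ℝ) * (x *
          (EL ρ k ρ x).im))).intervalIntegrable _ _)]
      refine intervalIntegral.integral_congr (fun x _ => ?_)
      ring
    rw [e2, dd_eq hρ]
    ring
  rw [e1, abs_mul, abs_mul, abs_of_nonneg (par_nonneg k n),
    abs_of_pos (by positivity : 0 < 2 / π)]
  have h2 : |∫ x in (0 : ℝ)..(π / 2), (EL ρ k ρ x).im * (Real.sin (n * x) - n * x)| ≤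
      (2 * |(n : ℝ)| ^ 3) * ∫ x in (0 : ℝ)..(π / 2), x ^ 3 * ‖EL ρ k ρ x‖ := by
    rw [← Real.norm_eq_abs, ← intervalIntegral.integral_const_mul]
    refine intervalIntegral.norm_integral_le_of_norm_le (by positivity) ?_ ?_
    · refine Filter.Eventually.of_forall (fun x hx => ?_)
      have hx0 : 0 ≤ x := hx.1.le
      rw [Real.norm_eq_abs, abs_mul]
      have h3 : |(EL ρ k ρ x).im| ≤ ‖EL ρ k ρ x‖ := Complex.abs_im_le_norm _
      have h4 : |Real.sin (n * x) - n * x| ≤ 2 * (|(n : ℝ)| ^ 3 * x ^ 3) := by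
        refine (abs_sin_sub_le _).trans ?_
        rw [abs_mul, abs_of_nonneg hx0, mul_pow]
      calc |(EL ρ k ρ x).im| * |Real.sin (n * x) - n * x| ≤
            ‖EL ρ k ρ x‖ * (2 * (|(n : ℝ)| ^ 3 * x ^ 3)) :=
            mul_le_mul h3 h4 (abs_nonneg _) (norm_nonneg _)
        _ = _ := by ring
    · have hc2 : Continuous (fun x : ℝ => (2 * |(n : ℝ)| ^ 3) * (x ^ 3 * ‖EL ρ k ρ x‖)) := by
        fun_prop
      exact hc2.intervalIntegrable _ _
  calc 2 / π * par k n * _ ≤ 2 / π * 2 * ((2 * |(n : ℝ)| ^ 3) * (C * (k : ℝ) ^ (-(8 / 3) : ℝ) *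
        Real.exp (-(s0 ρ * k)))) := by
        refine mul_le_mul ?_ (h2.trans ?_) (abs_nonneg _) (by positivity)
        · exact mul_le_mul_of_nonneg_left (par_le k n) (by positivity)
        · exact mul_le_mul_of_nonneg_left h1 (by positivity)
    _ = _ := by ring

end Pool.Agent.Lib.MP_6dec34_an
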