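import Mathlib

/-!
Harmonic functions in elliptic coordinates.
-/

set_option autoImplicit false

namespace Pool.Agent.Lib.MP_6dec34_an

open MeasureTheory Real intervalIntegral Set

/-- elliptic coordinates -/
noncomputable def Phi (c : ℝ) (p : ℝ × ℝ) : ℝ × ℝ :=
  (c * Real.cosh p.1 * Real.cos p.2, c * Real.sinh p.1 * Real.sin p.2)

/-- partial derivatives -/
noncomputable def px (f : ℝ × ℝ → ℝ) (q : ℝ × ℝ) : ℝ := fderiv ℝ f q ((1 : ℝ), (0 : ℝ))
noncomputable def py (f : ℝ × ℝ → ℝ) (q : ℝ × ℝ) : ℝ := fderiv ℝ f q ((0 : ℝ), (1 : ℝ))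

noncomputable def Ac (c : ℝ) (p : ℝ × ℝ) : ℝ := c * Real.sinh p.1 * Real.cos p.2
noncomputable def Bc (c : ℝ) (p : ℝ × ℝ) : ℝ := c * Real.cosh p.1 * Real.sin p.2

/-- the `ξ`-derivative of `u ∘ Φ` -/
noncomputable def V1 (c : ℝ) (u : ℝ × ℝ → ℝ) (p : ℝ × ℝ) : ℝ :=
  Ac c p * px u (Phi c p) + Bc c p * py u (Phi c p)
/-- the `η`-derivative of `u ∘ Φ` -/
noncomputable def V2 (c : ℝ) (u : ℝ × ℝ → ℝ) (p : ℝ × ℝ) : ℝ :=
  -Bc c p * px u (Phi c p) + Ac c p * py u (Phi c p)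

theorem clm_pair (L : ℝ × ℝ →L[ℝ] ℝ) (A B : ℝ) :
    L (A, B) = A * L ((1 : ℝ), (0 : ℝ)) + B * L ((0 : ℝ), (1 : ℝ)) := by
  have h : ((A, B) : ℝ × ℝ) = A • ((1 : ℝ), (0 : ℝ)) + B • ((0 : ℝ), (1 : ℝ)) := by
    ext <;> simp
  rw [h, map_add, map_smul, map_smul, smul_eq_mul, smul_eq_mul]

theorem hasDerivAt_comp_Phi_xi {c : ℝ} {f : ℝ × ℝ → ℝ} (hf : Differentiable ℝ f) (p : ℝ × ℝ) :
    HasDerivAt (fun s => f (Phi c (s, p.2)))
      (Ac c p * px f (Phi c p) + Bc c p * py f (Phi c p)) p.1 := by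
  have h1 : HasDerivAt (fun s => Phi c (s, p.2)) (Ac c p, Bc c p) p.1 := by
    unfold Phi Ac Bc
    exact (((Real.hasDerivAt_cosh p.1).const_mul c).mul_const (Real.cos p.2)).prodMk
      (((Real.hasDerivAt_sinh p.1).const_mul c).mul_const (Real.sin p.2))
  have h2 := (hf (Phi c (p.1, p.2))).hasFDerivAt.comp_hasDerivAt p.1 h1
  rw [clm_pair] at h2
  exact h2

theorem hasDerivAt_comp_Phi_eta {c : ℝ} {f : ℝ × ℝ → ℝ} (hf : Differentiable ℝ f) (p : ℝ × ℝ) :
    HasDerivAt (fun s => f (Phi c (p.1, s)))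
      (-Bc c p * px f (Phi c p) + Ac c p * py f (Phi c p)) p.2 := by
  have h1 : HasDerivAt (fun s => Phi c (p.1, s)) (-Bc c p, Ac c p) p.2 := by
    unfold Phi Ac Bc
    have e1 := (Real.hasDerivAt_cos p.2).const_mul (c * Real.cosh p.1)
    have e2 := (Real.hasDerivAt_sin p.2).const_mul (c * Real.sinh p.1)
    rw [mul_neg] at e1
    exact e1.prodMk e2
  have h2 := (hf (Phi c (p.1, p.2))).hasFDerivAt.comp_hasDerivAt p.2 h1
  rw [clm_pair] at h2
  exact h2

theorem contDiff_Phi (c : ℝ) : ContDiff ℝ 2 (Phi c) := by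
  unfold Phi
  have h1 : ContDiff ℝ 2 Real.cosh := Real.contDiff_cosh
  have h2 : ContDiff ℝ 2 Real.sinh := Real.contDiff_sinh
  fun_prop

theorem contDiff_px {u : ℝ × ℝ → ℝ} (hu : ContDiff ℝ 2 u) : ContDiff ℝ 1 (px u) := by
  unfold px
  exact (hu.fderiv_right (by norm_num)).clm_apply contDiff_const

theorem contDiff_py {u : ℝ × ℝ → ℝ} (hu : ContDiff ℝ 2 u) : ContDiff ℝ 1 (py u) := by
  unfold py
  exact (hu.fderiv_right (by norm_num)).clm_apply contDiff_const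

theorem contDiff_Ac (c : ℝ) : ContDiff ℝ 1 (Ac c) := by
  unfold Ac
  have h2 : ContDiff ℝ 1 Real.sinh := Real.contDiff_sinh
  fun_prop

theorem contDiff_Bc (c : ℝ) : ContDiff ℝ 1 (Bc c) := by
  unfold Bc
  have h2 : ContDiff ℝ 1 Real.cosh := Real.contDiff_cosh
  fun_prop

theorem contDiff_V1 {c : ℝ} {u : ℝ × ℝ → ℝ} (hu : ContDiff ℝ 2 u) : ContDiff ℝ 1 (V1 c u) := by
  unfold V1
  have h1 := contDiff_Ac c
  have h2 := contDiff_Bc c
  have h3 : ContDiff ℝ 1 (fun p => px u (Phi c p)) :=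
    (contDiff_px hu).comp ((contDiff_Phi c).of_le (by norm_num))
  have h4 : ContDiff ℝ 1 (fun p => py u (Phi c p)) :=
    (contDiff_py hu).comp ((contDiff_Phi c).of_le (by norm_num))
  fun_prop

theorem contDiff_V2 {c : ℝ} {u : ℝ × ℝ → ℝ} (hu : ContDiff ℝ 2 u) : ContDiff ℝ 1 (V2 c u) := by
  unfold V2
  have h1 := contDiff_Ac c
  have h2 := contDiff_Bc c
  have h3 : ContDiff ℝ 1 (fun p => px u (Phi c p)) :=
    (contDiff_px hu).comp ((contDiff_Phi c).of_le (by norm_num))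
  have h4 : ContDiff ℝ 1 (fun p => py u (Phi c p)) :=
    (contDiff_py hu).comp ((contDiff_Phi c).of_le (by norm_num))
  fun_prop

theorem hasDerivAt_V1_xi {c : ℝ} {u : ℝ × ℝ → ℝ} (hu : ContDiff ℝ 2 u) (p : ℝ × ℝ) :
    HasDerivAt (fun s => V1 c u (s, p.2))
      ((c * Real.cosh p.1 * Real.cos p.2) * px u (Phi c p) +
        Ac c p * (Ac c p * px (px u) (Phi c p) + Bc c p * py (px u) (Phi c p)) +
       ((c * Real.sinh p.1 * Real.sin p.2) * py u (Phi c p) +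
        Bc c p * (Ac c p * px (py u) (Phi c p) + Bc c p * py (py u) (Phi c p)))) p.1 := by
  have h1 := hasDerivAt_comp_Phi_xi (c := c)
    ((contDiff_px hu).differentiable (by norm_num)) p
  have h2 := hasDerivAt_comp_Phi_xi (c := c)
    ((contDiff_py hu).differentiable (by norm_num)) p
  have h3 : HasDerivAt (fun s => Ac c (s, p.2)) (c * Real.cosh p.1 * Real.cos p.2) p.1 := by
    unfold Ac
    exact (((Real.hasDerivAt_sinh p.1).const_mul c).mul_const (Real.cos p.2))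
  have h4 : HasDerivAt (fun s => Bc c (s, p.2)) (c * Real.sinh p.1 * Real.sin p.2) p.1 := by
    unfold Bc
    exact (((Real.hasDerivAt_cosh p.1).const_mul c).mul_const (Real.sin p.2))
  exact (h3.mul h1).add (h4.mul h2)

theorem hasDerivAt_V2_eta {c : ℝ} {u : ℝ × ℝ → ℝ} (hu : ContDiff ℝ 2 u) (p : ℝ × ℝ) :
    HasDerivAt (fun s => V2 c u (p.1, s))
      (-(c * Real.cosh p.1 * Real.cos p.2) * px u (Phi c p) +
        -Bc c p * (-Bc c p * px (px u) (Phi c p) + Ac c p * py (px u) (Phi c p)) +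
       (-(c * Real.sinh p.1 * Real.sin p.2) * py u (Phi c p) +
        Ac c p * (-Bc c p * px (py u) (Phi c p) + Ac c p * py (py u) (Phi c p)))) p.2 := by
  have h1 := hasDerivAt_comp_Phi_eta (c := c)
    ((contDiff_px hu).differentiable (by norm_num)) p
  have h2 := hasDerivAt_comp_Phi_eta (c := c)
    ((contDiff_py hu).differentiable (by norm_num)) p
  have h3 : HasDerivAt (fun s => -Bc c (p.1, s)) (-(c * Real.cosh p.1 * Real.cos p.2)) p.2 := by
    unfold Bc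
    have := (Real.hasDerivAt_sin p.2).const_mul (-(c * Real.cosh p.1))
    simpa only [neg_mul] using this
  have h4 : HasDerivAt (fun s => Ac c (p.1, s)) (-(c * Real.sinh p.1 * Real.sin p.2)) p.2 := by
    unfold Ac
    have := ((Real.hasDerivAt_cos p.2).const_mul (c * Real.sinh p.1))
    rwa [mul_neg] at this
  exact (h3.mul h1).add (h4.mul h2)

/-- Constancy of the flux. -/
theorem flux_const {K M : ℝ × ℝ → ℝ} (hK : ContDiff ℝ 1 K) (hM : ContDiff ℝ 1 M) {ρ : ℝ}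
    (hdiv : ∀ p : ℝ × ℝ, |p.1| < ρ → px K p + py M p = 0)
    (hper : ∀ s, M (s, 2 * π) = M (s, 0)) {ξ₁ ξ₂ : ℝ} (h₁ : |ξ₁| ≤ ρ) (h₂ : |ξ₂| ≤ ρ) :
    ∫ η in (0 : ℝ)..(2 * π), K (ξ₂, η) = ∫ η in (0 : ℝ)..(2 * π), K (ξ₁, η) := by
  have hpxK : Continuous (px K) := by
    unfold px
    exact (hK.continuous_fderiv (by norm_num)).clm_apply continuous_const
  have hpyM : Continuous (py M) := by
    unfold py
    exact (hM.continuous_fderiv (by norm_num)).clm_apply continuous_const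
  have h := integral2_divergence_prod_of_hasFDerivAt_off_countable K M (fderiv ℝ K)
    (fderiv ℝ M) ξ₁ 0 ξ₂ (2 * π) ∅ Set.countable_empty hK.continuous.continuousOn
    hM.continuous.continuousOn
    (fun x _ => (hK.differentiable (by norm_num) x).hasFDerivAt)
    (fun x _ => (hM.differentiable (by norm_num) x).hasFDerivAt)
    ((hpxK.add hpyM).continuousOn.integrableOn_compact (isCompact_uIcc.prod isCompact_uIcc))
  have h0 : ∫ x in ξ₁..ξ₂, ∫ y in (0 : ℝ)..(2 * π), (fderiv ℝ K (x, y) (1, 0) +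
      fderiv ℝ M (x, y) (0, 1)) = 0 := by
    have e1 : ∀ x ∈ Set.uIoo ξ₁ ξ₂, ∫ y in (0 : ℝ)..(2 * π), (fderiv ℝ K (x, y) (1, 0) +
        fderiv ℝ M (x, y) (0, 1)) = 0 := by
      intro x hx
      have hx' : |x| < ρ := by
        rw [abs_le] at h₁ h₂
        rw [abs_lt]
        have := hx.1
        have := hx.2
        constructor
        · rcases min_lt_iff.1 hx.1 with h | h <;> linarith
        · rcases lt_max_iff.1 hx.2 with h | h <;> linarith
      have e2 : ∀ y : ℝ, (fderiv ℝ K (x, y) (1, 0) + fderiv ℝ M (x, y) (0, 1)) = 0 :=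
        fun y => hdiv (x, y) hx'
      simp only [e2, intervalIntegral.integral_zero]
    rw [intervalIntegral.integral_congr_uIoo e1]
    simp
  rw [h0] at h
  have h2 : ∫ x in ξ₁..ξ₂, M (x, 2 * π) = ∫ x in ξ₁..ξ₂, M (x, 0) :=
    intervalIntegral.integral_congr (fun x _ => hper x)
  rw [h2] at h
  linarith

theorem contDiff_one_of {g g' : ℝ → ℝ} (hg : ∀ x, HasDerivAt g (g' x) x) (hc : Continuous g') :
    ContDiff ℝ 1 g := by
  rw [contDiff_one_iff_deriv]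
  refine ⟨fun x => (hg x).differentiableAt, ?_⟩
  rw [show deriv g = g' from funext (fun x => (hg x).deriv)]
  exact hc

theorem Phi_two_pi (c s : ℝ) : Phi c (s, 2 * π) = Phi c (s, 0) := by
  simp [Phi]

theorem px_eq {K : ℝ × ℝ → ℝ} (hK : ContDiff ℝ 1 K) {p : ℝ × ℝ} {d : ℝ}
    (h : HasDerivAt (fun s => K (s, p.2)) d p.1) : px K p = d := by
  have h1 : HasDerivAt (fun s : ℝ => (s, p.2)) ((1 : ℝ), (0 : ℝ)) p.1 :=
    (hasDerivAt_id p.1).prodMk (hasDerivAt_const p.1 p.2)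
  have h2 := (hK.differentiable (by norm_num) (p.1, p.2)).hasFDerivAt.comp_hasDerivAt p.1 h1
  exact h2.unique h

theorem py_eq {K : ℝ × ℝ → ℝ} (hK : ContDiff ℝ 1 K) {p : ℝ × ℝ} {d : ℝ}
    (h : HasDerivAt (fun s => K (p.1, s)) d p.2) : py K p = d := by
  have h1 : HasDerivAt (fun s : ℝ => (p.1, s)) ((0 : ℝ), (1 : ℝ)) p.2 :=
    (hasDerivAt_const p.2 p.1).prodMk (hasDerivAt_id p.2)
  have h2 := (hK.differentiable (by norm_num) (p.1, p.2)).hasFDerivAt.comp_hasDerivAt p.2 h1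
  exact h2.unique h

/-- The flux identity for separated functions. -/
theorem flux_sep {c ρ : ℝ} {u : ℝ × ℝ → ℝ} (hu : ContDiff ℝ 2 u)
    (hharm : ∀ p : ℝ × ℝ, |p.1| < ρ → px (px u) (Phi c p) + py (py u) (Phi c p) = 0)
    {g g' t t' : ℝ → ℝ} {m : ℝ} (hg : ∀ x, HasDerivAt g (g' x) x)
    (hg' : ∀ x, HasDerivAt g' (m * g x) x) (ht : ∀ x, HasDerivAt t (t' x) x)
    (ht' : ∀ x, HasDerivAt t' (-(m * t x)) x) (htp : t (2 * π) = t 0)
    (htp' : t' (2 * π) = t' 0) {ξ₁ ξ₂ : ℝ} (h₁ : |ξ₁| ≤ ρ) (h₂ : |ξ₂| ≤ ρ) :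
    g ξ₂ * (∫ η in (0 : ℝ)..(2 * π), V1 c u (ξ₂, η) * t η) -
      g' ξ₂ * (∫ η in (0 : ℝ)..(2 * π), u (Phi c (ξ₂, η)) * t η) =
    g ξ₁ * (∫ η in (0 : ℝ)..(2 * π), V1 c u (ξ₁, η) * t η) -
      g' ξ₁ * (∫ η in (0 : ℝ)..(2 * π), u (Phi c (ξ₁, η)) * t η) := by
  have cg : Continuous g := continuous_iff_continuousAt.2 (fun x => (hg x).continuousAt)
  have cg' : Continuous g' := continuous_iff_continuousAt.2 (fun x => (hg' x).continuousAt)
  have ct : Continuous t := continuous_iff_continuousAt.2 (fun x => (ht x).continuousAt)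
  have ct' : Continuous t' := continuous_iff_continuousAt.2 (fun x => (ht' x).continuousAt)
  have dg : ContDiff ℝ 1 g := contDiff_one_of hg cg'
  have dg' : ContDiff ℝ 1 g' := contDiff_one_of hg' (by fun_prop)
  have dt : ContDiff ℝ 1 t := contDiff_one_of ht ct'
  have dt' : ContDiff ℝ 1 t' := contDiff_one_of ht' (by fun_prop)
  have hV1 := contDiff_V1 (c := c) hu
  have hV2 := contDiff_V2 (c := c) hu
  have huP : ContDiff ℝ 1 (fun p => u (Phi c p)) :=
    (hu.of_le (by norm_num)).comp ((contDiff_Phi c).of_le (by norm_num))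
  have dg1 : ContDiff ℝ 1 (fun p : ℝ × ℝ => g p.1) := dg.comp contDiff_fst
  have dg2 : ContDiff ℝ 1 (fun p : ℝ × ℝ => g' p.1) := dg'.comp contDiff_fst
  have dt1 : ContDiff ℝ 1 (fun p : ℝ × ℝ => t p.2) := dt.comp contDiff_snd
  have dt2 : ContDiff ℝ 1 (fun p : ℝ × ℝ => t' p.2) := dt'.comp contDiff_snd
  have hK : ContDiff ℝ 1 (fun p : ℝ × ℝ => V1 c u p * (g p.1 * t p.2) -
      u (Phi c p) * (g' p.1 * t p.2)) := (hV1.mul (dg1.mul dt1)).sub (huP.mul (dg2.mul dt1))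
  have hM : ContDiff ℝ 1 (fun p : ℝ × ℝ => V2 c u p * (g p.1 * t p.2) -
      u (Phi c p) * (g p.1 * t' p.2)) := (hV2.mul (dg1.mul dt1)).sub (huP.mul (dg1.mul dt2))
  have hflux := flux_const hK hM (ρ := ρ) (fun p hp => by
    have e1 := hasDerivAt_V1_xi (c := c) hu p
    have e2 := hasDerivAt_comp_Phi_xi (c := c) (hu.differentiable (by norm_num)) p
    have e3 := hasDerivAt_V2_eta (c := c) hu p
    have e4 := hasDerivAt_comp_Phi_eta (c := c) (hu.differentiable (by norm_num)) p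
    have k1 := (e1.mul ((hg p.1).mul_const (t p.2))).sub (e2.mul ((hg' p.1).mul_const (t p.2)))
    have k2 := (e3.mul ((ht p.2).const_mul (g p.1))).sub (e4.mul ((ht' p.2).const_mul (g p.1)))
    rw [px_eq hK k1, py_eq hM k2]
    simp only [V1, V2]
    linear_combination (g p.1 * t p.2 * (Ac c p ^ 2 + Bc c p ^ 2)) * hharm p hp)
    (fun s => by
      simp only [V2, Ac, Bc, Phi_two_pi, htp, htp']
      simp) h₁ h₂
  have hsplit : ∀ s : ℝ, ∫ η in (0 : ℝ)..(2 * π), (V1 c u (s, η) * (g s * t η) -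
      u (Phi c (s, η)) * (g' s * t η)) =
      g s * (∫ η in (0 : ℝ)..(2 * π), V1 c u (s, η) * t η) -
      g' s * (∫ η in (0 : ℝ)..(2 * π), u (Phi c (s, η)) * t η) := by
    intro s
    have hc1 : Continuous (fun η : ℝ => V1 c u (s, η)) := hV1.continuous.comp (by fun_prop)
    have hc2 : Continuous (fun η : ℝ => u (Phi c (s, η))) := huP.continuous.comp (by fun_prop)
    have i1 : IntervalIntegrable (fun η : ℝ => g s * (V1 c u (s, η) * t η)) volume 0 (2 * π) :=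
      (continuous_const.mul (hc1.mul ct)).intervalIntegrable _ _
    have i2 : IntervalIntegrable (fun η : ℝ => g' s * (u (Phi c (s, η)) * t η)) volume
        0 (2 * π) := (continuous_const.mul (hc2.mul ct)).intervalIntegrable _ _
    rw [← intervalIntegral.integral_const_mul, ← intervalIntegral.integral_const_mul,
      ← intervalIntegral.integral_sub i1 i2]
    refine intervalIntegral.integral_congr (fun η _ => ?_)
    ring
  rw [← hsplit, ← hsplit]
  exact hflux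

theorem odd_integral_zero {f : ℝ → ℝ} (hf : ∀ x, f (2 * π - x) = -f x) :
    ∫ x in (0 : ℝ)..(2 * π), f x = 0 := by
  have h1 := intervalIntegral.integral_comp_sub_left (a := 0) (b := 2 * π) f (2 * π)
  rw [sub_self, sub_zero] at h1
  simp only [hf, intervalIntegral.integral_neg] at h1
  linarith

theorem cos_int_reflect (n : ℤ) (x : ℝ) : Real.cos (n * (2 * π - x)) = Real.cos (n * x) := by
  rw [mul_sub, Real.cos_int_mul_two_pi_sub]

theorem sin_int_reflect (n : ℤ) (x : ℝ) : Real.sin (n * (2 * π - x)) = -Real.sin (n * x) := by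
  rw [mul_sub, Real.sin_int_mul_two_pi_sub]

theorem Phi_zero_reflect (c x : ℝ) : Phi c (0, 2 * π - x) = Phi c (0, x) := by
  simp [Phi, Real.cos_two_pi_sub]

/-- The modes of a harmonic function in elliptic coordinates. -/
theorem elliptic_modes {c ρ : ℝ} (hρ : 0 < ρ) {u : ℝ × ℝ → ℝ} (hu : ContDiff ℝ 2 u)
    (hharm : ∀ p : ℝ × ℝ, |p.1| < ρ → px (px u) (Phi c p) + py (py u) (Phi c p) = 0) :
    ∃ α β : ℤ → ℝ, β 0 = 0 ∧ ∀ (n : ℤ) (ξ : ℝ), |ξ| ≤ ρ →
      (∫ η in (0 : ℝ)..(2 * π), u (Phi c (ξ, η)) * Real.cos (n * η)) = α n * Real.cosh (n * ξ) ∧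
      (∫ η in (0 : ℝ)..(2 * π), u (Phi c (ξ, η)) * Real.sin (n * η)) = β n * Real.sinh (n * ξ) ∧
      (∫ η in (0 : ℝ)..(2 * π), V1 c u (ξ, η) * Real.cos (n * η)) =
        n * Real.sinh (n * ξ) * α n ∧
      (∫ η in (0 : ℝ)..(2 * π), V1 c u (ξ, η) * Real.sin (n * η)) =
        n * Real.cosh (n * ξ) * β n := by
  have hcos : ∀ n : ℤ, ∀ x : ℝ, HasDerivAt (fun x : ℝ => Real.cos (n * x))
      (-(n * Real.sin (n * x))) x := fun n x => by
    have := (Real.hasDerivAt_cos (n * x)).comp x ((hasDerivAt_id x).const_mul (n : ℝ))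
    simp only [mul_one, neg_mul] at this
    rw [mul_comm (n : ℝ) (Real.sin (n * x))]
    exact this
  have hsin : ∀ n : ℤ, ∀ x : ℝ, HasDerivAt (fun x : ℝ => Real.sin (n * x))
      (n * Real.cos (n * x)) x := fun n x => by
    have := (Real.hasDerivAt_sin (n * x)).comp x ((hasDerivAt_id x).const_mul (n : ℝ))
    simp only [mul_one] at this
    rw [mul_comm (n : ℝ) (Real.cos (n * x))]
    exact this
  have hcosh : ∀ n : ℤ, ∀ x : ℝ, HasDerivAt (fun x : ℝ => Real.cosh (n * x))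
      (n * Real.sinh (n * x)) x := fun n x => by
    have := (Real.hasDerivAt_cosh (n * x)).comp x ((hasDerivAt_id x).const_mul (n : ℝ))
    simp only [mul_one] at this
    rw [mul_comm (n : ℝ) (Real.sinh (n * x))]
    exact this
  have hsinh : ∀ n : ℤ, ∀ x : ℝ, HasDerivAt (fun x : ℝ => Real.sinh (n * x))
      (n * Real.cosh (n * x)) x := fun n x => by
    have := (Real.hasDerivAt_sinh (n * x)).comp x ((hasDerivAt_id x).const_mul (n : ℝ))
    simp only [mul_one] at this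
    rw [mul_comm (n : ℝ) (Real.cosh (n * x))]
    exact this
  have hcos' : ∀ n : ℤ, ∀ x : ℝ, HasDerivAt (fun x : ℝ => -(n * Real.sin (n * x)))
      (-((n : ℝ) ^ 2 * Real.cos (n * x))) x := fun n x => by
    have := (hsin n x).const_mul (-(n : ℝ))
    rw [show -((n : ℝ) ^ 2 * Real.cos (n * x)) = -(n : ℝ) * (n * Real.cos (n * x)) by ring]
    simpa only [neg_mul] using this
  have hsin' : ∀ n : ℤ, ∀ x : ℝ, HasDerivAt (fun x : ℝ => n * Real.cos (n * x))
      (-((n : ℝ) ^ 2 * Real.sin (n * x))) x := fun n x => by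
    have := (hcos n x).const_mul (n : ℝ)
    rw [show -((n : ℝ) ^ 2 * Real.sin (n * x)) = (n : ℝ) * -(n * Real.sin (n * x)) by ring]
    exact this
  have hcosh' : ∀ n : ℤ, ∀ x : ℝ, HasDerivAt (fun x : ℝ => n * Real.sinh (n * x))
      ((n : ℝ) ^ 2 * Real.cosh (n * x)) x := fun n x => by
    have := (hsinh n x).const_mul (n : ℝ)
    rw [show (n : ℝ) ^ 2 * Real.cosh (n * x) = (n : ℝ) * (n * Real.cosh (n * x)) by ring]
    exact this
  have hsinh' : ∀ n : ℤ, ∀ x : ℝ, HasDerivAt (fun x : ℝ => n * Real.cosh (n * x))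
      ((n : ℝ) ^ 2 * Real.sinh (n * x)) x := fun n x => by
    have := (hcosh n x).const_mul (n : ℝ)
    rw [show (n : ℝ) ^ 2 * Real.sinh (n * x) = (n : ℝ) * (n * Real.sinh (n * x)) by ring]
    exact this
  have hc2 : ∀ n : ℤ, Real.cos (n * (2 * π)) = Real.cos (n * 0) := fun n => by
    rw [Real.cos_int_mul_two_pi, mul_zero, Real.cos_zero]
  have hs2 : ∀ n : ℤ, Real.sin (n * (2 * π)) = Real.sin (n * 0) := fun n => by
    have := sin_int_reflect n 0
    rw [sub_zero] at this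
    rw [this]
    simp
  have h0 : |(0 : ℝ)| ≤ ρ := by simpa using hρ.le
  -- values at `ξ = 0`
  have hz1 : ∀ n : ℤ, ∫ η in (0 : ℝ)..(2 * π), V1 c u (0, η) * Real.cos (n * η) = 0 := by
    intro n
    refine odd_integral_zero (fun x => ?_)
    rw [cos_int_reflect, V1, V1, Phi_zero_reflect, Ac, Ac, Bc, Bc]
    simp [Real.sin_two_pi_sub]
  have hz2 : ∀ n : ℤ, ∫ η in (0 : ℝ)..(2 * π), u (Phi c (0, η)) * Real.sin (n * η) = 0 := by
    intro n
    refine odd_integral_zero (fun x => ?_)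
    rw [sin_int_reflect, Phi_zero_reflect]
    ring
  refine ⟨fun n => ∫ η in (0 : ℝ)..(2 * π), u (Phi c (0, η)) * Real.cos (n * η),
    fun n => (∫ η in (0 : ℝ)..(2 * π), V1 c u (0, η) * Real.sin (n * η)) / n, by simp, ?_⟩
  intro n ξ hξ
  have f1 := flux_sep hu hharm (hcosh n) (hcosh' n) (hcos n) (hcos' n) (hc2 n)
    (by rw [hs2 n]) h0 hξ
  have f2 := flux_sep hu hharm (hsinh n) (hsinh' n) (hcos n) (hcos' n) (hc2 n)
    (by rw [hs2 n]) h0 hξ
  have f3 := flux_sep hu hharm (hcosh n) (hcosh' n) (hsin n) (hsin' n) (hs2 n)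
    (by rw [hc2 n]) h0 hξ
  have f4 := flux_sep hu hharm (hsinh n) (hsinh' n) (hsin n) (hsin' n) (hs2 n)
    (by rw [hc2 n]) h0 hξ
  rw [hz1 n] at f1 f2
  rw [hz2 n] at f3 f4
  simp only [mul_zero, Real.cosh_zero, Real.sinh_zero, one_mul, zero_mul, sub_zero, zero_sub,
    sub_self, mul_one] at f1 f2 f3 f4
  have hid := Real.cosh_sq ((n : ℝ) * ξ)
  obtain ⟨a, ha⟩ : ∃ a, a = ∫ η in (0 : ℝ)..(2 * π), u (Phi c (ξ, η)) * Real.cos (n * η) :=
    ⟨_, rfl⟩
  obtain ⟨b, hb⟩ : ∃ b, b = ∫ η in (0 : ℝ)..(2 * π), u (Phi c (ξ, η)) * Real.sin (n * η) :=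
    ⟨_, rfl⟩
  obtain ⟨a', ha'⟩ : ∃ a', a' = ∫ η in (0 : ℝ)..(2 * π), V1 c u (ξ, η) * Real.cos (n * η) :=
    ⟨_, rfl⟩
  obtain ⟨b', hb'⟩ : ∃ b', b' = ∫ η in (0 : ℝ)..(2 * π), V1 c u (ξ, η) * Real.sin (n * η) :=
    ⟨_, rfl⟩
  obtain ⟨a0, ha0⟩ : ∃ a0, a0 = ∫ η in (0 : ℝ)..(2 * π), u (Phi c (0, η)) * Real.cos (n * η) :=
    ⟨_, rfl⟩
  obtain ⟨b0, hb0⟩ : ∃ b0, b0 = ∫ η in (0 : ℝ)..(2 * π), V1 c u (0, η) * Real.sin (n * η) :=
    ⟨_, rfl⟩
  rw [← ha, ← ha'] at f1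
  rw [← ha, ← ha', ← ha0] at f2
  rw [← hb, ← hb', ← hb0] at f3
  rw [← hb, ← hb'] at f4
  beta_reduce
  rw [← ha, ← hb, ← ha', ← hb', ← ha0, ← hb0]
  have g2 : a' = n * Real.sinh (n * ξ) * a0 := by
    linear_combination (Real.cosh (n * ξ)) * f1 - (Real.sinh (n * ξ)) * f2 - a' * hid
  have g3 : b' = Real.cosh (n * ξ) * b0 := by
    linear_combination (Real.cosh (n * ξ)) * f3 - (Real.sinh (n * ξ)) * f4 - b' * hid
  rcases eq_or_ne n 0 with hn | hn
  · subst hn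
    have f5 := flux_sep hu hharm (g := fun x => x) (g' := fun _ => 1) (t := fun _ => 1)
      (t' := fun _ => 0) (m := 0) (fun x => hasDerivAt_id x)
      (fun x => by simpa using hasDerivAt_const x (1 : ℝ)) (fun x => hasDerivAt_const x (1 : ℝ))
      (fun x => by simpa using hasDerivAt_const x (0 : ℝ)) rfl rfl h0 hξ
    simp only [Int.cast_zero, zero_mul, Real.cos_zero, Real.sin_zero, mul_zero,
      intervalIntegral.integral_zero, Real.sinh_zero, Real.cosh_zero, mul_one, one_mul]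
      at ha hb ha' hb' ha0 hb0 g2 g3 f5 ⊢
    rw [← ha', ← ha, ← ha0] at f5
    refine ⟨?_, hb, g2, hb'⟩
    rw [g2] at f5
    linarith
  · have hn' : (n : ℝ) ≠ 0 := by exact_mod_cast hn
    refine ⟨?_, ?_, g2, ?_⟩
    · apply mul_left_cancel₀ hn'
      linear_combination (Real.sinh (n * ξ)) * f1 - (Real.cosh (n * ξ)) * f2 - n * a * hid
    · rw [div_mul_eq_mul_div, eq_div_iff hn']
      linear_combination (Real.sinh (n * ξ)) * f3 - (Real.cosh (n * ξ)) * f4 - n * b * hid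
    · rw [g3]
      field_simp

end Pool.Agent.Lib.MP_6dec34_an
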