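import Pool.Agent.Lib.MP_6dec34_an.Strip

/-!
The exponentials `exp (i k ω s(z))` and their Fourier coefficients on horizontal lines.
-/

set_option autoImplicit false

namespace Pool.Agent.Lib.MP_6dec34_an

open MeasureTheory Real Complex intervalIntegral Set
open scoped ComplexConjugate Interval

/-- half of the length -/
noncomputable def Lh (ρ : ℝ) : ℝ := ∫ t in (0 : ℝ)..π, hR ρ t

/-- the spacing of the quasi-eigenvalues -/
noncomputable def om (ρ : ℝ) : ℝ := π / Lh ρ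

theorem Lh_pos {ρ : ℝ} (hρ : 0 < ρ) : 0 < Lh ρ :=
  intervalIntegral.intervalIntegral_pos_of_pos ((continuous_hR ρ).intervalIntegrable _ _)
    (hR_pos hρ) Real.pi_pos

theorem om_pos {ρ : ℝ} (hρ : 0 < ρ) : 0 < om ρ := div_pos Real.pi_pos (Lh_pos hρ)

theorem om_mul_Lh {ρ : ℝ} (hρ : 0 < ρ) : om ρ * Lh ρ = π :=
  div_mul_cancel₀ _ (Lh_pos hρ).ne'

/-- the primitive on the real line -/
noncomputable def sR (ρ x : ℝ) : ℝ := ∫ t in (0 : ℝ)..x, hR ρ t

theorem integral_hh_real (ρ x₁ x₂ : ℝ) :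
    ∫ t in x₁..x₂, hh ρ (t : ℂ) = ((∫ t in x₁..x₂, hR ρ t : ℝ) : ℂ) := by
  rw [← intervalIntegral.integral_ofReal]
  exact intervalIntegral.integral_congr (fun t _ => hh_ofReal ρ t)

theorem S2_zero (ρ x : ℝ) : S2 ρ x 0 = (sR ρ x : ℂ) := by
  rw [S2, integral_hh_real, sR]
  simp

theorem sc_ofReal (ρ x : ℝ) : sc ρ (x : ℂ) = (sR ρ x : ℂ) := by
  rw [sc, Complex.ofReal_re, Complex.ofReal_im, S2_zero]

theorem integral_hR_pi (ρ x : ℝ) : ∫ t in x..(x + π), hR ρ t = Lh ρ := by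
  have h : Function.Periodic (hR ρ) π := hR_pi ρ
  rw [h.intervalIntegral_add_eq x 0, zero_add, Lh]

theorem S2_pi {ρ x y : ℝ} : S2 ρ (x + π) y = S2 ρ x y + Lh ρ := by
  have h1 : (∫ t in (0 : ℝ)..(x + π), hh ρ t) = (∫ t in (0 : ℝ)..x, hh ρ t) + Lh ρ := by
    rw [integral_hh_real, integral_hh_real, ← integral_hR_pi ρ x, ← Complex.ofReal_add,
      intervalIntegral.integral_add_adjacent_intervals
        ((continuous_hR ρ).intervalIntegrable _ _) ((continuous_hR ρ).intervalIntegrable _ _)]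
  have h2 : (∫ t in (0 : ℝ)..y, hh ρ (((x + π : ℝ) : ℂ) + t * I)) =
      ∫ t in (0 : ℝ)..y, hh ρ (x + t * I) := by
    refine intervalIntegral.integral_congr (fun t _ => ?_)
    rw [← hh_pi ρ (x + t * I)]
    congr 1
    push_cast
    ring
  rw [S2, S2, h1, h2]
  ring

theorem sc_pi (ρ : ℝ) (z : ℂ) : sc ρ (z + π) = sc ρ z + Lh ρ := by
  rw [sc, sc]
  simp only [add_re, ofReal_re, add_im, ofReal_im, add_zero]
  exact S2_pi

theorem S2_neg_conj {ρ x y : ℝ} (hy : |y| ≤ ρ) : S2 ρ (-x) y = -conj (S2 ρ x y) := by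
  have h1 : (∫ t in (0 : ℝ)..(-x), hh ρ t) = -(∫ t in (0 : ℝ)..x, hh ρ t) := by
    rw [integral_hh_real, integral_hh_real, ← Complex.ofReal_neg]
    congr 1
    have h := intervalIntegral.integral_comp_neg (a := 0) (b := x) (fun t => hR ρ t)
    simp only [hR_neg, neg_zero] at h
    rw [h, intervalIntegral.integral_symm]
  have h2 : (∫ t in (0 : ℝ)..y, hh ρ (((-x : ℝ) : ℂ) + t * I)) =
      conj (∫ t in (0 : ℝ)..y, hh ρ (x + t * I)) := by
    rw [← intervalIntegral_conj]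
    refine intervalIntegral.integral_congr (fun t ht => ?_)
    have ht' : |t| ≤ ρ := abs_le_of_mem_uIcc (y₁ := 0) (by
      simpa using (abs_nonneg y).trans hy) hy ht
    rw [← hh_conj ht', ← hh_neg]
    congr 1
    simp
    ring
  rw [S2, S2, h1, h2, map_add, map_mul, Complex.conj_I, integral_hh_real, Complex.conj_ofReal]
  ring

theorem norm_S2_sub_le {ρ x₁ x₂ y₁ y₂ : ℝ} (h₁ : |y₁| ≤ ρ) (h₂ : |y₂| ≤ ρ) :
    ‖S2 ρ x₂ y₂ - S2 ρ x₁ y₁‖ ≤ (Real.cosh ρ + Real.sinh ρ) * (|x₂ - x₁| + |y₂ - y₁|) := by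
  have e : S2 ρ x₂ y₂ - S2 ρ x₁ y₁ = (S2 ρ x₂ y₂ - S2 ρ x₁ y₂) + (S2 ρ x₁ y₂ - S2 ρ x₁ y₁) := by
    ring
  rw [e, S2_sub_x h₂, S2_sub_y h₁ h₂, mul_add]
  refine (norm_add_le _ _).trans (add_le_add ?_ ?_)
  · exact intervalIntegral.norm_integral_le_of_norm_le_const (fun t _ => norm_hh_le h₂)
  · rw [norm_mul, Complex.norm_I, one_mul]
    refine intervalIntegral.norm_integral_le_of_norm_le_const (fun t ht => ?_)
    exact norm_hh_le (abs_le_of_mem_uIcc h₁ h₂ (Set.uIoc_subset_uIcc ht))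

theorem continuousOn_sc (ρ : ℝ) : ContinuousOn (sc ρ) {z : ℂ | |z.im| ≤ ρ} := by
  intro z hz
  rw [ContinuousWithinAt, tendsto_iff_norm_sub_tendsto_zero]
  have h1 : Filter.Tendsto (fun w : ℂ => (Real.cosh ρ + Real.sinh ρ) *
      (|w.re - z.re| + |w.im - z.im|)) (nhdsWithin z {z : ℂ | |z.im| ≤ ρ}) (nhds 0) := by
    have h2 : Continuous (fun w : ℂ => (Real.cosh ρ + Real.sinh ρ) *
      (|w.re - z.re| + |w.im - z.im|)) := by fun_prop
    have h3 := h2.tendsto z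
    simp only [sub_self, abs_zero, add_zero, mul_zero] at h3
    exact h3.mono_left nhdsWithin_le_nhds
  refine squeeze_zero' (Filter.Eventually.of_forall (fun w => norm_nonneg _)) ?_ h1
  filter_upwards [self_mem_nhdsWithin] with w hw
  exact norm_S2_sub_le hz hw

/-- the exponential `exp (i k ω s(z))` -/
noncomputable def EE (ρ : ℝ) (k : ℕ) (z : ℂ) : ℂ := cexp (I * (k * om ρ : ℝ) * sc ρ z)

theorem EE_pi {ρ : ℝ} (hρ : 0 < ρ) (k : ℕ) (z : ℂ) : EE ρ k (z + π) = (-1) ^ k * EE ρ k z := by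
  have h1 : I * ((k * om ρ : ℝ) : ℂ) * (sc ρ z + Lh ρ) =
      I * ((k * om ρ : ℝ) : ℂ) * sc ρ z + k * (π * I) := by
    have h2 : ((om ρ : ℝ) : ℂ) * (Lh ρ : ℂ) = (π : ℂ) := by
      rw [← Complex.ofReal_mul, om_mul_Lh hρ]
    push_cast
    linear_combination (I * (k : ℂ)) * h2
  rw [EE, sc_pi, h1, Complex.exp_add, EE, Complex.exp_nat_mul, Complex.exp_pi_mul_I]
  ring

theorem EE_two_pi {ρ : ℝ} (hρ : 0 < ρ) (k : ℕ) (z : ℂ) : EE ρ k (z + 2 * π) = EE ρ k z := by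
  rw [show z + 2 * π = z + π + π by ring, EE_pi hρ, EE_pi hρ, ← mul_assoc, ← pow_add,
    ← two_mul, pow_mul]
  simp

theorem continuousOn_EE (ρ : ℝ) (k : ℕ) : ContinuousOn (EE ρ k) {z : ℂ | |z.im| ≤ ρ} := by
  unfold EE
  exact (continuousOn_const.mul (continuousOn_sc ρ)).cexp

theorem hasDerivAt_EE {ρ : ℝ} (k : ℕ) {z : ℂ} (hz0 : 0 < z.im) (hz1 : z.im < ρ) :
    HasDerivAt (EE ρ k) (EE ρ k z * (I * (k * om ρ : ℝ) * hh ρ z)) z :=
  ((hasDerivAt_sc hz0 hz1).const_mul (I * ((k * om ρ : ℝ) : ℂ))).cexp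

theorem norm_EE (ρ : ℝ) (k : ℕ) (z : ℂ) : ‖EE ρ k z‖ = Real.exp (-(k * om ρ * (sc ρ z).im)) := by
  rw [EE, Complex.norm_exp]
  congr 1
  simp only [mul_re, I_re, I_im, ofReal_re, ofReal_im, mul_im]
  ring

/-- the restriction to a horizontal line -/
noncomputable def EL (ρ : ℝ) (k : ℕ) (y : ℝ) (x : ℝ) : ℂ := EE ρ k (x + y * I)

theorem continuous_EL {ρ y : ℝ} (hy : |y| ≤ ρ) (k : ℕ) : Continuous (EL ρ k y) := by
  unfold EL
  refine (continuousOn_EE ρ k).comp_continuous (by fun_prop) (fun x => ?_)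
  simpa using hy

theorem EL_periodic {ρ : ℝ} (hρ : 0 < ρ) (k : ℕ) (y : ℝ) :
    Function.Periodic (EL ρ k y) (2 * π) := by
  intro x
  rw [EL, EL, ← EE_two_pi hρ k (x + y * I)]
  congr 1
  push_cast
  ring

theorem EL_pi {ρ : ℝ} (hρ : 0 < ρ) (k : ℕ) (y x : ℝ) :
    EL ρ k y (x + π) = (-1) ^ k * EL ρ k y x := by
  rw [EL, EL, ← EE_pi hρ k (x + y * I)]
  congr 1
  push_cast
  ring

theorem EL_neg {ρ y : ℝ} (hy : |y| ≤ ρ) (k : ℕ) (x : ℝ) :
    EL ρ k y (-x) = conj (EL ρ k y x) := by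
  rw [EL, EL, EE, EE, ← Complex.exp_conj, sc, sc]
  have h1 : ((((-x : ℝ) : ℂ)) + y * I).re = -x := by simp
  have h2 : ((((-x : ℝ) : ℂ)) + y * I).im = y := by simp
  have h3 : (((x : ℝ) : ℂ) + y * I).re = x := by simp
  have h4 : (((x : ℝ) : ℂ) + y * I).im = y := by simp
  rw [h1, h2, h3, h4, S2_neg_conj hy, map_mul, map_mul, Complex.conj_I, Complex.conj_ofReal]
  congr 1
  ring

theorem two_pi_cast : (((2 * π : ℝ)) : ℂ) = 2 * (π : ℂ) := by push_cast; ring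

theorem fc_two_pi (f : ℝ → ℂ) (n : ℤ) :
    fc (2 * π) f n = (1 / (2 * (π : ℂ))) * ∫ x in (0 : ℝ)..(2 * π), f x * cexp (-(I * n * x)) := by
  rw [fc, two_pi_cast]
  congr 1
  refine intervalIntegral.integral_congr (fun x _ => ?_)
  congr 2
  have : (π : ℂ) ≠ 0 := by exact_mod_cast Real.pi_ne_zero
  field_simp

/-- Moving the line of integration. -/
theorem fc_EL {ρ y : ℝ} (hρ : 0 < ρ) (hy0 : 0 ≤ y) (hy1 : y ≤ ρ) (k : ℕ) (n : ℤ) :
    fc (2 * π) (EL ρ k y) n = fc (2 * π) (EL ρ k 0) n * Real.exp (-(n * y)) := by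
  rcases hy0.eq_or_lt with rfl | hypos
  · simp
  have h := Complex.integral_boundary_rect_eq_zero_of_continuousOn_of_differentiableOn
    (fun z => EE ρ k z * cexp (-(I * n * z))) 0 (((2 * π : ℝ) : ℂ) + y * I) (by
      have hsub : ([[(0 : ℂ).re, (((2 * π : ℝ) : ℂ) + y * I).re]] ×ℂ
          [[(0 : ℂ).im, (((2 * π : ℝ) : ℂ) + y * I).im]]) ⊆ {z : ℂ | |z.im| ≤ ρ} := by
        intro z hz
        rw [Complex.mem_reProdIm] at hz
        simp at hz
        have : |(y : ℝ)| ≤ ρ := by rw [abs_of_pos hypos]; exact hy1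
        exact abs_le_of_mem_uIcc (y₁ := 0) (by simpa using hρ.le) this hz.2
      exact ((continuousOn_EE ρ k).mono hsub).mul (by fun_prop)) (by
      intro z hz
      rw [Complex.mem_reProdIm] at hz
      simp only [zero_im, add_im, ofReal_im, mul_im, ofReal_re, I_im, mul_one, I_re, mul_zero,
        add_zero, zero_add, Set.mem_Ioo, min_eq_left hypos.le, max_eq_right hypos.le] at hz
      have h1 : DifferentiableAt ℂ (EE ρ k) z :=
        (hasDerivAt_EE k hz.2.1 (lt_of_lt_of_le hz.2.2 hy1)).differentiableAt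
      have h2 : DifferentiableAt ℂ (fun z : ℂ => cexp (-(I * n * z))) z := by fun_prop
      exact (h1.mul h2).differentiableWithinAt)
  have hside : ∀ t : ℝ, EE ρ k (((2 * π : ℝ) : ℂ) + t * I) *
      cexp (-(I * n * (((2 * π : ℝ) : ℂ) + t * I))) =
      EE ρ k (((0 : ℝ) : ℂ) + t * I) * cexp (-(I * n * (((0 : ℝ) : ℂ) + t * I))) := by
    intro t
    have h1 : EE ρ k (((2 * π : ℝ) : ℂ) + t * I) = EE ρ k (((0 : ℝ) : ℂ) + t * I) := by
      rw [← EE_two_pi hρ k (((0 : ℝ) : ℂ) + t * I)]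
      congr 1
      push_cast
      ring
    have h2 : cexp (-(I * n * (((2 * π : ℝ) : ℂ) + t * I))) =
        cexp (-(I * n * (((0 : ℝ) : ℂ) + t * I))) := by
      rw [Complex.exp_eq_exp_iff_exists_int]
      refine ⟨-n, ?_⟩
      push_cast
      ring
    rw [h1, h2]
  simp only [zero_re, zero_im, add_re, ofReal_re, mul_re, I_re, mul_zero, ofReal_im, I_im, mul_one,
    sub_self, add_zero, add_im, mul_im, zero_add, Complex.ofReal_zero, zero_mul, smul_eq_mul]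
    at h hside
  rw [show (∫ t in (0 : ℝ)..y, EE ρ k (((2 * π : ℝ) : ℂ) + t * I) *
      cexp (-(I * n * (((2 * π : ℝ) : ℂ) + t * I)))) =
      ∫ t in (0 : ℝ)..y, EE ρ k (t * I) * cexp (-(I * n * (t * I))) from
      intervalIntegral.integral_congr (fun t _ => hside t)] at h
  have h3 : (∫ x in (0 : ℝ)..(2 * π), EE ρ k (x + y * I) * cexp (-(I * n * (x + y * I)))) =
      cexp ((n * y : ℝ)) * ∫ x in (0 : ℝ)..(2 * π), EL ρ k y x * cexp (-(I * n * x)) := by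
    rw [← intervalIntegral.integral_const_mul]
    refine intervalIntegral.integral_congr (fun x _ => ?_)
    simp only [EL]
    have h4 : cexp (-(I * n * (x + y * I))) = cexp ((n * y : ℝ)) * cexp (-(I * n * x)) := by
      rw [← Complex.exp_add]
      congr 1
      push_cast
      linear_combination (-(n : ℂ) * y) * Complex.I_sq
    rw [h4]
    ring
  have h5 : (∫ x in (0 : ℝ)..(2 * π), EE ρ k x * cexp (-(I * n * x))) =
      ∫ x in (0 : ℝ)..(2 * π), EL ρ k 0 x * cexp (-(I * n * x)) := by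
    refine intervalIntegral.integral_congr (fun x _ => ?_)
    simp only [EL, Complex.ofReal_zero, zero_mul, add_zero]
  rw [h3, h5] at h
  rw [fc_two_pi, fc_two_pi]
  have h6 : cexp ((n * y : ℝ)) * cexp ((-(n * y) : ℝ)) = 1 := by
    rw [← Complex.exp_add, ← Complex.ofReal_add]
    simp
  rw [Complex.ofReal_exp]
  have h7 : (∫ x in (0 : ℝ)..(2 * π), EL ρ k y x * cexp (-(I * n * x))) =
      (∫ x in (0 : ℝ)..(2 * π), EL ρ k 0 x * cexp (-(I * n * x))) * cexp ((-(n * y) : ℝ)) := by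
    linear_combination (-cexp ((-(n * y) : ℝ))) * h -
      (∫ x in (0 : ℝ)..(2 * π), EL ρ k y x * cexp (-(I * n * x))) * h6
  rw [h7]
  ring

end Pool.Agent.Lib.MP_6dec34_an
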