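import Pool.Agent.Lib.MP_6dec34_an.Main

/-!
The statement in Cartesian coordinates.
-/

set_option autoImplicit false

namespace Pool.Agent.Lib.MP_6dec34_an

open MeasureTheory Real Complex intervalIntegral Set Filter
open scoped ComplexConjugate Interval Topology

theorem Phi_mem {c ρ : ℝ} (hc : 0 < c) {p : ℝ × ℝ} (hp : |p.1| < ρ) :
    ((Phi c p).1 / (c * Real.cosh ρ)) ^ 2 + ((Phi c p).2 / (c * Real.sinh ρ)) ^ 2 < 1 := by
  have hρ : 0 < ρ := (abs_nonneg _).trans_lt hp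
  have hs : 0 < Real.sinh ρ := Real.sinh_pos_iff.2 hρ
  have hch := Real.cosh_pos ρ
  have e1 : (Phi c p).1 / (c * Real.cosh ρ) = Real.cosh p.1 / Real.cosh ρ * Real.cos p.2 := by
    rw [Phi]; field_simp
  have e2 : (Phi c p).2 / (c * Real.sinh ρ) = Real.sinh p.1 / Real.sinh ρ * Real.sin p.2 := by
    rw [Phi]; field_simp
  have h1 : (Real.cosh p.1 / Real.cosh ρ) ^ 2 < 1 := by
    rw [div_pow, div_lt_one (by positivity)]
    have h3 : Real.cosh p.1 < Real.cosh ρ := by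
      rw [Real.cosh_lt_cosh, abs_of_pos hρ]; exact hp
    exact pow_lt_pow_left₀ h3 (Real.cosh_pos _).le two_ne_zero
  have h2 : (Real.sinh p.1 / Real.sinh ρ) ^ 2 < 1 := by
    rw [div_pow, div_lt_one (by positivity), ← sq_abs (Real.sinh p.1), Real.abs_sinh]
    exact pow_lt_pow_left₀ (Real.sinh_lt_sinh.2 hp) (Real.sinh_nonneg_iff.2 (abs_nonneg _))
      two_ne_zero
  rw [e1, e2, mul_pow, mul_pow]
  have h3 := Real.sin_sq_add_cos_sq p.2
  rcases eq_or_ne (Real.cos p.2) 0 with h | h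
  · rw [h] at h3 ⊢
    have h4 : Real.sin p.2 ^ 2 = 1 := by linarith
    rw [h4]
    linarith
  · have h4 : 0 < Real.cos p.2 ^ 2 := by positivity
    have h5 : 0 ≤ Real.sin p.2 ^ 2 := sq_nonneg _
    nlinarith

theorem cosh_eq_Phi (c : ℝ) (z : ℂ) : (c : ℂ) * Complex.cosh z =
    (((Phi c (z.re, z.im)).1 : ℝ) : ℂ) + (((Phi c (z.re, z.im)).2 : ℝ) : ℂ) * I := by
  conv_lhs => rw [← Complex.re_add_im z]
  rw [Complex.cosh_add, Complex.cosh_mul_I, Complex.sinh_mul_I, Phi]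
  push_cast
  ring

theorem final (a b : ℝ) (hb : 0 < b) (hab : b < a) :
    ∃ S : Set (ℝ × ℝ), MeasurableSet S ∧ MeasureTheory.volume S ≠ 0 ∧
      S ⊆ {x : ℝ × ℝ | (x.1 / a) ^ 2 + (x.2 / b) ^ 2 < 1} ∧
      ∃ Λ : ℝ, ∀ σ : ℝ, Λ ≤ σ → ∀ u : ℝ × ℝ → ℝ, ContDiff ℝ 2 u →
        (∀ x : ℝ × ℝ, (x.1 / a) ^ 2 + (x.2 / b) ^ 2 < 1 →
          fderiv ℝ (fun y => fderiv ℝ u y ((1 : ℝ), (0 : ℝ))) x ((1 : ℝ), (0 : ℝ)) +
            fderiv ℝ (fun y => fderiv ℝ u y ((0 : ℝ), (1 : ℝ))) x ((0 : ℝ), (1 : ℝ)) = 0) →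
        (∀ p : ℝ × ℝ, (p.1 / a) ^ 2 + (p.2 / b) ^ 2 = 1 →
          fderiv ℝ u p (p.1 / a ^ 2, p.2 / b ^ 2) =
            σ * Real.sqrt ((p.1 / a ^ 2) ^ 2 + (p.2 / b ^ 2) ^ 2) * u p) →
        (∀ x ∈ S, 0 ≤ u x) ∨ (∀ x ∈ S, u x ≤ 0) := by
  -- the parameters
  have ha : 0 < a := hb.trans hab
  obtain ⟨c, hcd⟩ : ∃ c, c = Real.sqrt (a ^ 2 - b ^ 2) := ⟨_, rfl⟩
  have hpos : 0 < a ^ 2 - b ^ 2 := by nlinarith
  have hc : 0 < c := by rw [hcd]; exact Real.sqrt_pos.2 hpos
  have hc2 : c ^ 2 = a ^ 2 - b ^ 2 := by rw [hcd]; exact Real.sq_sqrt hpos.le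
  obtain ⟨ρ, hρd⟩ : ∃ ρ, ρ = Real.arsinh (b / c) := ⟨_, rfl⟩
  have hρ : 0 < ρ := by rw [hρd]; exact Real.arsinh_pos_iff.2 (by positivity)
  have hsinh : c * Real.sinh ρ = b := by
    rw [hρd, Real.sinh_arsinh]; field_simp
  have hcosh : c * Real.cosh ρ = a := by
    have h1 : (c * Real.cosh ρ) ^ 2 = a ^ 2 := by
      rw [mul_pow, Real.cosh_sq]
      have : (c * Real.sinh ρ) ^ 2 = b ^ 2 := by rw [hsinh]
      nlinarith
    have h2 : 0 < c * Real.cosh ρ := mul_pos hc (Real.cosh_pos _)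
    exact (sq_eq_sq₀ h2.le ha.le).1 h1
  -- the region
  obtain ⟨ξm, δ, hξm, hδ, z₀, hz₀, hgood⟩ := exists_good hρ
  have hF : HasStrictDerivAt (fun z : ℂ => (c : ℂ) * Complex.cosh z)
      ((c : ℂ) * Complex.sinh z₀) z₀ := (Complex.hasStrictDerivAt_cosh z₀).const_mul _
  have hF0 : (c : ℂ) * Complex.sinh z₀ ≠ 0 := by
    apply mul_ne_zero (by exact_mod_cast hc.ne')
    intro h
    have h1 : Complex.sinh z₀ = ((Real.sinh z₀.re * Real.cos z₀.im : ℝ) : ℂ) +
        ((Real.cosh z₀.re * Real.sin z₀.im : ℝ) : ℂ) * I := by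
      conv_lhs => rw [← Complex.re_add_im z₀]
      rw [Complex.sinh_add, Complex.cosh_mul_I, Complex.sinh_mul_I]
      push_cast
      ring
    rw [h] at h1
    have h2 := congrArg Complex.re h1
    have h3 := congrArg Complex.im h1
    have e1 : ((((Real.sinh z₀.re * Real.cos z₀.im : ℝ) : ℂ) +
        ((Real.cosh z₀.re * Real.sin z₀.im : ℝ) : ℂ) * I)).re =
          Real.sinh z₀.re * Real.cos z₀.im := by
      rw [Complex.add_re, Complex.ofReal_re, Complex.re_ofReal_mul, Complex.I_re]; ring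
    have e2 : ((((Real.sinh z₀.re * Real.cos z₀.im : ℝ) : ℂ) +
        ((Real.cosh z₀.re * Real.sin z₀.im : ℝ) : ℂ) * I)).im =
          Real.cosh z₀.re * Real.sin z₀.im := by
      rw [Complex.add_im, Complex.ofReal_im, Complex.im_ofReal_mul, Complex.I_im]; ring
    rw [e1, Complex.zero_re] at h2
    rw [e2, Complex.zero_im] at h3
    have h4 : 0 < Real.sinh z₀.re := Real.sinh_pos_iff.2 hz₀
    have h5 := Real.cosh_pos z₀.re
    have h6 : Real.cos z₀.im = 0 := by
      rcases mul_eq_zero.1 h2.symm with h | h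
      · exact absurd h h4.ne'
      · exact h
    have h7 : Real.sin z₀.im = 0 := by
      rcases mul_eq_zero.1 h3.symm with h | h
      · exact absurd h h5.ne'
      · exact h
    have h8 := Real.sin_sq_add_cos_sq z₀.im
    rw [h6, h7] at h8
    norm_num at h8
  have hmap := hF.map_nhds_eq hF0
  have himg : (fun z : ℂ => (c : ℂ) * Complex.cosh z) '' {z : ℂ | Good ρ ξm δ z.re z.im} ∈
      𝓝 ((c : ℂ) * Complex.cosh z₀) := by
    rw [← hmap]
    exact Filter.image_mem_map hgood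
  obtain ⟨O, hOsub, hOopen, hOmem⟩ := mem_nhds_iff.1 himg
  have hcontj : Continuous (fun p : ℝ × ℝ => (p.1 : ℂ) + (p.2 : ℂ) * I) := by fun_prop
  have hSopen : IsOpen {p : ℝ × ℝ | (p.1 : ℂ) + (p.2 : ℂ) * I ∈ O} := hOopen.preimage hcontj
  have hSmem : ∀ p : ℝ × ℝ, (p.1 : ℂ) + (p.2 : ℂ) * I ∈ O → ∃ ξ η : ℝ, Good ρ ξm δ ξ η ∧
      p = Phi c (ξ, η) := by
    intro p hp
    obtain ⟨z, hz, hzp⟩ := hOsub hp
    refine ⟨z.re, z.im, hz, ?_⟩
    simp only at hzp
    rw [cosh_eq_Phi] at hzp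
    have h1 := congrArg Complex.re hzp
    have h2 := congrArg Complex.im hzp
    simp only [Complex.add_re, Complex.ofReal_re, Complex.re_ofReal_mul, Complex.I_re, mul_zero,
      add_zero, Complex.add_im, Complex.ofReal_im, Complex.im_ofReal_mul, Complex.I_im, mul_one,
      zero_add] at h1 h2
    exact Prod.ext h1.symm h2.symm
  refine ⟨{p : ℝ × ℝ | (p.1 : ℂ) + (p.2 : ℂ) * I ∈ O}, hSopen.measurableSet, ?_, ?_, ?_⟩
  · refine hSopen.measure_ne_zero MeasureTheory.volume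
      ⟨((Phi c (z₀.re, z₀.im)).1, (Phi c (z₀.re, z₀.im)).2), ?_⟩
    change (((Phi c (z₀.re, z₀.im)).1 : ℝ) : ℂ) + (((Phi c (z₀.re, z₀.im)).2 : ℝ) : ℂ) * I ∈ O
    rw [← cosh_eq_Phi]
    exact hOmem
  · intro p hp
    obtain ⟨ξ, η, hg, rfl⟩ := hSmem p hp
    have h1 : |((ξ, η) : ℝ × ℝ).1| < ρ := by
      have := hξm.trans_le hg.1
      change |ξ| < ρ
      rw [abs_of_pos this]
      linarith [hg.2.1]
    have h2 := Phi_mem hc h1
    rw [hcosh, hsinh] at h2
    exact h2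
  · obtain ⟨T, hT, hsign⟩ := sign_lemma hρ hξm hδ
    refine ⟨T / c, fun σ hσ u hu hharm hbd => ?_⟩
    have hτ : T ≤ c * σ := by
      rw [div_le_iff₀ hc] at hσ
      linarith
    -- harmonicity
    have hh : ∀ p : ℝ × ℝ, |p.1| < ρ → px (px u) (Phi c p) + py (py u) (Phi c p) = 0 := by
      intro p hp
      have h1 := Phi_mem hc hp
      rw [hcosh, hsinh] at h1
      exact hharm _ h1
    obtain ⟨α, β, hβ0, hmodes⟩ := elliptic_modes hρ hu hh
    have huc := hu.continuous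
    have hΦc : ∀ ξ : ℝ, Continuous (fun η : ℝ => u (Phi c (ξ, η))) := by
      intro ξ
      refine huc.comp ?_
      unfold Phi
      fun_prop
    have hΦp : ∀ ξ : ℝ, Function.Periodic (fun η : ℝ => u (Phi c (ξ, η))) (2 * π) := by
      intro ξ η
      simp only [Phi, Real.cos_add_two_pi, Real.sin_add_two_pi]
    -- boundary condition
    have hV1 : ∀ η : ℝ, V1 c u (ρ, η) = (c * σ) * (hR ρ η * u (Phi c (ρ, η))) := by
      intro η
      have hp1 : (Phi c (ρ, η)).1 = a * Real.cos η := by rw [Phi, ← hcosh]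
      have hp2 : (Phi c (ρ, η)).2 = b * Real.sin η := by rw [Phi, ← hsinh]
      have h1 := hbd (Phi c (ρ, η)) (by
        rw [hp1, hp2, mul_div_cancel_left₀ _ ha.ne', mul_div_cancel_left₀ _ hb.ne',
          Real.cos_sq_add_sin_sq])
      rw [hp1, hp2, clm_pair] at h1
      have e1 : a * Real.cos η / a ^ 2 = Real.cos η / a := by field_simp
      have e2 : b * Real.sin η / b ^ 2 = Real.sin η / b := by field_simp
      rw [e1, e2] at h1
      have e3 : c * hR ρ η = a * b * Real.sqrt ((Real.cos η / a) ^ 2 + (Real.sin η / b) ^ 2) := by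
        have h2 : 0 ≤ a * b * Real.sqrt ((Real.cos η / a) ^ 2 + (Real.sin η / b) ^ 2) := by
          positivity
        have h3 : 0 ≤ c * hR ρ η := mul_nonneg hc.le (hR_pos hρ η).le
        rw [← sq_eq_sq₀ h3 h2, mul_pow, mul_pow _ (Real.sqrt _), Real.sq_sqrt (by positivity),
          hR, Real.sq_sqrt (by positivity)]
        have h4 : (a * b) ^ 2 * ((Real.cos η / a) ^ 2 + (Real.sin η / b) ^ 2) =
            b ^ 2 * Real.cos η ^ 2 + a ^ 2 * Real.sin η ^ 2 := by
          field_simp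
        rw [h4, mul_add, ← mul_pow c (Real.sinh ρ), hsinh, hc2, Real.cos_sq']
        ring
      have h5 : V1 c u (ρ, η) = b * Real.cos η * px u (Phi c (ρ, η)) +
          a * Real.sin η * py u (Phi c (ρ, η)) := by
        rw [V1, Ac, Bc, ← hcosh, ← hsinh]
      have h6 : fderiv ℝ u (Phi c (ρ, η)) ((1 : ℝ), (0 : ℝ)) = px u (Phi c (ρ, η)) := rfl
      have h7 : fderiv ℝ u (Phi c (ρ, η)) ((0 : ℝ), (1 : ℝ)) = py u (Phi c (ρ, η)) := rfl
      rw [h6, h7] at h1
      have h8 : a * b * (Real.cos η / a * px u (Phi c (ρ, η)) +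
          Real.sin η / b * py u (Phi c (ρ, η))) = b * Real.cos η * px u (Phi c (ρ, η)) +
          a * Real.sin η * py u (Phi c (ρ, η)) := by
        field_simp
      rw [h5, ← h8, h1]
      linear_combination (-σ * u (Phi c (ρ, η))) * e3
    have hρρ : |ρ| ≤ ρ := by rw [abs_of_pos hρ]
    have hne : (-1 : ℝ) ≠ 1 := by norm_num
    have hden1 : ∀ (ξ : ℝ) (n : ℤ), den ξ 1 n / 2 = Real.cosh (n * ξ) := fun ξ n => by
      rw [den, Real.cosh_eq]; ring
    have hden2 : ∀ (ξ : ℝ) (n : ℤ), den ξ (-1) n / 2 = Real.sinh (n * ξ) := fun ξ n => by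
      rw [den, Real.sinh_eq]; ring
    have hM : Modes ρ (c * σ) (fun η => u (Phi c (ρ, η)))
        (fun θ n => if θ = 1 then α n else β n) := by
      refine ⟨hΦc ρ, hΦp ρ, ?_, ?_, ?_⟩
      · simp [hne, hβ0]
      · intro θ hθ n
        obtain ⟨m1, m2, m3, m4⟩ := hmodes n ρ hρρ
        rcases hθ with rfl | rfl
        · simp only [trc, if_true]
          rw [mul_div_assoc, hden1]
          exact m1
        · simp only [trc, hne, if_false]
          rw [mul_div_assoc, hden2]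
          exact m2
      · intro θ hθ n
        obtain ⟨m1, m2, m3, m4⟩ := hmodes n ρ hρρ
        rcases hθ with rfl | rfl
        · simp only [trc, if_true]
          rw [← intervalIntegral.integral_const_mul]
          have e1 : ∀ x : ℝ, c * σ * (hR ρ x * u (Phi c (ρ, x)) * Real.cos (n * x)) =
              V1 c u (ρ, x) * Real.cos (n * x) := fun x => by rw [hV1]; ring
          simp only [e1]
          rw [m3, Real.sinh_eq]
          ring
        · simp only [trc, hne, if_false]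
          rw [← intervalIntegral.integral_const_mul]
          have e1 : ∀ x : ℝ, c * σ * (hR ρ x * u (Phi c (ρ, x)) * Real.sin (n * x)) =
              V1 c u (ρ, x) * Real.sin (n * x) := fun x => by rw [hV1]; ring
          simp only [e1]
          rw [m4, Real.cosh_eq]
          ring
    have hres := hsign (c * σ) hτ (fun ξ η => u (Phi c (ξ, η)))
      (fun θ n => if θ = 1 then α n else β n) hΦc hΦp hM (by
        intro ξ hξ0 hξρ n
        obtain ⟨m1, m2, m3, m4⟩ := hmodes n ξ (by rw [abs_of_pos hξ0]; exact hξρ.le)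
        constructor
        · simp only [if_true]
          rw [hden1]
          exact m1
        · simp only [hne, if_false]
          rw [hden2]
          exact m2)
    rcases hres with h | h
    · left
      intro p hp
      obtain ⟨ξ, η, hg, rfl⟩ := hSmem p hp
      exact h ξ η hg
    · right
      intro p hp
      obtain ⟨ξ, η, hg, rfl⟩ := hSmem p hp
      exact h ξ η hg

end Pool.Agent.Lib.MP_6dec34_an
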