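import Mathlib

/-!
Fourier series of continuous periodic functions on the line: Parseval and inversion.
-/

set_option autoImplicit false

namespace Pool.Agent.Lib.MP_6dec34_an

open MeasureTheory Real Complex intervalIntegral
open scoped ComplexConjugate

/-- The `n`-th Fourier coefficient of a `T`-periodic function. -/
noncomputable def fc (T : ℝ) (f : ℝ → ℂ) (n : ℤ) : ℂ :=
  (1 / (T : ℂ)) * ∫ x in (0 : ℝ)..T, f x * cexp (-(2 * π * I * n * x / T))

/-- The continuous function on the circle induced by a continuous periodic function. -/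
noncomputable def circ {T : ℝ} {f : ℝ → ℂ} (hf : Continuous f) (hp : Function.Periodic f T) :
    C(AddCircle T, ℂ) :=
  ⟨hp.lift, hf.quotient_lift _⟩

theorem circ_coe {T : ℝ} {f : ℝ → ℂ} (hf : Continuous f) (hp : Function.Periodic f T) (x : ℝ) :
    circ hf hp (x : AddCircle T) = f x := rfl

theorem fc_eq_fourierCoeff {T : ℝ} [hT : Fact (0 < T)] {f : ℝ → ℂ} (hf : Continuous f)
    (hp : Function.Periodic f T) (n : ℤ) : fourierCoeff (circ hf hp) n = fc T f n := by
  rw [fourierCoeff_eq_intervalIntegral _ n 0, zero_add, fc]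
  rw [Complex.real_smul]
  push_cast
  congr 1
  refine intervalIntegral.integral_congr (fun x _ => ?_)
  simp only [circ_coe, fourier_coe_apply, smul_eq_mul]
  rw [mul_comm]
  congr 2
  push_cast
  ring

theorem integral_circ {T : ℝ} [hT : Fact (0 < T)] {f : ℝ → ℂ} (hf : Continuous f)
    (hp : Function.Periodic f T) :
    ∫ t, circ hf hp t ∂AddCircle.haarAddCircle = (1 / (T : ℂ)) * ∫ x in (0 : ℝ)..T, f x := by
  have h := fc_eq_fourierCoeff hf hp 0
  have h1 : fourierCoeff (circ hf hp) 0 = ∫ t, circ hf hp t ∂AddCircle.haarAddCircle := by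
    rw [fourierCoeff]
    simp
  rw [← h1, h, fc]
  simp

/-- Parseval's identity in bilinear form. -/
theorem parseval {T : ℝ} (hT : 0 < T) {f g : ℝ → ℂ} (hf : Continuous f) (hg : Continuous g)
    (hfp : Function.Periodic f T) (hgp : Function.Periodic g T) :
    HasSum (fun n : ℤ => fc T f n * fc T g (-n))
      ((1 / (T : ℂ)) * ∫ x in (0 : ℝ)..T, f x * g x) := by
  have : Fact (0 < T) := ⟨hT⟩
  have hg' : Continuous (fun x => conj (g x)) := Complex.continuous_conj.comp hg
  have hgp' : Function.Periodic (fun x => conj (g x)) T := fun x => by simp only [hgp x]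
  set F := ContinuousMap.toLp (E := ℂ) 2 (@AddCircle.haarAddCircle T _) ℂ (circ hf hfp) with hF
  set G := ContinuousMap.toLp (E := ℂ) 2 (@AddCircle.haarAddCircle T _) ℂ (circ hg' hgp') with hG
  have h := (@fourierBasis T _).hasSum_inner_mul_inner G F
  have h1 : ∀ n : ℤ, inner ℂ G (fourierBasis n) * inner ℂ (fourierBasis n) F =
      fc T f n * fc T g (-n) := by
    intro n
    have e1 : inner ℂ (fourierBasis n) F = fc T f n := by
      rw [← HilbertBasis.repr_apply_apply, fourierBasis_repr, hF, fourierCoeff_toLp,
        fc_eq_fourierCoeff]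
    have e2 : inner ℂ G (fourierBasis n) = fc T g (-n) := by
      rw [← inner_conj_symm, ← HilbertBasis.repr_apply_apply, fourierBasis_repr, hG,
        fourierCoeff_toLp, fc_eq_fourierCoeff, fc, fc, map_mul, ← intervalIntegral_conj]
      simp only [map_div₀, map_one, Complex.conj_ofReal]
      congr 1
      refine intervalIntegral.integral_congr (fun x _ => ?_)
      simp only [map_mul, Complex.conj_conj, ← Complex.exp_conj]
      congr 2
      simp only [map_neg, map_div₀, map_mul, Complex.conj_ofReal, Complex.conj_I, map_ofNat,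
        map_intCast]
      push_cast
      ring
    rw [e1, e2, mul_comm]
  rw [funext h1] at h
  have h2 : inner ℂ G F = (1 / (T : ℂ)) * ∫ x in (0 : ℝ)..T, f x * g x := by
    have hfg : Continuous (fun x => f x * g x) := hf.mul hg
    have hfgp : Function.Periodic (fun x => f x * g x) T := fun x => by simp only [hfp x, hgp x]
    rw [← integral_circ hfg hfgp, MeasureTheory.L2.inner_def]
    refine integral_congr_ae ?_
    filter_upwards [ContinuousMap.coeFn_toLp (E := ℂ) (p := 2) (𝕜 := ℂ)
      (@AddCircle.haarAddCircle T _) (circ hf hfp),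
      ContinuousMap.coeFn_toLp (E := ℂ) (p := 2) (𝕜 := ℂ)
      (@AddCircle.haarAddCircle T _) (circ hg' hgp')] with t ht1 ht2
    rw [hF, hG, ht1, ht2]
    induction t using QuotientAddGroup.induction_on with
    | H x =>
      rw [RCLike.inner_apply]
      change f x * conj (conj (g x)) = f x * g x
      rw [Complex.conj_conj]
  rw [h2] at h
  exact h

/-- Pointwise Fourier inversion. -/
theorem fourier_inversion {T : ℝ} (hT : 0 < T) {f : ℝ → ℂ} (hf : Continuous f)
    (hfp : Function.Periodic f T) (hs : Summable (fc T f)) (x : ℝ) :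
    HasSum (fun n : ℤ => fc T f n * cexp (2 * π * I * n * x / T)) (f x) := by
  have : Fact (0 < T) := ⟨hT⟩
  have h0 : Summable (fourierCoeff (circ hf hfp)) := by
    refine hs.congr (fun n => ?_)
    rw [fc_eq_fourierCoeff]
  have h := has_pointwise_sum_fourier_series_of_summable h0 (x : AddCircle T)
  rw [circ_coe] at h
  have h1 : (fun n : ℤ => fc T f n * cexp (2 * π * I * n * x / T)) =
      fun n : ℤ => fourierCoeff (circ hf hfp) n • fourier n (x : AddCircle T) := by
    funext n
    rw [fc_eq_fourierCoeff, fourier_coe_apply, smul_eq_mul]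
  rw [h1]
  exact h

end Pool.Agent.Lib.MP_6dec34_an
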