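import Mathlib

/-!
Positivity of an oscillatory integral.
-/

set_option autoImplicit false

namespace Pool.Agent.Lib.MP_6dec34_an

open MeasureTheory Real intervalIntegral Set

theorem integrableOn_phi : IntegrableOn (fun x : ℝ => x ^ (1 / 3 : ℝ) * (Real.exp (-x) *
    Real.sin x)) (Ioi 0) := by
  have h1 := integrableOn_rpow_mul_exp_neg_mul_rpow (p := 1) (s := 1 / 3) (b := 1)
    (by norm_num) (by norm_num) (by norm_num)
  refine Integrable.mono h1 ?_ ?_
  · apply Measurable.aestronglyMeasurable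
    fun_prop
  · refine Filter.Eventually.of_forall (fun x => ?_)
    simp only [Real.rpow_one]
    rw [norm_mul, norm_mul, norm_mul]
    apply mul_le_mul_of_nonneg_left _ (norm_nonneg _)
    rw [neg_mul, one_mul]
    have : ‖Real.sin x‖ ≤ 1 := Real.abs_sin_le_one x
    exact mul_le_of_le_one_right (norm_nonneg _) this

theorem cbrt_ge {x : ℝ} (hx0 : 0 ≤ x) (hx1 : x ≤ π) : 9 / 20 * x ≤ x ^ (1 / 3 : ℝ) := by
  obtain ⟨y, hy⟩ : ∃ y, y = x ^ (1 / 3 : ℝ) := ⟨_, rfl⟩
  have hy0 : 0 ≤ y := by rw [hy]; positivity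
  have hy3 : y ^ 3 = x := by
    rw [hy, ← Real.rpow_natCast, ← Real.rpow_mul hx0]
    norm_num
  rw [← hy, ← hy3]
  have hπ := Real.pi_lt_d2
  have h2 : y ^ 2 ≤ 20 / 9 := by
    by_contra hcon
    push Not at hcon
    have h3 : (20 / 9 : ℝ) ^ 3 < (y ^ 2) ^ 3 := pow_lt_pow_left₀ hcon (by norm_num) (by norm_num)
    have h4 : (y ^ 2) ^ 3 = x ^ 2 := by rw [← hy3]; ring
    rw [h4] at h3
    nlinarith
  nlinarith

theorem integral_phi_pos : 0 < ∫ x in Ioi (0 : ℝ), x ^ (1 / 3 : ℝ) * (Real.exp (-x) *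
    Real.sin x) := by
  have hint := integrableOn_phi
  have hπ := Real.pi_pos
  have hsplit : ∫ x in Ioi (0 : ℝ), x ^ (1 / 3 : ℝ) * (Real.exp (-x) * Real.sin x) =
      (∫ x in (0 : ℝ)..π, x ^ (1 / 3 : ℝ) * (Real.exp (-x) * Real.sin x)) +
      ∫ x in Ioi π, x ^ (1 / 3 : ℝ) * (Real.exp (-x) * Real.sin x) := by
    rw [intervalIntegral.integral_of_le hπ.le, ← setIntegral_union
      (Set.Ioc_disjoint_Ioi le_rfl) measurableSet_Ioi
      (hint.mono_set Set.Ioc_subset_Ioi_self) (hint.mono_set (Set.Ioi_subset_Ioi hπ.le)),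
      Set.Ioc_union_Ioi_eq_Ioi hπ.le]
  -- first part
  have hd1 : ∀ x ∈ Set.uIcc (0 : ℝ) π, HasDerivAt (fun x => -(1 / 2) * (Real.exp (-x) *
      ((x + 1) * Real.cos x + x * Real.sin x))) (x * (Real.exp (-x) * Real.sin x)) x := by
    intro x _
    have e1 : HasDerivAt (fun x : ℝ => Real.exp (-x)) (Real.exp (-x) * (-1)) x :=
      (hasDerivAt_neg x).exp
    have e2 : HasDerivAt (fun x : ℝ => (x + 1) * Real.cos x + x * Real.sin x)
        ((1 * Real.cos x + (x + 1) * (-Real.sin x)) + (1 * Real.sin x + x * Real.cos x)) x :=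
      (((hasDerivAt_id x).add_const 1).mul (Real.hasDerivAt_cos x)).add
        ((hasDerivAt_id x).mul (Real.hasDerivAt_sin x))
    have e3 := (e1.mul e2).const_mul (-(1 / 2))
    have e4 : -(1 / 2) * (Real.exp (-x) * (-1) * ((x + 1) * Real.cos x + x * Real.sin x) +
        Real.exp (-x) * ((1 * Real.cos x + (x + 1) * (-Real.sin x)) +
          (1 * Real.sin x + x * Real.cos x))) = x * (Real.exp (-x) * Real.sin x) := by ring
    rw [e4] at e3
    exact e3
  have h1 : ∫ x in (0 : ℝ)..π, x * (Real.exp (-x) * Real.sin x) =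
      1 / 2 + 1 / 2 * ((π + 1) * Real.exp (-π)) := by
    rw [intervalIntegral.integral_eq_sub_of_hasDerivAt hd1
      ((by fun_prop : Continuous (fun x : ℝ => x * (Real.exp (-x) *
        Real.sin x))).intervalIntegrable _ _)]
    simp
    ring
  have h2 : 9 / 20 * ∫ x in (0 : ℝ)..π, x * (Real.exp (-x) * Real.sin x) ≤
      ∫ x in (0 : ℝ)..π, x ^ (1 / 3 : ℝ) * (Real.exp (-x) * Real.sin x) := by
    rw [← intervalIntegral.integral_const_mul]
    refine intervalIntegral.integral_mono_on hπ.le ?_ ?_ (fun x hx => ?_)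
    · exact (by fun_prop : Continuous (fun x : ℝ => 9 / 20 * (x * (Real.exp (-x) *
        Real.sin x)))).intervalIntegrable _ _
    · rw [intervalIntegrable_iff_integrableOn_Ioc_of_le hπ.le]
      exact hint.mono_set Set.Ioc_subset_Ioi_self
    · have e1 := cbrt_ge hx.1 hx.2
      have e2 : 0 ≤ Real.exp (-x) * Real.sin x :=
        mul_nonneg (Real.exp_pos _).le (Real.sin_nonneg_of_nonneg_of_le_pi hx.1 hx.2)
      calc 9 / 20 * (x * (Real.exp (-x) * Real.sin x)) = (9 / 20 * x) * (Real.exp (-x) *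
            Real.sin x) := by ring
        _ ≤ _ := mul_le_mul_of_nonneg_right e1 e2
  -- second part
  have hderiv : ∀ x ∈ Ioi π, HasDerivAt (fun x : ℝ => -((x + 1) * Real.exp (-x)))
      (x * Real.exp (-x)) x := by
    intro x _
    have e1 : HasDerivAt (fun x : ℝ => Real.exp (-x)) (Real.exp (-x) * (-1)) x :=
      (hasDerivAt_neg x).exp
    have e3 := ((((hasDerivAt_id x).add_const 1).mul e1)).const_mul (-1 : ℝ)
    have e4 : (-1 : ℝ) * (1 * Real.exp (-x) + (id x + 1) * (Real.exp (-x) * (-1))) =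
        x * Real.exp (-x) := by simp only [id]; ring
    rw [e4] at e3
    simpa [neg_mul] using e3
  have htend : Filter.Tendsto (fun x : ℝ => -((x + 1) * Real.exp (-x))) Filter.atTop (nhds 0) := by
    have e1 := Real.tendsto_pow_mul_exp_neg_atTop_nhds_zero 1
    have e2 := Real.tendsto_pow_mul_exp_neg_atTop_nhds_zero 0
    have e3 := (e1.add e2).neg
    simp only [add_zero, neg_zero, pow_one, pow_zero] at e3
    refine e3.congr (fun x => ?_)
    ring
  have hcont : ContinuousWithinAt (fun x : ℝ => -((x + 1) * Real.exp (-x))) (Ici π) π := by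
    have : Continuous (fun x : ℝ => -((x + 1) * Real.exp (-x))) := by fun_prop
    exact this.continuousWithinAt
  have hintx : IntegrableOn (fun x : ℝ => x * Real.exp (-x)) (Ioi π) :=
    integrableOn_Ioi_deriv_of_nonneg hcont hderiv (fun x hx => by
      have : (0 : ℝ) < x := lt_trans hπ hx
      positivity) htend
  have h3 : ∫ x in Ioi π, x * Real.exp (-x) = (π + 1) * Real.exp (-π) := by
    rw [integral_Ioi_of_hasDerivAt_of_tendsto hcont hderiv hintx htend]
    ring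
  have h4 : -(∫ x in Ioi π, x * Real.exp (-x)) ≤
      ∫ x in Ioi π, x ^ (1 / 3 : ℝ) * (Real.exp (-x) * Real.sin x) := by
    rw [← MeasureTheory.integral_neg]
    refine setIntegral_mono_on hintx.neg (hint.mono_set (Set.Ioi_subset_Ioi hπ.le))
      measurableSet_Ioi (fun x hx => ?_)
    have hx' : π < x := hx
    have hx1 : 1 ≤ x := by linarith [Real.pi_gt_three]
    have e1 : x ^ (1 / 3 : ℝ) ≤ x := by
      calc x ^ (1 / 3 : ℝ) ≤ x ^ (1 : ℝ) := Real.rpow_le_rpow_of_exponent_le hx1 (by norm_num)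
        _ = x := Real.rpow_one x
    have e2 : 0 ≤ x ^ (1 / 3 : ℝ) := by positivity
    have e3 := Real.neg_one_le_sin x
    have e4 := Real.exp_pos (-x)
    have e5 : -(x ^ (1 / 3 : ℝ) * Real.exp (-x)) ≤ x ^ (1 / 3 : ℝ) * (Real.exp (-x) *
        Real.sin x) := by
      have : 0 ≤ x ^ (1 / 3 : ℝ) * Real.exp (-x) := by positivity
      nlinarith
    have e6 : x ^ (1 / 3 : ℝ) * Real.exp (-x) ≤ x * Real.exp (-x) :=
      mul_le_mul_of_nonneg_right e1 e4.le
    linarith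
  rw [hsplit]
  rw [h3] at h4
  rw [h1] at h2
  have h5 : Real.exp (-π) ≤ 1 / 20 := by
    have e1 : Real.exp (-π) ≤ Real.exp (-3) := Real.exp_le_exp.2 (by linarith [Real.pi_gt_three])
    have e2 : (20 : ℝ) ≤ Real.exp 3 := by
      have e3 : Real.exp 3 = Real.exp 1 ^ 3 := by rw [← Real.exp_nat_mul]; norm_num
      have e4 := Real.exp_one_gt_d9
      have e5 : (2.7182818283 : ℝ) ^ 3 ≤ Real.exp 1 ^ 3 :=
        pow_le_pow_left₀ (by norm_num) e4.le 3
      rw [e3]
      refine le_trans (by norm_num) e5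
    refine e1.trans ?_
    rw [Real.exp_neg, ← one_div]
    exact one_div_le_one_div_of_le (by norm_num) e2
  have h6 : (π + 1) * Real.exp (-π) ≤ 4.15 * (1 / 20) := by
    apply mul_le_mul (by linarith [Real.pi_lt_d2]) h5 (Real.exp_pos _).le (by norm_num)
  nlinarith

/-- The limit constant. -/
theorem integral_lim_pos {κ : ℝ} (hκ : 0 < κ) :
    0 < ∫ t in Ioi (0 : ℝ), t * (Real.exp (-(κ * t ^ (3 / 2 : ℝ))) *
      Real.sin (κ * t ^ (3 / 2 : ℝ))) := by
  have h1 := integral_comp_rpow_Ioi_of_pos (E := ℝ) (g := fun y : ℝ => 2 / 3 * (y ^ (1 / 3 : ℝ) *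
    (Real.exp (-(κ * y)) * Real.sin (κ * y)))) (p := 3 / 2) (by norm_num)
  have h2 : ∫ t in Ioi (0 : ℝ), t * (Real.exp (-(κ * t ^ (3 / 2 : ℝ))) *
      Real.sin (κ * t ^ (3 / 2 : ℝ))) = ∫ y in Ioi (0 : ℝ), 2 / 3 * (y ^ (1 / 3 : ℝ) *
    (Real.exp (-(κ * y)) * Real.sin (κ * y))) := by
    rw [← h1]
    refine setIntegral_congr_fun measurableSet_Ioi (fun t ht => ?_)
    have ht0 : (0 : ℝ) < t := ht
    have e1 : (t ^ (3 / 2 : ℝ)) ^ (1 / 3 : ℝ) = t ^ (1 / 2 : ℝ) := by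
      rw [← Real.rpow_mul ht0.le]; norm_num
    have e2 : t ^ (1 / 2 : ℝ) * t ^ (1 / 2 : ℝ) = t := by
      rw [← Real.rpow_add ht0]; norm_num
    simp only [smul_eq_mul]
    rw [e1, show (3 / 2 - 1 : ℝ) = 1 / 2 by norm_num]
    calc _ = (t ^ (1 / 2 : ℝ) * t ^ (1 / 2 : ℝ)) * (Real.exp (-(κ * t ^ (3 / 2 : ℝ))) *
          Real.sin (κ * t ^ (3 / 2 : ℝ))) := by rw [e2]
      _ = _ := by ring
  have h3 := integral_comp_mul_left_Ioi (E := ℝ) (fun x : ℝ => x ^ (1 / 3 : ℝ) *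
    (Real.exp (-x) * Real.sin x)) 0 hκ
  rw [mul_zero, smul_eq_mul] at h3
  have h4 : ∫ y in Ioi (0 : ℝ), (κ * y) ^ (1 / 3 : ℝ) * (Real.exp (-(κ * y)) *
      Real.sin (κ * y)) = κ ^ (1 / 3 : ℝ) * ∫ y in Ioi (0 : ℝ), y ^ (1 / 3 : ℝ) *
      (Real.exp (-(κ * y)) * Real.sin (κ * y)) := by
    rw [← MeasureTheory.integral_const_mul]
    refine setIntegral_congr_fun measurableSet_Ioi (fun t ht => ?_)
    have ht0 : (0 : ℝ) < t := ht
    rw [Real.mul_rpow hκ.le ht0.le]
    ring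
  rw [h4] at h3
  have h5 : 0 < κ ^ (1 / 3 : ℝ) := Real.rpow_pos_of_pos hκ _
  have h6 := integral_phi_pos
  have h7 : 0 < κ ^ (1 / 3 : ℝ) * ∫ y in Ioi (0 : ℝ), y ^ (1 / 3 : ℝ) *
      (Real.exp (-(κ * y)) * Real.sin (κ * y)) := by
    rw [h3]; positivity
  have h8 := (mul_pos_iff_of_pos_left h5).1 h7
  rw [h2, MeasureTheory.integral_const_mul]
  positivity

end Pool.Agent.Lib.MP_6dec34_an
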