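import Pool.Agent.Lib.MP_6dec34_an.Diff
import Pool.Agent.Lib.MP_6dec34_an.Gamma

/-!
The asymptotics of the first moment.
-/

set_option autoImplicit false

namespace Pool.Agent.Lib.MP_6dec34_an

open MeasureTheory Real Complex intervalIntegral Set Filter
open scoped ComplexConjugate Interval Topology

/-- continuous function equal to `Re HH / t` -/
noncomputable def xt (ρ t : ℝ) : ℝ := t * Real.sinc t ^ 2 * Real.cosh (2 * ρ)

/-- continuous function equal to `Im HH / t` -/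
noncomputable def yt (ρ t : ℝ) : ℝ := Real.sinc t * Real.cos t * Real.sinh (2 * ρ)

theorem sin_eq_sinc (t : ℝ) : Real.sin t = t * Real.sinc t := by
  rcases eq_or_ne t 0 with rfl | h
  · simp
  · rw [Real.sinc_of_ne_zero h]; field_simp

theorem HH_re_t (ρ t : ℝ) : (HH ρ (t + ρ * I)).re = t * xt ρ t := by
  rw [HH_re, xt, sin_eq_sinc]; ring

theorem HH_im_t (ρ t : ℝ) : (HH ρ (t + ρ * I)).im = t * yt ρ t := by
  rw [HH_im, yt, sin_eq_sinc]; ring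

theorem continuous_xt (ρ : ℝ) : Continuous (xt ρ) := by
  unfold xt
  have := Real.continuous_sinc
  fun_prop

theorem continuous_yt (ρ : ℝ) : Continuous (yt ρ) := by
  unfold yt
  have := Real.continuous_sinc
  fun_prop

/-- the limit constant `√(sinh 2ρ / 2)` -/
noncomputable def aa (ρ : ℝ) : ℝ := Real.sqrt (Real.sinh (2 * ρ) / 2)

theorem aa_pos {ρ : ℝ} (hρ : 0 < ρ) : 0 < aa ρ := by
  have : 0 < Real.sinh (2 * ρ) := Real.sinh_pos_iff.2 (by linarith)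
  exact Real.sqrt_pos.2 (by positivity)

theorem sq_add_sq_hh (ρ t : ℝ) (ht : 0 < t) :
    (hh ρ (t + ρ * I)).re ^ 2 + (hh ρ (t + ρ * I)).im ^ 2 =
      t * Real.sqrt (xt ρ t ^ 2 + yt ρ t ^ 2) := by
  have h1 := hh_sq_re ρ (t + ρ * I)
  have h2 := hh_sq_im ρ (t + ρ * I)
  rw [HH_re_t] at h1
  rw [HH_im_t] at h2
  have h3 : ((hh ρ (t + ρ * I)).re ^ 2 + (hh ρ (t + ρ * I)).im ^ 2) ^ 2 =
      (t * Real.sqrt (xt ρ t ^ 2 + yt ρ t ^ 2)) ^ 2 := by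
    rw [mul_pow, Real.sq_sqrt (by positivity)]
    have : ((hh ρ (t + ρ * I)).re ^ 2 + (hh ρ (t + ρ * I)).im ^ 2) ^ 2 =
      ((hh ρ (t + ρ * I)).re ^ 2 - (hh ρ (t + ρ * I)).im ^ 2) ^ 2 +
        (2 * (hh ρ (t + ρ * I)).re * (hh ρ (t + ρ * I)).im) ^ 2 := by ring
    rw [this, h1, h2]
    ring
  exact (sq_eq_sq₀ (by positivity) (by positivity)).1 h3

theorem hh_re_div {ρ t : ℝ} (ht : 0 < t) :
    (hh ρ (t + ρ * I)).re / Real.sqrt t =
      Real.sqrt ((xt ρ t + Real.sqrt (xt ρ t ^ 2 + yt ρ t ^ 2)) / 2) := by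
  have h1 := hh_sq_re ρ (t + ρ * I)
  rw [HH_re_t] at h1
  have h2 := sq_add_sq_hh ρ t ht
  have h3 : (hh ρ (t + ρ * I)).re ^ 2 = t * ((xt ρ t +
      Real.sqrt (xt ρ t ^ 2 + yt ρ t ^ 2)) / 2) := by linarith
  have h4 : (hh ρ (t + ρ * I)).re = Real.sqrt t * Real.sqrt ((xt ρ t +
      Real.sqrt (xt ρ t ^ 2 + yt ρ t ^ 2)) / 2) := by
    rw [← Real.sqrt_mul ht.le, ← h3, Real.sqrt_sq (hh_re_nonneg _ _)]
  rw [h4]
  have : Real.sqrt t ≠ 0 := (Real.sqrt_pos.2 ht).ne'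
  field_simp

theorem hh_im_div {ρ t : ℝ} (hρ : 0 < ρ) (ht : 0 < t) (ht1 : t ≤ π / 2) :
    (hh ρ (t + ρ * I)).im / Real.sqrt t =
      Real.sqrt ((-xt ρ t + Real.sqrt (xt ρ t ^ 2 + yt ρ t ^ 2)) / 2) := by
  have h1 := hh_sq_re ρ (t + ρ * I)
  rw [HH_re_t] at h1
  have h2 := sq_add_sq_hh ρ t ht
  have h3 : (hh ρ (t + ρ * I)).im ^ 2 = t * ((-xt ρ t +
      Real.sqrt (xt ρ t ^ 2 + yt ρ t ^ 2)) / 2) := by linarith
  have h0 : 0 ≤ (hh ρ (t + ρ * I)).im :=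
    hh_im_nonneg (by rw [abs_of_pos hρ]) hρ.le ht.le ht1
  have h4 : (hh ρ (t + ρ * I)).im = Real.sqrt t * Real.sqrt ((-xt ρ t +
      Real.sqrt (xt ρ t ^ 2 + yt ρ t ^ 2)) / 2) := by
    rw [← Real.sqrt_mul ht.le, ← h3, Real.sqrt_sq h0]
  rw [h4]
  have : Real.sqrt t ≠ 0 := (Real.sqrt_pos.2 ht).ne'
  field_simp

theorem lim_value {ρ : ℝ} (hρ : 0 < ρ) :
    Real.sqrt ((xt ρ 0 + Real.sqrt (xt ρ 0 ^ 2 + yt ρ 0 ^ 2)) / 2) = aa ρ ∧
    Real.sqrt ((-xt ρ 0 + Real.sqrt (xt ρ 0 ^ 2 + yt ρ 0 ^ 2)) / 2) = aa ρ := by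
  have hD : 0 < Real.sinh (2 * ρ) := Real.sinh_pos_iff.2 (by linarith)
  have h1 : xt ρ 0 = 0 := by simp [xt]
  have h2 : yt ρ 0 = Real.sinh (2 * ρ) := by simp [yt]
  have h3 : Real.sqrt (0 ^ 2 + Real.sinh (2 * ρ) ^ 2) = Real.sinh (2 * ρ) := by
    rw [zero_pow two_ne_zero, zero_add, Real.sqrt_sq hD.le]
  rw [h1, h2, h3, aa]
  constructor <;> simp

theorem tendsto_re_div {ρ : ℝ} (hρ : 0 < ρ) :
    Tendsto (fun t : ℝ => (hh ρ (t + ρ * I)).re / Real.sqrt t) (𝓝[>] 0) (𝓝 (aa ρ)) := by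
  have hc : Continuous (fun t => Real.sqrt ((xt ρ t + Real.sqrt (xt ρ t ^ 2 +
      yt ρ t ^ 2)) / 2)) := by
    have := continuous_xt ρ
    have := continuous_yt ρ
    fun_prop
  have h1 := (hc.tendsto 0).mono_left (nhdsWithin_le_nhds (s := Ioi 0))
  rw [(lim_value hρ).1] at h1
  refine h1.congr' ?_
  filter_upwards [self_mem_nhdsWithin] with t ht
  exact (hh_re_div ht).symm

theorem tendsto_im_div {ρ : ℝ} (hρ : 0 < ρ) :
    Tendsto (fun t : ℝ => (hh ρ (t + ρ * I)).im / Real.sqrt t) (𝓝[>] 0) (𝓝 (aa ρ)) := by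
  have hc : Continuous (fun t => Real.sqrt ((-xt ρ t + Real.sqrt (xt ρ t ^ 2 +
      yt ρ t ^ 2)) / 2)) := by
    have := continuous_xt ρ
    have := continuous_yt ρ
    fun_prop
  have h1 := (hc.tendsto 0).mono_left (nhdsWithin_le_nhds (s := Ioi 0))
  rw [(lim_value hρ).2] at h1
  refine h1.congr' ?_
  filter_upwards [Ioc_mem_nhdsGT (show (0 : ℝ) < π / 2 by positivity)] with t ht
  exact (hh_im_div hρ ht.1 ht.2).symm

/-- If `φ(t)/√t → a` then `(∫₀ˣ φ)/x^{3/2} → 2a/3`. -/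
theorem lhopital_sqrt {φ F : ℝ → ℝ} {a : ℝ} (hF : ∀ x, HasDerivAt F (φ x) x) (hF0 : F 0 = 0)
    (hφ : Tendsto (fun t : ℝ => φ t / Real.sqrt t) (𝓝[>] 0) (𝓝 a)) :
    Tendsto (fun x : ℝ => F x / x ^ (3 / 2 : ℝ)) (𝓝[>] 0) (𝓝 (2 / 3 * a)) := by
  refine HasDerivAt.lhopital_zero_nhdsGT (f' := φ)
    (g' := fun x : ℝ => (3 / 2 : ℝ) * x ^ ((3 / 2 : ℝ) - 1)) ?_ ?_ ?_ ?_ ?_ ?_
  · exact Eventually.of_forall (fun x => hF x)
  · exact Eventually.of_forall (fun x => Real.hasDerivAt_rpow_const (Or.inr (by norm_num)))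
  · filter_upwards [self_mem_nhdsWithin] with x hx
    have : (0 : ℝ) < x := hx
    positivity
  · have := (hF 0).continuousAt.tendsto.mono_left (nhdsWithin_le_nhds (s := Ioi 0))
    rwa [hF0] at this
  · have h1 : Continuous (fun x : ℝ => x ^ (3 / 2 : ℝ)) :=
      Real.continuous_rpow_const (by norm_num)
    have h2 := (h1.tendsto 0).mono_left (nhdsWithin_le_nhds (s := Ioi 0))
    rwa [Real.zero_rpow (by norm_num)] at h2
  · refine (hφ.const_mul (2 / 3)).congr' ?_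
    filter_upwards [self_mem_nhdsWithin] with x hx
    have hx0 : (0 : ℝ) < x := hx
    have h1 : x ^ ((3 / 2 : ℝ) - 1) = Real.sqrt x := by
      rw [Real.sqrt_eq_rpow]; norm_num
    rw [h1]
    have : Real.sqrt x ≠ 0 := (Real.sqrt_pos.2 hx0).ne'
    field_simp

theorem hasDerivAt_qq {ρ : ℝ} (hρ : 0 < ρ) (x : ℝ) :
    HasDerivAt (qq ρ) (hh ρ (x + ρ * I)) x :=
  ((continuous_hh_rho hρ).integral_hasStrictDerivAt 0 x).hasDerivAt

theorem continuous_qq {ρ : ℝ} (hρ : 0 < ρ) : Continuous (qq ρ) :=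
  continuous_iff_continuousAt.2 (fun x => (hasDerivAt_qq hρ x).continuousAt)

theorem qq_zero (ρ : ℝ) : qq ρ 0 = 0 := by rw [qq, intervalIntegral.integral_same]

theorem tendsto_qq_re {ρ : ℝ} (hρ : 0 < ρ) :
    Tendsto (fun x : ℝ => (qq ρ x).re / x ^ (3 / 2 : ℝ)) (𝓝[>] 0) (𝓝 (2 / 3 * aa ρ)) :=
  lhopital_sqrt (φ := fun t => (hh ρ (t + ρ * I)).re)
    (fun x => Complex.reCLM.hasFDerivAt.comp_hasDerivAt x (hasDerivAt_qq hρ x))
    (by simp [qq_zero]) (tendsto_re_div hρ)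

theorem tendsto_qq_im {ρ : ℝ} (hρ : 0 < ρ) :
    Tendsto (fun x : ℝ => (qq ρ x).im / x ^ (3 / 2 : ℝ)) (𝓝[>] 0) (𝓝 (2 / 3 * aa ρ)) :=
  lhopital_sqrt (φ := fun t => (hh ρ (t + ρ * I)).im)
    (fun x => Complex.imCLM.hasFDerivAt.comp_hasDerivAt x (hasDerivAt_qq hρ x))
    (by simp [qq_zero]) (tendsto_im_div hρ)

/-- the rescaled integrand, without cut-off -/
noncomputable def psi0 (ρ : ℝ) (k : ℕ) (t : ℝ) : ℝ :=
  t * (Real.exp (-(k * om ρ * (qq ρ (t / (k : ℝ) ^ (2 / 3 : ℝ))).im)) *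
    Real.sin (k * om ρ * (qq ρ (t / (k : ℝ) ^ (2 / 3 : ℝ))).re))

theorem EL_rho_im {ρ : ℝ} (hρ : 0 < ρ) (k : ℕ) (x : ℝ) :
    (EL ρ k ρ x).im = Real.exp (-(s0 ρ * k)) * (Real.exp (-(k * om ρ * (qq ρ x).im)) *
      Real.sin (k * om ρ * (qq ρ x).re)) := by
  rw [EL_rho hρ, Complex.im_ofReal_mul, Complex.exp_im]
  congr 2
  · congr 1
    simp only [mul_re, I_re, I_im, ofReal_re, ofReal_im, mul_im]
    ring
  · congr 1
    simp only [mul_re, I_re, I_im, ofReal_re, ofReal_im, mul_im]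
    ring

theorem mm_eq {ρ : ℝ} (hρ : 0 < ρ) {k : ℕ} (hk : 1 ≤ k) :
    mm ρ k = (k : ℝ) ^ (-(4 / 3) : ℝ) * Real.exp (-(s0 ρ * k)) *
      ∫ t in Ioi (0 : ℝ), (Ioc 0 ((k : ℝ) ^ (2 / 3 : ℝ) * (π / 2))).indicator (psi0 ρ k) t := by
  have hk0 : (0 : ℝ) < k := by exact_mod_cast hk
  obtain ⟨N, hN⟩ : ∃ N, N = (k : ℝ) ^ (2 / 3 : ℝ) := ⟨_, rfl⟩
  have hN0 : 0 < N := by rw [hN]; positivity
  have hN2 : (k : ℝ) ^ (-(4 / 3) : ℝ) = N⁻¹ * N⁻¹ := by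
    rw [hN, ← Real.rpow_neg hk0.le, ← Real.rpow_add hk0]
    norm_num
  rw [MeasureTheory.integral_indicator measurableSet_Ioc,
    Measure.restrict_restrict measurableSet_Ioc,
    Set.inter_eq_left.2 Set.Ioc_subset_Ioi_self, ← hN,
    ← intervalIntegral.integral_of_le (by positivity)]
  have h1 := intervalIntegral.integral_comp_mul_left (a := 0) (b := N * (π / 2))
    (fun x => x * (EL ρ k ρ x).im) (inv_ne_zero hN0.ne')
  rw [mul_zero, inv_inv, smul_eq_mul, ← mul_assoc, inv_mul_cancel₀ hN0.ne', one_mul] at h1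
  rw [mm, hN2]
  have h2 : ∫ x in (0 : ℝ)..(N * (π / 2)), (N⁻¹ * x) * (EL ρ k ρ (N⁻¹ * x)).im =
      (N⁻¹ * Real.exp (-(s0 ρ * k))) * ∫ x in (0 : ℝ)..(N * (π / 2)), psi0 ρ k x := by
    rw [← intervalIntegral.integral_const_mul]
    refine intervalIntegral.integral_congr (fun x _ => ?_)
    rw [EL_rho_im hρ, psi0, ← hN, show N⁻¹ * x = x / N by ring]
    ring
  rw [h2] at h1
  have h3 : ∫ x in (0 : ℝ)..(π / 2), x * (EL ρ k ρ x).im = N⁻¹ * (N * ∫ x in (0 : ℝ)..(π / 2),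
      x * (EL ρ k ρ x).im) := by
    rw [← mul_assoc, inv_mul_cancel₀ hN0.ne', one_mul]
  rw [h3, ← h1]
  ring

theorem abs_psi_le {ρ : ℝ} (hρ : 0 < ρ) (k : ℕ) {t : ℝ} (ht : 0 < t) :
    |(Ioc 0 ((k : ℝ) ^ (2 / 3 : ℝ) * (π / 2))).indicator (psi0 ρ k) t| ≤
      t ^ (1 : ℝ) * Real.exp (-(om ρ * c1 ρ) * t ^ (3 / 2 : ℝ)) := by
  by_cases hmem : t ∈ Ioc 0 ((k : ℝ) ^ (2 / 3 : ℝ) * (π / 2))
  · rw [Set.indicator_of_mem hmem, psi0]
    have hk : 1 ≤ k := by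
      by_contra hcon
      have : k = 0 := by omega
      rw [this, Nat.cast_zero, Real.zero_rpow (by norm_num), zero_mul] at hmem
      linarith [hmem.1, hmem.2]
    have hk0 : (0 : ℝ) < k := by exact_mod_cast hk
    obtain ⟨N, hN⟩ : ∃ N, N = (k : ℝ) ^ (2 / 3 : ℝ) := ⟨_, rfl⟩
    have hN0 : 0 < N := by rw [hN]; positivity
    have hNk : N ^ (3 / 2 : ℝ) = k := by
      rw [hN, ← Real.rpow_mul hk0.le]; norm_num
    rw [← hN] at hmem ⊢
    have hx1 : t / N ≤ π / 2 := by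
      rw [div_le_iff₀ hN0, mul_comm]; exact hmem.2
    have hx0 : 0 ≤ t / N := by positivity
    have h1 := qq_im_ge hρ hx0 hx1
    rw [Real.div_rpow ht.le hN0.le, hNk] at h1
    have hω := om_pos hρ
    have h2 : om ρ * c1 ρ * t ^ (3 / 2 : ℝ) ≤ k * om ρ * (qq ρ (t / N)).im := by
      have h3 : k * (c1 ρ * (t ^ (3 / 2 : ℝ) / k)) ≤ k * (qq ρ (t / N)).im :=
        mul_le_mul_of_nonneg_left h1 hk0.le
      have h4 : k * (c1 ρ * (t ^ (3 / 2 : ℝ) / k)) = c1 ρ * t ^ (3 / 2 : ℝ) := by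
        field_simp
      rw [h4] at h3
      nlinarith
    rw [abs_mul, abs_mul, abs_of_pos ht, abs_of_pos (Real.exp_pos _), Real.rpow_one]
    apply mul_le_mul_of_nonneg_left _ ht.le
    calc Real.exp (-(k * om ρ * (qq ρ (t / N)).im)) * |Real.sin (k * om ρ * (qq ρ (t / N)).re)|
        ≤ Real.exp (-(k * om ρ * (qq ρ (t / N)).im)) * 1 :=
          mul_le_mul_of_nonneg_left (Real.abs_sin_le_one _) (Real.exp_pos _).le
      _ ≤ _ := by
          rw [mul_one]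
          apply Real.exp_le_exp.2
          rw [neg_mul]
          linarith
  · rw [Set.indicator_of_notMem hmem, abs_zero]
    positivity

theorem tendsto_psi {ρ : ℝ} (hρ : 0 < ρ) {t : ℝ} (ht : 0 < t) :
    Tendsto (fun k : ℕ => (Ioc 0 ((k : ℝ) ^ (2 / 3 : ℝ) * (π / 2))).indicator (psi0 ρ k) t)
      atTop (𝓝 (t * (Real.exp (-((om ρ * (2 / 3 * aa ρ)) * t ^ (3 / 2 : ℝ))) *
        Real.sin ((om ρ * (2 / 3 * aa ρ)) * t ^ (3 / 2 : ℝ))))) := by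
  have hN : Tendsto (fun k : ℕ => (k : ℝ) ^ (2 / 3 : ℝ)) atTop atTop :=
    (tendsto_rpow_atTop (by norm_num : (0 : ℝ) < 2 / 3)).comp tendsto_natCast_atTop_atTop
  have hx : Tendsto (fun k : ℕ => t / (k : ℝ) ^ (2 / 3 : ℝ)) atTop (𝓝[>] 0) := by
    rw [tendsto_nhdsWithin_iff]
    refine ⟨hN.const_div_atTop t, ?_⟩
    filter_upwards [eventually_ge_atTop 1] with k hk
    have hk0 : (0 : ℝ) < k := by exact_mod_cast hk
    have : 0 < t / (k : ℝ) ^ (2 / 3 : ℝ) := by positivity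
    exact this
  have hpow : ∀ k : ℕ, 1 ≤ k → (t / (k : ℝ) ^ (2 / 3 : ℝ)) ^ (3 / 2 : ℝ) =
      t ^ (3 / 2 : ℝ) / k := by
    intro k hk
    have hk0 : (0 : ℝ) < k := by exact_mod_cast hk
    rw [Real.div_rpow ht.le (by positivity), ← Real.rpow_mul hk0.le]
    norm_num
  have hre := ((tendsto_qq_re hρ).comp hx).const_mul (om ρ * t ^ (3 / 2 : ℝ))
  have him := ((tendsto_qq_im hρ).comp hx).const_mul (om ρ * t ^ (3 / 2 : ℝ))
  have e1 : om ρ * t ^ (3 / 2 : ℝ) * (2 / 3 * aa ρ) = (om ρ * (2 / 3 * aa ρ)) * t ^ (3 / 2 : ℝ) := by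
    ring
  rw [e1] at hre him
  have h1 := ((him.neg.rexp).mul (Real.continuous_sin.tendsto _ |>.comp hre)).const_mul t
  refine h1.congr' ?_
  filter_upwards [eventually_ge_atTop 1, hN.eventually_ge_atTop t] with k hk hk2
  have hk0 : (0 : ℝ) < k := by exact_mod_cast hk
  have hmem : t ∈ Ioc 0 ((k : ℝ) ^ (2 / 3 : ℝ) * (π / 2)) := by
    refine ⟨ht, hk2.trans ?_⟩
    have : 0 ≤ (k : ℝ) ^ (2 / 3 : ℝ) := by positivity
    nlinarith [Real.pi_gt_three]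
  have ht32 : 0 < t ^ (3 / 2 : ℝ) := by positivity
  rw [Set.indicator_of_mem hmem, psi0]
  simp only [Function.comp_apply, hpow k hk]
  congr 3
  · congr 1
    field_simp
  · field_simp

/-- The lower bound for the first moment. -/
theorem mm_ge {ρ : ℝ} (hρ : 0 < ρ) : ∃ m₀ : ℝ, 0 < m₀ ∧ ∃ K : ℕ, ∀ k : ℕ, K ≤ k →
    m₀ * (k : ℝ) ^ (-(4 / 3) : ℝ) * Real.exp (-(s0 ρ * k)) ≤ mm ρ k := by
  have hω := om_pos hρ
  have hκ : 0 < om ρ * (2 / 3 * aa ρ) := by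
    have := aa_pos hρ
    positivity
  have hlim : Tendsto (fun k : ℕ => ∫ t in Ioi (0 : ℝ),
      (Ioc 0 ((k : ℝ) ^ (2 / 3 : ℝ) * (π / 2))).indicator (psi0 ρ k) t) atTop
      (𝓝 (∫ t in Ioi (0 : ℝ), t * (Real.exp (-((om ρ * (2 / 3 * aa ρ)) * t ^ (3 / 2 : ℝ))) *
        Real.sin ((om ρ * (2 / 3 * aa ρ)) * t ^ (3 / 2 : ℝ))))) := by
    refine tendsto_integral_of_dominated_convergence
      (fun t => t ^ (1 : ℝ) * Real.exp (-(om ρ * c1 ρ) * t ^ (3 / 2 : ℝ))) ?_ ?_ ?_ ?_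
    · intro k
      apply AEStronglyMeasurable.indicator _ measurableSet_Ioc
      have hq := continuous_qq hρ
      have hc : Continuous (psi0 ρ k) := by
        unfold psi0
        have h1 : Continuous (fun t : ℝ => qq ρ (t / (k : ℝ) ^ (2 / 3 : ℝ))) :=
          hq.comp (by fun_prop)
        have h2 := Complex.continuous_re.comp h1
        have h3 := Complex.continuous_im.comp h1
        fun_prop
      exact hc.aestronglyMeasurable
    · exact integrableOn_rpow_mul_exp_neg_mul_rpow (by norm_num) (by norm_num)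
        (mul_pos hω (c1_pos hρ))
    · intro k
      filter_upwards [ae_restrict_mem measurableSet_Ioi] with t ht
      exact abs_psi_le hρ k ht
    · filter_upwards [ae_restrict_mem measurableSet_Ioi] with t ht
      exact tendsto_psi hρ ht
  have hpos := integral_lim_pos hκ
  set m := ∫ t in Ioi (0 : ℝ), t * (Real.exp (-((om ρ * (2 / 3 * aa ρ)) * t ^ (3 / 2 : ℝ))) *
        Real.sin ((om ρ * (2 / 3 * aa ρ)) * t ^ (3 / 2 : ℝ))) with hm
  have hev := hlim.eventually_const_le (show m / 2 < m by linarith)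
  obtain ⟨K, hK⟩ := eventually_atTop.1 hev
  refine ⟨m / 2, by positivity, max K 1, fun k hk => ?_⟩
  have h1 := hK k (le_trans (le_max_left _ _) hk)
  have h2 : 1 ≤ k := le_trans (le_max_right _ _) hk
  rw [mm_eq hρ h2]
  have h3 : 0 ≤ (k : ℝ) ^ (-(4 / 3) : ℝ) * Real.exp (-(s0 ρ * k)) := by positivity
  calc m / 2 * (k : ℝ) ^ (-(4 / 3) : ℝ) * Real.exp (-(s0 ρ * k)) =
        (k : ℝ) ^ (-(4 / 3) : ℝ) * Real.exp (-(s0 ρ * k)) * (m / 2) := by ring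
    _ ≤ _ := mul_le_mul_of_nonneg_left h1 h3

end Pool.Agent.Lib.MP_6dec34_an
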