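import Pool.Agent.Lib.MP_6dec34_an.System
import Pool.Agent.Lib.MP_6dec34_an.Moment

/-!
The value of the quasimodes at interior points.
-/

set_option autoImplicit false

namespace Pool.Agent.Lib.MP_6dec34_an

open MeasureTheory Real Complex intervalIntegral Set Filter
open scoped ComplexConjugate Interval Topology

noncomputable def sg (ρ θ y : ℝ) (n : ℤ) : ℝ :=
  (Real.exp (n * y) - Real.exp (-(n * y))) / den ρ θ n

theorem bt_level {ρ θ : ℝ} (hρ : 0 < ρ) (hθ : θ = 1 ∨ θ = -1) (y : ℝ) (k : ℕ) (n : ℤ) :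
    bt ρ θ k n * (den (ρ - y) θ n / 2) = W ρ k n * Real.exp (-(n * y)) +
      θ * (W ρ k (-n) * Real.exp (n * y)) + θ * (sg ρ θ y n * dd ρ k n) := by
  have e1 : Real.exp (n * (ρ - y)) = Real.exp (n * ρ) * Real.exp (-(n * y)) := by
    rw [← Real.exp_add]; ring_nf
  have e2 : Real.exp (-(n * (ρ - y))) = Real.exp (-(n * ρ)) * Real.exp (n * y) := by
    rw [← Real.exp_add]; ring_nf
  have e3 : dd ρ k n = W ρ k n * Real.exp (-(n * ρ)) - W ρ k (-n) * Real.exp (n * ρ) := by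
    rw [dd, w, w]
    push_cast
    ring_nf
  by_cases hn : n ≠ 0 ∨ θ = 1
  · have hden := den_ne hρ hθ hn
    rw [bt, sg, e3]
    have e4 : den (ρ - y) θ n = Real.exp (n * ρ) * Real.exp (-(n * y)) +
        θ * (Real.exp (-(n * ρ)) * Real.exp (n * y)) := by
      rw [den, e1, e2]
    rw [e4]
    field_simp
    rw [den]
    ring
  · push Not at hn
    have h1 : θ = -1 := by
      rcases hθ with h | h
      · exact absurd h hn.2
      · exact h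
    rw [bt, sg, hn.1, h1, den]
    simp

theorem trc_neg {θ : ℝ} (hθ : θ = 1 ∨ θ = -1) (x : ℝ) : trc θ (-x) = θ * trc θ x := by
  rcases hθ with rfl | rfl
  · simp [trc]
  · have : (-1 : ℝ) ≠ 1 := by norm_num
    simp [trc, this]

theorem abs_W_neg_le {ρ : ℝ} (hρ : 0 < ρ) (k : ℕ) (n : ℤ) :
    |W ρ k n| ≤ Real.exp (n * ρ) := by
  have h := abs_w_le hρ k n
  have h1 : Real.exp (-(s0 ρ * k)) ≤ 1 := by
    rw [Real.exp_le_one_iff]
    have := s0_pos hρ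
    have : 0 ≤ s0 ρ * (k : ℝ) := by positivity
    linarith
  rw [W_eq, abs_mul, abs_of_pos (Real.exp_pos _)]
  exact mul_le_of_le_one_left (Real.exp_pos _).le (h.trans h1)

theorem summable_W_level {ρ y : ℝ} (hy0 : 0 < y) (hy1 : y < ρ) (k : ℕ) :
    Summable (fun n : ℤ => W ρ k n * Real.exp (-(n * y))) := by
  have hρ : 0 < ρ := hy0.trans hy1
  have hmin : 0 < min y (ρ - y) := lt_min hy0 (by linarith)
  have hs := summable_abs_pow_exp 0 hmin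
  refine Summable.of_norm_bounded hs (fun n => ?_)
  rw [pow_zero, one_mul, Real.norm_eq_abs, abs_mul, abs_of_pos (Real.exp_pos _)]
  rcases le_total 0 n with h | h
  · have h0 : (0 : ℝ) ≤ n := by exact_mod_cast h
    rw [abs_of_nonneg h0]
    calc |W ρ k n| * Real.exp (-(n * y)) ≤ 1 * Real.exp (-(n * y)) :=
          mul_le_mul_of_nonneg_right (abs_W_le_one hρ k n) (Real.exp_pos _).le
      _ ≤ _ := by
          rw [one_mul]
          apply Real.exp_le_exp.2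
          have := min_le_left y (ρ - y)
          nlinarith
  · have h0 : (n : ℝ) ≤ 0 := by exact_mod_cast h
    rw [abs_of_nonpos h0]
    calc |W ρ k n| * Real.exp (-(n * y)) ≤ Real.exp (n * ρ) * Real.exp (-(n * y)) :=
          mul_le_mul_of_nonneg_right (abs_W_neg_le hρ k n) (Real.exp_pos _).le
      _ ≤ _ := by
          rw [← Real.exp_add]
          apply Real.exp_le_exp.2
          have := min_le_right y (ρ - y)
          nlinarith

theorem hasSum_level {ρ y : ℝ} (hy0 : 0 < y) (hy1 : y < ρ) (θ : ℝ) (k : ℕ) (x : ℝ) :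
    HasSum (fun n : ℤ => W ρ k n * Real.exp (-(n * y)) * trc θ (n * x))
      (prL θ (EL ρ k y x)) := by
  have hρ : 0 < ρ := hy0.trans hy1
  have hfc : ∀ n : ℤ, fc (2 * π) (EL ρ k y) n = ((W ρ k n * Real.exp (-(n * y)) : ℝ) : ℂ) :=
    fun n => fc_ELy hρ hy0.le hy1.le k n
  have hs : Summable (fc (2 * π) (EL ρ k y)) := by
    rw [funext hfc]
    exact Complex.summable_ofReal.2 (summable_W_level hy0 hy1 k)
  have h := fourier_inversion (T := 2 * π) (by positivity)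
    (continuous_EL (by rw [abs_of_pos hy0]; exact hy1.le) k) (EL_periodic hρ k y) hs x
  have h1 := h.mapL (prL θ)
  have e1 : ∀ n : ℤ, prL θ (fc (2 * π) (EL ρ k y) n * cexp (2 * π * I * n * x / ((2 * π : ℝ) : ℂ))) =
      W ρ k n * Real.exp (-(n * y)) * trc θ (n * x) := by
    intro n
    have e2 : 2 * (π : ℂ) * I * n * x / ((2 * π : ℝ) : ℂ) = ((n * x : ℝ) : ℂ) * I := by
      rw [two_pi_cast]
      have := two_pi_ne
      push_cast
      field_simp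
    rw [hfc, e2, prL_ofReal_mul, prL_exp]
  rw [← funext e1]
  exact h1

theorem abs_sg_le {ρ θ y : ℝ} (hρ : 0 < ρ) (hθ : θ = 1 ∨ θ = -1) (hy0 : 0 ≤ y) (n : ℕ) :
    |sg ρ θ y n| ≤ 1 / gam ρ * Real.exp (-(n * (ρ - y))) := by
  have hg := gam_pos hρ
  rcases Nat.eq_zero_or_pos n with rfl | hn
  · rw [sg]
    simp
    exact hg.le
  · have hn0 : ((n : ℕ) : ℤ) ≠ 0 := by omega
    have h1 := abs_den_ge hρ hθ (Or.inl hn0)
    rw [Int.cast_natCast, abs_of_nonneg (Nat.cast_nonneg n : (0 : ℝ) ≤ n)] at h1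
    have h2 : |Real.exp (n * y) - Real.exp (-(n * y))| ≤ Real.exp (n * y) := by
      have h3 : Real.exp (-(n * y)) ≤ Real.exp (n * y) := by
        apply Real.exp_le_exp.2
        have : 0 ≤ (n : ℝ) * y := by positivity
        linarith
      rw [abs_of_nonneg (by linarith)]
      linarith [Real.exp_pos (-(n * y))]
    rw [sg, abs_div, Int.cast_natCast]
    have h4 : 0 < gam ρ * Real.exp (ρ * n) := by positivity
    calc _ ≤ Real.exp (n * y) / (gam ρ * Real.exp (ρ * n)) :=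
          div_le_div₀ (Real.exp_pos _).le h2 h4 h1
      _ = _ := by
          rw [show -(n * (ρ - y)) = n * y - ρ * n by ring, Real.exp_sub]
          field_simp

theorem abs_sg_sub_le {ρ θ y : ℝ} (hρ : 0 < ρ) (hθ : θ = 1 ∨ θ = -1) (hy0 : 0 ≤ y) (hy1 : y ≤ ρ)
    {n : ℕ} (hn : 1 ≤ n) :
    |sg ρ θ y n - Real.exp (-(n * (ρ - y)))| ≤ 2 / gam ρ * Real.exp (-(n * ρ)) := by
  have hg := gam_pos hρ
  have hn0 : ((n : ℕ) : ℤ) ≠ 0 := by omega
  have hden := den_ne hρ hθ (Or.inl hn0)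
  have h1 := abs_den_ge hρ hθ (Or.inl hn0)
  rw [Int.cast_natCast, abs_of_nonneg (Nat.cast_nonneg n : (0 : ℝ) ≤ n)] at h1
  have e1 : sg ρ θ y n - Real.exp (-(n * (ρ - y))) =
      -(Real.exp (-(n * y)) + θ * (Real.exp (-(n * ρ)) * Real.exp (-(n * (ρ - y))))) /
        den ρ θ n := by
    rw [sg, eq_div_iff hden, sub_mul, div_mul_cancel₀ _ hden, den, Int.cast_natCast]
    have e2 : Real.exp (-(n * (ρ - y))) * Real.exp (n * ρ) = Real.exp (n * y) := by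
      rw [← Real.exp_add]; ring_nf
    linear_combination (-1 : ℝ) * e2
  rw [e1, abs_div, abs_neg]
  have h0 : (0 : ℝ) ≤ n := Nat.cast_nonneg n
  have h2 : |Real.exp (-(n * y)) + θ * (Real.exp (-(n * ρ)) * Real.exp (-(n * (ρ - y))))| ≤ 2 := by
    refine (abs_add_le _ _).trans ?_
    rw [abs_mul, abs_theta hθ, one_mul, abs_of_pos (Real.exp_pos _), abs_of_pos (by positivity)]
    have e3 : Real.exp (-(n * y)) ≤ 1 := by
      rw [Real.exp_le_one_iff]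
      have : 0 ≤ (n : ℝ) * y := by positivity
      linarith
    have e4 : Real.exp (-(n * ρ)) ≤ 1 := by
      rw [Real.exp_le_one_iff]
      have : 0 ≤ (n : ℝ) * ρ := by positivity
      linarith
    have e5 : Real.exp (-(n * (ρ - y))) ≤ 1 := by
      rw [Real.exp_le_one_iff]
      have : 0 ≤ (n : ℝ) * (ρ - y) := mul_nonneg h0 (by linarith)
      linarith
    have e6 : Real.exp (-(n * ρ)) * Real.exp (-(n * (ρ - y))) ≤ 1 * 1 :=
      mul_le_mul e4 e5 (Real.exp_pos _).le (by norm_num)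
    linarith
  have h4 : 0 < gam ρ * Real.exp (ρ * n) := by positivity
  calc _ ≤ 2 / (gam ρ * Real.exp (ρ * n)) := div_le_div₀ (by norm_num) h2 h4 h1
    _ = _ := by
        rw [show -(n * ρ) = -(ρ * n) by ring, Real.exp_neg]
        field_simp

theorem summable_pow_exp (m : ℕ) {a : ℝ} (ha : 0 < a) :
    Summable (fun n : ℕ => (n : ℝ) ^ m * Real.exp (-(n * a))) := by
  refine (Real.summable_pow_mul_exp_neg_nat_mul m ha).congr (fun n => ?_)
  congr 2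
  ring

/-- the geometric kernel -/
noncomputable def Psi (ξ η : ℝ) : ℂ :=
  cexp (-ξ + η * I) / (1 - cexp (-ξ + η * I)) ^ 2

theorem par_eq (k n : ℕ) : par k n = 1 + (-1) ^ k * (-1) ^ n := by
  rw [par, ← Nat.cast_add, zpow_natCast, pow_add]
  ring

theorem hasSum_par {ξ η : ℝ} (hξ : 0 < ξ) (k : ℕ) :
    HasSum (fun n : ℕ => ((par k n * n * Real.exp (-(n * ξ)) : ℝ) : ℂ) *
      cexp (((n * η : ℝ) : ℂ) * I))
      (Psi ξ η + (-1) ^ k * (-cexp (-ξ + η * I) / (1 + cexp (-ξ + η * I)) ^ 2)) := by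
  set x := cexp (-ξ + η * I) with hx
  have hnorm : ‖x‖ < 1 := by
    rw [hx, Complex.norm_exp]
    simp [hξ]
  have h1 := hasSum_coe_mul_geometric_of_norm_lt_one hnorm
  have h2 := (hasSum_coe_mul_geometric_of_norm_lt_one (r := -x) (by rwa [norm_neg])).mul_left
    ((-1 : ℂ) ^ k)
  have h3 := h1.add h2
  rw [sub_neg_eq_add] at h3
  rw [Psi, ← hx]
  refine hasSum_congr_fun (fun n => ?_) h3
  have e1 : ((Real.exp (-(n * ξ)) : ℝ) : ℂ) * cexp (((n * η : ℝ) : ℂ) * I) = x ^ n := by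
    rw [hx, ← Complex.exp_nat_mul, Complex.ofReal_exp, ← Complex.exp_add]
    congr 1
    push_cast
    ring
  rw [par_eq, neg_pow x, ← e1]
  push_cast
  ring

/-- the remainder of the kernel -/
noncomputable def Qk (k : ℕ) (ξ η : ℝ) : ℂ :=
  (-1) ^ k * (-cexp (-ξ + η * I) / (1 + cexp (-ξ + η * I)) ^ 2)

theorem norm_Qk_le {ξ η : ℝ} (hξ : 0 < ξ) (hη : |η| ≤ π / 2) (k : ℕ) : ‖Qk k ξ η‖ ≤ 1 := by
  rw [Qk, norm_mul, norm_pow, norm_neg, norm_one, one_pow, one_mul, norm_div, norm_neg, norm_pow]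
  have h1 : ‖cexp (-ξ + η * I)‖ ≤ 1 := by
    rw [Complex.norm_exp, Real.exp_le_one_iff]
    simp [hξ.le]
  have h2 : 1 ≤ ‖1 + cexp (-ξ + η * I)‖ := by
    have h3 : 0 ≤ (cexp (-ξ + η * I)).re := by
      rw [Complex.exp_re]
      apply mul_nonneg (Real.exp_pos _).le
      have : ((-ξ + η * I : ℂ)).im = η := by simp
      rw [this]
      rw [abs_le] at hη
      exact Real.cos_nonneg_of_neg_pi_div_two_le_of_le hη.1 hη.2
    have h4 := Complex.abs_re_le_norm (1 + cexp (-ξ + η * I))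
    rw [Complex.add_re, Complex.one_re, abs_of_nonneg (by linarith)] at h4
    linarith
  have h5 : 1 ≤ ‖1 + cexp (-ξ + η * I)‖ ^ 2 := one_le_pow₀ h2
  exact div_le_one_of_le₀ (h1.trans h5) (by positivity)

/-- the terms of the difference series -/
noncomputable def Tn (ρ θ : ℝ) (k : ℕ) (ξ η : ℝ) (n : ℕ) : ℂ :=
  ((dd ρ k n * sg ρ θ (ρ - ξ) n : ℝ) : ℂ) * cexp (((n * η : ℝ) : ℂ) * I)

noncomputable def B1 (ρ : ℝ) : ℝ := ∑' n : ℕ, (n : ℝ) ^ 1 * Real.exp (-(n * ρ))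
noncomputable def B3 (ξ : ℝ) : ℝ := ∑' n : ℕ, (n : ℝ) ^ 3 * Real.exp (-(n * ξ))

theorem norm_exp_I (x : ℝ) : ‖cexp ((x : ℂ) * I)‖ = 1 := Complex.norm_exp_ofReal_mul_I x

theorem Tn_bound {ρ : ℝ} (hρ : 0 < ρ) : ∃ C : ℝ, 0 < C ∧ ∀ k : ℕ, 1 ≤ k → ∀ θ : ℝ,
    (θ = 1 ∨ θ = -1) → ∀ ξm ξ η : ℝ, 0 < ξm → ξm ≤ ξ → ξ ≤ ρ →
    Summable (Tn ρ θ k ξ η) ∧
    ‖(∑' n : ℕ, Tn ρ θ k ξ η n) - ((2 / π * mm ρ k : ℝ) : ℂ) * (Psi ξ η + Qk k ξ η)‖ ≤
      C * (k : ℝ) ^ (-(8 / 3) : ℝ) * Real.exp (-(s0 ρ * k)) * B3 ξm +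
        2 / π * |mm ρ k| * (4 / gam ρ * B1 ρ) := by
  obtain ⟨C, hC, hd⟩ := dd_approx hρ
  have hg := gam_pos hρ
  refine ⟨C / gam ρ, by positivity, ?_⟩
  intro k hk θ hθ ξm ξ η hξm hξ hξρ
  have hξ0 : 0 < ξ := hξm.trans_le hξ
  have hG := (hasSum_par hξ0 (η := η) k).mul_left ((2 / π * mm ρ k : ℝ) : ℂ)
  rw [← Qk] at hG
  have hs3 := (summable_pow_exp 3 hξm).mul_left (C / gam ρ * (k : ℝ) ^ (-(8 / 3) : ℝ) *
    Real.exp (-(s0 ρ * k)))
  have hs1 := (summable_pow_exp 1 hρ).mul_left (2 / π * |mm ρ k| * (4 / gam ρ))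
  have hterm : ∀ n : ℕ, ‖Tn ρ θ k ξ η n - ((2 / π * mm ρ k : ℝ) : ℂ) *
      (((par k n * n * Real.exp (-(n * ξ)) : ℝ) : ℂ) * cexp (((n * η : ℝ) : ℂ) * I))‖ ≤
      C / gam ρ * (k : ℝ) ^ (-(8 / 3) : ℝ) * Real.exp (-(s0 ρ * k)) *
        ((n : ℝ) ^ 3 * Real.exp (-(n * ξm))) +
      2 / π * |mm ρ k| * (4 / gam ρ) * ((n : ℝ) ^ 1 * Real.exp (-(n * ρ))) := by
    intro n
    have e1 : Tn ρ θ k ξ η n - ((2 / π * mm ρ k : ℝ) : ℂ) *
      (((par k n * n * Real.exp (-(n * ξ)) : ℝ) : ℂ) * cexp (((n * η : ℝ) : ℂ) * I)) =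
      (((dd ρ k n * sg ρ θ (ρ - ξ) n - 2 / π * mm ρ k * (par k n * n *
        Real.exp (-(n * ξ)))) : ℝ) : ℂ) * cexp (((n * η : ℝ) : ℂ) * I) := by
      rw [Tn]
      push_cast
      ring
    rw [e1, norm_mul, norm_exp_I, mul_one, Complex.norm_real, Real.norm_eq_abs]
    rcases Nat.eq_zero_or_pos n with rfl | hn
    · have : dd ρ k ((0 : ℕ) : ℤ) = 0 := by rw [dd]; simp
      rw [this]
      simp
    · have e2 : dd ρ k n * sg ρ θ (ρ - ξ) n - 2 / π * mm ρ k * (par k n * n *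
          Real.exp (-(n * ξ))) =
          (dd ρ k n - 2 / π * par k n * ((n : ℤ) * mm ρ k)) * sg ρ θ (ρ - ξ) n +
          2 / π * par k n * (n * mm ρ k) * (sg ρ θ (ρ - ξ) n - Real.exp (-(n * ξ))) := by
        push_cast
        ring
      rw [e2]
      refine (abs_add_le _ _).trans (add_le_add ?_ ?_)
      · rw [abs_mul]
        have h1 := hd k hk n
        have h2 := abs_sg_le hρ hθ (y := ρ - ξ) (by linarith) n
        rw [sub_sub_cancel] at h2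
        rw [Int.cast_natCast, abs_of_nonneg (Nat.cast_nonneg n : (0 : ℝ) ≤ n)] at h1
        have h3 : Real.exp (-(n * ξ)) ≤ Real.exp (-(n * ξm)) := by
          apply Real.exp_le_exp.2
          have : (0 : ℝ) ≤ n := Nat.cast_nonneg n
          nlinarith
        calc _ ≤ (C * (n : ℝ) ^ 3 * (k : ℝ) ^ (-(8 / 3) : ℝ) * Real.exp (-(s0 ρ * k))) *
              (1 / gam ρ * Real.exp (-(n * ξm))) := by
              apply mul_le_mul h1 (h2.trans _) (abs_nonneg _) (by positivity)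
              exact mul_le_mul_of_nonneg_left h3 (by positivity)
          _ = _ := by ring
      · rw [abs_mul, abs_mul, abs_mul, abs_mul, abs_of_nonneg (par_nonneg k n),
          abs_of_nonneg (Nat.cast_nonneg n : (0 : ℝ) ≤ n), abs_of_pos (by positivity : 0 < 2 / π)]
        have h2 := abs_sg_sub_le hρ hθ (y := ρ - ξ) (by linarith) (by linarith) hn
        rw [sub_sub_cancel] at h2
        calc _ ≤ 2 / π * 2 * (n * |mm ρ k|) * (2 / gam ρ * Real.exp (-(n * ρ))) := by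
              apply mul_le_mul _ h2 (abs_nonneg _) (by positivity)
              apply mul_le_mul_of_nonneg_right _ (by positivity)
              exact mul_le_mul_of_nonneg_left (par_le k n) (by positivity)
          _ = _ := by ring
  have hsd : Summable (fun n : ℕ => Tn ρ θ k ξ η n - ((2 / π * mm ρ k : ℝ) : ℂ) *
      (((par k n * n * Real.exp (-(n * ξ)) : ℝ) : ℂ) * cexp (((n * η : ℝ) : ℂ) * I))) :=
    Summable.of_norm_bounded (hs3.add hs1) hterm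
  have hsT : Summable (Tn ρ θ k ξ η) := by
    refine (hsd.add hG.summable).congr (fun n => ?_)
    ring
  refine ⟨hsT, ?_⟩
  have h1 := tsum_of_norm_bounded (hs3.add hs1).hasSum hterm
  rw [hsT.tsum_sub hG.summable, hG.tsum_eq, hs3.tsum_add hs1, tsum_mul_left, tsum_mul_left,
    ← B3, ← B1] at h1
  calc _ ≤ _ := h1
    _ = _ := by ring

theorem sg_neg (ρ : ℝ) {θ : ℝ} (hθ : θ = 1 ∨ θ = -1) (y : ℝ) (n : ℤ) :
    sg ρ θ y (-n) = -θ * sg ρ θ y n := by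
  rw [sg, sg, den_neg ρ hθ]
  push_cast
  rw [show -(-(n : ℝ) * y) = n * y by ring, show -(n : ℝ) * y = -(n * y) by ring]
  rcases hθ with rfl | rfl
  · ring
  · rw [neg_one_mul, neg_neg, one_mul, div_neg, ← neg_div]
    congr 1
    ring

/-- The value of a quasimode. -/
theorem hasSum_UU {ρ ξ : ℝ} (hξ0 : 0 < ξ) (hξ1 : ξ < ρ) {θ : ℝ} (hθ : θ = 1 ∨ θ = -1) (k : ℕ)
    (η : ℝ) (hs : Summable (Tn ρ θ k ξ η)) :
    HasSum (fun n : ℤ => bt ρ θ k n * (den ξ θ n / 2) * trc θ (n * η))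
      (2 * prL θ (EL ρ k (ρ - ξ) η) + θ * (2 * prL θ (∑' n : ℕ, Tn ρ θ k ξ η n))) := by
  have hρ : 0 < ρ := hξ0.trans hξ1
  have h1 := hasSum_level (y := ρ - ξ) (by linarith) (by linarith) θ k η
  have h2 := (Equiv.neg ℤ).hasSum_iff.2 h1
  have h3 : HasSum (fun n : ℤ => sg ρ θ (ρ - ξ) n * dd ρ k n * trc θ (n * η))
      (2 * prL θ (∑' n : ℕ, Tn ρ θ k ξ η n)) := by
    have e1 : ∀ n : ℕ, prL θ (Tn ρ θ k ξ η n) =
        sg ρ θ (ρ - ξ) n * dd ρ k n * trc θ (((n : ℤ) : ℝ) * η) := by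
      intro n
      rw [Tn, prL_ofReal_mul, prL_exp]
      push_cast
      ring
    have e2 : HasSum (fun n : ℕ => sg ρ θ (ρ - ξ) n * dd ρ k n * trc θ (((n : ℤ) : ℝ) * η))
        (prL θ (∑' n : ℕ, Tn ρ θ k ξ η n)) := by
      rw [← funext e1]
      exact hs.hasSum.mapL (prL θ)
    have e3 : HasSum (fun n : ℕ => sg ρ θ (ρ - ξ) (-(n : ℤ)) * dd ρ k (-(n : ℤ)) *
        trc θ (((-(n : ℤ) : ℤ) : ℝ) * η)) (prL θ (∑' n : ℕ, Tn ρ θ k ξ η n)) := by
      have e4 : ∀ n : ℕ, sg ρ θ (ρ - ξ) (-(n : ℤ)) * dd ρ k (-(n : ℤ)) *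
        trc θ (((-(n : ℤ) : ℤ) : ℝ) * η) = sg ρ θ (ρ - ξ) n * dd ρ k n *
          trc θ (((n : ℤ) : ℝ) * η) := by
        intro n
        have e5 : (((-(n : ℤ) : ℤ) : ℝ) * η) = -(((n : ℤ) : ℝ) * η) := by push_cast; ring
        rw [sg_neg ρ hθ, dd_neg, e5, trc_neg hθ]
        linear_combination (sg ρ θ (ρ - ξ) n * dd ρ k n * trc θ (((n : ℤ) : ℝ) * η)) *
          theta_sq hθ
      rw [funext e4]
      exact e2
    have e6 := HasSum.of_nat_of_neg (f := fun n : ℤ => sg ρ θ (ρ - ξ) n * dd ρ k n *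
      trc θ (n * η)) e2 e3
    have e7 : dd ρ k 0 = 0 := by rw [dd]; simp
    simp only [e7, mul_zero, zero_mul, sub_zero] at e6
    rw [two_mul]
    exact e6
  have h4 := (h1.add h2).add (h3.mul_left θ)
  have e8 : ∀ n : ℤ, bt ρ θ k n * (den ξ θ n / 2) * trc θ (n * η) =
      W ρ k n * Real.exp (-(n * (ρ - ξ))) * trc θ (n * η) +
      ((fun n : ℤ => W ρ k n * Real.exp (-(n * (ρ - ξ))) * trc θ (n * η)) ∘
        (Equiv.neg ℤ)) n + θ * (sg ρ θ (ρ - ξ) n * dd ρ k n * trc θ (n * η)) := by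
    intro n
    have e9 := bt_level hρ hθ (ρ - ξ) k n
    rw [sub_sub_cancel] at e9
    simp only [Function.comp_apply, Equiv.neg_apply]
    have e5 : (((-n : ℤ) : ℝ) * η) = -((n : ℝ) * η) := by push_cast; ring
    have e6 : -(((-n : ℤ) : ℝ) * (ρ - ξ)) = (n : ℝ) * (ρ - ξ) := by push_cast; ring
    rw [e9, e5, e6, trc_neg hθ]
    ring
  rw [funext e8]
  convert h4 using 1
  ring

/-- the constant in the region -/
noncomputable def Bρ (ρ : ℝ) : ℝ := 1 + 4 / gam ρ * B1 ρ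

theorem UU_neg {ρ : ℝ} (hρ : 0 < ρ) {ξm δ : ℝ} (hξm : 0 < ξm) (hδ : 0 < δ) :
    ∃ c : ℝ, 0 < c ∧ ∃ K : ℕ, 1 ≤ K ∧ ∀ k : ℕ, K ≤ k → ∀ θ : ℝ, (θ = 1 ∨ θ = -1) →
      ∀ ξ η : ℝ, ξm ≤ ξ → ξ < ρ → |η| ≤ π / 2 → θ * prL θ (Psi ξ η) ≤ -(Bρ ρ + 1) →
      S0 ρ + δ ≤ (sc ρ (η + (ρ - ξ : ℝ) * I)).im →
      ∃ U : ℝ, HasSum (fun n : ℤ => bt ρ θ k n * (den ξ θ n / 2) * trc θ (n * η)) U ∧
        U ≤ -(c * (k : ℝ) ^ (-(4 / 3) : ℝ) * Real.exp (-(s0 ρ * k))) := by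
  obtain ⟨C, hC, hT⟩ := Tn_bound hρ
  obtain ⟨m₀, hm₀, K₀, hmm⟩ := mm_ge hρ
  have hω := om_pos hρ
  have hB3 : 0 ≤ B3 ξm := tsum_nonneg (fun n => by positivity)
  -- the limit
  have hlim : Tendsto (fun k : ℕ => 2 * ((k : ℝ) ^ (4 / 3 : ℝ) * Real.exp (-(om ρ * δ) * k)) +
      2 * (C * B3 ξm) * (k : ℝ) ^ (-(4 / 3) : ℝ)) atTop (𝓝 0) := by
    have e1 := (tendsto_rpow_mul_exp_neg_mul_atTop_nhds_zero (4 / 3) (om ρ * δ)
      (by positivity)).comp tendsto_natCast_atTop_atTop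
    have e2 := (tendsto_rpow_neg_atTop (by norm_num : (0 : ℝ) < 4 / 3)).comp
      tendsto_natCast_atTop_atTop
    have e3 := (e1.const_mul 2).add (e2.const_mul (2 * (C * B3 ξm)))
    simp only [mul_zero, add_zero] at e3
    exact e3
  obtain ⟨K₁, hK₁⟩ := eventually_atTop.1 (hlim.eventually_le_const
    (show 0 < 2 / π * m₀ by positivity))
  refine ⟨2 / π * m₀, by positivity, max (max K₀ K₁) 1, le_max_right _ _, ?_⟩
  intro k hk θ hθ ξ η hξ hξρ hη hPsi hsc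
  have hk0 : K₀ ≤ k := le_trans (le_trans (le_max_left _ _) (le_max_left _ _)) hk
  have hk1 : K₁ ≤ k := le_trans (le_trans (le_max_right _ _) (le_max_left _ _)) hk
  have hk2 : 1 ≤ k := le_trans (le_max_right _ _) hk
  have hkpos : (0 : ℝ) < k := by exact_mod_cast hk2
  have hξ0 : 0 < ξ := hξm.trans_le hξ
  obtain ⟨hsT, hTb⟩ := hT k hk2 θ hθ ξm ξ η hξm hξ hξρ.le
  refine ⟨_, hasSum_UU hξ0 hξρ hθ k η hsT, ?_⟩
  have hM := hmm k hk0
  have hM0 : 0 < mm ρ k := lt_of_lt_of_le (by positivity) hM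
  -- first term
  have h1 : prL θ (EL ρ k (ρ - ξ) η) ≤ Real.exp (-(s0 ρ * k)) *
      Real.exp (-(om ρ * δ) * k) := by
    refine (le_abs_self _).trans ((abs_prL_le θ _).trans ?_)
    rw [EL, norm_EE, ← Real.exp_add]
    apply Real.exp_le_exp.2
    have e1 : (k : ℝ) * om ρ * (S0 ρ + δ) ≤ k * om ρ * (sc ρ (η + (ρ - ξ : ℝ) * I)).im :=
      mul_le_mul_of_nonneg_left hsc (by positivity)
    rw [s0]
    linarith
  -- second term
  have h2 : θ * prL θ (∑' n : ℕ, Tn ρ θ k ξ η n) ≤ -(2 / π * mm ρ k) +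
      C * (k : ℝ) ^ (-(8 / 3) : ℝ) * Real.exp (-(s0 ρ * k)) * B3 ξm := by
    obtain ⟨S, hS⟩ : ∃ S, S = ∑' n : ℕ, Tn ρ θ k ξ η n := ⟨_, rfl⟩
    rw [← hS] at hTb ⊢
    have e1 : S = ((2 / π * mm ρ k : ℝ) : ℂ) * Psi ξ η + ((2 / π * mm ρ k : ℝ) : ℂ) *
        Qk k ξ η + (S - ((2 / π * mm ρ k : ℝ) : ℂ) * (Psi ξ η + Qk k ξ η)) := by ring
    have e2 : θ * prL θ S = 2 / π * mm ρ k * (θ * prL θ (Psi ξ η)) +
        2 / π * mm ρ k * (θ * prL θ (Qk k ξ η)) +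
        θ * prL θ (S - ((2 / π * mm ρ k : ℝ) : ℂ) * (Psi ξ η + Qk k ξ η)) := by
      conv_lhs => rw [e1]
      rw [map_add, map_add, prL_ofReal_mul, prL_ofReal_mul]
      ring
    have e3 : θ * prL θ (Qk k ξ η) ≤ 1 := by
      refine (le_abs_self _).trans ?_
      rw [abs_mul, abs_theta hθ, one_mul]
      exact (abs_prL_le θ _).trans (norm_Qk_le hξ0 hη k)
    have e4 : θ * prL θ (S - ((2 / π * mm ρ k : ℝ) : ℂ) * (Psi ξ η + Qk k ξ η)) ≤
        C * (k : ℝ) ^ (-(8 / 3) : ℝ) * Real.exp (-(s0 ρ * k)) * B3 ξm +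
        2 / π * mm ρ k * (4 / gam ρ * B1 ρ) := by
      refine (le_abs_self _).trans ?_
      rw [abs_mul, abs_theta hθ, one_mul]
      rw [abs_of_pos hM0] at hTb
      exact (abs_prL_le θ _).trans hTb
    have e5 : 0 < 2 / π * mm ρ k := by positivity
    rw [e2]
    have e6 : 2 / π * mm ρ k * (θ * prL θ (Psi ξ η)) ≤ 2 / π * mm ρ k * (-(Bρ ρ + 1)) :=
      mul_le_mul_of_nonneg_left hPsi e5.le
    have e7 : 2 / π * mm ρ k * (θ * prL θ (Qk k ξ η)) ≤ 2 / π * mm ρ k * 1 :=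
      mul_le_mul_of_nonneg_left e3 e5.le
    rw [Bρ] at e6
    nlinarith
  have h3 : 2 / π * (m₀ * (k : ℝ) ^ (-(4 / 3) : ℝ) * Real.exp (-(s0 ρ * k))) ≤
      2 / π * mm ρ k := mul_le_mul_of_nonneg_left hM (by positivity)
  have h4 := hK₁ k hk1
  have h5 : (k : ℝ) ^ (-(8 / 3) : ℝ) = (k : ℝ) ^ (-(4 / 3) : ℝ) * (k : ℝ) ^ (-(4 / 3) : ℝ) := by
    rw [← Real.rpow_add hkpos]; norm_num
  have h6 : (k : ℝ) ^ (-(4 / 3) : ℝ) * (k : ℝ) ^ (4 / 3 : ℝ) = 1 := by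
    rw [← Real.rpow_add hkpos]; norm_num
  have h7 : 0 < (k : ℝ) ^ (-(4 / 3) : ℝ) * Real.exp (-(s0 ρ * k)) := by positivity
  have h8 : (k : ℝ) ^ (-(4 / 3) : ℝ) * Real.exp (-(s0 ρ * k)) *
      (2 * ((k : ℝ) ^ (4 / 3 : ℝ) * Real.exp (-(om ρ * δ) * k)) +
      2 * (C * B3 ξm) * (k : ℝ) ^ (-(4 / 3) : ℝ)) ≤
      (k : ℝ) ^ (-(4 / 3) : ℝ) * Real.exp (-(s0 ρ * k)) * (2 / π * m₀) :=
    mul_le_mul_of_nonneg_left h4 h7.le
  have h9 : (k : ℝ) ^ (-(4 / 3) : ℝ) * Real.exp (-(s0 ρ * k)) *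
      (2 * ((k : ℝ) ^ (4 / 3 : ℝ) * Real.exp (-(om ρ * δ) * k)) +
      2 * (C * B3 ξm) * (k : ℝ) ^ (-(4 / 3) : ℝ)) =
      2 * (Real.exp (-(s0 ρ * k)) * Real.exp (-(om ρ * δ) * k)) +
      2 * (C * (k : ℝ) ^ (-(8 / 3) : ℝ) * Real.exp (-(s0 ρ * k)) * B3 ξm) := by
    rw [h5]
    linear_combination (2 * Real.exp (-(s0 ρ * k)) * Real.exp (-(om ρ * δ) * k)) * h6
  rw [h9] at h8
  linarith

end Pool.Agent.Lib.MP_6dec34_an
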