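import Pool.Agent.Lib.MP_6dec34_an.Region
import Pool.Agent.Lib.MP_6dec34_an.Complete
import Pool.Agent.Lib.MP_6dec34_an.Abstract
import Pool.Agent.Lib.MP_6dec34_an.Elliptic

/-!
The sign of the eigenfunctions near the focus.
-/

set_option autoImplicit false

namespace Pool.Agent.Lib.MP_6dec34_an

open MeasureTheory Real Complex intervalIntegral Set Filter
open scoped ComplexConjugate Interval Topology

theorem yy_bounded {ρ : ℝ} {g : ℝ → ℝ} (hg : Continuous g) (θ : ℝ) :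
    ∃ Y, ∀ l, |yy ρ g θ l| ≤ Y := by
  refine ⟨∫ x in (0 : ℝ)..(2 * π), |hR ρ x * g x|, fun l => ?_⟩
  rw [yy, ← Real.norm_eq_abs]
  have hc : Continuous (fun x => hR ρ x * g x) := (continuous_hR ρ).mul hg
  refine intervalIntegral.norm_integral_le_of_norm_le (by positivity) ?_
    (hc.abs.intervalIntegrable _ _)
  refine Eventually.of_forall (fun x _ => ?_)
  rw [Real.norm_eq_abs, abs_mul]
  exact mul_le_of_le_one_right (abs_nonneg _) (abs_trc_le _ _)

theorem yy_zero {ρ τ : ℝ} (hτ : 0 < τ) {g : ℝ → ℝ} {al : ℝ → ℤ → ℝ}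
    (hm : Modes ρ τ g al) {θ : ℝ} (hθ : θ = 1 ∨ θ = -1) : yy ρ g θ 0 = 0 := by
  rcases hθ with rfl | rfl
  · have e1 := hm.neu 1 (Or.inl rfl) 0
    have e2 : ∫ x in (0 : ℝ)..(2 * π), (hR ρ x * g x) * trc 1 ((0 : ℤ) * x) = 0 := by
      have : τ * ∫ x in (0 : ℝ)..(2 * π), (hR ρ x * g x) * trc 1 ((0 : ℤ) * x) = 0 := by
        rw [e1]; simp
      exact (mul_eq_zero.1 this).resolve_left hτ.ne'
    rw [yy]
    simpa using e2
  · have : (-1 : ℝ) ≠ 1 := by norm_num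
    simp [yy, trc, this]

theorem rem_bound {f b : ℕ → ℝ} {A : ℝ} (hf : HasSum f A) (k : ℕ) (hb : Summable b)
    (hfb : ∀ l, l ≠ k → |f l| ≤ b l) (hbk : 0 ≤ b k) : |A - f k| ≤ ∑' l, b l := by
  have h1 := hf.update k 0
  have h2 : ∀ l, ‖Function.update f k 0 l‖ ≤ b l := by
    intro l
    rcases eq_or_ne l k with rfl | h
    · simpa using hbk
    · rw [Function.update_of_ne h]
      exact hfb l h
  have h3 := tsum_of_norm_bounded hb.hasSum h2
  rw [h1.tsum_eq, Real.norm_eq_abs] at h3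
  rw [show A - f k = 0 - f k + A by ring]
  exact h3

theorem reduced_theta {ρ : ℝ} (hρ : 0 < ρ) {θ : ℝ} (hθ : θ = 1 ∨ θ = -1) :
    ∃ T C' : ℝ, 0 < T ∧ 0 < C' ∧ ∀ τ : ℝ, T ≤ τ → ∀ k : ℕ, 1 ≤ k →
      |τ - om ρ * k| ≤ om ρ / 2 → ∀ (g : ℝ → ℝ) (al : ℝ → ℤ → ℝ), Modes ρ τ g al →
      (∀ n : ℤ, |al θ n - om ρ * (yy ρ g θ k * bt ρ θ k n)| ≤
        C' / τ * ((k : ℝ) ^ (-(4 / 3) : ℝ) * Real.exp (-(s0 ρ * k)) * |yy ρ g θ k|) *
          Real.exp (-(ρ * |(n : ℝ)|))) ∧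
      (yy ρ g θ k ≠ 0 → 0 < -θ * (τ - om ρ * k)) := by
  obtain ⟨C₁, hC₁, hRR⟩ := RR_bound hρ
  have hω := om_pos hρ
  have hg := gam_pos hρ
  have hs := summable_abs_pow_exp 1 (a := ρ / 2) (by positivity)
  obtain ⟨A, hA⟩ : ∃ A, A = ∑' n : ℤ, |(n : ℝ)| ^ 1 * Real.exp (-(ρ / 2 * |(n : ℝ)|)) :=
    ⟨_, rfl⟩
  have hA0 : 0 ≤ A := by rw [hA]; exact tsum_nonneg (fun n => by positivity)
  obtain ⟨C, hCd⟩ : ∃ C, C = C₁ + om ρ * (6 / gam ρ) * A := ⟨_, rfl⟩
  have hC : 0 < C := by rw [hCd]; positivity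
  have hC1 : C₁ ≤ C := by rw [hCd]; linarith [show 0 ≤ om ρ * (6 / gam ρ) * A by positivity]
  obtain ⟨T, C', hT, hC', hmain⟩ := abstract_lemma (s0_pos hρ) hω hC (cJ_pos hρ) (RR ρ θ)
    (fun j k hj hk => by
      refine (hRR θ hθ j k hj hk).trans ?_
      have : 0 ≤ (k : ℝ) ^ (-(4 / 3) : ℝ) * Real.exp (-(s0 ρ * k)) *
        Real.exp (-(s0 ρ / 2 * j)) := by positivity
      nlinarith)
    (fun k hk => RR_ge hρ hθ hk)
  refine ⟨T, om ρ * (6 / gam ρ) * C', hT, by positivity, ?_⟩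
  intro τ hτ k hk hkτ g al hm
  have hτ0 : 0 < τ := hT.trans_le hτ
  obtain ⟨Y, hY⟩ := yy_bounded (ρ := ρ) hm.cont θ
  have hθ' : |(-θ)| = 1 := by rw [abs_neg]; exact abs_theta hθ
  have hZs : Summable (fun l : ℕ => Real.exp (-(s0 ρ / 2 * l)) *
      (if l = k then 0 else |yy ρ g θ l|)) := by
    have h1 := summable_pow_exp 0 (a := s0 ρ / 2) (by have := s0_pos hρ; positivity)
    refine Summable.of_nonneg_of_le (fun l => ?_) (fun l => ?_) (h1.mul_left |Y|)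
    · split_ifs
      · simp
      · positivity
    · have e1 : (if l = k then 0 else |yy ρ g θ l|) ≤ |Y| := by
        split_ifs
        · exact abs_nonneg _
        · exact (hY l).trans (le_abs_self _)
      have e2 : Real.exp (-(s0 ρ / 2 * l)) = Real.exp (-(l * (s0 ρ / 2))) := by ring_nf
      rw [e2, pow_zero, one_mul, mul_comm]
      exact mul_le_mul_of_nonneg_right e1 (Real.exp_pos _).le
  obtain ⟨Z, hZ⟩ : ∃ Z, Z = ∑' l : ℕ, Real.exp (-(s0 ρ / 2 * l)) *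
      (if l = k then 0 else |yy ρ g θ l|) := ⟨_, rfl⟩
  have hZ0 : 0 ≤ Z := by
    rw [hZ]
    refine tsum_nonneg (fun l => ?_)
    split_ifs
    · simp
    · positivity
  have hrem1 : ∀ n : ℤ, |al θ n - om ρ * (yy ρ g θ k * bt ρ θ k n)| ≤
      om ρ * (6 / gam ρ) * Real.exp (-(ρ / 2 * |(n : ℝ)|)) * Z := by
    intro n
    have h1 := al_sum hρ hτ0 hm hθ n
    have h2 := rem_bound h1 k (hZs.mul_left (om ρ * (6 / gam ρ) *
      Real.exp (-(ρ / 2 * |(n : ℝ)|)))) (fun l hl => by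
        rw [if_neg hl, abs_mul, abs_mul, abs_of_pos hω]
        calc om ρ * (|yy ρ g θ l| * |bt ρ θ l n|) ≤ om ρ * (|yy ρ g θ l| *
              (6 / gam ρ * (Real.exp (-(s0 ρ / 2 * l)) * Real.exp (-(ρ / 2 * |(n : ℝ)|))))) := by
              apply mul_le_mul_of_nonneg_left _ hω.le
              exact mul_le_mul_of_nonneg_left (bt_le hρ hθ l n) (abs_nonneg _)
          _ = _ := by ring) (by simp)
    rw [tsum_mul_left, ← hZ] at h2
    exact h2
  have hsys : ∀ j : ℕ, 1 ≤ j → |(τ - om ρ * j) * yy ρ g θ j -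
      -θ * om ρ * yy ρ g θ k * RR ρ θ j k| ≤ C * Real.exp (-(s0 ρ * j)) *
        ∑' l : ℕ, Real.exp (-(s0 ρ / 2 * l)) * (if l = k then 0 else |yy ρ g θ l|) := by
    intro j hj
    rw [← hZ]
    have h1 := system_sum hρ hm hθ j
    have h2 := ((summable_n_w_bt hρ hθ j k).hasSum.mul_left (-θ * om ρ * yy ρ g θ k))
    have h3 := h1.sub h2
    have hb : ∀ n : ℤ, ‖-θ * (n * w ρ j n * al θ n) - -θ * om ρ * yy ρ g θ k *
        ((n : ℝ) * w ρ j n * bt ρ θ k n)‖ ≤ (om ρ * (6 / gam ρ) * Z *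
          Real.exp (-(s0 ρ * j))) * (|(n : ℝ)| ^ 1 * Real.exp (-(ρ / 2 * |(n : ℝ)|))) := by
      intro n
      have e1 : -θ * (n * w ρ j n * al θ n) - -θ * om ρ * yy ρ g θ k *
        ((n : ℝ) * w ρ j n * bt ρ θ k n) = -θ * (n * w ρ j n *
          (al θ n - om ρ * (yy ρ g θ k * bt ρ θ k n))) := by ring
      rw [e1, Real.norm_eq_abs, abs_mul, hθ', one_mul, abs_mul, abs_mul]
      calc |(n : ℝ)| * |w ρ j n| * |al θ n - om ρ * (yy ρ g θ k * bt ρ θ k n)| ≤
            |(n : ℝ)| * Real.exp (-(s0 ρ * j)) * (om ρ * (6 / gam ρ) *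
              Real.exp (-(ρ / 2 * |(n : ℝ)|)) * Z) := by
            apply mul_le_mul _ (hrem1 n) (abs_nonneg _) (by positivity)
            exact mul_le_mul_of_nonneg_left (abs_w_le hρ j n) (abs_nonneg _)
        _ = _ := by ring
    have h4 := tsum_of_norm_bounded (hs.mul_left (om ρ * (6 / gam ρ) * Z *
      Real.exp (-(s0 ρ * j)))).hasSum hb
    rw [h3.tsum_eq, Real.norm_eq_abs, tsum_mul_left, ← hA] at h4
    refine h4.trans ?_
    have e2 : om ρ * (6 / gam ρ) * A ≤ C := by rw [hCd]; linarith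
    have e3 : 0 ≤ Real.exp (-(s0 ρ * j)) * Z := by positivity
    nlinarith
  obtain ⟨hsum, hle, hpos⟩ := hmain τ hτ k hk hkτ (-θ) hθ' (yy ρ g θ) ⟨Y, hY⟩
    (yy_zero hτ0 hm hθ) hsys
  refine ⟨fun n => ?_, hpos⟩
  have h1 := al_sum hρ hτ0 hm hθ n
  have h2 := rem_bound h1 k (hsum.mul_left (om ρ * (6 / gam ρ) *
      Real.exp (-(ρ * |(n : ℝ)|)))) (fun l hl => by
        rw [if_neg hl, abs_mul, abs_mul, abs_of_pos hω]
        calc om ρ * (|yy ρ g θ l| * |bt ρ θ l n|) ≤ om ρ * (|yy ρ g θ l| *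
              (6 / gam ρ * Real.exp (-(ρ * |(n : ℝ)|)))) := by
              apply mul_le_mul_of_nonneg_left _ hω.le
              exact mul_le_mul_of_nonneg_left (bt_le_one hρ hθ l n) (abs_nonneg _)
          _ = _ := by ring) (by simp)
  rw [tsum_mul_left] at h2
  refine h2.trans ?_
  have h3 : 0 ≤ om ρ * (6 / gam ρ) * Real.exp (-(ρ * |(n : ℝ)|)) := by positivity
  calc _ ≤ om ρ * (6 / gam ρ) * Real.exp (-(ρ * |(n : ℝ)|)) *
        (C' / τ * ((k : ℝ) ^ (-(4 / 3) : ℝ) * Real.exp (-(s0 ρ * k)) * |yy ρ g θ k|)) :=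
        mul_le_mul_of_nonneg_left hle h3
    _ = _ := by ring

/-- Reconstruction of a real function from its real Fourier coefficients. -/
theorem recon {f : ℝ → ℝ} (hf : Continuous f) (hp : Function.Periodic f (2 * π)) {A B : ℤ → ℝ}
    (hA : ∀ n : ℤ, ∫ x in (0 : ℝ)..(2 * π), f x * Real.cos (n * x) = A n)
    (hB : ∀ n : ℤ, ∫ x in (0 : ℝ)..(2 * π), f x * Real.sin (n * x) = B n)
    (sA : Summable A) (sB : Summable B) (η : ℝ) :
    HasSum (fun n : ℤ => A n * Real.cos (n * η) + B n * Real.sin (n * η)) (2 * π * f η) := by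
  have hfc : Continuous (fun x => (f x : ℂ)) := Complex.continuous_ofReal.comp hf
  have hco : ∀ n : ℤ, fc (2 * π) (fun x => (f x : ℂ)) n =
      (1 / (2 * (π : ℂ))) * ((A n : ℂ) - (B n : ℂ) * I) := by
    intro n
    rw [fc_two_pi, ← hA, ← hB, ← intervalIntegral.integral_ofReal,
      ← intervalIntegral.integral_ofReal, ← intervalIntegral.integral_mul_const]
    congr 1
    have i1 : IntervalIntegrable (fun x : ℝ => ((f x * Real.cos (n * x) : ℝ) : ℂ)) volume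
        0 (2 * π) := (Complex.continuous_ofReal.comp
          (by fun_prop : Continuous fun x => f x * Real.cos (n * x))).intervalIntegrable _ _
    have i2 : IntervalIntegrable (fun x : ℝ => ((f x * Real.sin (n * x) : ℝ) : ℂ) * I) volume
        0 (2 * π) := ((Complex.continuous_ofReal.comp
          (by fun_prop : Continuous fun x => f x * Real.sin (n * x))).mul
            continuous_const).intervalIntegrable _ _
    rw [← intervalIntegral.integral_sub i1 i2]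
    refine intervalIntegral.integral_congr (fun x _ => ?_)
    have e1 : cexp (-(I * n * x)) = (Real.cos (n * x) : ℂ) - (Real.sin (n * x) : ℂ) * I := by
      rw [show -(I * (n : ℂ) * x) = (((-(n * x)) : ℝ) : ℂ) * I by push_cast; ring,
        Complex.exp_mul_I, ← Complex.ofReal_cos, ← Complex.ofReal_sin, Real.cos_neg, Real.sin_neg]
      push_cast
      ring
    rw [e1]
    push_cast
    ring
  have hs : Summable (fc (2 * π) (fun x => (f x : ℂ))) := by
    rw [funext hco]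
    exact ((Complex.summable_ofReal.2 sA).sub
      ((Complex.summable_ofReal.2 sB).mul_right I)).mul_left _
  have h := fourier_inversion (T := 2 * π) (by positivity) hfc
    (fun x => by simp only [hp x]) hs η
  have h1 := (h.mul_left (2 * (π : ℂ))).mapL Complex.reCLM
  have e1 : ∀ n : ℤ, Complex.reCLM (2 * (π : ℂ) * (fc (2 * π) (fun x => (f x : ℂ)) n *
      cexp (2 * π * I * n * η / ((2 * π : ℝ) : ℂ)))) =
      A n * Real.cos (n * η) + B n * Real.sin (n * η) := by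
    intro n
    have e2 : 2 * (π : ℂ) * I * n * η / ((2 * π : ℝ) : ℂ) = ((n * η : ℝ) : ℂ) * I := by
      rw [two_pi_cast]
      have := two_pi_ne
      push_cast
      field_simp
    have e3 : 2 * (π : ℂ) * (fc (2 * π) (fun x => (f x : ℂ)) n * cexp (((n * η : ℝ) : ℂ) * I)) =
        ((A n : ℂ) - (B n : ℂ) * I) * ((Real.cos (n * η) : ℂ) + (Real.sin (n * η) : ℂ) * I) := by
      rw [hco, Complex.exp_mul_I, ← Complex.ofReal_cos, ← Complex.ofReal_sin]
      have := two_pi_ne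
      field_simp
    rw [e2, e3]
    generalize Real.cos (n * η) = Cc
    generalize Real.sin (n * η) = Ss
    simp
  have e4 : Complex.reCLM (2 * (π : ℂ) * (f η : ℂ)) = 2 * π * f η := by
    have : 2 * (π : ℂ) * (f η : ℂ) = ((2 * π * f η : ℝ) : ℂ) := by push_cast; ring
    rw [this]
    simp
  rw [e4] at h1
  rw [← funext e1]
  exact h1

theorem al_bound {ρ τ : ℝ} (hρ : 0 < ρ) {g : ℝ → ℝ} {al : ℝ → ℤ → ℝ} (hm : Modes ρ τ g al) :
    ∃ G : ℝ, 0 ≤ G ∧ ∀ θ : ℝ, (θ = 1 ∨ θ = -1) → ∀ n : ℤ,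
      |al θ n| ≤ G * Real.exp (-(ρ * |(n : ℝ)|)) := by
  have hg := gam_pos hρ
  obtain ⟨G, hG⟩ : ∃ G, G = ∫ x in (0 : ℝ)..(2 * π), |g x| := ⟨_, rfl⟩
  have hG0 : 0 ≤ G := by
    rw [hG]
    exact intervalIntegral.integral_nonneg (by positivity) (fun x _ => abs_nonneg _)
  refine ⟨2 * G / gam ρ, by positivity, ?_⟩
  intro θ hθ n
  by_cases hn : n ≠ 0 ∨ θ = 1
  · have hden := den_ne hρ hθ hn
    have h1 := abs_den_ge hρ hθ hn
    have h2 : |al θ n * den ρ θ n / 2| ≤ G := by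
      rw [← hm.dir θ hθ n, hG, ← Real.norm_eq_abs]
      refine intervalIntegral.norm_integral_le_of_norm_le (by positivity) ?_
        (hm.cont.abs.intervalIntegrable _ _)
      refine Eventually.of_forall (fun x _ => ?_)
      rw [Real.norm_eq_abs, abs_mul]
      exact mul_le_of_le_one_right (abs_nonneg _) (abs_trc_le _ _)
    have h3 : al θ n = 2 * (al θ n * den ρ θ n / 2) / den ρ θ n := by field_simp
    rw [h3, abs_div, abs_mul, abs_two]
    have h4 : 0 < gam ρ * Real.exp (ρ * |(n : ℝ)|) := by positivity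
    calc _ ≤ 2 * G / (gam ρ * Real.exp (ρ * |(n : ℝ)|)) := div_le_div₀ (by positivity)
          (by linarith) h4 h1
      _ = _ := by rw [Real.exp_neg]; field_simp
  · push Not at hn
    have h1 : θ = -1 := by
      rcases hθ with h | h
      · exact absurd h hn.2
      · exact h
    rw [hn.1, h1, hm.zero, abs_zero]
    positivity

theorem abs_den_le {ξ θ : ℝ} (hξ : 0 ≤ ξ) (hθ : θ = 1 ∨ θ = -1) (n : ℤ) :
    |den ξ θ n / 2| ≤ Real.exp (ξ * |(n : ℝ)|) := by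
  rw [abs_div, abs_two, div_le_iff₀ (by norm_num), den]
  refine (abs_add_le _ _).trans ?_
  rw [abs_mul, abs_theta hθ, one_mul, abs_of_pos (Real.exp_pos _), abs_of_pos (Real.exp_pos _)]
  have h8 : Real.exp (n * ξ) ≤ Real.exp (ξ * |(n : ℝ)|) := by
    apply Real.exp_le_exp.2
    nlinarith [le_abs_self (n : ℝ)]
  have h9 : Real.exp (-(n * ξ)) ≤ Real.exp (ξ * |(n : ℝ)|) := by
    apply Real.exp_le_exp.2
    nlinarith [neg_le_abs (n : ℝ)]
  linarith

theorem nearest {ω τ : ℝ} (hω : 0 < ω) (hτ : 0 ≤ τ) : ∃ k : ℕ, |τ - ω * k| ≤ ω / 2 := by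
  have h1 := abs_sub_round (τ / ω)
  have h2 : 0 ≤ round (τ / ω) := by
    rw [round_eq]
    apply Int.floor_nonneg.2
    positivity
  obtain ⟨k, hk⟩ := Int.eq_ofNat_of_zero_le h2
  refine ⟨k, ?_⟩
  rw [hk] at h1
  have h3 : τ - ω * k = ω * (τ / ω - ((k : ℤ) : ℝ)) := by
    push_cast
    field_simp
  rw [h3, abs_mul, abs_of_pos hω]
  calc ω * _ ≤ ω * (1 / 2) := mul_le_mul_of_nonneg_left h1 hω.le
    _ = _ := by ring

/-- The sign lemma. -/
theorem sign_lemma {ρ ξm δ : ℝ} (hρ : 0 < ρ) (hξm : 0 < ξm) (hδ : 0 < δ) :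
    ∃ T : ℝ, 0 < T ∧ ∀ τ : ℝ, T ≤ τ → ∀ (v : ℝ → ℝ → ℝ) (al : ℝ → ℤ → ℝ),
      (∀ ξ, Continuous (v ξ)) → (∀ ξ, Function.Periodic (v ξ) (2 * π)) →
      Modes ρ τ (v ρ) al →
      (∀ ξ, 0 < ξ → ξ < ρ → ∀ n : ℤ,
        (∫ x in (0 : ℝ)..(2 * π), v ξ x * Real.cos (n * x)) = al 1 n * (den ξ 1 n / 2) ∧
        (∫ x in (0 : ℝ)..(2 * π), v ξ x * Real.sin (n * x)) = al (-1) n * (den ξ (-1) n / 2)) →
      (∀ ξ η, Good ρ ξm δ ξ η → 0 ≤ v ξ η) ∨ (∀ ξ η, Good ρ ξm δ ξ η → v ξ η ≤ 0) := by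
  obtain ⟨T₁, C₁, hT₁, hC₁, h₁⟩ := reduced_theta hρ (θ := 1) (Or.inl rfl)
  obtain ⟨T₂, C₂, hT₂, hC₂, h₂⟩ := reduced_theta hρ (θ := -1) (Or.inr rfl)
  obtain ⟨cU, hcU, K, hK, hU⟩ := UU_neg hρ hξm hδ
  have hω := om_pos hρ
  have hs := summable_abs_pow_exp 0 (a := ρ / 2) (by positivity)
  obtain ⟨B0, hB0⟩ : ∃ B0, B0 = ∑' n : ℤ, |(n : ℝ)| ^ 0 * Real.exp (-(ρ / 2 * |(n : ℝ)|)) :=
    ⟨_, rfl⟩
  have hB0' : 0 ≤ B0 := by rw [hB0]; exact tsum_nonneg (fun n => by positivity)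
  obtain ⟨C, hC⟩ : ∃ C, C = C₁ + C₂ := ⟨_, rfl⟩
  have hC0 : 0 < C := by rw [hC]; positivity
  refine ⟨max (max T₁ T₂) (max (om ρ * (K + 1)) (C * B0 / (om ρ * cU))),
    lt_of_lt_of_le hT₁ (le_trans (le_max_left _ _) (le_max_left _ _)), ?_⟩
  intro τ hτ v al hvc hvp hm hmodes
  have hτ1 : T₁ ≤ τ := le_trans (le_trans (le_max_left _ _) (le_max_left _ _)) hτ
  have hτ2 : T₂ ≤ τ := le_trans (le_trans (le_max_right _ _) (le_max_left _ _)) hτ
  have hτ3 : om ρ * (K + 1) ≤ τ := le_trans (le_trans (le_max_left _ _) (le_max_right _ _)) hτ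
  have hτ4 : C * B0 / (om ρ * cU) ≤ τ :=
    le_trans (le_trans (le_max_right _ _) (le_max_right _ _)) hτ
  have hτ0 : 0 < τ := hT₁.trans_le hτ1
  obtain ⟨k, hk⟩ := nearest hω hτ0.le
  have hkK : K ≤ k := by
    by_contra hcon
    push Not at hcon
    have h3 : (k : ℝ) ≤ K := by exact_mod_cast hcon.le
    have h4 := (abs_le.1 hk).2
    nlinarith
  have hk1 : 1 ≤ k := hK.trans hkK
  have hsmall : C / τ * B0 ≤ om ρ * cU := by
    rw [div_le_iff₀ (by positivity)] at hτ4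
    rw [div_mul_eq_mul_div, div_le_iff₀ hτ0]
    linarith
  -- one of the two coefficients vanishes
  have hone : ∃ θ : ℝ, (θ = 1 ∨ θ = -1) ∧ (∀ n : ℤ, |al θ n - om ρ *
      (yy ρ (v ρ) θ k * bt ρ θ k n)| ≤ C / τ * ((k : ℝ) ^ (-(4 / 3) : ℝ) *
        Real.exp (-(s0 ρ * k)) * |yy ρ (v ρ) θ k|) * Real.exp (-(ρ * |(n : ℝ)|))) ∧
      (∀ n : ℤ, al (-θ) n = 0) := by
    obtain ⟨a1, b1⟩ := h₁ τ hτ1 k hk1 hk (v ρ) al hm
    obtain ⟨a2, b2⟩ := h₂ τ hτ2 k hk1 hk (v ρ) al hm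
    by_cases hz : yy ρ (v ρ) (-1) k = 0
    · refine ⟨1, Or.inl rfl, fun n => ?_, fun n => ?_⟩
      · refine (a1 n).trans ?_
        refine mul_le_mul_of_nonneg_right ?_ (Real.exp_pos _).le
        refine mul_le_mul_of_nonneg_right ?_ (by positivity)
        exact div_le_div_of_nonneg_right (by rw [hC]; linarith) hτ0.le
      · have := a2 n
        rw [hz] at this
        simp only [zero_mul, mul_zero, sub_zero, abs_zero] at this
        exact abs_nonpos_iff.1 this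
    · by_cases hy : yy ρ (v ρ) 1 k = 0
      · refine ⟨-1, Or.inr rfl, fun n => ?_, fun n => ?_⟩
        · refine (a2 n).trans ?_
          refine mul_le_mul_of_nonneg_right ?_ (Real.exp_pos _).le
          refine mul_le_mul_of_nonneg_right ?_ (by positivity)
          exact div_le_div_of_nonneg_right (by rw [hC]; linarith) hτ0.le
        · have := a1 n
          rw [hy] at this
          simp only [zero_mul, mul_zero, sub_zero, abs_zero] at this
          rw [neg_neg]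
          exact abs_nonpos_iff.1 this
      · exfalso
        have c1 := b1 hy
        have c2 := b2 hz
        linarith
  obtain ⟨θ, hθ, hrem, hvan⟩ := hone
  obtain ⟨G, hG0, hG⟩ := al_bound hρ hm
  -- the key estimate
  have key : ∀ ξ η, Good ρ ξm δ ξ η → ∃ U : ℝ,
      U ≤ -(cU * (k : ℝ) ^ (-(4 / 3) : ℝ) * Real.exp (-(s0 ρ * k))) ∧
      |2 * π * v ξ η - om ρ * yy ρ (v ρ) θ k * U| ≤ om ρ * cU * ((k : ℝ) ^ (-(4 / 3) : ℝ) *
        Real.exp (-(s0 ρ * k)) * |yy ρ (v ρ) θ k|) := by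
    intro ξ η hgood
    obtain ⟨g1, g2, g3, g4, g5⟩ := hgood
    have hξ0 : 0 < ξ := hξm.trans_le g1
    have hξρ : ξ < ρ := by linarith
    obtain ⟨U, hUs, hUle⟩ := hU k hkK θ hθ ξ η g1 hξρ g3 (g4 θ hθ) g5
    refine ⟨U, hUle, ?_⟩
    have hsumA : ∀ θ' : ℝ, (θ' = 1 ∨ θ' = -1) →
        Summable (fun n : ℤ => al θ' n * (den ξ θ' n / 2)) := by
      intro θ' hθ'
      refine Summable.of_norm_bounded (hs.mul_left G) (fun n => ?_)
      rw [Real.norm_eq_abs, abs_mul]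
      calc |al θ' n| * |den ξ θ' n / 2| ≤ (G * Real.exp (-(ρ * |(n : ℝ)|))) *
            Real.exp (ξ * |(n : ℝ)|) :=
            mul_le_mul (hG θ' hθ' n) (abs_den_le hξ0.le hθ' n) (abs_nonneg _) (by positivity)
        _ = G * Real.exp (-((ρ - ξ) * |(n : ℝ)|)) := by
            rw [mul_assoc, ← Real.exp_add]; ring_nf
        _ ≤ G * (|(n : ℝ)| ^ 0 * Real.exp (-(ρ / 2 * |(n : ℝ)|))) := by
            rw [pow_zero, one_mul]
            apply mul_le_mul_of_nonneg_left _ hG0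
            apply Real.exp_le_exp.2
            nlinarith [abs_nonneg (n : ℝ)]
    have hrec := recon (hvc ξ) (hvp ξ) (fun n => (hmodes ξ hξ0 hξρ n).1)
      (fun n => (hmodes ξ hξ0 hξρ n).2) (hsumA 1 (Or.inl rfl)) (hsumA (-1) (Or.inr rfl)) η
    have hrec2 : HasSum (fun n : ℤ => al θ n * (den ξ θ n / 2) * trc θ (n * η))
        (2 * π * v ξ η) := by
      have e1 : ∀ n : ℤ, al θ n * (den ξ θ n / 2) * trc θ (n * η) =
          al 1 n * (den ξ 1 n / 2) * Real.cos (n * η) +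
            al (-1) n * (den ξ (-1) n / 2) * Real.sin (n * η) := by
        intro n
        have hv := hvan n
        rcases hθ with rfl | rfl
        · rw [hv]
          simp [trc]
        · rw [neg_neg] at hv
          have : (-1 : ℝ) ≠ 1 := by norm_num
          rw [hv]
          simp [trc, this]
      rw [funext e1]
      exact hrec
    have hdiff := hrec2.sub (hUs.mul_left (om ρ * yy ρ (v ρ) θ k))
    obtain ⟨R, hR⟩ : ∃ R, R = (k : ℝ) ^ (-(4 / 3) : ℝ) *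
        Real.exp (-(s0 ρ * k)) * |yy ρ (v ρ) θ k| := ⟨_, rfl⟩
    have hR0 : 0 ≤ R := by rw [hR]; positivity
    have hb : ∀ n : ℤ, ‖al θ n * (den ξ θ n / 2) * trc θ (n * η) - om ρ * yy ρ (v ρ) θ k *
        (bt ρ θ k n * (den ξ θ n / 2) * trc θ (n * η))‖ ≤
        C / τ * R * (|(n : ℝ)| ^ 0 * Real.exp (-(ρ / 2 * |(n : ℝ)|))) := by
      intro n
      have e1 : al θ n * (den ξ θ n / 2) * trc θ (n * η) - om ρ * yy ρ (v ρ) θ k *
        (bt ρ θ k n * (den ξ θ n / 2) * trc θ (n * η)) =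
        (al θ n - om ρ * (yy ρ (v ρ) θ k * bt ρ θ k n)) * (den ξ θ n / 2) *
          trc θ (n * η) := by ring
      rw [e1, Real.norm_eq_abs, abs_mul, abs_mul]
      have e2 := hrem n
      rw [← hR] at e2
      calc _ ≤ |al θ n - om ρ * (yy ρ (v ρ) θ k * bt ρ θ k n)| * |den ξ θ n / 2| * 1 :=
            mul_le_mul_of_nonneg_left (abs_trc_le _ _) (by positivity)
        _ ≤ (C / τ * R * Real.exp (-(ρ * |(n : ℝ)|))) * Real.exp (ξ * |(n : ℝ)|) := by
            rw [mul_one]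
            exact mul_le_mul e2 (abs_den_le hξ0.le hθ n) (abs_nonneg _) (by positivity)
        _ = C / τ * R * Real.exp (-((ρ - ξ) * |(n : ℝ)|)) := by
            rw [mul_assoc, ← Real.exp_add]; ring_nf
        _ ≤ _ := by
            rw [pow_zero, one_mul]
            apply mul_le_mul_of_nonneg_left _ (by positivity)
            apply Real.exp_le_exp.2
            nlinarith [abs_nonneg (n : ℝ)]
    have h5 := tsum_of_norm_bounded (hs.mul_left (C / τ * R)).hasSum hb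
    rw [hdiff.tsum_eq, Real.norm_eq_abs, tsum_mul_left, ← hB0] at h5
    refine h5.trans ?_
    rw [← hR]
    calc C / τ * R * B0 = (C / τ * B0) * R := by ring
      _ ≤ om ρ * cU * R := mul_le_mul_of_nonneg_right hsmall hR0
  have hκ : 0 < (k : ℝ) ^ (-(4 / 3) : ℝ) * Real.exp (-(s0 ρ * k)) := by
    have : (0 : ℝ) < k := by exact_mod_cast hk1
    positivity
  rcases le_total 0 (yy ρ (v ρ) θ k) with hy | hy
  · right
    intro ξ η hgood
    obtain ⟨U, hU1, hU2⟩ := key ξ η hgood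
    rw [abs_of_nonneg hy] at hU2
    have h6 := (abs_le.1 hU2).2
    have h7 : om ρ * yy ρ (v ρ) θ k * U ≤ om ρ * yy ρ (v ρ) θ k *
        (-(cU * (k : ℝ) ^ (-(4 / 3) : ℝ) * Real.exp (-(s0 ρ * k)))) :=
      mul_le_mul_of_nonneg_left hU1 (by positivity)
    have h8 : 2 * π * v ξ η ≤ 0 := by linarith
    have h9 : 0 < 2 * π := by positivity
    nlinarith
  · left
    intro ξ η hgood
    obtain ⟨U, hU1, hU2⟩ := key ξ η hgood
    rw [abs_of_nonpos hy] at hU2
    have h6 := (abs_le.1 hU2).1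
    have h7 : om ρ * (-yy ρ (v ρ) θ k) * U ≤ om ρ * (-yy ρ (v ρ) θ k) *
        (-(cU * (k : ℝ) ^ (-(4 / 3) : ℝ) * Real.exp (-(s0 ρ * k)))) :=
      mul_le_mul_of_nonneg_left hU1 (mul_nonneg hω.le (by linarith))
    have h8 : 0 ≤ 2 * π * v ξ η := by linarith
    have h9 : 0 < 2 * π := by positivity
    exact nonneg_of_mul_nonneg_right h8 h9

end Pool.Agent.Lib.MP_6dec34_an
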