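import Pool.Agent.Lib.MP_6dec34_an.Expo

/-!
The exponentials on the critical line `Im z = ρ`.
-/

set_option autoImplicit false

namespace Pool.Agent.Lib.MP_6dec34_an

open MeasureTheory Real Complex intervalIntegral Set
open scoped ComplexConjugate Interval

/-- the decay exponent -/
noncomputable def S0 (ρ : ℝ) : ℝ := (S2 ρ 0 ρ).im

/-- the primitive along the critical line -/
noncomputable def qq (ρ x : ℝ) : ℂ := ∫ t in (0 : ℝ)..x, hh ρ (t + ρ * I)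

theorem S2_rho_zero {ρ : ℝ} (hρ : 0 < ρ) : S2 ρ 0 ρ = I * S0 ρ := by
  have h := S2_neg_conj (ρ := ρ) (x := 0) (y := ρ) (by rw [abs_of_pos hρ])
  rw [neg_zero] at h
  have h1 : (S2 ρ 0 ρ).re = 0 := by
    have := congrArg Complex.re h
    rw [neg_re, conj_re] at this
    linarith
  apply Complex.ext
  · rw [h1]; simp
  · simp [S0]

theorem S2_rho {ρ : ℝ} (hρ : 0 < ρ) (x : ℝ) : S2 ρ x ρ = I * S0 ρ + qq ρ x := by
  have h := S2_sub_x (ρ := ρ) (x₁ := 0) (x₂ := x) (y := ρ) (by rw [abs_of_pos hρ])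
  rw [S2_rho_zero hρ] at h
  rw [qq, ← h]
  ring

theorem integral_im_eq {f : ℝ → ℂ} {a b : ℝ} (hf : IntervalIntegrable f volume a b) :
    (∫ t in a..b, f t).im = ∫ t in a..b, (f t).im :=
  (Complex.imCLM.intervalIntegral_comp_comm hf).symm

theorem integral_re_eq {f : ℝ → ℂ} {a b : ℝ} (hf : IntervalIntegrable f volume a b) :
    (∫ t in a..b, f t).re = ∫ t in a..b, (f t).re :=
  (Complex.reCLM.intervalIntegral_comp_comm hf).symm

theorem S0_pos {ρ : ℝ} (hρ : 0 < ρ) : 0 < S0 ρ := by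
  have hint := intervalIntegrable_hh_vertical (ρ := ρ) (x := 0) (y₁ := 0) (y₂ := ρ)
    (by simpa using hρ.le) (by rw [abs_of_pos hρ])
  have h1 : S0 ρ = ∫ t in (0 : ℝ)..ρ, (hh ρ ((0 : ℝ) + t * I)).re := by
    rw [← integral_re_eq hint, S0, S2]
    simp
  rw [h1]
  refine intervalIntegral.intervalIntegral_pos_of_pos_on ?_ (fun t ht => ?_) hρ
  · exact ⟨hint.1.re, hint.2.re⟩
  · have h2 : |t| < ρ := by rw [abs_of_pos ht.1]; exact ht.2
    have h3 := HH_re_pos (x := 0) h2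
    have h4 := hh_sq_re ρ (((0 : ℝ) : ℂ) + t * I)
    have h5 := hh_re_nonneg ρ (((0 : ℝ) : ℂ) + t * I)
    rcases h5.lt_or_eq with h | h
    · exact h
    · rw [← h] at h4
      nlinarith [sq_nonneg (hh ρ (((0 : ℝ) : ℂ) + t * I)).im]

theorem hh_im_nonneg {ρ x y : ℝ} (hy : |y| ≤ ρ) (hy0 : 0 ≤ y) (hx0 : 0 ≤ x) (hx1 : x ≤ π / 2) :
    0 ≤ (hh ρ (x + y * I)).im := by
  by_contra hcon
  push Not at hcon
  have h1 := hh_abs_im_le (x := x) hy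
  have h2 := hh_sq_im ρ (x + y * I)
  have h3 : 0 < (hh ρ (x + y * I)).re := lt_of_lt_of_le (abs_pos.2 hcon.ne) h1
  have h4 : 0 ≤ (HH ρ (x + y * I)).im := by
    rw [HH_im]
    have h5 : 0 ≤ Real.sin x := Real.sin_nonneg_of_nonneg_of_le_pi hx0 (by linarith [Real.pi_pos])
    have h6 : 0 ≤ Real.cos x := Real.cos_nonneg_of_neg_pi_div_two_le_of_le
      (by linarith [Real.pi_pos]) hx1
    have h7 : 0 ≤ Real.sinh (2 * y) := Real.sinh_nonneg_iff.2 (by linarith)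
    positivity
  rw [← h2] at h4
  nlinarith [mul_pos_of_neg_of_neg (by linarith : -(2 * (hh ρ (x + y * I)).re) < 0) hcon]

/-- the constant in the lower bound for the imaginary part -/
noncomputable def kap (ρ : ℝ) : ℝ := Real.sinh (2 * ρ) / (2 * Real.sqrt (Real.cosh (2 * ρ)))

theorem kap_pos {ρ : ℝ} (hρ : 0 < ρ) : 0 < kap ρ := by
  have h1 : 0 < Real.sinh (2 * ρ) := Real.sinh_pos_iff.2 (by linarith)
  have h2 : 0 < Real.sqrt (Real.cosh (2 * ρ)) := Real.sqrt_pos.2 (Real.cosh_pos _)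
  unfold kap
  positivity

theorem hh_im_ge {ρ x : ℝ} (hρ : 0 < ρ) (hx0 : 0 ≤ x) (hx1 : x ≤ π / 2) :
    kap ρ * (Real.sqrt (Real.sin x) * Real.cos x) ≤ (hh ρ (x + ρ * I)).im := by
  have hρ' : |ρ| ≤ ρ := by rw [abs_of_pos hρ]
  have hs0 : 0 ≤ Real.sin x := Real.sin_nonneg_of_nonneg_of_le_pi hx0 (by linarith [Real.pi_pos])
  have hc0 : 0 ≤ Real.cos x := Real.cos_nonneg_of_neg_pi_div_two_le_of_le
      (by linarith [Real.pi_pos]) hx1
  have hJ := hh_im_nonneg hρ' hρ.le hx0 hx1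
  have hR := hh_re_nonneg ρ (x + ρ * I)
  have h1 := hh_sq_re ρ (x + ρ * I)
  have h2 := hh_sq_im ρ (x + ρ * I)
  rw [HH_re] at h1
  rw [HH_im] at h2
  obtain ⟨R, hRd⟩ : ∃ R, R = (hh ρ (x + ρ * I)).re := ⟨_, rfl⟩
  obtain ⟨J, hJd⟩ : ∃ J, J = (hh ρ (x + ρ * I)).im := ⟨_, rfl⟩
  obtain ⟨s, hsd⟩ : ∃ s, s = Real.sin x := ⟨_, rfl⟩
  obtain ⟨c, hcd⟩ : ∃ c, c = Real.cos x := ⟨_, rfl⟩
  obtain ⟨C, hCd⟩ : ∃ C, C = Real.cosh (2 * ρ) := ⟨_, rfl⟩
  obtain ⟨D, hDd⟩ : ∃ D, D = Real.sinh (2 * ρ) := ⟨_, rfl⟩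
  have hsc : s ^ 2 + c ^ 2 = 1 := by rw [hsd, hcd]; exact Real.sin_sq_add_cos_sq x
  have hC : 0 < C := by rw [hCd]; exact Real.cosh_pos _
  have hD : 0 < D := by rw [hDd]; exact Real.sinh_pos_iff.2 (by linarith)
  have hCD : C ^ 2 = D ^ 2 + 1 := by rw [hCd, hDd]; exact Real.cosh_sq _
  rw [← hRd, ← hJd, ← hsd, ← hCd] at h1
  rw [← hRd, ← hJd, ← hsd, ← hcd, ← hDd] at h2
  rw [← hJd] at hJ
  rw [← hRd] at hR
  rw [← hsd] at hs0
  rw [← hcd] at hc0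
  rw [kap, ← hJd, ← hsd, ← hcd, ← hCd, ← hDd]
  rcases hs0.eq_or_lt with h0 | hspos
  · rw [← h0]; simpa using hJ
  have hsum : R ^ 2 + J ^ 2 ≤ s * C := by
    have e1 : (R ^ 2 + J ^ 2) ^ 2 = (s ^ 2 * C) ^ 2 + (s * c * D) ^ 2 := by
      have : (R ^ 2 + J ^ 2) ^ 2 = (R ^ 2 - J ^ 2) ^ 2 + (2 * R * J) ^ 2 := by ring
      rw [this, h1, h2]
      ring
    have e2 : (R ^ 2 + J ^ 2) ^ 2 ≤ (s * C) ^ 2 := by
      rw [e1]
      have : (s * C) ^ 2 = (s ^ 2 * C) ^ 2 + (s * c * C) ^ 2 := by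
        have : (s * C) ^ 2 = (s * C) ^ 2 * (s ^ 2 + c ^ 2) := by rw [hsc, mul_one]
        rw [this]; ring
      rw [this]
      have : (s * c * D) ^ 2 ≤ (s * c * C) ^ 2 := by
        rw [mul_pow, mul_pow _ C, hCD]
        nlinarith [sq_nonneg (s * c)]
      linarith
    exact le_of_sq_le_sq e2 (by positivity)
  have hRle : R ≤ Real.sqrt s * Real.sqrt C := by
    rw [← Real.sqrt_mul hs0]
    apply Real.le_sqrt_of_sq_le
    nlinarith [sq_nonneg J]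
  have hss : Real.sqrt s * Real.sqrt s = s := Real.mul_self_sqrt hs0
  have hsq : 0 < Real.sqrt s := Real.sqrt_pos.2 hspos
  have hCq : 0 < Real.sqrt C := Real.sqrt_pos.2 hC
  have h3 : s * c * D ≤ 2 * (Real.sqrt s * Real.sqrt C) * J := by
    rw [← h2]
    nlinarith
  have h4 : Real.sqrt s * c * D ≤ 2 * Real.sqrt C * J := by
    have h5 : Real.sqrt s * (Real.sqrt s * c * D) ≤ Real.sqrt s * (2 * Real.sqrt C * J) := by
      calc Real.sqrt s * (Real.sqrt s * c * D) = (Real.sqrt s * Real.sqrt s) * c * D := by ring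
        _ = s * c * D := by rw [hss]
        _ ≤ _ := h3
        _ = _ := by ring
    exact le_of_mul_le_mul_left h5 hsq
  rw [div_mul_eq_mul_div, div_le_iff₀ (by positivity)]
  linarith

theorem continuous_hh_rho {ρ : ℝ} (hρ : 0 < ρ) : Continuous (fun t : ℝ => hh ρ (t + ρ * I)) :=
  continuous_hh_horizontal (by rw [abs_of_pos hρ])

/-- the lower-bound constant -/
noncomputable def c1 (ρ : ℝ) : ℝ := kap ρ * (2 / 3) * (2 / π) ^ (3 / 2 : ℝ)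

theorem c1_pos {ρ : ℝ} (hρ : 0 < ρ) : 0 < c1 ρ := by
  have h1 := kap_pos hρ
  have h2 : 0 < (2 / π) ^ (3 / 2 : ℝ) := Real.rpow_pos_of_pos (by positivity) _
  unfold c1
  positivity

theorem qq_im {ρ : ℝ} (hρ : 0 < ρ) (x : ℝ) :
    (qq ρ x).im = ∫ t in (0 : ℝ)..x, (hh ρ (t + ρ * I)).im :=
  integral_im_eq ((continuous_hh_rho hρ).intervalIntegrable _ _)

theorem qq_im_ge {ρ x : ℝ} (hρ : 0 < ρ) (hx0 : 0 ≤ x) (hx1 : x ≤ π / 2) :
    c1 ρ * x ^ (3 / 2 : ℝ) ≤ (qq ρ x).im := by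
  rw [qq_im hρ]
  have hF : ∀ t ∈ Set.uIcc (0 : ℝ) x, HasDerivAt (fun t => (2 / 3 : ℝ) * Real.sin t ^ (3 / 2 : ℝ))
      (Real.sqrt (Real.sin t) * Real.cos t) t := by
    intro t _
    have h1 := ((Real.hasDerivAt_sin t).rpow_const (p := (3 / 2 : ℝ))
      (Or.inr (by norm_num))).const_mul (2 / 3 : ℝ)
    have h2 : (2 / 3 : ℝ) * (Real.cos t * (3 / 2 : ℝ) * Real.sin t ^ ((3 / 2 : ℝ) - 1)) =
        Real.sqrt (Real.sin t) * Real.cos t := by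
      rw [Real.sqrt_eq_rpow]
      norm_num
      ring
    rw [h2] at h1
    exact h1
  have h1 : ∫ t in (0 : ℝ)..x, Real.sqrt (Real.sin t) * Real.cos t =
      2 / 3 * Real.sin x ^ (3 / 2 : ℝ) := by
    rw [intervalIntegral.integral_eq_sub_of_hasDerivAt hF
      ((by fun_prop : Continuous (fun t => Real.sqrt (Real.sin t) * Real.cos t)).intervalIntegrable
        _ _)]
    rw [Real.sin_zero, Real.zero_rpow (by norm_num)]
    ring
  have h2 : kap ρ * ∫ t in (0 : ℝ)..x, Real.sqrt (Real.sin t) * Real.cos t ≤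
      ∫ t in (0 : ℝ)..x, (hh ρ (t + ρ * I)).im := by
    rw [← intervalIntegral.integral_const_mul]
    refine intervalIntegral.integral_mono_on hx0 ?_ ?_ (fun t ht => ?_)
    · exact (by fun_prop : Continuous (fun t => kap ρ * (Real.sqrt (Real.sin t) *
        Real.cos t))).intervalIntegrable _ _
    · exact (Complex.continuous_im.comp (continuous_hh_rho hρ)).intervalIntegrable _ _
    · exact hh_im_ge hρ ht.1 (ht.2.trans hx1)
  refine le_trans ?_ h2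
  rw [h1, c1]
  have h3 : (2 / π * x) ^ (3 / 2 : ℝ) ≤ Real.sin x ^ (3 / 2 : ℝ) :=
    Real.rpow_le_rpow (by positivity) (Real.mul_le_sin hx0 hx1) (by norm_num)
  rw [Real.mul_rpow (by positivity) hx0] at h3
  have h4 := kap_pos hρ
  calc kap ρ * (2 / 3) * (2 / π) ^ (3 / 2 : ℝ) * x ^ (3 / 2 : ℝ)
      = kap ρ * (2 / 3) * ((2 / π) ^ (3 / 2 : ℝ) * x ^ (3 / 2 : ℝ)) := by ring
    _ ≤ kap ρ * (2 / 3) * Real.sin x ^ (3 / 2 : ℝ) :=
      mul_le_mul_of_nonneg_left h3 (by positivity)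
    _ = _ := by ring

theorem qq_im_nonneg {ρ x : ℝ} (hρ : 0 < ρ) (hx0 : 0 ≤ x) (hx1 : x ≤ π / 2) :
    0 ≤ (qq ρ x).im := by
  refine le_trans ?_ (qq_im_ge hρ hx0 hx1)
  have := c1_pos hρ
  positivity

theorem qq_im_neg {ρ : ℝ} (hρ : 0 < ρ) (x : ℝ) : (qq ρ (-x)).im = (qq ρ x).im := by
  have h := S2_neg_conj (ρ := ρ) (x := x) (y := ρ) (by rw [abs_of_pos hρ])
  rw [S2_rho hρ, S2_rho hρ] at h
  have := congrArg Complex.im h
  simp at this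
  linarith

theorem qq_im_pi {ρ : ℝ} (hρ : 0 < ρ) (x : ℝ) : (qq ρ (x + π)).im = (qq ρ x).im := by
  have h := S2_pi (ρ := ρ) (x := x) (y := ρ)
  rw [S2_rho hρ, S2_rho hρ] at h
  have := congrArg Complex.im h
  simp at this
  linarith

theorem qq_im_nonneg' {ρ : ℝ} (hρ : 0 < ρ) (x : ℝ) : 0 ≤ (qq ρ x).im := by
  have hper : Function.Periodic (fun x => (qq ρ x).im) π := fun x => qq_im_pi hρ x
  obtain ⟨y, hy, hxy⟩ := hper.exists_mem_Ico Real.pi_pos x (-(π / 2))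
  rw [show (qq ρ x).im = (qq ρ y).im from hxy]
  rcases le_total 0 y with h | h
  · exact qq_im_nonneg hρ h (by linarith [hy.2])
  · rw [← qq_im_neg hρ]
    exact qq_im_nonneg hρ (by linarith) (by linarith [hy.1])

/-- `s₀ = ω S₀` -/
noncomputable def s0 (ρ : ℝ) : ℝ := om ρ * S0 ρ

theorem s0_pos {ρ : ℝ} (hρ : 0 < ρ) : 0 < s0 ρ := mul_pos (om_pos hρ) (S0_pos hρ)

theorem sc_rho (ρ x : ℝ) : sc ρ (x + ρ * I) = S2 ρ x ρ := by
  rw [sc]; simp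

theorem EL_rho {ρ : ℝ} (hρ : 0 < ρ) (k : ℕ) (x : ℝ) :
    EL ρ k ρ x = (Real.exp (-(s0 ρ * k)) : ℝ) * cexp (I * (k * om ρ : ℝ) * qq ρ x) := by
  rw [EL, EE, sc_rho, S2_rho hρ, Complex.ofReal_exp, ← Complex.exp_add, s0]
  congr 1
  push_cast
  linear_combination ((k : ℂ) * (om ρ : ℂ) * (S0 ρ : ℂ)) * Complex.I_mul_I

theorem norm_EL_rho {ρ : ℝ} (hρ : 0 < ρ) (k : ℕ) (x : ℝ) :
    ‖EL ρ k ρ x‖ = Real.exp (-(s0 ρ * k)) * Real.exp (-(k * om ρ * (qq ρ x).im)) := by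
  rw [EL_rho hρ, norm_mul, Complex.norm_exp, Complex.norm_real,
    Real.norm_of_nonneg (Real.exp_pos _).le]
  congr 2
  simp only [mul_re, I_re, I_im, ofReal_re, ofReal_im, mul_im]
  ring

theorem norm_EL_rho_le {ρ : ℝ} (hρ : 0 < ρ) (k : ℕ) (x : ℝ) :
    ‖EL ρ k ρ x‖ ≤ Real.exp (-(s0 ρ * k)) := by
  rw [norm_EL_rho hρ]
  have h1 : Real.exp (-(k * om ρ * (qq ρ x).im)) ≤ 1 := by
    rw [Real.exp_le_one_iff]
    have := qq_im_nonneg' hρ x
    have := om_pos hρ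
    have : 0 ≤ (k : ℝ) * om ρ * (qq ρ x).im := by positivity
    linarith
  exact mul_le_of_le_one_right (Real.exp_pos _).le h1

theorem norm_EL_rho_le' {ρ x : ℝ} (hρ : 0 < ρ) (k : ℕ) (hx0 : 0 ≤ x) (hx1 : x ≤ π / 2) :
    ‖EL ρ k ρ x‖ ≤ Real.exp (-(s0 ρ * k)) *
      Real.exp (-(k * om ρ * c1 ρ) * x ^ (3 / 2 : ℝ)) := by
  rw [norm_EL_rho hρ]
  refine mul_le_mul_of_nonneg_left (Real.exp_le_exp.2 ?_) (Real.exp_pos _).le
  have h1 := qq_im_ge hρ hx0 hx1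
  have h2 := om_pos hρ
  have h3 : 0 ≤ (k : ℝ) * om ρ := by positivity
  nlinarith

/-- Moments. -/
theorem moment_bound {ρ : ℝ} (hρ : 0 < ρ) {q : ℝ} (hq : 0 ≤ q) :
    ∃ C : ℝ, 0 < C ∧ ∀ k : ℕ, 1 ≤ k → ∫ x in (0 : ℝ)..(π / 2), x ^ q * ‖EL ρ k ρ x‖ ≤
      C * (k : ℝ) ^ (-(q + 1) / (3 / 2) : ℝ) * Real.exp (-(s0 ρ * k)) := by
  have hb : 0 < om ρ * c1 ρ := mul_pos (om_pos hρ) (c1_pos hρ)
  have hG : 0 < Real.Gamma ((q + 1) / (3 / 2)) := Real.Gamma_pos_of_pos (by positivity)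
  refine ⟨(om ρ * c1 ρ) ^ (-(q + 1) / (3 / 2) : ℝ) * (1 / (3 / 2)) *
    Real.Gamma ((q + 1) / (3 / 2)), ?_, ?_⟩
  · have : 0 < (om ρ * c1 ρ) ^ (-(q + 1) / (3 / 2) : ℝ) := Real.rpow_pos_of_pos hb _
    positivity
  intro k hk
  have hk0 : (0 : ℝ) < k := by exact_mod_cast hk
  have hbk : 0 < k * om ρ * c1 ρ := by rw [mul_assoc]; positivity
  have hcont : Continuous (fun x => x ^ q * ‖EL ρ k ρ x‖) :=
    (Real.continuous_rpow_const hq).mul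
      (continuous_EL (by rw [abs_of_pos hρ]) k).norm
  have hint := integrableOn_rpow_mul_exp_neg_mul_rpow (p := 3 / 2) (s := q)
    (b := k * om ρ * c1 ρ) (by linarith) (by norm_num) hbk
  have hle : ∫ x in (0 : ℝ)..(π / 2), x ^ q * ‖EL ρ k ρ x‖ ≤
      ∫ x in (0 : ℝ)..(π / 2), Real.exp (-(s0 ρ * k)) *
        (x ^ q * Real.exp (-(k * om ρ * c1 ρ) * x ^ (3 / 2 : ℝ))) := by
    refine intervalIntegral.integral_mono_on (by positivity) (hcont.intervalIntegrable _ _) ?_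
      (fun x hx => ?_)
    · apply IntervalIntegrable.const_mul
      rw [intervalIntegrable_iff_integrableOn_Ioc_of_le (by positivity)]
      exact hint.mono_set Set.Ioc_subset_Ioi_self
    · have h1 := norm_EL_rho_le' hρ k hx.1 hx.2
      have h2 : 0 ≤ x ^ q := Real.rpow_nonneg hx.1 _
      nlinarith
  refine hle.trans ?_
  rw [intervalIntegral.integral_const_mul, intervalIntegral.integral_of_le (by positivity)]
  have h3 : ∫ x in Ioc 0 (π / 2), x ^ q * Real.exp (-(k * om ρ * c1 ρ) * x ^ (3 / 2 : ℝ)) ≤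
      ∫ x in Ioi (0 : ℝ), x ^ q * Real.exp (-(k * om ρ * c1 ρ) * x ^ (3 / 2 : ℝ)) := by
    refine setIntegral_mono_set hint ?_ (Set.Ioc_subset_Ioi_self.eventuallyLE)
    filter_upwards [ae_restrict_mem measurableSet_Ioi] with x hx
    have : (0 : ℝ) < x := hx
    simp only [Pi.zero_apply]
    positivity
  rw [_root_.integral_rpow_mul_exp_neg_mul_rpow (by norm_num) (by linarith) hbk] at h3
  have h4 : (k * om ρ * c1 ρ) ^ (-(q + 1) / (3 / 2) : ℝ) =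
      (k : ℝ) ^ (-(q + 1) / (3 / 2) : ℝ) * (om ρ * c1 ρ) ^ (-(q + 1) / (3 / 2) : ℝ) := by
    rw [mul_assoc, Real.mul_rpow hk0.le hb.le]
  rw [h4] at h3
  calc _ ≤ Real.exp (-(s0 ρ * k)) * ((k : ℝ) ^ (-(q + 1) / (3 / 2) : ℝ) *
      (om ρ * c1 ρ) ^ (-(q + 1) / (3 / 2) : ℝ) * (1 / (3 / 2)) *
        Real.Gamma ((q + 1) / (3 / 2))) := mul_le_mul_of_nonneg_left h3 (Real.exp_pos _).le
    _ = _ := by ring

end Pool.Agent.Lib.MP_6dec34_an
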