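import Pool.Agent.Lib.MP_6dec34_an.Kernel

/-!
Existence of the region near the focus.
-/

set_option autoImplicit false

namespace Pool.Agent.Lib.MP_6dec34_an

open MeasureTheory Real Complex intervalIntegral Set Filter
open scoped ComplexConjugate Interval Topology

theorem norm_sin_le (x y : ℝ) : ‖Complex.sin (x + y * I)‖ ≤ Real.cosh y := by
  have h3 : ‖Complex.sin (x + y * I)‖ ^ 2 ≤ Real.cosh y ^ 2 := by
    rw [Complex.sin_add_mul_I, ← Complex.ofReal_sin, ← Complex.ofReal_cos,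
      ← Complex.ofReal_sinh, ← Complex.ofReal_cosh, Complex.sq_norm, Complex.normSq_apply]
    simp only [add_re, mul_re, ofReal_re, ofReal_im, I_re, I_im, add_im, mul_im]
    have h4 := Real.sin_sq_add_cos_sq x
    have h5 := Real.cosh_sq y
    nlinarith [sq_nonneg (Real.sin x), sq_nonneg (Real.cos x)]
  exact le_of_sq_le_sq h3 (Real.cosh_pos _).le

theorem norm_HH_le {ρ x y : ℝ} (hρ : 0 < ρ) (hy : |y| ≤ ρ) :
    ‖HH ρ (x + y * I)‖ ≤ Real.cosh (2 * ρ) * (|x| + |ρ - y|) := by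
  have hconv : Convex ℝ {z : ℂ | z.im ∈ Set.Icc (-ρ) ρ} :=
    (convex_Icc (-ρ) ρ).linear_preimage Complex.imLm
  have hderiv : ∀ z : ℂ, HasDerivAt (HH ρ) (2 * Complex.sin z * Complex.cos z) z := by
    intro z
    have h1 := ((Complex.hasDerivAt_sin z).pow 2).const_add (((Real.sinh ρ : ℝ) : ℂ) ^ 2)
    simp only [Nat.cast_ofNat, Nat.add_one_sub_one, pow_one] at h1
    exact h1
  have h := hconv.norm_image_sub_le_of_norm_deriv_le (f := HH ρ) (C := Real.cosh (2 * ρ))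
    (x := ρ * I) (y := x + y * I) (fun z _ => (hderiv z).differentiableAt) (fun z hz => by
      rw [(hderiv z).deriv, ← Complex.sin_two_mul]
      have e1 : 2 * z = ((2 * z.re : ℝ) : ℂ) + ((2 * z.im : ℝ) : ℂ) * I := by
        apply Complex.ext <;> simp
      rw [e1]
      refine (norm_sin_le _ _).trans ?_
      rw [Real.cosh_le_cosh, abs_mul, abs_mul, abs_two]
      have : |z.im| ≤ ρ := abs_le.2 hz
      rw [abs_of_pos hρ]
      linarith)
    (by simp [hρ.le]) (by simpa [abs_le] using hy)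
  have h0 : HH ρ (ρ * I) = 0 := by
    rw [HH, Complex.sin_mul_I, mul_pow, Complex.I_sq, ← Complex.ofReal_sinh]
    ring
  rw [h0, sub_zero] at h
  refine h.trans (mul_le_mul_of_nonneg_left ?_ (Real.cosh_pos _).le)
  have e2 : (x : ℂ) + y * I - ρ * I = (x : ℂ) + ((-(ρ - y) : ℝ) : ℂ) * I := by
    push_cast; ring
  rw [e2]
  refine (norm_add_le _ _).trans ?_
  rw [norm_mul, Complex.norm_I, mul_one, Complex.norm_real, Complex.norm_real, Real.norm_eq_abs,
    Real.norm_eq_abs, abs_neg]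

theorem norm_hh_sq (ρ : ℝ) (z : ℂ) : ‖hh ρ z‖ ^ 2 = ‖HH ρ z‖ := by
  rw [← norm_pow, hh_sq]

/-- The opening of the sector. -/
noncomputable def vt (ρ : ℝ) : ℝ := min (1 / 2) (c1 ρ / (2 * Real.sqrt (2 * Real.cosh (2 * ρ))))

theorem vt_pos {ρ : ℝ} (hρ : 0 < ρ) : 0 < vt ρ := by
  have h1 := c1_pos hρ
  have h2 : 0 < Real.sqrt (2 * Real.cosh (2 * ρ)) := by
    have := Real.cosh_pos (2 * ρ)
    positivity
  exact lt_min (by norm_num) (by positivity)

theorem sc_im_gt {ρ t : ℝ} (hρ : 0 < ρ) (ht0 : 0 < t) (ht1 : t ≤ π / 2) (ht2 : vt ρ * t ≤ ρ) :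
    S0 ρ < (sc ρ (t + (ρ - vt ρ * t : ℝ) * I)).im := by
  have hv := vt_pos hρ
  have hvt0 : 0 < vt ρ * t := by positivity
  have hρa : |ρ| ≤ ρ := by rw [abs_of_pos hρ]
  have hya : |ρ - vt ρ * t| ≤ ρ := by
    rw [abs_le]
    constructor <;> linarith
  have h1 : sc ρ (t + (ρ - vt ρ * t : ℝ) * I) = S2 ρ t (ρ - vt ρ * t) := by
    rw [sc]; simp
  have h2 := S2_sub_y (ρ := ρ) (x := t) hya hρa
  rw [S2_rho hρ] at h2
  have h3 : ‖I * ∫ s in (ρ - vt ρ * t)..ρ, hh ρ (t + s * I)‖ ≤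
      Real.sqrt (2 * Real.cosh (2 * ρ) * t) * (vt ρ * t) := by
    rw [norm_mul, Complex.norm_I, one_mul]
    have h4 := intervalIntegral.norm_integral_le_of_norm_le_const
      (a := ρ - vt ρ * t) (b := ρ) (f := fun s : ℝ => hh ρ (t + s * I))
      (C := Real.sqrt (2 * Real.cosh (2 * ρ) * t)) (fun s hs => by
        rw [Set.uIoc_of_le (by linarith)] at hs
        apply Real.le_sqrt_of_sq_le
        rw [norm_hh_sq]
        have h5 : |s| ≤ ρ := by
          rw [abs_le]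
          constructor <;> linarith [hs.1, hs.2]
        refine (norm_HH_le hρ h5).trans ?_
        have h6 : |t| + |ρ - s| ≤ 2 * t := by
          rw [abs_of_pos ht0, abs_of_nonneg (by linarith [hs.2])]
          have h7 : vt ρ ≤ 1 / 2 := min_le_left _ _
          nlinarith [hs.1]
        calc Real.cosh (2 * ρ) * (|t| + |ρ - s|) ≤ Real.cosh (2 * ρ) * (2 * t) :=
              mul_le_mul_of_nonneg_left h6 (Real.cosh_pos _).le
          _ = _ := by ring)
    rw [sub_sub_cancel, abs_of_pos hvt0] at h4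
    exact h4
  have h4 := qq_im_ge hρ ht0.le ht1
  have h5 : (sc ρ (t + (ρ - vt ρ * t : ℝ) * I)).im = S0 ρ + (qq ρ t).im -
      (I * ∫ s in (ρ - vt ρ * t)..ρ, hh ρ (t + s * I)).im := by
    rw [h1, ← h2]
    simp
  have h6 := (le_abs_self _).trans ((Complex.abs_im_le_norm _).trans h3)
  have h7 : Real.sqrt (2 * Real.cosh (2 * ρ) * t) * (vt ρ * t) =
      (vt ρ * Real.sqrt (2 * Real.cosh (2 * ρ))) * t ^ (3 / 2 : ℝ) := by
    rw [Real.sqrt_mul (by have := Real.cosh_pos (2 * ρ); positivity), Real.sqrt_eq_rpow t]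
    have h8 : t ^ (3 / 2 : ℝ) = t ^ (1 / 2 : ℝ) * t := by
      rw [show (3 / 2 : ℝ) = 1 / 2 + 1 by norm_num, Real.rpow_add ht0, Real.rpow_one]
    rw [h8]
    ring
  have h8 : vt ρ * Real.sqrt (2 * Real.cosh (2 * ρ)) ≤ c1 ρ / 2 := by
    have h9 : 0 < Real.sqrt (2 * Real.cosh (2 * ρ)) := by
      have := Real.cosh_pos (2 * ρ)
      positivity
    calc vt ρ * Real.sqrt (2 * Real.cosh (2 * ρ)) ≤
          c1 ρ / (2 * Real.sqrt (2 * Real.cosh (2 * ρ))) * Real.sqrt (2 * Real.cosh (2 * ρ)) :=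
          mul_le_mul_of_nonneg_right (min_le_right _ _) h9.le
      _ = c1 ρ / 2 := by field_simp
  have h10 : 0 < t ^ (3 / 2 : ℝ) := by positivity
  have h11 := c1_pos hρ
  have h12 : (vt ρ * Real.sqrt (2 * Real.cosh (2 * ρ))) * t ^ (3 / 2 : ℝ) ≤
      c1 ρ / 2 * t ^ (3 / 2 : ℝ) := mul_le_mul_of_nonneg_right h8 h10.le
  have h13 : 0 < c1 ρ * t ^ (3 / 2 : ℝ) := by positivity
  rw [h5]
  rw [h7] at h6
  linarith

theorem tendsto_Psi {v : ℝ} (hv : 0 < v) :
    Tendsto (fun t : ℝ => ((t ^ 2 : ℝ) : ℂ) * Psi (v * t) t) (𝓝[>] 0)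
      (𝓝 (1 / ((v : ℂ) - I) ^ 2)) := by
  obtain ⟨z, hz⟩ : ∃ z : ℂ, z = -(v : ℂ) + I := ⟨_, rfl⟩
  have hz0 : z ≠ 0 := by
    intro h
    have := congrArg Complex.im h
    rw [hz] at this
    simp at this
  have hd : HasDerivAt (fun t : ℝ => cexp (t * z)) z 0 := by
    have h1 : HasDerivAt (fun t : ℂ => cexp (t * z)) (cexp (((0 : ℝ) : ℂ) * z) * (1 * z))
        ((0 : ℝ) : ℂ) := ((hasDerivAt_id _).mul_const z).cexp
    have h2 := h1.comp_ofReal
    simpa using h2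
  have h1 := hd.tendsto_slope
  have h2 : Tendsto (fun t : ℝ => slope (fun t : ℝ => cexp (t * z)) 0 t) (𝓝[>] 0) (𝓝 z) :=
    h1.mono_left (nhdsWithin_mono _ (fun t ht => (ne_of_gt ht)))
  have h3 : Tendsto (fun t : ℝ => cexp (t * z)) (𝓝[>] 0) (𝓝 1) := by
    have := hd.continuousAt.tendsto.mono_left (nhdsWithin_le_nhds (s := Ioi 0))
    simpa using this
  have h4 := h3.div (h2.pow 2) (pow_ne_zero 2 hz0)
  have h5 : (1 : ℂ) / z ^ 2 = 1 / ((v : ℂ) - I) ^ 2 := by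
    rw [hz]; ring_nf
  rw [h5] at h4
  refine h4.congr' ?_
  filter_upwards [self_mem_nhdsWithin] with t ht
  have ht0 : (t : ℂ) ≠ 0 := by
    have : (0 : ℝ) < t := ht
    exact_mod_cast this.ne'
  have hx : cexp (-((v * t : ℝ) : ℂ) + t * I) = cexp (t * z) := by
    rw [hz]; push_cast; ring_nf
  have hne : 1 - cexp (t * z) ≠ 0 := by
    intro h
    have h6 : ‖cexp (t * z)‖ = 1 := by
      rw [sub_eq_zero] at h
      rw [← h, norm_one]
    rw [Complex.norm_exp, hz] at h6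
    have h7 : ((t : ℂ) * (-(v : ℂ) + I)).re = -(t * v) := by simp
    rw [h7, Real.exp_eq_one_iff] at h6
    have : (0 : ℝ) < t * v := mul_pos ht hv
    linarith
  rw [Psi, hx, Pi.div_apply, slope_def_module]
  simp only [Complex.ofReal_zero, zero_mul, Complex.exp_zero, sub_zero]
  rw [Complex.real_smul]
  push_cast
  have hne2 : cexp (t * z) - 1 ≠ 0 := by
    intro h; apply hne; rw [← neg_sub, h, neg_zero]
  field_simp
  ring

/-- the conditions -/
def Good (ρ ξm δ ξ η : ℝ) : Prop :=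
  ξm ≤ ξ ∧ ξ < ρ / 2 ∧ |η| ≤ π / 2 ∧
    (∀ θ : ℝ, (θ = 1 ∨ θ = -1) → θ * prL θ (Psi ξ η) ≤ -(Bρ ρ + 1)) ∧
    S0 ρ + δ ≤ (sc ρ (η + (ρ - ξ : ℝ) * I)).im

theorem continuousAt_Psi {z₀ : ℂ} (hz : 0 < z₀.re) :
    ContinuousAt (fun z : ℂ => Psi z.re z.im) z₀ := by
  unfold Psi
  have h1 : Continuous (fun z : ℂ => cexp (-(z.re : ℂ) + (z.im : ℂ) * I)) := by fun_prop
  refine ContinuousAt.div h1.continuousAt ((continuousAt_const.sub h1.continuousAt).pow 2) ?_
  apply pow_ne_zero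
  intro h
  have h6 : ‖cexp (-(z₀.re : ℂ) + (z₀.im : ℂ) * I)‖ = 1 := by
    rw [sub_eq_zero] at h
    rw [← h, norm_one]
  rw [Complex.norm_exp, Real.exp_eq_one_iff] at h6
  simp at h6
  linarith

theorem exists_good {ρ : ℝ} (hρ : 0 < ρ) : ∃ ξm δ : ℝ, 0 < ξm ∧ 0 < δ ∧ ∃ z₀ : ℂ, 0 < z₀.re ∧
    ∀ᶠ z : ℂ in 𝓝 z₀, Good ρ ξm δ z.re z.im := by
  have hv := vt_pos hρ
  have hv1 : vt ρ ≤ 1 / 2 := min_le_left _ _
  have hg := gam_pos hρ
  have hB0 : 0 ≤ Bρ ρ := by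
    have : 0 ≤ B1 ρ := tsum_nonneg (fun n => by positivity)
    unfold Bρ
    positivity
  obtain ⟨v, hvd⟩ : ∃ v, v = vt ρ := ⟨_, rfl⟩
  rw [← hvd] at hv hv1
  have hlim := tendsto_Psi hv
  have hL : (1 : ℂ) / ((v : ℂ) - I) ^ 2 =
      (((v ^ 2 - 1) / (1 + v ^ 2) ^ 2 : ℝ) : ℂ) + ((2 * v / (1 + v ^ 2) ^ 2 : ℝ) : ℂ) * I := by
    have h1 : ((v : ℂ) - I) * ((v : ℂ) + I) = 1 + (v : ℂ) ^ 2 := by
      linear_combination (-1 : ℂ) * Complex.I_sq
    have h2 : (1 + (v : ℂ) ^ 2) ≠ 0 := by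
      have : (0 : ℝ) < 1 + v ^ 2 := by positivity
      exact_mod_cast this.ne'
    have h3 : ((v : ℂ) - I) ≠ 0 := by
      intro h
      rw [h, zero_mul] at h1
      exact h2 h1.symm
    rw [div_eq_iff (pow_ne_zero 2 h3)]
    have h4 : (((v ^ 2 - 1) / (1 + v ^ 2) ^ 2 : ℝ) : ℂ) + ((2 * v / (1 + v ^ 2) ^ 2 : ℝ) : ℂ) * I =
        ((v : ℂ) + I) ^ 2 / (1 + (v : ℂ) ^ 2) ^ 2 := by
      push_cast
      field_simp
      linear_combination (-1 : ℂ) * Complex.I_sq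
    rw [h4, div_mul_eq_mul_div, eq_div_iff (pow_ne_zero 2 h2), ← h1]
    ring
  rw [hL] at hlim
  obtain ⟨r, hr⟩ : ∃ r, r = (v ^ 2 - 1) / (1 + v ^ 2) ^ 2 := ⟨_, rfl⟩
  obtain ⟨m, hm⟩ : ∃ m, m = 2 * v / (1 + v ^ 2) ^ 2 := ⟨_, rfl⟩
  rw [← hr, ← hm] at hlim
  have hr0 : r < 0 := by
    rw [hr]
    apply div_neg_of_neg_of_pos
    · nlinarith
    · positivity
  have hm0 : 0 < m := by rw [hm]; positivity
  have hre := (Complex.continuous_re.tendsto _).comp hlim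
  have him := (Complex.continuous_im.tendsto _).comp hlim
  simp only [add_re, ofReal_re, mul_re, I_re, mul_zero, ofReal_im, I_im, mul_one, sub_self,
    add_zero, add_im, mul_im, zero_add] at hre him
  have e1 := hre.eventually_lt_const (show r < r / 2 by linarith)
  have e2 := him.eventually_const_lt (show m / 2 < m by linarith)
  have e3 : ∀ᶠ t : ℝ in 𝓝[>] 0, t ^ 2 * (Bρ ρ + 2) < min (-(r / 2)) (m / 2) := by
    have h1 : Tendsto (fun t : ℝ => t ^ 2 * (Bρ ρ + 2)) (𝓝 0) (𝓝 0) := by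
      have : Continuous (fun t : ℝ => t ^ 2 * (Bρ ρ + 2)) := by fun_prop
      simpa using this.tendsto 0
    exact (h1.mono_left nhdsWithin_le_nhds).eventually_lt_const
      (lt_min (by linarith) (by linarith))
  have e4 : ∀ᶠ t : ℝ in 𝓝[>] 0, t < 1 ∧ v * t < ρ / 2 := by
    have h1 : Tendsto (fun t : ℝ => t) (𝓝 0) (𝓝 0) := tendsto_id
    have h2 : Tendsto (fun t : ℝ => v * t) (𝓝 0) (𝓝 0) := by
      simpa using h1.const_mul v
    exact ((h1.eventually_lt_const one_pos).and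
      (h2.eventually_lt_const (half_pos hρ))).filter_mono nhdsWithin_le_nhds
  obtain ⟨t, ⟨⟨⟨⟨ht1, ht2⟩, ht3⟩, ht4, ht5⟩, ht0⟩⟩ :=
    ((((e1.and e2).and e3).and e4).and self_mem_nhdsWithin).exists
  have ht0' : (0 : ℝ) < t := ht0
  have htsq : 0 < t ^ 2 := by positivity
  simp only [Function.comp_apply, Complex.re_ofReal_mul, Complex.im_ofReal_mul] at ht1 ht2
  have hPre : (Psi (v * t) t).re < -(Bρ ρ + 1) := by
    by_contra hcon
    push Not at hcon
    have h1 : t ^ 2 * (-(Bρ ρ + 1)) ≤ t ^ 2 * (Psi (v * t) t).re :=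
      mul_le_mul_of_nonneg_left hcon htsq.le
    have h2 := (lt_min_iff.1 ht3).1
    nlinarith
  have hPim : Bρ ρ + 1 < (Psi (v * t) t).im := by
    by_contra hcon
    push Not at hcon
    have h1 : t ^ 2 * (Psi (v * t) t).im ≤ t ^ 2 * (Bρ ρ + 1) :=
      mul_le_mul_of_nonneg_left hcon htsq.le
    have h2 := (lt_min_iff.1 ht3).2
    nlinarith
  have hπ := Real.pi_gt_three
  have hsc := sc_im_gt hρ ht0' (by linarith) (by rw [← hvd]; linarith)
  rw [← hvd] at hsc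
  obtain ⟨z₀, hz₀⟩ : ∃ z₀ : ℂ, z₀ = ((v * t : ℝ) : ℂ) + t * I := ⟨_, rfl⟩
  have hz₀re : z₀.re = v * t := by rw [hz₀]; simp
  have hz₀im : z₀.im = t := by rw [hz₀]; simp
  have hvt : 0 < v * t := by positivity
  refine ⟨v * t / 2, ((sc ρ (t + (ρ - v * t : ℝ) * I)).im - S0 ρ) / 2, by positivity,
    by linarith, z₀, by rw [hz₀re]; exact hvt, ?_⟩
  have c1 : ∀ᶠ z : ℂ in 𝓝 z₀, v * t / 2 < z.re ∧ z.re < ρ / 2 := by
    have h1 := Complex.continuous_re.tendsto z₀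
    rw [hz₀re] at h1
    exact (h1.eventually_const_lt (by linarith)).and (h1.eventually_lt_const ht5)
  have c2 : ∀ᶠ z : ℂ in 𝓝 z₀, |z.im| < π / 2 := by
    have h1 := (continuous_abs.comp Complex.continuous_im).tendsto z₀
    simp only [Function.comp_apply] at h1
    rw [hz₀im, abs_of_pos ht0'] at h1
    exact h1.eventually_lt_const (by linarith)
  have hPc := continuousAt_Psi (z₀ := z₀) (by rw [hz₀re]; exact hvt)
  have c3 : ∀ᶠ z : ℂ in 𝓝 z₀, (Psi z.re z.im).re < -(Bρ ρ + 1) := by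
    have h1 := (Complex.continuous_re.continuousAt.comp hPc).tendsto
    simp only [Function.comp_apply] at h1
    rw [hz₀re, hz₀im] at h1
    exact h1.eventually_lt_const hPre
  have c4 : ∀ᶠ z : ℂ in 𝓝 z₀, Bρ ρ + 1 < (Psi z.re z.im).im := by
    have h1 := (Complex.continuous_im.continuousAt.comp hPc).tendsto
    simp only [Function.comp_apply] at h1
    rw [hz₀re, hz₀im] at h1
    exact h1.eventually_const_lt hPim
  have c5 : ∀ᶠ z : ℂ in 𝓝 z₀, S0 ρ + ((sc ρ (t + (ρ - v * t : ℝ) * I)).im - S0 ρ) / 2 <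
      (sc ρ ((z.im : ℂ) + (ρ - z.re : ℝ) * I)).im := by
    have hmem : {z : ℂ | |z.im| ≤ ρ} ∈ 𝓝 ((t : ℂ) + (ρ - v * t : ℝ) * I) := by
      have ho : IsOpen {z : ℂ | |z.im| < ρ} :=
        isOpen_lt (continuous_abs.comp Complex.continuous_im) continuous_const
      refine Filter.mem_of_superset (ho.mem_nhds ?_) (fun z hz => by
        have h1 : |z.im| < ρ := hz
        exact h1.le)
      change |(((t : ℂ) + (ρ - v * t : ℝ) * I)).im| < ρ
      have : (((t : ℂ) + (ρ - v * t : ℝ) * I)).im = ρ - v * t := by simp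
      rw [this, abs_lt]
      constructor <;> linarith
    have h1 : ContinuousAt (sc ρ) ((t : ℂ) + (ρ - v * t : ℝ) * I) :=
      (continuousOn_sc ρ).continuousAt hmem
    have h2 : Continuous (fun z : ℂ => (z.im : ℂ) + (ρ - z.re : ℝ) * I) := by fun_prop
    have h3 : ContinuousAt (fun z : ℂ => sc ρ ((z.im : ℂ) + (ρ - z.re : ℝ) * I)) z₀ := by
      apply ContinuousAt.comp (g := sc ρ) (f := fun z : ℂ => (z.im : ℂ) + (ρ - z.re : ℝ) * I)
      · rw [hz₀re, hz₀im]; exact h1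
      · exact h2.continuousAt
    have h4 := (Complex.continuous_im.continuousAt.comp h3).tendsto
    simp only [Function.comp_apply] at h4
    rw [hz₀re, hz₀im] at h4
    exact h4.eventually_const_lt (by linarith)
  filter_upwards [c1, c2, c3, c4, c5] with z h1 h2 h3 h4 h5
  refine ⟨h1.1.le, h1.2, h2.le, ?_, h5.le⟩
  intro θ hθ
  rcases hθ with rfl | rfl
  · simp only [prL, if_true, Complex.reCLM_apply]
    linarith
  · have : (-1 : ℝ) ≠ 1 := by norm_num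
    simp only [prL, this, if_false, Complex.imCLM_apply]
    linarith

end Pool.Agent.Lib.MP_6dec34_an
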