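import Pool.Agent.Lib.MP_6dec34_an.Branch

/-!
The primitive of the continued speed on the strip `0 ≤ Im z ≤ ρ` and its exponentials.
-/

set_option autoImplicit false

namespace Pool.Agent.Lib.MP_6dec34_an

open MeasureTheory Real Complex intervalIntegral Set
open scoped ComplexConjugate

theorem continuous_hh_horizontal {ρ y : ℝ} (hy : |y| ≤ ρ) :
    Continuous (fun t : ℝ => hh ρ (t + y * I)) := by
  rw [continuous_iff_continuousAt]
  intro t
  have h1 : ContinuousAt (hh ρ) ((t : ℂ) + y * I) := continuousAt_hh (by simpa using hy)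
  have h2 : Continuous (fun t : ℝ => (t : ℂ) + y * I) := by fun_prop
  exact ContinuousAt.comp (f := fun t : ℝ => (t : ℂ) + y * I) h1 h2.continuousAt

theorem intervalIntegrable_hh_vertical {ρ x y₁ y₂ : ℝ} (h₁ : |y₁| ≤ ρ) (h₂ : |y₂| ≤ ρ) :
    IntervalIntegrable (fun t : ℝ => hh ρ (x + t * I)) volume y₁ y₂ := by
  apply ContinuousOn.intervalIntegrable
  intro t ht
  have ht' : |t| ≤ ρ := by
    rw [abs_le] at h₁ h₂ ⊢
    rcases Set.mem_uIcc.1 ht with h | h
    · exact ⟨h₁.1.trans h.1, h.2.trans h₂.2⟩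
    · exact ⟨h₂.1.trans h.1, h.2.trans h₁.2⟩
  have h1 : ContinuousAt (hh ρ) ((x : ℂ) + t * I) := continuousAt_hh (by simpa using ht')
  have h2 : Continuous (fun t : ℝ => (x : ℂ) + t * I) := by fun_prop
  exact (ContinuousAt.comp (f := fun t : ℝ => (x : ℂ) + t * I) h1
    h2.continuousAt).continuousWithinAt

/-- the primitive, in real coordinates -/
noncomputable def S2 (ρ x y : ℝ) : ℂ :=
  (∫ t in (0 : ℝ)..x, hh ρ t) + I * ∫ t in (0 : ℝ)..y, hh ρ (x + t * I)

theorem abs_le_of_mem_uIcc {ρ y₁ y₂ t : ℝ} (h₁ : |y₁| ≤ ρ) (h₂ : |y₂| ≤ ρ)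
    (ht : t ∈ Set.uIcc y₁ y₂) : |t| ≤ ρ := by
  rw [abs_le] at h₁ h₂ ⊢
  rcases Set.mem_uIcc.1 ht with h | h
  · exact ⟨h₁.1.trans h.1, h.2.trans h₂.2⟩
  · exact ⟨h₂.1.trans h.1, h.2.trans h₁.2⟩

theorem rect_hh {ρ x₁ x₂ y₁ y₂ : ℝ} (h₁ : |y₁| ≤ ρ) (h₂ : |y₂| ≤ ρ) :
    (∫ x in x₁..x₂, hh ρ (x + y₁ * I)) - (∫ x in x₁..x₂, hh ρ (x + y₂ * I)) +
      I * (∫ y in y₁..y₂, hh ρ (x₂ + y * I)) - I * (∫ y in y₁..y₂, hh ρ (x₁ + y * I)) = 0 := by
  have h := Complex.integral_boundary_rect_eq_zero_of_continuousOn_of_differentiableOn (hh ρ)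
    (x₁ + y₁ * I) (x₂ + y₂ * I) (by
      intro z hz
      rw [Complex.mem_reProdIm] at hz
      simp at hz
      exact (continuousAt_hh (abs_le_of_mem_uIcc h₁ h₂ hz.2)).continuousWithinAt) (by
      intro z hz
      rw [Complex.mem_reProdIm] at hz
      simp at hz
      refine (differentiableAt_hh ?_).differentiableWithinAt
      rw [abs_le] at h₁ h₂
      rw [abs_lt]
      constructor
      · rcases hz.2.1 with h | h <;> linarith
      · rcases hz.2.2 with h | h <;> linarith)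
  simpa using h

theorem S2_sub_x {ρ x₁ x₂ y : ℝ} (hy : |y| ≤ ρ) :
    S2 ρ x₂ y - S2 ρ x₁ y = ∫ t in x₁..x₂, hh ρ (t + y * I) := by
  have hρ : 0 ≤ ρ := (abs_nonneg y).trans hy
  have h := rect_hh (ρ := ρ) (x₁ := x₁) (x₂ := x₂) (y₁ := 0) (y₂ := y) (by simpa using hρ) hy
  have hc : Continuous (fun t : ℝ => hh ρ t) := by
    have := continuous_hh_horizontal (ρ := ρ) (y := 0) (by simpa using hρ)
    simpa using this
  have h1 : (∫ t in (0 : ℝ)..x₂, hh ρ t) - (∫ t in (0 : ℝ)..x₁, hh ρ t) =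
      ∫ t in x₁..x₂, hh ρ t := by
    rw [intervalIntegral.integral_interval_sub_left (hc.intervalIntegrable _ _)
      (hc.intervalIntegrable _ _)]
  simp only [Complex.ofReal_zero, zero_mul, add_zero] at h
  rw [S2, S2]
  linear_combination h + h1

theorem S2_sub_y {ρ x y₁ y₂ : ℝ} (h₁ : |y₁| ≤ ρ) (h₂ : |y₂| ≤ ρ) :
    S2 ρ x y₂ - S2 ρ x y₁ = I * ∫ t in y₁..y₂, hh ρ (x + t * I) := by
  have hρ : 0 ≤ ρ := (abs_nonneg y₁).trans h₁
  have h1 : (∫ t in (0 : ℝ)..y₂, hh ρ (x + t * I)) - (∫ t in (0 : ℝ)..y₁, hh ρ (x + t * I)) =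
      ∫ t in y₁..y₂, hh ρ (x + t * I) :=
    intervalIntegral.integral_interval_sub_left
      (intervalIntegrable_hh_vertical (by simpa using hρ) h₂)
      (intervalIntegrable_hh_vertical (by simpa using hρ) h₁)
  rw [S2, S2, ← h1]
  ring

/-- the primitive -/
noncomputable def sc (ρ : ℝ) (z : ℂ) : ℂ := S2 ρ z.re z.im

theorem integral_hh_horizontal {ρ : ℝ} {g : ℂ → ℂ} {x₁ x₂ y : ℝ} (hy : |y| ≤ ρ)
    (hg : ∀ t ∈ Set.uIcc x₁ x₂, HasDerivAt g (hh ρ (t + y * I)) (t + y * I)) :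
    ∫ t in x₁..x₂, hh ρ (t + y * I) = g (x₂ + y * I) - g (x₁ + y * I) := by
  have h := intervalIntegral.integral_eq_sub_of_hasDerivAt
    (f := fun t : ℝ => g (t + y * I)) (f' := fun t : ℝ => hh ρ (t + y * I)) (a := x₁) (b := x₂)
    (fun t ht => by
      have h1 := hg t ht
      have h2 : HasDerivAt (fun w : ℂ => g (w + y * I)) (hh ρ (t + y * I)) ((t : ℝ) : ℂ) :=
        HasDerivAt.comp_add_const (t : ℂ) (y * I) h1
      exact h2.comp_ofReal)
    ((continuous_hh_horizontal hy).intervalIntegrable _ _)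
  exact h

theorem integral_hh_vertical {ρ : ℝ} {g : ℂ → ℂ} {x y₁ y₂ : ℝ} (h₁ : |y₁| ≤ ρ) (h₂ : |y₂| ≤ ρ)
    (hg : ∀ t ∈ Set.uIcc y₁ y₂, HasDerivAt g (hh ρ (x + t * I)) (x + t * I)) :
    I * ∫ t in y₁..y₂, hh ρ (x + t * I) = g (x + y₂ * I) - g (x + y₁ * I) := by
  have h := intervalIntegral.integral_eq_sub_of_hasDerivAt
    (f := fun t : ℝ => g (x + t * I)) (f' := fun t : ℝ => I * hh ρ (x + t * I))
    (a := y₁) (b := y₂)
    (fun t ht => by
      have h1 := hg t ht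
      have h2 : HasDerivAt (fun w : ℂ => (x : ℂ) + w * I) I ((t : ℝ) : ℂ) := by
        have := ((hasDerivAt_id ((t : ℝ) : ℂ)).mul_const I).const_add (x : ℂ)
        simpa using this
      have h3 : HasDerivAt (fun w : ℂ => g (x + w * I)) (hh ρ (x + t * I) * I) ((t : ℝ) : ℂ) :=
        HasDerivAt.comp (t : ℂ) h1 h2
      have h4 := h3.comp_ofReal
      rw [mul_comm] at h4
      exact h4)
    ((intervalIntegrable_hh_vertical h₁ h₂).const_mul I)
  rw [← h, intervalIntegral.integral_const_mul]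

theorem hasDerivAt_sc {ρ : ℝ} {z : ℂ} (hz0 : 0 < z.im) (hz1 : z.im < ρ) :
    HasDerivAt (sc ρ) (hh ρ z) z := by
  obtain ⟨r, hr⟩ : ∃ r, r = min z.im (ρ - z.im) := ⟨_, rfl⟩
  have hr0 : 0 < r := by rw [hr]; exact lt_min hz0 (by linarith)
  have hball : ∀ w ∈ Metric.ball z r, 0 < w.im ∧ w.im < ρ := by
    intro w hw
    have h1 : |(w - z).im| < r := lt_of_le_of_lt (Complex.abs_im_le_norm _) (by
      simpa [dist_eq_norm] using hw)
    rw [Complex.sub_im, abs_lt] at h1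
    have h2 : r ≤ z.im := by rw [hr]; exact min_le_left _ _
    have h3 : r ≤ ρ - z.im := by rw [hr]; exact min_le_right _ _
    constructor <;> linarith
  have hd : DifferentiableOn ℂ (hh ρ) (Metric.ball z r) := by
    intro w hw
    have := hball w hw
    exact (differentiableAt_hh (by rw [abs_of_pos this.1]; exact this.2)).differentiableWithinAt
  obtain ⟨g, hg⟩ := hd.isExactOn_ball
  have hmem : ∀ w ∈ Metric.ball z r, ∀ x y : ℝ, |x - z.re| ≤ |w.re - z.re| →
      |y - z.im| ≤ |w.im - z.im| → ((x : ℂ) + y * I) ∈ Metric.ball z r := by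
    intro w hw x y hx hy
    rw [Metric.mem_ball, Complex.dist_eq_re_im] at hw ⊢
    refine lt_of_le_of_lt (Real.sqrt_le_sqrt ?_) hw
    simp only [add_re, ofReal_re, mul_re, I_re, mul_zero, ofReal_im, I_im, mul_one, sub_self,
      add_zero, add_im, mul_im, zero_add]
    have h1 := sq_le_sq.2 hx
    have h2 := sq_le_sq.2 hy
    linarith
  have key : ∀ w ∈ Metric.ball z r, sc ρ w = sc ρ z + (g w - g z) := by
    intro w hw
    have hwim := hball w hw
    have hw' : |w.im| ≤ ρ := by rw [abs_of_pos hwim.1]; exact hwim.2.le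
    have hz' : |z.im| ≤ ρ := by rw [abs_of_pos hz0]; exact hz1.le
    have e1 : sc ρ w - S2 ρ z.re w.im = g w - g (z.re + w.im * I) := by
      rw [sc, S2_sub_x hw', integral_hh_horizontal (g := g) hw', Complex.re_add_im]
      intro t ht
      apply hg
      apply hmem w hw
      · exact Set.abs_sub_left_of_mem_uIcc ht
      · exact le_rfl
    have e2 : S2 ρ z.re w.im - sc ρ z = g (z.re + w.im * I) - g z := by
      rw [sc, S2_sub_y hz' hw', integral_hh_vertical (g := g) hz' hw', Complex.re_add_im]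
      intro t ht
      apply hg
      apply hmem w hw
      · simp
      · exact Set.abs_sub_left_of_mem_uIcc ht
    linear_combination e1 + e2
  have h1 : HasDerivAt (fun w => sc ρ z + (g w - g z)) (hh ρ z) z :=
    ((hg z (Metric.mem_ball_self hr0)).sub_const (g z)).const_add (sc ρ z)
  refine h1.congr_of_eventuallyEq ?_
  filter_upwards [Metric.ball_mem_nhds z hr0] with w hw
  exact key w hw

end Pool.Agent.Lib.MP_6dec34_an
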