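import Pool.Agent.Lib.MP_6dec34_an.Beta

/-!
The linear system for the WKB coefficients of a boundary function.
-/

set_option autoImplicit false

namespace Pool.Agent.Lib.MP_6dec34_an

open MeasureTheory Real Complex intervalIntegral Set Filter
open scoped ComplexConjugate Interval Topology

/-- `cos` for `θ = 1`, `sin` otherwise -/
noncomputable def trc (θ x : ℝ) : ℝ := if θ = 1 then Real.cos x else Real.sin x

/-- real part for `θ = 1`, imaginary part otherwise -/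
noncomputable def prL (θ : ℝ) : ℂ →L[ℝ] ℝ := if θ = 1 then Complex.reCLM else Complex.imCLM

theorem prL_exp (θ x : ℝ) : prL θ (cexp (x * I)) = trc θ x := by
  unfold prL trc
  split_ifs
  · exact Complex.exp_ofReal_mul_I_re x
  · exact Complex.exp_ofReal_mul_I_im x

theorem prL_ofReal_mul (θ r : ℝ) (z : ℂ) : prL θ ((r : ℂ) * z) = r * prL θ z := by
  rw [← Complex.real_smul, map_smul, smul_eq_mul]

theorem prL_conj {θ : ℝ} (hθ : θ = 1 ∨ θ = -1) (z : ℂ) : prL θ (conj z) = θ * prL θ z := by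
  rcases hθ with rfl | rfl
  · simp [prL]
  · have : (-1 : ℝ) ≠ 1 := by norm_num
    simp [prL, this]

theorem abs_prL_le (θ : ℝ) (z : ℂ) : |prL θ z| ≤ ‖z‖ := by
  unfold prL
  split_ifs
  · exact Complex.abs_re_le_norm z
  · exact Complex.abs_im_le_norm z

theorem abs_trc_le (θ x : ℝ) : |trc θ x| ≤ 1 := by
  unfold trc
  split_ifs
  · exact Real.abs_cos_le_one x
  · exact Real.abs_sin_le_one x

theorem continuous_trc (θ : ℝ) : Continuous (trc θ) := by
  unfold trc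
  split_ifs
  · exact Real.continuous_cos
  · exact Real.continuous_sin

theorem prL_integral (θ : ℝ) {f : ℝ → ℂ} (hf : Continuous f) (a b : ℝ) :
    prL θ (∫ x in a..b, f x) = ∫ x in a..b, prL θ (f x) :=
  ((prL θ).intervalIntegral_comp_comm (hf.intervalIntegrable _ _)).symm

/-- Parseval's identity in real form. -/
theorem parseval_real {f : ℝ → ℂ} {c : ℤ → ℝ} (hf : Continuous f)
    (hfp : Function.Periodic f (2 * π)) (hc : ∀ n, fc (2 * π) f n = (c n : ℂ)) {φ : ℝ → ℝ}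
    (hφ : Continuous φ) (hφp : Function.Periodic φ (2 * π)) (θ : ℝ) :
    HasSum (fun n : ℤ => c n * ∫ x in (0 : ℝ)..(2 * π), φ x * trc θ (n * x))
      (∫ x in (0 : ℝ)..(2 * π), φ x * prL θ (f x)) := by
  have hφc : Continuous (fun x => (φ x : ℂ)) := Complex.continuous_ofReal.comp hφ
  have h := parseval (T := 2 * π) (by positivity) hf hφc hfp
    (fun x => by simp only [hφp x])
  have h1 := (h.mul_left (2 * (π : ℂ)))
  have h2 := h1.mapL (prL θ)
  have e1 : ∀ n : ℤ, prL θ (2 * (π : ℂ) * (fc (2 * π) f n * fc (2 * π) (fun x => (φ x : ℂ)) (-n))) =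
      c n * ∫ x in (0 : ℝ)..(2 * π), φ x * trc θ (n * x) := by
    intro n
    have e2 : 2 * (π : ℂ) * (fc (2 * π) f n * fc (2 * π) (fun x => (φ x : ℂ)) (-n)) =
        (c n : ℂ) * ∫ x in (0 : ℝ)..(2 * π), (φ x : ℂ) * cexp (((n * x : ℝ) : ℂ) * I) := by
      rw [hc, fc_two_pi]
      have e3 : ∫ x in (0 : ℝ)..(2 * π), (φ x : ℂ) * cexp (-(I * ((-n : ℤ) : ℂ) * x)) =
          ∫ x in (0 : ℝ)..(2 * π), (φ x : ℂ) * cexp (((n * x : ℝ) : ℂ) * I) := by
        refine intervalIntegral.integral_congr (fun x _ => ?_)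
        congr 2
        push_cast
        ring
      rw [e3]
      have e5 : ∀ a b : ℂ, 2 * (π : ℂ) * (a * (1 / (2 * (π : ℂ)) * b)) = a * b := by
        intro a b
        have := two_pi_ne
        field_simp
      exact e5 _ _
    rw [e2, prL_ofReal_mul, prL_integral]
    · congr 1
      refine intervalIntegral.integral_congr (fun x _ => ?_)
      rw [prL_ofReal_mul, prL_exp]
    · exact hφc.mul (by fun_prop)
  have e4 : prL θ (2 * (π : ℂ) * (1 / ((2 * π : ℝ) : ℂ) *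
      ∫ x in (0 : ℝ)..(2 * π), f x * (φ x : ℂ))) =
      ∫ x in (0 : ℝ)..(2 * π), φ x * prL θ (f x) := by
    rw [two_pi_cast, ← mul_assoc, mul_one_div_cancel two_pi_ne, one_mul, prL_integral]
    · refine intervalIntegral.integral_congr (fun x _ => ?_)
      rw [mul_comm, prL_ofReal_mul]
    · exact hf.mul hφc
  rw [e4] at h2
  rw [← funext e1]
  exact h2

/-- the WKB coefficients -/
noncomputable def yy (ρ : ℝ) (g : ℝ → ℝ) (θ : ℝ) (j : ℕ) : ℝ :=
  ∫ x in (0 : ℝ)..(2 * π), (hR ρ x * g x) * trc θ (j * om ρ * sR ρ x)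

/-- The mode relations for a boundary function. -/
structure Modes (ρ τ : ℝ) (g : ℝ → ℝ) (al : ℝ → ℤ → ℝ) : Prop where
  cont : Continuous g
  per : Function.Periodic g (2 * π)
  zero : al (-1) 0 = 0
  dir : ∀ θ : ℝ, (θ = 1 ∨ θ = -1) → ∀ n : ℤ,
    ∫ x in (0 : ℝ)..(2 * π), g x * trc θ (n * x) = al θ n * den ρ θ n / 2
  neu : ∀ θ : ℝ, (θ = 1 ∨ θ = -1) → ∀ n : ℤ,
    τ * ∫ x in (0 : ℝ)..(2 * π), (hR ρ x * g x) * trc θ (n * x) =
      n * al θ n * (Real.exp (n * ρ) - θ * Real.exp (-(n * ρ))) / 2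

theorem prL_EL_zero (ρ θ : ℝ) (j : ℕ) (x : ℝ) :
    prL θ (EL ρ j 0 x) = trc θ (j * om ρ * sR ρ x) := by
  rw [EL_zero_eq, ← prL_exp]
  congr 2
  push_cast
  ring

theorem hR_periodic (ρ : ℝ) : Function.Periodic (hR ρ) (2 * π) := fun x => hR_two_pi ρ x

theorem first_sum {ρ : ℝ} (hρ : 0 < ρ) {g : ℝ → ℝ} (hg : Continuous g)
    (hgp : Function.Periodic g (2 * π)) (θ : ℝ) (j : ℕ) :
    HasSum (fun n : ℤ => W ρ j n * ∫ x in (0 : ℝ)..(2 * π), (hR ρ x * g x) * trc θ (n * x))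
      (yy ρ g θ j) := by
  have h := parseval_real (continuous_EL_zero hρ j) (EL_periodic hρ j 0) (fc_EL0 hρ j)
    ((continuous_hR ρ).mul hg) ((hR_periodic ρ).mul hgp) θ
  simp only [prL_EL_zero, Pi.mul_apply] at h
  exact h

theorem second_sum {ρ : ℝ} (hρ : 0 < ρ) {g : ℝ → ℝ} (hg : Continuous g)
    (hgp : Function.Periodic g (2 * π)) (θ : ℝ) (j : ℕ) :
    HasSum (fun n : ℤ => (n * W ρ j n) * ∫ x in (0 : ℝ)..(2 * π), g x * trc θ (n * x))
      (j * om ρ * yy ρ g θ j) := by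
  have hc' : Continuous (fun x : ℝ => EL ρ j 0 x * (I * (j * om ρ : ℝ) * (hR ρ x : ℂ))) :=
    (continuous_EL_zero hρ j).mul (continuous_const.mul
      (Complex.continuous_ofReal.comp (continuous_hR ρ)))
  have hf : Continuous (fun x : ℝ => ((j * om ρ * hR ρ x : ℝ) : ℂ) * EL ρ j 0 x) := by
    refine Continuous.mul ?_ (continuous_EL_zero hρ j)
    exact Complex.continuous_ofReal.comp (continuous_const.mul (continuous_hR ρ))
  have hfp : Function.Periodic (fun x : ℝ => ((j * om ρ * hR ρ x : ℝ) : ℂ) * EL ρ j 0 x)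
      (2 * π) := by
    intro x
    simp only
    rw [EL_periodic hρ j 0 x, hR_two_pi]
  have hfc : ∀ n : ℤ, fc (2 * π) (fun x : ℝ => ((j * om ρ * hR ρ x : ℝ) : ℂ) * EL ρ j 0 x) n =
      ((n * W ρ j n : ℝ) : ℂ) := by
    intro n
    have e1 := fc_deriv (EL_periodic hρ j 0) (fun x => hasDerivAt_EL_zero j x) hc' n
    rw [fc_EL0 hρ, fc_two_pi] at e1
    have e2 : ∫ x in (0 : ℝ)..(2 * π), (EL ρ j 0 x * (I * (j * om ρ : ℝ) * (hR ρ x : ℂ))) *
        cexp (-(I * n * x)) = I * ∫ x in (0 : ℝ)..(2 * π),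
          (((j * om ρ * hR ρ x : ℝ) : ℂ) * EL ρ j 0 x) * cexp (-(I * n * x)) := by
      rw [← intervalIntegral.integral_const_mul]
      refine intervalIntegral.integral_congr (fun x _ => ?_)
      push_cast
      ring
    rw [e2] at e1
    rw [fc_two_pi]
    apply mul_left_cancel₀ Complex.I_ne_zero
    rw [← mul_assoc, mul_comm I (1 / (2 * (π : ℂ))), mul_assoc, e1]
    push_cast
    ring
  have h := parseval_real hf hfp hfc hg hgp θ
  have e3 : ∫ x in (0 : ℝ)..(2 * π), g x * prL θ (((j * om ρ * hR ρ x : ℝ) : ℂ) * EL ρ j 0 x) =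
      j * om ρ * yy ρ g θ j := by
    rw [yy, ← intervalIntegral.integral_const_mul]
    refine intervalIntegral.integral_congr (fun x _ => ?_)
    rw [prL_ofReal_mul, prL_EL_zero]
    ring
  rw [e3] at h
  exact h

/-- The system. -/
theorem system_sum {ρ τ : ℝ} (hρ : 0 < ρ) {g : ℝ → ℝ} {al : ℝ → ℤ → ℝ}
    (hm : Modes ρ τ g al) {θ : ℝ} (hθ : θ = 1 ∨ θ = -1) (j : ℕ) :
    HasSum (fun n : ℤ => -θ * (n * w ρ j n * al θ n)) ((τ - om ρ * j) * yy ρ g θ j) := by
  have h1 := (first_sum hρ hm.cont hm.per θ j).mul_left τ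
  have h2 := second_sum hρ hm.cont hm.per θ j
  have h3 := h1.sub h2
  have e1 : ∀ n : ℤ, τ * (W ρ j n * ∫ x in (0 : ℝ)..(2 * π), (hR ρ x * g x) * trc θ (n * x)) -
      (n * W ρ j n) * ∫ x in (0 : ℝ)..(2 * π), g x * trc θ (n * x) =
      -θ * (n * w ρ j n * al θ n) := by
    intro n
    have e2 := hm.neu θ hθ n
    have e3 := hm.dir θ hθ n
    rw [e3, w]
    rw [den] at *
    linear_combination (W ρ j n) * e2
  rw [funext e1] at h3
  have e4 : (τ - om ρ * j) * yy ρ g θ j = τ * yy ρ g θ j - j * om ρ * yy ρ g θ j := by ring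
  rw [e4]
  exact h3

end Pool.Agent.Lib.MP_6dec34_an
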