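import Pool.Agent.Lib.MP_6dec34_an.Final

/-!
The statement for functions which are `C^2` inside and `C^1` up to the boundary only.
-/

set_option autoImplicit false

namespace Pool.Agent.Lib.MP_6dec34_an

open MeasureTheory Real Complex intervalIntegral Set Filter
open scoped ComplexConjugate Interval Topology

/-- the quadratic form of the ellipse -/
noncomputable def qe (a b : ℝ) (x : ℝ × ℝ) : ℝ := (x.1 / a) ^ 2 + (x.2 / b) ^ 2

theorem continuous_qe (a b : ℝ) : Continuous (qe a b) := by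
  unfold qe
  fun_prop

theorem contDiff_qe (a b : ℝ) : ContDiff ℝ 2 (qe a b) := by
  unfold qe
  fun_prop

theorem isOpen_qe (a b r : ℝ) : IsOpen {x | qe a b x < r} :=
  isOpen_lt (continuous_qe a b) continuous_const

/-- Cutting off near the boundary. -/
theorem cut {a b r₀ : ℝ} (hr : r₀ < 1) {u : ℝ × ℝ → ℝ} (hu : ContDiffOn ℝ 2 u {x | qe a b x < 1}) :
    ∃ w : ℝ × ℝ → ℝ, ContDiff ℝ 2 w ∧ ∀ x, qe a b x ≤ r₀ → w =ᶠ[𝓝 x] u := by
  obtain ⟨r₁, h01, r₂, h12, h2⟩ : ∃ r₁ > r₀, ∃ r₂ > r₁, r₂ < 1 :=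
    ⟨r₀ + (1 - r₀) / 3, by linarith, r₀ + 2 * (1 - r₀) / 3, by linarith, by linarith⟩
  have h21 : 0 < r₂ - r₁ := by linarith
  have hχ : ContDiff ℝ 2 (fun x => Real.smoothTransition ((r₂ - qe a b x) / (r₂ - r₁))) :=
    Real.smoothTransition.contDiff.comp ((contDiff_const.sub (contDiff_qe a b)).div_const _)
  refine ⟨fun x => Real.smoothTransition ((r₂ - qe a b x) / (r₂ - r₁)) * u x, ?_, ?_⟩
  · rw [contDiff_iff_contDiffAt]
    intro x
    by_cases hx : qe a b x < 1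
    · exact hχ.contDiffAt.mul (hu.contDiffAt ((isOpen_qe a b 1).mem_nhds hx))
    · have hx' : x ∈ {x | r₂ < qe a b x} := by
        have := not_lt.1 hx
        exact lt_of_lt_of_le h2 this
      have hopen : IsOpen {x | r₂ < qe a b x} := isOpen_lt continuous_const (continuous_qe a b)
      have hev : (fun x => Real.smoothTransition ((r₂ - qe a b x) / (r₂ - r₁)) * u x)
          =ᶠ[𝓝 x] fun _ => (0 : ℝ) := by
        filter_upwards [hopen.mem_nhds hx'] with y hy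
        rw [Real.smoothTransition.zero_of_nonpos, zero_mul]
        exact div_nonpos_of_nonpos_of_nonneg (by have : r₂ < qe a b y := hy; linarith) h21.le
      exact contDiffAt_const.congr_of_eventuallyEq hev
  · intro x hx
    have hx' : x ∈ {x | qe a b x < r₁} := lt_of_le_of_lt hx h01
    filter_upwards [(isOpen_qe a b r₁).mem_nhds hx'] with y hy
    rw [Real.smoothTransition.one_of_one_le, one_mul]
    rw [le_div_iff₀ h21]
    have : qe a b y < r₁ := hy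
    linarith

theorem px_congr {u w : ℝ × ℝ → ℝ} {x : ℝ × ℝ} (h : w =ᶠ[𝓝 x] u) : px w x = px u x := by
  unfold px
  rw [h.fderiv_eq]

theorem py_congr {u w : ℝ × ℝ → ℝ} {x : ℝ × ℝ} (h : w =ᶠ[𝓝 x] u) : py w x = py u x := by
  unfold py
  rw [h.fderiv_eq]

theorem px_congr' {u w : ℝ × ℝ → ℝ} {x : ℝ × ℝ} (h : w =ᶠ[𝓝 x] u) : px w =ᶠ[𝓝 x] px u := by
  filter_upwards [h.eventuallyEq_nhds] with y hy
  exact px_congr hy

theorem py_congr' {u w : ℝ × ℝ → ℝ} {x : ℝ × ℝ} (h : w =ᶠ[𝓝 x] u) : py w =ᶠ[𝓝 x] py u := by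
  filter_upwards [h.eventuallyEq_nhds] with y hy
  exact py_congr hy

theorem qe_Phi {c ρ : ℝ} (hc : 0 < c) (hρ : 0 < ρ) (p : ℝ × ℝ) :
    qe (c * Real.cosh ρ) (c * Real.sinh ρ) (Phi c p) =
      (Real.cosh p.1 / Real.cosh ρ) ^ 2 * Real.cos p.2 ^ 2 +
        (Real.sinh p.1 / Real.sinh ρ) ^ 2 * Real.sin p.2 ^ 2 := by
  have hs : 0 < Real.sinh ρ := Real.sinh_pos_iff.2 hρ
  have hch := Real.cosh_pos ρ
  unfold qe Phi
  field_simp

theorem qe_Phi_le {c ρ ρ' : ℝ} (hc : 0 < c) (hρ : 0 < ρ) {p : ℝ × ℝ} (hp : |p.1| ≤ ρ') :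
    qe (c * Real.cosh ρ) (c * Real.sinh ρ) (Phi c p) ≤
      max ((Real.cosh ρ' / Real.cosh ρ) ^ 2) ((Real.sinh ρ' / Real.sinh ρ) ^ 2) := by
  have hs : 0 < Real.sinh ρ := Real.sinh_pos_iff.2 hρ
  have hch := Real.cosh_pos ρ
  rw [qe_Phi hc hρ]
  have h1 : (Real.cosh p.1 / Real.cosh ρ) ^ 2 ≤ (Real.cosh ρ' / Real.cosh ρ) ^ 2 := by
    refine pow_le_pow_left₀ (div_nonneg (Real.cosh_pos _).le hch.le) ?_ 2
    refine div_le_div_of_nonneg_right ?_ hch.le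
    rw [Real.cosh_le_cosh]
    exact hp.trans (le_abs_self _)
  have h2 : (Real.sinh p.1 / Real.sinh ρ) ^ 2 ≤ (Real.sinh ρ' / Real.sinh ρ) ^ 2 := by
    rw [← sq_abs (Real.sinh p.1 / Real.sinh ρ), abs_div, Real.abs_sinh, abs_of_pos hs]
    refine pow_le_pow_left₀ (div_nonneg (Real.sinh_nonneg_iff.2 (abs_nonneg _)) hs.le) ?_ 2
    refine div_le_div_of_nonneg_right ?_ hs.le
    exact Real.sinh_le_sinh.2 hp
  have h3 := Real.sin_sq_add_cos_sq p.2
  obtain ⟨M, hM⟩ : ∃ M, M = max ((Real.cosh ρ' / Real.cosh ρ) ^ 2)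
      ((Real.sinh ρ' / Real.sinh ρ) ^ 2) := ⟨_, rfl⟩
  have h4 : (Real.cosh p.1 / Real.cosh ρ) ^ 2 ≤ M := by
    rw [hM]
    exact h1.trans (le_max_left _ _)
  have h5 : (Real.sinh p.1 / Real.sinh ρ) ^ 2 ≤ M := by
    rw [hM]
    exact h2.trans (le_max_right _ _)
  rw [← hM]
  have h6 : 0 ≤ Real.cos p.2 ^ 2 := sq_nonneg _
  have h7 : 0 ≤ Real.sin p.2 ^ 2 := sq_nonneg _
  nlinarith

theorem max_lt {ρ ρ' : ℝ} (h0 : 0 ≤ ρ') (h : ρ' < ρ) :
    max ((Real.cosh ρ' / Real.cosh ρ) ^ 2) ((Real.sinh ρ' / Real.sinh ρ) ^ 2) < 1 := by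
  have hρ : 0 < ρ := h0.trans_lt h
  have hs : 0 < Real.sinh ρ := Real.sinh_pos_iff.2 hρ
  have hch := Real.cosh_pos ρ
  refine _root_.max_lt ?_ ?_
  · rw [div_pow, div_lt_one (by positivity)]
    refine pow_lt_pow_left₀ ?_ (Real.cosh_pos _).le two_ne_zero
    rw [Real.cosh_lt_cosh, abs_of_nonneg h0, abs_of_pos hρ]
    exact h
  · rw [div_pow, div_lt_one (by positivity)]
    exact pow_lt_pow_left₀ (Real.sinh_lt_sinh.2 h) (Real.sinh_nonneg_iff.2 h0) two_ne_zero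

theorem qe_Phi_le_one {c ρ : ℝ} (hc : 0 < c) (hρ : 0 < ρ) {p : ℝ × ℝ} (hp : |p.1| ≤ ρ) :
    qe (c * Real.cosh ρ) (c * Real.sinh ρ) (Phi c p) ≤ 1 := by
  have hs : 0 < Real.sinh ρ := Real.sinh_pos_iff.2 hρ
  have hch := Real.cosh_pos ρ
  have h := qe_Phi_le hc hρ hp
  rwa [div_self hch.ne', div_self hs.ne', one_pow, max_self] at h

/-- the four identities -/
def Ids (c : ℝ) (u : ℝ × ℝ → ℝ) (α β : ℤ → ℝ) (n : ℤ) (ξ : ℝ) : Prop :=
  (∫ η in (0 : ℝ)..(2 * π), u (Phi c (ξ, η)) * Real.cos (n * η)) = α n * Real.cosh (n * ξ) ∧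
  (∫ η in (0 : ℝ)..(2 * π), u (Phi c (ξ, η)) * Real.sin (n * η)) = β n * Real.sinh (n * ξ) ∧
  (∫ η in (0 : ℝ)..(2 * π), V1 c u (ξ, η) * Real.cos (n * η)) = n * Real.sinh (n * ξ) * α n ∧
  (∫ η in (0 : ℝ)..(2 * π), V1 c u (ξ, η) * Real.sin (n * η)) = n * Real.cosh (n * ξ) * β n

/-- The modes on a smaller ellipse. -/
theorem modes_sub {c ρ ρ' : ℝ} (hc : 0 < c) (h0 : 0 < ρ') (h : ρ' < ρ) {u : ℝ × ℝ → ℝ}
    (hu : ContDiffOn ℝ 2 u {x | qe (c * Real.cosh ρ) (c * Real.sinh ρ) x < 1})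
    (hharm : ∀ x, qe (c * Real.cosh ρ) (c * Real.sinh ρ) x < 1 →
      px (px u) x + py (py u) x = 0) :
    ∃ α β : ℤ → ℝ, β 0 = 0 ∧ ∀ (n : ℤ) (ξ : ℝ), |ξ| ≤ ρ' → Ids c u α β n ξ := by
  have hρ : 0 < ρ := h0.trans h
  have hr := max_lt h0.le h
  obtain ⟨w, hw, hwu⟩ := cut hr hu
  have hev : ∀ p : ℝ × ℝ, |p.1| ≤ ρ' → w =ᶠ[𝓝 (Phi c p)] u := fun p hp =>
    hwu _ (qe_Phi_le hc hρ hp)
  obtain ⟨α, β, hβ, hm⟩ := elliptic_modes (c := c) h0 hw (fun p hp => by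
    have h1 := hev p hp.le
    have h2 : qe (c * Real.cosh ρ) (c * Real.sinh ρ) (Phi c p) < 1 :=
      lt_of_le_of_lt (qe_Phi_le hc hρ hp.le) hr
    rw [px_congr (px_congr' h1), py_congr (py_congr' h1)]
    exact hharm _ h2)
  refine ⟨α, β, hβ, fun n ξ hξ => ?_⟩
  have e1 : ∀ η, w (Phi c (ξ, η)) = u (Phi c (ξ, η)) := fun η =>
    (hev (ξ, η) hξ).eq_of_nhds
  have e2 : ∀ η, V1 c w (ξ, η) = V1 c u (ξ, η) := fun η => by
    unfold V1
    rw [px_congr (hev (ξ, η) hξ), py_congr (hev (ξ, η) hξ)]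
  have h3 := hm n ξ hξ
  simp only [e1, e2] at h3
  exact h3

/-- The modes on the open ellipse. -/
theorem modes_open {c ρ : ℝ} (hc : 0 < c) (hρ : 0 < ρ) {u : ℝ × ℝ → ℝ}
    (hu : ContDiffOn ℝ 2 u {x | qe (c * Real.cosh ρ) (c * Real.sinh ρ) x < 1})
    (hharm : ∀ x, qe (c * Real.cosh ρ) (c * Real.sinh ρ) x < 1 →
      px (px u) x + py (py u) x = 0) :
    ∃ α β : ℤ → ℝ, β 0 = 0 ∧ ∀ (n : ℤ) (ξ : ℝ), |ξ| < ρ → Ids c u α β n ξ := by
  refine ⟨fun n => ∫ η in (0 : ℝ)..(2 * π), u (Phi c (0, η)) * Real.cos (n * η),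
    fun n => (∫ η in (0 : ℝ)..(2 * π), u (Phi c (ρ / 2, η)) * Real.sin (n * η)) /
      Real.sinh (n * (ρ / 2)), by simp, fun n ξ hξ => ?_⟩
  have h1 : 0 < (max |ξ| (ρ / 2) + ρ) / 2 := by
    have : ρ / 2 ≤ max |ξ| (ρ / 2) := le_max_right _ _
    linarith
  have h2 : (max |ξ| (ρ / 2) + ρ) / 2 < ρ := by
    have : max |ξ| (ρ / 2) < ρ := _root_.max_lt hξ (by linarith)
    linarith
  have h3 : |ξ| ≤ (max |ξ| (ρ / 2) + ρ) / 2 := by
    have : |ξ| ≤ max |ξ| (ρ / 2) := le_max_left _ _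
    linarith
  have h4 : |ρ / 2| ≤ (max |ξ| (ρ / 2) + ρ) / 2 := by
    have : ρ / 2 ≤ max |ξ| (ρ / 2) := le_max_right _ _
    rw [abs_of_pos (by linarith)]
    linarith
  have h5 : |(0 : ℝ)| ≤ (max |ξ| (ρ / 2) + ρ) / 2 := by
    rw [abs_zero]
    exact h1.le
  obtain ⟨α, β, hβ, hm⟩ := modes_sub hc h1 h2 hu hharm
  have e1 : α n = ∫ η in (0 : ℝ)..(2 * π), u (Phi c (0, η)) * Real.cos (n * η) := by
    have := (hm n 0 h5).1
    rw [mul_zero, Real.cosh_zero, mul_one] at this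
    exact this.symm
  have e2 : β n = (∫ η in (0 : ℝ)..(2 * π), u (Phi c (ρ / 2, η)) * Real.sin (n * η)) /
      Real.sinh (n * (ρ / 2)) := by
    rcases eq_or_ne n 0 with rfl | hn
    · rw [hβ]
      simp
    · have h6 : Real.sinh (n * (ρ / 2)) ≠ 0 := by
        rw [Ne, Real.sinh_eq_zero]
        have : (n : ℝ) ≠ 0 := by exact_mod_cast hn
        positivity
      rw [(hm n (ρ / 2) h4).2.1, mul_div_cancel_right₀ _ h6]
  have h7 := hm n ξ h3
  unfold Ids at h7 ⊢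
  rw [e1, e2] at h7
  exact h7

/-- projection on `[-ρ, ρ]` -/
noncomputable def cl (ρ ξ : ℝ) : ℝ := max (-ρ) (min ξ ρ)

theorem continuous_cl (ρ : ℝ) : Continuous (cl ρ) := by
  unfold cl
  fun_prop

theorem abs_cl_le {ρ : ℝ} (hρ : 0 ≤ ρ) (ξ : ℝ) : |cl ρ ξ| ≤ ρ := by
  unfold cl
  rw [abs_le]
  exact ⟨le_max_left _ _, max_le (by linarith) (min_le_right _ _)⟩

theorem cl_eq {ρ ξ : ℝ} (h : |ξ| ≤ ρ) : cl ρ ξ = ξ := by
  unfold cl
  rw [abs_le] at h
  rw [min_eq_left h.2, max_eq_right h.1]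

/-- Passage to the boundary. -/
theorem closing {ρ : ℝ} (hρ : 0 < ρ) {F : ℝ → ℝ → ℝ}
    (hF : Continuous (fun z : ℝ × ℝ => F z.1 z.2)) {t : ℝ → ℝ} (ht : Continuous t) {g : ℝ → ℝ}
    (hg : Continuous g)
    (h : ∀ ξ, 0 < ξ → ξ < ρ → ∫ η in (0 : ℝ)..(2 * π), F ξ η * t η = g ξ) :
    ∫ η in (0 : ℝ)..(2 * π), F ρ η * t η = g ρ := by
  have h1 : Continuous (fun ξ => ∫ η in (0 : ℝ)..(2 * π), F ξ η * t η) :=
    intervalIntegral.continuous_parametric_intervalIntegral_of_continuous'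
      (f := fun ξ η => F ξ η * t η) (hF.mul (ht.comp continuous_snd)) _ _
  have h2 : Set.EqOn (fun ξ => ∫ η in (0 : ℝ)..(2 * π), F ξ η * t η) g (Ioo 0 ρ) :=
    fun ξ hξ => h ξ hξ.1 hξ.2
  have h3 := h2.closure h1 hg
  rw [closure_Ioo hρ.ne] at h3
  exact h3 (right_mem_Icc.2 hρ.le)

/-- The analytic part, for functions which are smooth inside only. -/
theorem weak_aux {c ρ ξm δ : ℝ} (hc : 0 < c) (hρ : 0 < ρ) (hξm : 0 < ξm) (hδ : 0 < δ) :
    ∃ T : ℝ, ∀ σ : ℝ, T ≤ σ → ∀ u p q : ℝ × ℝ → ℝ,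
      ContDiffOn ℝ 2 u {x | qe (c * Real.cosh ρ) (c * Real.sinh ρ) x < 1} →
      (∀ x, qe (c * Real.cosh ρ) (c * Real.sinh ρ) x < 1 → px (px u) x + py (py u) x = 0) →
      ContinuousOn u {x | qe (c * Real.cosh ρ) (c * Real.sinh ρ) x ≤ 1} →
      ContinuousOn p {x | qe (c * Real.cosh ρ) (c * Real.sinh ρ) x ≤ 1} →
      ContinuousOn q {x | qe (c * Real.cosh ρ) (c * Real.sinh ρ) x ≤ 1} →
      (∀ x, qe (c * Real.cosh ρ) (c * Real.sinh ρ) x < 1 → px u x = p x ∧ py u x = q x) →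
      (∀ η, Ac c (ρ, η) * p (Phi c (ρ, η)) + Bc c (ρ, η) * q (Phi c (ρ, η)) =
        (c * σ) * (hR ρ η * u (Phi c (ρ, η)))) →
      (∀ ξ η, Good ρ ξm δ ξ η → 0 ≤ u (Phi c (ξ, η))) ∨
        (∀ ξ η, Good ρ ξm δ ξ η → u (Phi c (ξ, η)) ≤ 0) := by
  obtain ⟨T, hT, hsign⟩ := sign_lemma hρ hξm hδ
  refine ⟨T / c, fun σ hσ u p q hu hharm huc hpc hqc hpq hbd => ?_⟩
  have hτ : T ≤ c * σ := by
    rw [div_le_iff₀ hc] at hσ
    linarith
  obtain ⟨α, β, hβ0, hm⟩ := modes_open hc hρ hu hharm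
  have hΦ : Continuous (fun z : ℝ × ℝ => Phi c (cl ρ z.1, z.2)) := by
    have h1 := continuous_cl ρ
    exact (contDiff_Phi c).continuous.comp ((h1.comp continuous_fst).prodMk continuous_snd)
  have hmem : ∀ z : ℝ × ℝ, Phi c (cl ρ z.1, z.2) ∈
      {x | qe (c * Real.cosh ρ) (c * Real.sinh ρ) x ≤ 1} := fun z =>
    qe_Phi_le_one hc hρ (abs_cl_le hρ.le z.1)
  have hv2 : Continuous (fun z : ℝ × ℝ => u (Phi c (cl ρ z.1, z.2))) :=
    huc.comp_continuous hΦ hmem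
  have hp2 : Continuous (fun z : ℝ × ℝ => p (Phi c (cl ρ z.1, z.2))) :=
    hpc.comp_continuous hΦ hmem
  have hq2 : Continuous (fun z : ℝ × ℝ => q (Phi c (cl ρ z.1, z.2))) :=
    hqc.comp_continuous hΦ hmem
  obtain ⟨v, hv⟩ : ∃ v : ℝ → ℝ → ℝ, v = fun ξ η => u (Phi c (cl ρ ξ, η)) := ⟨_, rfl⟩
  obtain ⟨W, hW⟩ : ∃ W : ℝ → ℝ → ℝ, W = fun ξ η => Ac c (cl ρ ξ, η) * p (Phi c (cl ρ ξ, η)) +
      Bc c (cl ρ ξ, η) * q (Phi c (cl ρ ξ, η)) := ⟨_, rfl⟩
  have hvc2 : Continuous (fun z : ℝ × ℝ => v z.1 z.2) := by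
    rw [hv]
    exact hv2
  have hcl2 : Continuous (fun z : ℝ × ℝ => ((cl ρ z.1, z.2) : ℝ × ℝ)) :=
    ((continuous_cl ρ).comp continuous_fst).prodMk continuous_snd
  have hWc2 : Continuous (fun z : ℝ × ℝ => W z.1 z.2) := by
    rw [hW]
    exact (((contDiff_Ac c).continuous.comp hcl2).mul hp2).add
      (((contDiff_Bc c).continuous.comp hcl2).mul hq2)
  have hve : ∀ ξ, |ξ| ≤ ρ → ∀ η, v ξ η = u (Phi c (ξ, η)) := by
    intro ξ hξ η
    rw [hv]
    change u (Phi c (cl ρ ξ, η)) = _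
    rw [cl_eq hξ]
  have hWe : ∀ ξ, |ξ| < ρ → ∀ η, W ξ η = V1 c u (ξ, η) := by
    intro ξ hξ η
    have h1 : qe (c * Real.cosh ρ) (c * Real.sinh ρ) (Phi c (ξ, η)) < 1 :=
      lt_of_le_of_lt (qe_Phi_le hc hρ (p := (ξ, η)) (le_refl |ξ|)) (max_lt (abs_nonneg _) hξ)
    obtain ⟨h2, h3⟩ := hpq _ h1
    rw [hW]
    change Ac c (cl ρ ξ, η) * p (Phi c (cl ρ ξ, η)) + Bc c (cl ρ ξ, η) *
      q (Phi c (cl ρ ξ, η)) = _
    rw [cl_eq hξ.le, V1, h2, h3]
  have hρρ : |ρ| ≤ ρ := by rw [abs_of_pos hρ]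
  have hWρ : ∀ η, W ρ η = (c * σ) * (hR ρ η * v ρ η) := by
    intro η
    rw [hve ρ hρρ, ← hbd η, hW]
    change Ac c (cl ρ ρ, η) * p (Phi c (cl ρ ρ, η)) + Bc c (cl ρ ρ, η) *
      q (Phi c (cl ρ ρ, η)) = _
    rw [cl_eq hρρ]
  have hvc : ∀ ξ, Continuous (v ξ) := fun ξ =>
    hvc2.comp (continuous_const.prodMk continuous_id)
  have hvp : ∀ ξ, Function.Periodic (v ξ) (2 * π) := by
    intro ξ η
    rw [hv]
    simp only [Phi, Real.cos_add_two_pi, Real.sin_add_two_pi]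
  have hcosc : ∀ n : ℤ, Continuous (fun η : ℝ => Real.cos (n * η)) := fun n => by fun_prop
  have hsinc : ∀ n : ℤ, Continuous (fun η : ℝ => Real.sin (n * η)) := fun n => by fun_prop
  have habs : ∀ ξ, 0 < ξ → ξ < ρ → |ξ| < ρ := fun ξ h1 h2 => by
    rwa [abs_of_pos h1]
  have m1 : ∀ n : ℤ, (∫ η in (0 : ℝ)..(2 * π), v ρ η * Real.cos (n * η)) =
      α n * Real.cosh (n * ρ) := fun n =>
    closing hρ hvc2 (hcosc n) (g := fun ξ => α n * Real.cosh (n * ξ))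
      (continuous_const.mul (Real.continuous_cosh.comp (continuous_const.mul continuous_id)))
      fun ξ h1 h2 => by
        have h3 := habs ξ h1 h2
        simp only [hve ξ h3.le]
        exact (hm n ξ h3).1
  have m2 : ∀ n : ℤ, (∫ η in (0 : ℝ)..(2 * π), v ρ η * Real.sin (n * η)) =
      β n * Real.sinh (n * ρ) := fun n =>
    closing hρ hvc2 (hsinc n) (g := fun ξ => β n * Real.sinh (n * ξ))
      (continuous_const.mul (Real.continuous_sinh.comp (continuous_const.mul continuous_id)))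
      fun ξ h1 h2 => by
        have h3 := habs ξ h1 h2
        simp only [hve ξ h3.le]
        exact (hm n ξ h3).2.1
  have m3 : ∀ n : ℤ, (∫ η in (0 : ℝ)..(2 * π), W ρ η * Real.cos (n * η)) =
      n * Real.sinh (n * ρ) * α n := fun n =>
    closing hρ hWc2 (hcosc n) (g := fun ξ => n * Real.sinh (n * ξ) * α n)
      ((continuous_const.mul (Real.continuous_sinh.comp
        (continuous_const.mul continuous_id))).mul continuous_const)
      fun ξ h1 h2 => by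
        have h3 := habs ξ h1 h2
        simp only [hWe ξ h3]
        exact (hm n ξ h3).2.2.1
  have m4 : ∀ n : ℤ, (∫ η in (0 : ℝ)..(2 * π), W ρ η * Real.sin (n * η)) =
      n * Real.cosh (n * ρ) * β n := fun n =>
    closing hρ hWc2 (hsinc n) (g := fun ξ => n * Real.cosh (n * ξ) * β n)
      ((continuous_const.mul (Real.continuous_cosh.comp
        (continuous_const.mul continuous_id))).mul continuous_const)
      fun ξ h1 h2 => by
        have h3 := habs ξ h1 h2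
        simp only [hWe ξ h3]
        exact (hm n ξ h3).2.2.2
  have hne : (-1 : ℝ) ≠ 1 := by norm_num
  have hden1 : ∀ (ξ : ℝ) (n : ℤ), den ξ 1 n / 2 = Real.cosh (n * ξ) := fun ξ n => by
    rw [den, Real.cosh_eq]; ring
  have hden2 : ∀ (ξ : ℝ) (n : ℤ), den ξ (-1) n / 2 = Real.sinh (n * ξ) := fun ξ n => by
    rw [den, Real.sinh_eq]; ring
  have hM : Modes ρ (c * σ) (v ρ) (fun θ n => if θ = 1 then α n else β n) := by
    refine ⟨hvc ρ, hvp ρ, ?_, ?_, ?_⟩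
    · simp [hne, hβ0]
    · intro θ hθ n
      rcases hθ with rfl | rfl
      · simp only [trc, if_true]
        rw [mul_div_assoc, hden1]
        exact m1 n
      · simp only [trc, hne, if_false]
        rw [mul_div_assoc, hden2]
        exact m2 n
    · intro θ hθ n
      rcases hθ with rfl | rfl
      · simp only [trc, if_true]
        rw [← intervalIntegral.integral_const_mul]
        have e1 : ∀ x : ℝ, c * σ * (hR ρ x * v ρ x * Real.cos (n * x)) =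
            W ρ x * Real.cos (n * x) := fun x => by rw [hWρ]; ring
        simp only [e1]
        rw [m3, Real.sinh_eq]
        ring
      · simp only [trc, hne, if_false]
        rw [← intervalIntegral.integral_const_mul]
        have e1 : ∀ x : ℝ, c * σ * (hR ρ x * v ρ x * Real.sin (n * x)) =
            W ρ x * Real.sin (n * x) := fun x => by rw [hWρ]; ring
        simp only [e1]
        rw [m4, Real.cosh_eq]
        ring
  have hres := hsign (c * σ) hτ v (fun θ n => if θ = 1 then α n else β n) hvc hvp hM (by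
    intro ξ hξ0 hξρ n
    have h3 := habs ξ hξ0 hξρ
    obtain ⟨k1, k2, k3, k4⟩ := hm n ξ h3
    constructor
    · simp only [if_true]
      rw [hden1]
      simp only [hve ξ h3.le]
      exact k1
    · simp only [hne, if_false]
      rw [hden2]
      simp only [hve ξ h3.le]
      exact k2)
  have hgd : ∀ ξ η, Good ρ ξm δ ξ η → |ξ| ≤ ρ := by
    intro ξ η hg
    have h1 : 0 < ξ := hξm.trans_le hg.1
    have h2 := hg.2.1
    rw [abs_of_pos h1]
    linarith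
  rcases hres with h | h
  · left
    intro ξ η hg
    have h1 := h ξ η hg
    rwa [hve ξ (hgd ξ η hg)] at h1
  · right
    intro ξ η hg
    have h1 := h ξ η hg
    rwa [hve ξ (hgd ξ η hg)] at h1

/-- The set on which the eigenfunctions have a sign. -/
theorem exists_region {a b : ℝ} (hb : 0 < b) (hab : b < a) :
    ∃ c ρ ξm δ : ℝ, 0 < c ∧ 0 < ρ ∧ 0 < ξm ∧ 0 < δ ∧ c ^ 2 = a ^ 2 - b ^ 2 ∧
      c * Real.cosh ρ = a ∧ c * Real.sinh ρ = b ∧ ∃ O : Set (ℝ × ℝ), IsOpen O ∧ O.Nonempty ∧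
        ∀ p ∈ O, ∃ ξ η : ℝ, Good ρ ξm δ ξ η ∧ p = Phi c (ξ, η) := by
  have ha : 0 < a := hb.trans hab
  obtain ⟨c, hcd⟩ : ∃ c, c = Real.sqrt (a ^ 2 - b ^ 2) := ⟨_, rfl⟩
  have hpos : 0 < a ^ 2 - b ^ 2 := by nlinarith
  have hc : 0 < c := by rw [hcd]; exact Real.sqrt_pos.2 hpos
  have hc2 : c ^ 2 = a ^ 2 - b ^ 2 := by rw [hcd]; exact Real.sq_sqrt hpos.le
  obtain ⟨ρ, hρd⟩ : ∃ ρ, ρ = Real.arsinh (b / c) := ⟨_, rfl⟩
  have hρ : 0 < ρ := by rw [hρd]; exact Real.arsinh_pos_iff.2 (by positivity)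
  have hsinh : c * Real.sinh ρ = b := by
    rw [hρd, Real.sinh_arsinh]; field_simp
  have hcosh : c * Real.cosh ρ = a := by
    have h1 : (c * Real.cosh ρ) ^ 2 = a ^ 2 := by
      rw [mul_pow, Real.cosh_sq]
      have : (c * Real.sinh ρ) ^ 2 = b ^ 2 := by rw [hsinh]
      nlinarith
    have h2 : 0 < c * Real.cosh ρ := mul_pos hc (Real.cosh_pos _)
    exact (sq_eq_sq₀ h2.le ha.le).1 h1
  obtain ⟨ξm, δ, hξm, hδ, z₀, hz₀, hgood⟩ := exists_good hρ
  have hF : HasStrictDerivAt (fun z : ℂ => (c : ℂ) * Complex.cosh z)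
      ((c : ℂ) * Complex.sinh z₀) z₀ := (Complex.hasStrictDerivAt_cosh z₀).const_mul _
  have hF0 : (c : ℂ) * Complex.sinh z₀ ≠ 0 := by
    apply mul_ne_zero (by exact_mod_cast hc.ne')
    intro h
    have h1 : Complex.sinh z₀ = ((Real.sinh z₀.re * Real.cos z₀.im : ℝ) : ℂ) +
        ((Real.cosh z₀.re * Real.sin z₀.im : ℝ) : ℂ) * I := by
      conv_lhs => rw [← Complex.re_add_im z₀]
      rw [Complex.sinh_add, Complex.cosh_mul_I, Complex.sinh_mul_I]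
      push_cast
      ring
    rw [h] at h1
    have h2 := congrArg Complex.re h1
    have h3 := congrArg Complex.im h1
    have e1 : ((((Real.sinh z₀.re * Real.cos z₀.im : ℝ) : ℂ) +
        ((Real.cosh z₀.re * Real.sin z₀.im : ℝ) : ℂ) * I)).re =
          Real.sinh z₀.re * Real.cos z₀.im := by
      rw [Complex.add_re, Complex.ofReal_re, Complex.re_ofReal_mul, Complex.I_re]; ring
    have e2 : ((((Real.sinh z₀.re * Real.cos z₀.im : ℝ) : ℂ) +
        ((Real.cosh z₀.re * Real.sin z₀.im : ℝ) : ℂ) * I)).im =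
          Real.cosh z₀.re * Real.sin z₀.im := by
      rw [Complex.add_im, Complex.ofReal_im, Complex.im_ofReal_mul, Complex.I_im]; ring
    rw [e1, Complex.zero_re] at h2
    rw [e2, Complex.zero_im] at h3
    have h4 : 0 < Real.sinh z₀.re := Real.sinh_pos_iff.2 hz₀
    have h5 := Real.cosh_pos z₀.re
    have h6 : Real.cos z₀.im = 0 := by
      rcases mul_eq_zero.1 h2.symm with h | h
      · exact absurd h h4.ne'
      · exact h
    have h7 : Real.sin z₀.im = 0 := by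
      rcases mul_eq_zero.1 h3.symm with h | h
      · exact absurd h h5.ne'
      · exact h
    have h8 := Real.sin_sq_add_cos_sq z₀.im
    rw [h6, h7] at h8
    norm_num at h8
  have hmap := hF.map_nhds_eq hF0
  have himg : (fun z : ℂ => (c : ℂ) * Complex.cosh z) '' {z : ℂ | Good ρ ξm δ z.re z.im} ∈
      𝓝 ((c : ℂ) * Complex.cosh z₀) := by
    rw [← hmap]
    exact Filter.image_mem_map hgood
  obtain ⟨O, hOsub, hOopen, hOmem⟩ := mem_nhds_iff.1 himg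
  have hcontj : Continuous (fun p : ℝ × ℝ => (p.1 : ℂ) + (p.2 : ℂ) * I) := by fun_prop
  refine ⟨c, ρ, ξm, δ, hc, hρ, hξm, hδ, hc2, hcosh, hsinh,
    {p : ℝ × ℝ | (p.1 : ℂ) + (p.2 : ℂ) * I ∈ O}, hOopen.preimage hcontj,
    ⟨((Phi c (z₀.re, z₀.im)).1, (Phi c (z₀.re, z₀.im)).2), ?_⟩, ?_⟩
  · change (((Phi c (z₀.re, z₀.im)).1 : ℝ) : ℂ) + (((Phi c (z₀.re, z₀.im)).2 : ℝ) : ℂ) * I ∈ O
    rw [← cosh_eq_Phi]
    exact hOmem
  · intro p hp
    obtain ⟨z, hz, hzp⟩ := hOsub hp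
    refine ⟨z.re, z.im, hz, ?_⟩
    simp only at hzp
    rw [cosh_eq_Phi] at hzp
    have h1 := congrArg Complex.re hzp
    have h2 := congrArg Complex.im hzp
    simp only [Complex.add_re, Complex.ofReal_re, Complex.re_ofReal_mul, Complex.I_re, mul_zero,
      add_zero, Complex.add_im, Complex.ofReal_im, Complex.im_ofReal_mul, Complex.I_im, mul_one,
      zero_add] at h1 h2
    exact Prod.ext h1.symm h2.symm

/-- The theorem for functions which are `C^2` inside and `C^1` up to the boundary. -/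
theorem weak {a b : ℝ} (hb : 0 < b) (hab : b < a) :
    ∃ O : Set (ℝ × ℝ), IsOpen O ∧ O.Nonempty ∧ O ⊆ {x | qe a b x < 1} ∧
      ∃ Λ : ℝ, ∀ σ : ℝ, Λ ≤ σ → ∀ u p q : ℝ × ℝ → ℝ,
        ContDiffOn ℝ 2 u {x | qe a b x < 1} →
        (∀ x, qe a b x < 1 → px (px u) x + py (py u) x = 0) →
        ContinuousOn u {x | qe a b x ≤ 1} →
        ContinuousOn p {x | qe a b x ≤ 1} → ContinuousOn q {x | qe a b x ≤ 1} →
        (∀ x, qe a b x < 1 → px u x = p x ∧ py u x = q x) →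
        (∀ x, qe a b x = 1 → p x * (x.1 / a ^ 2) + q x * (x.2 / b ^ 2) =
          σ * Real.sqrt ((x.1 / a ^ 2) ^ 2 + (x.2 / b ^ 2) ^ 2) * u x) →
        (∀ x ∈ O, 0 ≤ u x) ∨ (∀ x ∈ O, u x ≤ 0) := by
  have ha : 0 < a := hb.trans hab
  obtain ⟨c, ρ, ξm, δ, hc, hρ, hξm, hδ, hc2, hcosh, hsinh, O, hO, hOne, hmem⟩ :=
    exists_region hb hab
  refine ⟨O, hO, hOne, ?_, ?_⟩
  · intro p hp
    obtain ⟨ξ, η, hg, rfl⟩ := hmem p hp
    have h1 : |ξ| < ρ := by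
      have := hξm.trans_le hg.1
      rw [abs_of_pos this]
      linarith [hg.2.1]
    have h2 := lt_of_le_of_lt (qe_Phi_le hc hρ (p := (ξ, η)) (le_refl |ξ|))
      (max_lt (abs_nonneg _) h1)
    rw [hcosh, hsinh] at h2
    exact h2
  · obtain ⟨T, hT⟩ := weak_aux hc hρ hξm hδ
    rw [hcosh, hsinh] at hT
    refine ⟨T, fun σ hσ u p q h1 h2 h3 h4 h5 h6 h7 => ?_⟩
    have hbd : ∀ η, Ac c (ρ, η) * p (Phi c (ρ, η)) + Bc c (ρ, η) * q (Phi c (ρ, η)) =
        (c * σ) * (hR ρ η * u (Phi c (ρ, η))) := by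
      intro η
      have hp1 : (Phi c (ρ, η)).1 = a * Real.cos η := by rw [Phi, ← hcosh]
      have hp2 : (Phi c (ρ, η)).2 = b * Real.sin η := by rw [Phi, ← hsinh]
      have k1 := h7 (Phi c (ρ, η)) (by
        rw [qe, hp1, hp2, mul_div_cancel_left₀ _ ha.ne', mul_div_cancel_left₀ _ hb.ne',
          Real.cos_sq_add_sin_sq])
      rw [hp1, hp2] at k1
      have e1 : a * Real.cos η / a ^ 2 = Real.cos η / a := by field_simp
      have e2 : b * Real.sin η / b ^ 2 = Real.sin η / b := by field_simp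
      rw [e1, e2] at k1
      have e3 : c * hR ρ η = a * b * Real.sqrt ((Real.cos η / a) ^ 2 + (Real.sin η / b) ^ 2) := by
        have h2 : 0 ≤ a * b * Real.sqrt ((Real.cos η / a) ^ 2 + (Real.sin η / b) ^ 2) := by
          positivity
        have h3 : 0 ≤ c * hR ρ η := mul_nonneg hc.le (hR_pos hρ η).le
        rw [← sq_eq_sq₀ h3 h2, mul_pow, mul_pow _ (Real.sqrt _), Real.sq_sqrt (by positivity),
          hR, Real.sq_sqrt (by positivity)]
        have h4 : (a * b) ^ 2 * ((Real.cos η / a) ^ 2 + (Real.sin η / b) ^ 2) =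
            b ^ 2 * Real.cos η ^ 2 + a ^ 2 * Real.sin η ^ 2 := by
          field_simp
        rw [h4, mul_add, ← mul_pow c (Real.sinh ρ), hsinh, hc2, Real.cos_sq']
        ring
      have k5 : Ac c (ρ, η) * p (Phi c (ρ, η)) + Bc c (ρ, η) * q (Phi c (ρ, η)) =
          b * Real.cos η * p (Phi c (ρ, η)) + a * Real.sin η * q (Phi c (ρ, η)) := by
        rw [Ac, Bc, ← hcosh, ← hsinh]
      have k8 : a * b * (p (Phi c (ρ, η)) * (Real.cos η / a) +
          q (Phi c (ρ, η)) * (Real.sin η / b)) = b * Real.cos η * p (Phi c (ρ, η)) +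
          a * Real.sin η * q (Phi c (ρ, η)) := by
        field_simp
      rw [k5, ← k8, k1]
      linear_combination (-σ * u (Phi c (ρ, η))) * e3
    rcases hT σ hσ u p q h1 h2 h3 h4 h5 h6 hbd with h | h
    · left
      intro x hx
      obtain ⟨ξ, η, hg, rfl⟩ := hmem x hx
      exact h ξ η hg
    · right
      intro x hx
      obtain ⟨ξ, η, hg, rfl⟩ := hmem x hx
      exact h ξ η hg

end Pool.Agent.Lib.MP_6dec34_an
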